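import Pool.Agent.Lib.MP_084b88_gt.QV.SpecB
import Pool.Agent.Lib.MP_084b88_gt.AY.ASQ
import Pool.Agent.Lib.MP_084b88_gt.CT.Spec

/-!
# MP_084b88_gt, project QV: soundness of the checker, third part (pointwise inequality, sectors, integral, cells)
-/

set_option autoImplicit false

open MeasureTheory Set Real

namespace Pool.Agent.Lib.MP_084b88_gt.QV

open Pool.Agent.Lib.MP_084b88_gt.CW Pool.Agent.Lib.MP_084b88_gt.SY Pool.Agent.Lib.MP_084b88_gt.LG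
open Pool.Agent.Lib.MP_084b88_gt.AY

/-- A generator: `qc = 20 (1 + rc)`, `qs = 20 (1 + rs)`, `U = -(C + l + m)`, `E = eps`, `K = k`, `L = -l` (unit `10^-5`), `m = L/25`. -/
structure Gn where
  qc : ℕ
  qs : ℕ
  aS : ℕ
  aR : ℕ
  U : ℕ
  E : ℕ
  K : ℕ
  L : ℕ

/-- The generator as an element of `GP`. -/
noncomputable def gpo (g : Gn) : GP :=
  ⟨(g.qc : ℝ) / 20 - 1, (g.qs : ℝ) / 20 - 1, (g.aS : ℝ), (g.aR : ℝ), (24 / 25 * (g.L : ℝ) - (g.U : ℝ)) / 100000,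
    -(g.L : ℝ) / 100000, (g.L : ℝ) / 2500000, (g.E : ℝ) / 100000, (g.K : ℝ) / 100000⟩

/-- The weights of a list of generators. -/
def wtOf (gs : List Gn) : Wt :=
  ⟨gs.map fun g => g.aS, gs.map fun g => g.aS * g.qc, gs.map fun g => g.aS * g.qs,
    gs.map fun g => g.aR, gs.map fun g => g.aR * g.qc, gs.map fun g => g.aR * g.qs,
    gs.map fun g => g.U, gs.map fun g => g.U * g.qc, gs.map fun g => g.U * g.qs,
    gs.map fun g => g.E, gs.map fun g => g.E * g.qc, gs.map fun g => g.E * g.qs,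
    gs.map fun g => g.K, gs.map fun g => g.K * g.qc, gs.map fun g => g.K * g.qs,
    gs.map fun g => g.L, gs.map fun g => g.L * g.qc, gs.map fun g => g.L * g.qs⟩

/-- Bounds of a generator. -/
structure GnOK (g : Gn) : Prop where
  qc : g.qc ≤ 40
  qs : g.qs ≤ 40
  aS : g.aS ≤ 1
  aR : g.aR ≤ 1
  U : g.U ≤ 100000
  E : g.E ≤ 100000
  K : g.K ≤ 100000
  L : g.L ≤ 100000

/-- The line `l` is valid for `z1 ≤ 1024 z ≤ z2` (and `1/4 ≤ z ≤ 10000/49`); `2^58 * 1171875 = Ψ`. -/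
structure LineOK (W L : ℝ → ℝ) (z1 z2 : ℕ) (l : Ln) : Prop where
  g : ∀ z : ℝ, (z1 : ℝ) ≤ 1024 * z → 1024 * z ≤ (z2 : ℝ) → 1 / 4 ≤ z → z ≤ 10000 / 49 →
    ((l.g0p : ℝ) - (l.g0n : ℝ)) / 2 ^ 30 + ((l.g1p : ℝ) - (l.g1n : ℝ)) / 2 ^ 24 * z ≤ KZ W L z
  w1 : ∀ z : ℝ, (z1 : ℝ) ≤ 1024 * z → 1024 * z ≤ (z2 : ℝ) → 1 / 4 ≤ z → z ≤ 10000 / 49 →
    (l.wl : ℝ) / 2 ^ 30 + ((l.o1p : ℝ) - (l.o1n : ℝ)) / 2 ^ 24 * z ≤ W (1 / √z) / z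
  w2 : ∀ z : ℝ, (z1 : ℝ) ≤ 1024 * z → 1024 * z ≤ (z2 : ℝ) → 1 / 4 ≤ z → z ≤ 10000 / 49 →
    W (1 / √z) / z ≤ (l.wu : ℝ) / 2 ^ 30 + ((l.o1p : ℝ) - (l.o1n : ℝ)) / 2 ^ 24 * z
  lm : ∀ z : ℝ, (z1 : ℝ) ≤ 1024 * z → 1024 * z ≤ (z2 : ℝ) → 1 / 4 ≤ z → z ≤ 10000 / 49 →
    |2 ^ 58 * 1171875 * (L (1 / √z) / z) -
      ((l.lmp : ℝ) - (l.lmn : ℝ) + ((l.l1p : ℝ) - (l.l1n : ℝ)) * (2 ^ 28 * 384 * z))| ≤ (l.dl : ℝ)
  e : ∀ z : ℝ, (z1 : ℝ) ≤ 1024 * z → 1024 * z ≤ (z2 : ℝ) → 1 / 4 ≤ z → z ≤ 10000 / 49 →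
    2 ^ 58 * 1171875 * (9 / 40 * L (1 / √z) ^ 2 / z) ≤ (l.e0 : ℝ)
  na : ∀ z : ℝ, (z1 : ℝ) ≤ 1024 * z → 1024 * z ≤ (z2 : ℝ) → 1 / 4 ≤ z → z ≤ 10000 / 49 →
    (l.na : ℝ) - (l.n1 : ℝ) * (2 ^ 28 * 384 * z) ≤ 3 * 2 ^ 47 / z ^ 2
  nb : ∀ z : ℝ, (z1 : ℝ) ≤ 1024 * z → 1024 * z ≤ (z2 : ℝ) → 1 / 4 ≤ z → z ≤ 10000 / 49 →
    3 * 2 ^ 47 / z ^ 2 ≤ (l.nb : ℝ) - (l.n1 : ℝ) * (2 ^ 28 * 384 * z)

/-- Sum over the generators. -/
noncomputable def gsum (f : Gn → ℝ) (cs : List ℝ) (gs : List Gn) : ℝ :=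
  (List.zipWith (fun (c : ℝ) (g : Gn) => c * f g) cs gs).sum

/-- `20 (1 + r)` at `y`. -/
noncomputable def qy (y : ℝ) (g : Gn) : ℝ := (g.qc : ℝ) * (1 - y) + (g.qs : ℝ) * y

/-- The mean lane values `D` for the line `l`, `n`, `y`, the real multipliers `cs` and the bound `b`. -/
structure DOK (D : ℕ → ℝ) (l : Ln) (n y b : ℝ) (cs : List ℝ) (gs : List Gn) : Prop where
  d0 : D 0 = l.g0p
  d1 : D 1 = l.g0n
  d2 : D 2 = (l.g1p : ℝ) * (2 ^ 28 * n)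
  d3 : D 3 = (l.g1n : ℝ) * (2 ^ 28 * n)
  d4 : D 4 = l.wl
  d5 : D 5 = l.wu
  d6 : D 6 = (l.o1p : ℝ) * (2 ^ 28 * n)
  d7 : D 7 = (l.o1n : ℝ) * (2 ^ 28 * n)
  d8 : D 8 = 0
  d9 : D 9 = 0
  d10 : D 10 = 0
  d11 : D 11 = 0
  d12 : D 12 = 2 ^ 32 * gsum (fun g => (g.aS : ℝ)) cs gs
  d13 : D 13 = 2 ^ 32 * gsum (fun g => (g.aS : ℝ) * qy y g) cs gs
  d14 : D 14 = 2 ^ 32 * gsum (fun g => (g.aR : ℝ)) cs gs
  d15 : D 15 = 2 ^ 32 * gsum (fun g => (g.aR : ℝ) * qy y g) cs gs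
  d16 : D 16 = 2 ^ 32 * gsum (fun g => (g.U : ℝ)) cs gs
  d17 : D 17 = 2 ^ 32 * gsum (fun g => (g.U : ℝ) * qy y g) cs gs
  d18 : D 18 = 2 ^ 32 * gsum (fun g => (g.E : ℝ)) cs gs
  d19 : D 19 = 2 ^ 32 * gsum (fun g => (g.E : ℝ) * qy y g) cs gs
  d20 : D 20 = 2 ^ 32 * gsum (fun g => (g.K : ℝ)) cs gs
  d21 : D 21 = 2 ^ 32 * gsum (fun g => (g.K : ℝ) * qy y g) cs gs
  d22 : D 22 = 2 ^ 24 * b + 2 ^ 25

/-- **PTW** (250 lines). The pointwise inequality of regime II from the result of PIE (`hP`). `V = 384 v`, `X = 384 (v + 3 γ²)`,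
`r = 3 * 10^6 * 384 R`, `o = γ - Y`, `N = 800000 M * 3 * 2^47/z²`, `z = n v`; `FV = Φ/3 *` the real value,
`Φ/3 = 2^79 * 3^4 * 5^7`, `147456/5 V = Φ/3 * v/Ψ`. `om` by the sign of `Sf x + R`; `JQ_ge` with `c0 = 9/40`; the sum over the generators
is an identity (`C γ² + l γ Y + m Y² = -U γ² + L (24/25 ..)`: `l γ Y + m Y² = (l + m) γ² - (l + 2m) γ o + m o²`). The line of `Plg.lo` from
`3 π/4 - 4/3 - kap - 1/8 ≥ 147104/3000000 + ..` (`kap = 8/(3π)`), `Plg.hi` is `bandQ` times `3 * 10^6 * 384`. -/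
def SpecPTW : Prop :=
  ∀ (W L : ℝ → ℝ) (z1 z2 : ℕ) (l : Ln), LineOK W L z1 z2 l →
    ∀ (gs : List Gn) (cs : List ℝ), cs.length = gs.length →
    ∀ (mu : ℝ) (th m1 m2 sq : ℕ) (A B n y b v γ R Y M a' b' : ℝ), th ≤ 12 → 0 < n →
      AdmQ mu (7 / 100) A B n v γ R Y M → (z1 : ℝ) ≤ 1024 * (n * v) → 1024 * (n * v) ≤ (z2 : ℝ) →
      0 ≤ DZ W L 1 (1 / √(n * v)) → 0 < DZ W L 0 (1 / √(n * v)) →
      kap ≤ 2 * (9 / 40) * (√(DZ W L 0 (1 / √(n * v))) + √(DZ W L 1 (1 / √(n * v)))) →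
      (m1 : ℝ) ≤ 800000 * M → 800000 * M ≤ (m2 : ℝ) * √v → 1024 * √v ≤ (sq : ℝ) →
      ∀ D : ℕ → ℝ, DOK D l n y b cs gs →
      (∀ (om : Bool) (r o N δ : ℝ), Plg (384 * v) (384 * (v + 3 * γ ^ 2)) r → o ^ 2 ≤ 1 →
        (m1 : ℝ) * ((l.na : ℝ) - (l.n1 : ℝ) * (2 ^ 28 * n * (384 * v))) ≤ N →
        N ≤ ((m2 : ℝ) * (sq : ℝ) / 1024) * ((l.nb : ℝ) - (l.n1 : ℝ) * (2 ^ 28 * n * (384 * v))) →
        |δ| ≤ (l.dl : ℝ) →
        0 ≤ FV D om a' b' (384 * v) (384 * (v + 3 * γ ^ 2)) r ((384 * (v + 3 * γ ^ 2) - 288) ^ 2) +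
          147456 / 5 * (384 * v) *
            (((l.lmp : ℝ) - (l.lmn : ℝ) + ((l.l1p : ℝ) - (l.l1n : ℝ)) * (2 ^ 28 * n * (384 * v)) -
              23 * (85899345920 * 4096 * gsum (fun g => (g.L : ℝ)) cs gs * (384 + 384 * v) -
                4096 * 1048576 * 4096 * gsum (fun g => (g.L : ℝ) * qy y g) cs gs * (384 * v)) -
              (8 * (th : ℝ) * (20 - (th : ℝ))) * N + δ) * (γ * o) +
            ((1000 - 4 * (th : ℝ) ^ 2) * N - (l.e0 : ℝ) -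
              (85899345920 * 4096 * gsum (fun g => (g.L : ℝ)) cs gs * (384 + 384 * v) -
                4096 * 1048576 * 4096 * gsum (fun g => (g.L : ℝ) * qy y g) cs gs * (384 * v))) * o ^ 2 -
            (4 * (20 - (th : ℝ)) ^ 2) * N * γ ^ 2)) →
      gsum (fun g => gI (gpo g) y v γ R Y) cs gs + b ≤ JQ W L M n v γ R Y ((th : ℝ) / 20 * Y)

/-- The pieces cover `[x, 384]`. -/
def ChP : List Pc → ℕ → Prop
  | [], x => x = 384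
  | c :: t, x => c.a = x ∧ c.a < c.b ∧ ChP t c.b

/-- **SPC** (150 lines). Unfolding of `pieces`, `drp`, `fnd`: the piece of `V` and a line valid at `n V`. (`208980 * 100663296 =
21036615598080`; `2^28 * 384 * 10000/49 < 21036574511021`.) -/
def SpecSPC : Prop :=
  ∀ (p : Pay) (nmin nmax : ℕ) (us : List Lan) (N : ℕ) (ds : List ℕ) (ps : List Pc) (K0 : Row) (K : List Row),
    ChP ps 192 → K0.z ≤ 256 → pieces p nmin nmax us N ds ps K0 K = true →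
    ∀ n V : ℝ, (nmin : ℝ) ≤ n → n ≤ (nmax : ℝ) → 192 ≤ V → V ≤ 384 → 25769803776 ≤ n * V →
      49 * (n * V) ≤ 2 ^ 28 * 384 * 10000 →
      ∃ c ∈ ps, ∃ r ∈ K0 :: K, ∃ l ∈ r.l, (c.a : ℝ) ≤ V ∧ V ≤ (c.b : ℝ) ∧ pie p c l us N ds (nmax * c.b) = true ∧
        (r.z : ℝ) * 100663296 ≤ n * V ∧ n * V ≤ (l.zj : ℝ) * 100663296

/-- Bilinear interpolation of the values at the corners. -/
noncomputable def wq (c : Cell) (A B x0 x1 x2 x3 : ℝ) : ℝ :=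
  (((c.A2 : ℝ) - 256 * A) * (((c.B2 : ℝ) - 256 * B) * x0 + (256 * B - (c.B1 : ℝ)) * x1) +
    (256 * A - (c.A1 : ℝ)) * (((c.B2 : ℝ) - 256 * B) * x2 + (256 * B - (c.B1 : ℝ)) * x3)) /
    (((c.A2 : ℝ) - (c.A1 : ℝ)) * ((c.B2 : ℝ) - (c.B1 : ℝ)))

/-- The multipliers at `(A, B)`. -/
noncomputable def csq (c : Cell) (A B : ℝ) : List ℝ := c.c.map fun q => wq c A B q.c0 q.c1 q.c2 q.c3 / 4096

/-- The bound on a sector, `yl ≤ 2^20 y ≤ yu`. -/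
noncomputable def bet (c : Cell) (yl yu : ℕ) (s : Sec) (A B y : ℝ) : ℝ :=
  ((wq c A B s.b0 s.b1 s.b2 s.b3 - 2 ^ 25) / 2 ^ 24 * ((yu : ℝ) - 2 ^ 20 * y) +
    (wq c A B s.b4 s.b5 s.b6 s.b7 - 2 ^ 25) / 2 ^ 24 * (2 ^ 20 * y - (yl : ℝ))) / ((yu : ℝ) - (yl : ℝ))

/-- `(A, B)` in the cell. -/
structure InQ (c : Cell) (A B : ℝ) : Prop where
  a1 : (c.A1 : ℝ) ≤ 256 * A
  a2 : 256 * A ≤ (c.A2 : ℝ)
  b1 : (c.B1 : ℝ) ≤ 256 * B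
  b2 : 256 * B ≤ (c.B2 : ℝ)

/-- The tables: correct pieces, rows of valid lines, weights with the conditions of `JQ_ge`. -/
structure TbOK (W L : ℝ → ℝ) (ps : List Pc) (rows : List Row) : Prop where
  pc : ∀ c ∈ ps, ∃ q, PcOK c q
  ch : ChP ps 192
  rw : ∀ r ∈ rows, ∀ l ∈ r.l, LineOK W L r.z l.zj l ∧ LnB l
  r0 : ∀ r ∈ rows.head?, r.z ≤ 256
  dz : ∀ z : ℝ, 1 / 4 ≤ z → z ≤ 10000 / 49 → 0 ≤ DZ W L 1 (1 / √z) ∧ 0 < DZ W L 0 (1 / √z) ∧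
    kap ≤ 2 * (9 / 40) * (√(DZ W L 0 (1 / √z)) + √(DZ W L 1 (1 / √z)))

/-- The static conditions on a cell in `chk`. -/
structure ClOK (mu : ℕ) (c : Cell) : Prop where
  a : c.A1 < c.A2
  b : c.B1 < c.B2
  a1 : 0 < c.A1
  b1 : 0 < c.B1
  a2 : c.A2 ≤ 104490
  b2 : c.B2 ≤ 104490
  th : c.th ≤ 12
  cb : ∀ q ∈ c.c, q.c0 + q.c1 + q.c2 + q.c3 ≤ 1048576
  m1 : c.m1 * 363520 * (c.m1 * 363520) ≤ mu * 27120 * (mu * 27120) * (c.A1 * c.B1)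
  m2 : mu * 400 * (mu * 400) * (c.A2 * c.B2) ≤ c.m2 * 3072 * (c.m2 * 3072)

/-- **SEC** (300 lines, from SPC, PIE, PTW). One sector. Lane weights: `ω_i` = (bilinear weight of the corner `i mod 4`) times (weight
of `yl` for `i < 4`, of `yu` for `i ≥ 4`) at `Y = 2^20 y`; all lane data (`n`, `aw`, `bw`, `es`) are `x0 (2^20 - y_e) + x1 y_e` with corner
values `x0, x1`, so their means are the values at `(A, B, y)` with the multipliers `csq` (`es`: `dsl` is `es.map pv`). Bounds: at most 16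
generators. `M`: `AdmQ.M1, M2` with `ClOK.m1, m2`, `π < 355/113`. -/
def SpecSEC : Prop :=
  ∀ (W L : ℝ → ℝ) (ps : List Pc) (K0 : Row) (K : List Row), TbOK W L ps (K0 :: K) →
    ∀ gs : List Gn, gs.length ≤ 16 → (∀ g ∈ gs, GnOK g) →
    ∀ (mu : ℕ) (c : Cell), ClOK mu c → c.c.length = gs.length →
    ∀ (yl yu : ℕ) (s : Sec), yl < yu → yu ≤ 1048576 → sb s ≤ 1073741824 →
      sec1 ps K0 K (wtOf gs) (mkCd (wtOf gs) c) yl yu s = true →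
      ∀ A B : ℝ, InQ c A B → ∀ y v γ R Y M : ℝ, (yl : ℝ) ≤ 2 ^ 20 * y → 2 ^ 20 * y ≤ (yu : ℝ) →
        AdmQ ((mu : ℝ) / 10000) (7 / 100) A B (A * (1 - y) + B * y) v γ R Y M →
        gsum (fun g => gI (gpo g) y v γ R Y) (csq c A B) gs + bet c yl yu s A B y ≤
          JQ W L M (A * (1 - y) + B * y) v γ R Y ((c.th : ℝ) / 20 * Y)

/-- **TRU** (150 lines, adapt `CT/TRG.lean`). The table of the nodes (margin of every inequality at least `1e-4`, exact where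
`yl = yu`). -/
def SpecTRU : Prop :=
  ∀ x ∈ nodU, (x.yl : ℝ) ≤ 1048576 * sin ((x.k : ℝ) * π / 512) ^ 2 ∧
    1048576 * sin ((x.k : ℝ) * π / 512) ^ 2 ≤ (x.yu : ℝ) ∧
    (x.sg : ℝ) ≤ 1048576 * (128 / π) * sin ((x.k : ℝ) * π / 256) ∧
    1048576 * (128 / π) * sin ((x.k : ℝ) * π / 256) ≤ (x.sg : ℝ) + 1

/-- The sectors go from the position `k` to the position 104 of the table of nodes. -/
def ChS : List Sec → ℕ → Prop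
  | [], k => k = 104
  | s :: t, k => k < s.k ∧ s.k ≤ 104 ∧ ChS t s.k

/-- `s` is the sector of the list which starts at the position `k` (the list starts at `k0`). -/
def InS : List Sec → ℕ → ℕ → Sec → Prop
  | [], _, _, _ => False
  | s :: t, k0, k, x => (k = k0 ∧ x = s) ∨ InS t s.k k x

/-- **INT** (250 lines, from TRU). The piecewise bound as a function of `s` and its integral (four times the one over `[0, π/2]`; unit of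
length `π/512`, total 256 units; `η = (512/π) ∫ 2^20 sin²` over the sector; `contr` as in CT SCT/CEL). -/
def SpecINT : Prop :=
  SpecTRU → ∀ (c : Cell) (A B : ℝ), InQ c A B → c.A1 < c.A2 → c.B1 < c.B2 → ChS c.s 0 → itgs c.s = true →
    ∃ b : ℝ → ℝ, IntervalIntegrable b volume 0 (2 * π) ∧ 0 ≤ ∫ s in (0 : ℝ)..(2 * π), b s ∧
      ∀ s : ℝ, ∃ (k : ℕ) (x : Sec), InS c.s 0 k x ∧ ((nd k).yl : ℝ) ≤ 2 ^ 20 * sin s ^ 2 ∧
        2 ^ 20 * sin s ^ 2 ≤ ((nd x.k).yu : ℝ) ∧ b s = bet c (nd k).yl (nd x.k).yu x A B (sin s ^ 2)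

/-- **FIN** (150 lines, from SEC, INT, `rebMain`, TRU). The conclusion for a cell. -/
def SpecFIN : Prop :=
  SpecTRU → ∀ (W L : ℝ → ℝ) (ps : List Pc) (rows : List Row), TbOK W L ps rows →
    ContinuousOn W (Icc (7 / 100) 2) → ContinuousOn L (Icc (7 / 100) 2) →
    ∀ (T : Set GP) (gs : List Gn), gs.length ≤ 16 → (∀ g ∈ gs, GnOK g ∧ gpo g ∈ T) →
    ∀ (mu : ℕ) (c : Cell), 0 < c.A1 → 0 < c.B1 → c.c.length = gs.length → chk ps rows (wtOf gs) mu c = true →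
    ∀ v γ R : ℝ → ℝ, LgC T v γ R → ∀ A B : ℝ, InQ c A B →
      (∀ s, 1 / 4 ≤ nn A B s * v s ∧ nn A B s * v s ≤ 1 / (7 / 100) ^ 2) →
      ∀ D1 D2 : ℝ, (∀ s, |γ s - YY D1 D2 v s| ≤ 1) →
      ∀ M : ℝ, 3 * ((mu : ℝ) / 10000 * (√A * √B)) ≤ 4 * π * M →
        (∀ s, 12 / 5 * M ≤ (mu : ℝ) / 10000 * (√A * √B) * √(v s)) →
        0 ≤ ∫ s in (0 : ℝ)..(2 * π), JQ W L M (nn A B s) (v s) (γ s) (R s) (YY D1 D2 v s)
          (YY ((c.th : ℝ) / 20 * D1) ((c.th : ℝ) / 20 * D2) v s)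

end Pool.Agent.Lib.MP_084b88_gt.QV
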