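import Pool.Agent.Lib.MP_084b88_gt.AY.FNA
import Pool.Agent.Lib.MP_084b88_gt.QV.SpecC

/-!
# MP_084b88_gt, project QV, module GLU: the final list of generators, and Q1 from the certificates, the rational checks and the cover
-/

set_option autoImplicit false

open MeasureTheory Set Real

namespace Pool.Agent.Lib.MP_084b88_gt.QV

open Pool.Agent.Lib.MP_084b88_gt.CW Pool.Agent.Lib.MP_084b88_gt.SY Pool.Agent.Lib.MP_084b88_gt.LG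
open Pool.Agent.Lib.MP_084b88_gt.AY

/-- The generators of the final design. -/
def gsF : List Gn := [⟨25, 25, 1, 1, 2000, 0, 0, 7500⟩, ⟨30, 30, 1, 1, 2000, 0, 0, 7500⟩, ⟨25, 30, 1, 1, 2000, 0, 0, 7500⟩,
  ⟨30, 25, 1, 1, 2000, 0, 0, 7500⟩, ⟨0, 36, 0, 1, 0, 93, 3000, 0⟩, ⟨0, 30, 1, 0, 4800, 112, 0, 5000⟩]

/-- The certificates of the generators. -/
structure Cts : Prop where
  t11 : ∃ C l : ℝ, GV8 ⟨1 / 4, 1 / 4, 1, 1, C, l, 3 / 1000, 0, 0⟩ ∧ C ≤ 52 / 1000 ∧ (l = 75 / 1000 ∨ l = -(75 / 1000))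
  t12 : ∃ C l : ℝ, GV8 ⟨1 / 4, 1 / 2, 1, 1, C, l, 3 / 1000, 0, 0⟩ ∧ C ≤ 52 / 1000 ∧ (l = 75 / 1000 ∨ l = -(75 / 1000))
  t22 : ∃ C l : ℝ, GV8 ⟨1 / 2, 1 / 2, 1, 1, C, l, 3 / 1000, 0, 0⟩ ∧ C ≤ 52 / 1000 ∧ (l = 75 / 1000 ∨ l = -(75 / 1000))
  r : ∃ E : ℝ, GV8 ⟨4 / 5, -1, 0, 1, 0, 0, 0, E, 3 / 100⟩ ∧ E ≤ 93 / 100000
  s : ∃ E l : ℝ, GV8 ⟨1 / 2, -1, 1, 0, 0, l, 2 / 1000, E, 0⟩ ∧ E ≤ 112 / 100000 ∧ (l = 5 / 100 ∨ l = -(5 / 100))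

namespace GLUM

theorem tG {rc rs C l : ℝ} (hc : rc ≤ 1) (hs : rs ≤ 1) (h : GV8 ⟨rc, rs, 1, 1, C, l, 3 / 1000, 0, 0⟩) (hC : C ≤ 52 / 1000)
    (hl : l = 75 / 1000 ∨ l = -(75 / 1000)) : GV8 ⟨rc, rs, 1, 1, 52 / 1000, -(75 / 1000), 3 / 1000, 0, 0⟩ := by
  refine allGVM _ _ h rfl rfl hc hs rfl rfl ?_ hC le_rfl le_rfl le_rfl
  rcases hl with rfl | rfl
  · exact Or.inr rfl
  · exact Or.inl rfl

theorem e1 : gpo ⟨25, 25, 1, 1, 2000, 0, 0, 7500⟩ = ⟨1 / 4, 1 / 4, 1, 1, 52 / 1000, -(75 / 1000), 3 / 1000, 0, 0⟩ := by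
  unfold gpo; norm_num

theorem e2 : gpo ⟨30, 30, 1, 1, 2000, 0, 0, 7500⟩ = ⟨1 / 2, 1 / 2, 1, 1, 52 / 1000, -(75 / 1000), 3 / 1000, 0, 0⟩ := by
  unfold gpo; norm_num

theorem e3 : gpo ⟨25, 30, 1, 1, 2000, 0, 0, 7500⟩ = ⟨1 / 4, 1 / 2, 1, 1, 52 / 1000, -(75 / 1000), 3 / 1000, 0, 0⟩ := by
  unfold gpo; norm_num

theorem e4 : gpo ⟨30, 25, 1, 1, 2000, 0, 0, 7500⟩ = ⟨1 / 2, 1 / 4, 1, 1, 52 / 1000, -(75 / 1000), 3 / 1000, 0, 0⟩ := by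
  unfold gpo; norm_num

theorem e5 : gpo ⟨0, 36, 0, 1, 0, 93, 3000, 0⟩ = ⟨-1, 4 / 5, 0, 1, 0, 0, 0, 93 / 100000, 3 / 100⟩ := by
  unfold gpo; norm_num

theorem e6 : gpo ⟨0, 30, 1, 0, 4800, 112, 0, 5000⟩ = ⟨-1, 1 / 2, 1, 0, 0, -(5 / 100), 2 / 1000, 112 / 100000, 0⟩ := by
  unfold gpo; norm_num

end GLUM

open GLUM

/-- The generators are valid. -/
theorem gsF_ok (h : Cts) : ∀ g ∈ gsF, GnOK g ∧ GV8 (gpo g) := by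
  obtain ⟨C1, l1, h1, hC1, hl1⟩ := h.t11
  obtain ⟨C2, l2, h2, hC2, hl2⟩ := h.t12
  obtain ⟨C3, l3, h3, hC3, hl3⟩ := h.t22
  obtain ⟨E4, h4, hE4⟩ := h.r
  obtain ⟨E5, l5, h5, hE5, hl5⟩ := h.s
  have k1 := tG (by norm_num) (by norm_num) h1 hC1 hl1
  have k2 := tG (by norm_num) (by norm_num) h2 hC2 hl2
  have k3 := tG (by norm_num) (by norm_num) h3 hC3 hl3
  have k4 : GV8 ⟨4 / 5, -1, 0, 1, 0, 0, 0, 93 / 100000, 3 / 100⟩ :=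
    allGVM _ _ h4 rfl rfl (by norm_num) (by norm_num) rfl rfl (Or.inl rfl) le_rfl le_rfl hE4 le_rfl
  have k5 : GV8 ⟨1 / 2, -1, 1, 0, 0, -(5 / 100), 2 / 1000, 112 / 100000, 0⟩ := by
    refine allGVM _ _ h5 rfl rfl (by norm_num) (by norm_num) rfl rfl ?_ le_rfl le_rfl hE5 le_rfl
    rcases hl5 with rfl | rfl
    · exact Or.inr rfl
    · exact Or.inl rfl
  refine List.forall_mem_cons.2 ⟨⟨⟨?_, ?_, ?_, ?_, ?_, ?_, ?_, ?_⟩, by rw [e1]; exact k1⟩, ?_⟩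
  any_goals norm_num
  refine ⟨⟨⟨?_, ?_, ?_, ?_, ?_, ?_, ?_, ?_⟩, by rw [e2]; exact k3⟩, ⟨⟨?_, ?_, ?_, ?_, ?_, ?_, ?_, ?_⟩, by rw [e3]; exact k2⟩,
    ⟨⟨?_, ?_, ?_, ?_, ?_, ?_, ?_, ?_⟩, by rw [e4]; exact allGVS _ k2⟩,
    ⟨⟨?_, ?_, ?_, ?_, ?_, ?_, ?_, ?_⟩, by rw [e5]; exact allGVS _ k4⟩,
    ⟨⟨?_, ?_, ?_, ?_, ?_, ?_, ?_, ?_⟩, by rw [e6]; exact allGVS _ k5⟩⟩
  all_goals norm_num

/-- **Q1 for all convex bodies** from the certificates, the rational checks and the cover. -/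
theorem finalF {OM LA : List (ℚ × ℚ)} {p : RP} {cs rts : List RC} (hct : Cts) (hrg : rgOK OM LA p cs = true)
    (hrt : rtOK OM LA rts = true) (hC : p.C = 52 / 1000) (hl : p.l = -(75 / 1000)) (hm : p.m = 3 / 1000) (hmu : 0 ≤ p.mu)
    (hq : 0 < p.q) (hA : 1 / 4 * (1 + p.q) ≤ p.q * p.A0) (hB : p.q * p.B0 ≤ 1 / 2 * (1 + p.q))
    (hcov : (∀ g ∈ gsF, GnOK g ∧ GV8 (gpo g)) →
      CovQ (Wp OM) (Wp LA) p.mu (7 / 100) (fun A B => A < (p.A0 : ℝ) ∨ (p.B0 : ℝ) < B))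
    (K : Set E3) (hK : CC K) (hi : (interior K).Nonempty) : ∀ c : ℝ, Q1 K c := by
  obtain ⟨C1, l1, h1, hC1, hl1⟩ := hct.t11
  obtain ⟨C2, l2, h2, hC2, hl2⟩ := hct.t12
  obtain ⟨C3, l3, h3, hC3, hl3⟩ := hct.t22
  have fC : (p.C : ℝ) = 52 / 1000 := by rw [hC]; norm_num
  have fl : (p.l : ℝ) = -(75 / 1000) := by rw [hl]; norm_num
  have fm : (p.m : ℝ) = 3 / 1000 := by rw [hm]; norm_num
  exact finalQ1 hrg hrt hmu hq hA hB (by rw [fC, fl, fm]; exact tG (by norm_num) (by norm_num) h1 hC1 hl1)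
    (by rw [fC, fl, fm]; exact tG (by norm_num) (by norm_num) h2 hC2 hl2)
    (by rw [fC, fl, fm]; exact tG (by norm_num) (by norm_num) h3 hC3 hl3) (hcov (gsF_ok hct)) K hK hi

end Pool.Agent.Lib.MP_084b88_gt.QV
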