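import Pool.Agent.Lib.MP_084b88_gt.QV.CVR

/-!
# MP_084b88_gt, project QV, module ALC: the check of a list of cells
-/

set_option autoImplicit false

namespace Pool.Agent.Lib.MP_084b88_gt.QV

/-- Length. -/
noncomputable def lenQ (l : List Q4) : Nat := @List.rec Q4 (fun _ => Nat) 0 (fun _ _ ih => Nat.succ ih) l

/-- The check of all cells of a list; `n` generators. -/
noncomputable def allc (ps : List Pc) (rows : List Row) (w : Wt) (mu n : Nat) (cs : List Cell) : Bool :=
  @List.rec Cell (fun _ => Bool) true (fun c _ ih =>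
    andb (andb (Nat.ble 1 c.A1) (andb (Nat.ble 1 c.B1) (Nat.beq (lenQ c.c) n))) (andb (chk ps rows w mu c) ih)) cs

/-- The rectangle of a cell. -/
def rcOf (c : Cell) : Rc := ⟨c.A1, c.A2, c.B1, c.B2⟩

namespace ALCM

theorem andb_iff (a b : Bool) : andb a b = true ↔ a = true ∧ b = true := by
  cases a <;> cases b <;> simp [andb]

theorem lenQ_eq (l : List Q4) : lenQ l = l.length := by
  induction l with
  | nil => rfl
  | cons x l ih =>
    show Nat.succ (lenQ l) = _
    rw [ih]
    rfl

end ALCM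

open ALCM

theorem allc_sound {ps : List Pc} {rows : List Row} {w : Wt} {mu n : Nat} : ∀ {cs : List Cell},
    allc ps rows w mu n cs = true → AllG ps rows w mu n (cs.map rcOf)
  | [], _ => trivial
  | c :: cs, h => by
    have h1 : andb (andb (Nat.ble 1 c.A1) (andb (Nat.ble 1 c.B1) (Nat.beq (lenQ c.c) n)))
      (andb (chk ps rows w mu c) (allc ps rows w mu n cs)) = true := h
    simp only [andb_iff] at h1
    obtain ⟨⟨a1, a2, a3⟩, a4, a5⟩ := h1
    refine ⟨⟨c, rfl, rfl, rfl, rfl, Nat.le_of_ble_eq_true a1, Nat.le_of_ble_eq_true a2, ?_, a4⟩, allc_sound a5⟩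
    rw [← lenQ_eq]
    exact Nat.eq_of_beq_eq_true a3

end Pool.Agent.Lib.MP_084b88_gt.QV
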