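import Pool.Agent.Lib.MP_084b88_gt.QV.SpecD

/-!
# MP_084b88_gt, project QV, module CVR: the cells cover the region of the planes `(A, B)`; `CovQ`

A module of cells proves `AllG pcs rows wts mu n rs` for the list `rs` of the rectangles of its cells (by
`⟨good c h0 .. , good ..⟩`). The tree `Tr` (splits at `A = x/256` and `B = x/256`) shows that the rectangles cover the region.
-/

set_option autoImplicit false

open MeasureTheory Set Real

namespace Pool.Agent.Lib.MP_084b88_gt.QV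

open Pool.Agent.Lib.MP_084b88_gt.CW Pool.Agent.Lib.MP_084b88_gt.SY Pool.Agent.Lib.MP_084b88_gt.LG
open Pool.Agent.Lib.MP_084b88_gt.AY

/-- A rectangle (unit `1/256`). -/
structure Rc where
  A1 : ℕ
  A2 : ℕ
  B1 : ℕ
  B2 : ℕ

/-- The point lies in the rectangle. -/
structure InRc (r : Rc) (A B : ℝ) : Prop where
  a1 : (r.A1 : ℝ) ≤ 256 * A
  a2 : 256 * A ≤ (r.A2 : ℝ)
  b1 : (r.B1 : ℝ) ≤ 256 * B
  b2 : 256 * B ≤ (r.B2 : ℝ)

/-- The rectangle belongs to a checked cell with `n` generators. -/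
def Good (ps : List Pc) (rows : List Row) (w : Wt) (mu n : ℕ) (r : Rc) : Prop :=
  ∃ c : Cell, c.A1 = r.A1 ∧ c.A2 = r.A2 ∧ c.B1 = r.B1 ∧ c.B2 = r.B2 ∧ 0 < c.A1 ∧ 0 < c.B1 ∧ c.c.length = n ∧
    chk ps rows w mu c = true

/-- The cell check. -/
theorem good {ps : List Pc} {rows : List Row} {w : Wt} {mu n : ℕ} (c : Cell) (hA : 0 < c.A1) (hB : 0 < c.B1)
    (hn : c.c.length = n) (h : chk ps rows w mu c = true) : Good ps rows w mu n ⟨c.A1, c.A2, c.B1, c.B2⟩ :=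
  ⟨c, rfl, rfl, rfl, rfl, hA, hB, hn, h⟩

/-- All rectangles are good. -/
def AllG (ps : List Pc) (rows : List Row) (w : Wt) (mu n : ℕ) : List Rc → Prop
  | [] => True
  | r :: l => Good ps rows w mu n r ∧ AllG ps rows w mu n l

theorem AllG.mem {ps : List Pc} {rows : List Row} {w : Wt} {mu n : ℕ} : ∀ {l : List Rc}, AllG ps rows w mu n l →
    ∀ r ∈ l, Good ps rows w mu n r
  | [], _, r, hr => absurd hr (by simp)
  | x :: l, h, r, hr => by
    rcases List.mem_cons.1 hr with rfl | hr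
    · exact h.1
    · exact AllG.mem h.2 r hr

theorem AllG.append {ps : List Pc} {rows : List Row} {w : Wt} {mu n : ℕ} : ∀ {l m : List Rc}, AllG ps rows w mu n l →
    AllG ps rows w mu n m → AllG ps rows w mu n (l ++ m)
  | [], _, _, h => h
  | _ :: _, _, h, h' => ⟨h.1, AllG.append h.2 h'⟩

/-- The tree: `out`: outside the region; `lf i`: the rectangle number `i` of the list; `a`, `b`: splits. -/
inductive Tr
  | out
  | lf (i : ℕ)
  | a (x : ℕ) (l r : Tr)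
  | b (x : ℕ) (l r : Tr)

/-- Element number `i`. -/
def nthR : List Rc → ℕ → Option Rc
  | [], _ => none
  | r :: _, 0 => some r
  | _ :: l, i + 1 => nthR l i

/-- The rectangle number `i` contains the given one. -/
def lfk (rs : List Rc) (i A1 A2 B1 B2 : ℕ) : Bool :=
  match nthR rs i with
  | none => false
  | some r => Nat.ble r.A1 A1 && Nat.ble A2 r.A2 && Nat.ble r.B1 B1 && Nat.ble B2 r.B2

/-- The check; `s`: `A1 < 256 A` strictly. Outside: `B < A`, or `a0 ≤ A1` and `B2 ≤ b0`. -/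
def trk (a0 b0 : ℕ) (rs : List Rc) : Tr → Bool → ℕ → ℕ → ℕ → ℕ → Bool
  | .out, s, A1, _, _, B2 => Nat.blt B2 A1 || (s && Nat.ble B2 A1) || (Nat.ble a0 A1 && Nat.ble B2 b0)
  | .lf i, _, A1, A2, B1, B2 => lfk rs i A1 A2 B1 B2
  | .a x l r, s, A1, A2, B1, B2 => trk a0 b0 rs l s A1 x B1 B2 && trk a0 b0 rs r true x A2 B1 B2
  | .b x l r, s, A1, A2, B1, B2 => trk a0 b0 rs l s A1 A2 B1 x && trk a0 b0 rs r s A1 A2 x B2

namespace CVRM

theorem nthR_mem : ∀ (l : List Rc) (i : ℕ) (r : Rc), nthR l i = some r → r ∈ l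
  | [], _, _, h => by simp [nthR] at h
  | x :: l, 0, r, h => by
    have : x = r := by simpa [nthR] using h
    rw [this]; exact List.mem_cons_self
  | x :: l, i + 1, r, h => List.mem_cons_of_mem _ (nthR_mem l i r h)

theorem lfk_sound {rs : List Rc} {i A1 A2 B1 B2 : ℕ} (h : lfk rs i A1 A2 B1 B2 = true) {A B : ℝ}
    (h1 : (A1 : ℝ) ≤ 256 * A) (h2 : 256 * A ≤ (A2 : ℝ)) (h3 : (B1 : ℝ) ≤ 256 * B) (h4 : 256 * B ≤ (B2 : ℝ)) :
    ∃ r ∈ rs, InRc r A B := by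
  unfold lfk at h
  cases hr : nthR rs i with
  | none => rw [hr] at h; simp at h
  | some r =>
    rw [hr] at h
    simp only [Bool.and_eq_true, Nat.ble_eq] at h
    obtain ⟨⟨⟨e1, e2⟩, e3⟩, e4⟩ := h
    have f1 : (r.A1 : ℝ) ≤ A1 := by exact_mod_cast e1
    have f2 : (A2 : ℝ) ≤ r.A2 := by exact_mod_cast e2
    have f3 : (r.B1 : ℝ) ≤ B1 := by exact_mod_cast e3
    have f4 : (B2 : ℝ) ≤ r.B2 := by exact_mod_cast e4
    exact ⟨r, nthR_mem rs i r hr, ⟨f1.trans h1, h2.trans f2, f3.trans h3, h4.trans f4⟩⟩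

theorem trk_sound {a0 b0 : ℕ} {rs : List Rc} (t : Tr) : ∀ (s : Bool) (A1 A2 B1 B2 : ℕ),
    trk a0 b0 rs t s A1 A2 B1 B2 = true → ∀ A B : ℝ, A ≤ B → (s = true → (A1 : ℝ) < 256 * A) → (A1 : ℝ) ≤ 256 * A →
      256 * A ≤ (A2 : ℝ) → (B1 : ℝ) ≤ 256 * B → 256 * B ≤ (B2 : ℝ) → ¬((a0 : ℝ) ≤ 256 * A ∧ 256 * B ≤ (b0 : ℝ)) →
      ∃ r ∈ rs, InRc r A B := by
  induction t with
  | out =>
    intro s A1 A2 B1 B2 h A B hAB hs h1 h2 h3 h4 hX
    exfalso
    unfold trk at h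
    rw [Bool.or_eq_true, Bool.or_eq_true, Bool.and_eq_true, Bool.and_eq_true] at h
    rcases h with (h | ⟨hs', h⟩) | ⟨h, h'⟩
    · have e : B2 < A1 := by
        rw [Nat.blt_eq] at h
        exact h
      have : (B2 : ℝ) < A1 := by exact_mod_cast e
      linarith
    · have e : B2 ≤ A1 := Nat.le_of_ble_eq_true h
      have : (B2 : ℝ) ≤ A1 := by exact_mod_cast e
      have := hs hs'
      linarith
    · have e1 : (a0 : ℝ) ≤ A1 := by exact_mod_cast Nat.le_of_ble_eq_true h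
      have e2 : (B2 : ℝ) ≤ b0 := by exact_mod_cast Nat.le_of_ble_eq_true h'
      exact hX ⟨by linarith, by linarith⟩
  | lf i =>
    intro s A1 A2 B1 B2 h A B _ _ h1 h2 h3 h4 _
    exact lfk_sound h h1 h2 h3 h4
  | a x l r ihl ihr =>
    intro s A1 A2 B1 B2 h A B hAB hs h1 h2 h3 h4 hX
    unfold trk at h
    rw [Bool.and_eq_true] at h
    rcases le_or_gt (256 * A) (x : ℝ) with hx | hx
    · exact ihl s A1 x B1 B2 h.1 A B hAB hs h1 hx h3 h4 hX
    · exact ihr true x A2 B1 B2 h.2 A B hAB (fun _ => hx) hx.le h2 h3 h4 hX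
  | b x l r ihl ihr =>
    intro s A1 A2 B1 B2 h A B hAB hs h1 h2 h3 h4 hX
    unfold trk at h
    rw [Bool.and_eq_true] at h
    rcases le_or_gt (256 * B) (x : ℝ) with hx | hx
    · exact ihl s A1 A2 B1 x h.1 A B hAB hs h1 h2 h3 hx hX
    · exact ihr s A1 A2 x B2 h.2 A B hAB hs h1 h2 hx.le h4 hX

end CVRM

open CVRM

/-- **The cover.** `hroot`: the rectangles cover the region; `a0 ≥ 256 A0`, `b0 ≤ 256 B0`. -/
theorem covQ_of (hFIN : SpecFIN) (hTRU : SpecTRU) {OM LA : List (ℚ × ℚ)} {ps : List Pc} {rows : List Row}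
    (hTb : TbOK (Wp OM) (Wp LA) ps rows) (gs : List Gn) (hlen : gs.length ≤ 16)
    (hgs : ∀ g ∈ gs, GnOK g ∧ GV8 (gpo g)) {mu a0 b0 : ℕ} {rs : List Rc}
    (hG : AllG ps rows (wtOf gs) mu gs.length rs) (t : Tr) (ht : trk a0 b0 rs t false 64 104490 64 104490 = true)
    {A0 B0 : ℝ} (hA0 : 256 * A0 ≤ (a0 : ℝ)) (hB0 : (b0 : ℝ) ≤ 256 * B0) :
    CovQ (Wp OM) (Wp LA) ((mu : ℝ) / 10000) (7 / 100) (fun A B => A < A0 ∨ B0 < B) := by
  intro v γ R hD A B hA hAB hB hX hz D1 D2 ho M hM1 hM2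
  have hb0 : (0 : ℝ) < 7 / 100 := by norm_num
  have hB' : B ≤ 20000 / 49 := by
    refine hB.trans (le_of_eq ?_)
    norm_num
  obtain ⟨r, hr, hin⟩ := trk_sound (a0 := a0) (b0 := b0) (rs := rs) t false 64 104490 64 104490 ht A B hAB
    (fun h => absurd h (by simp)) (by push_cast; linarith) (by push_cast; linarith) (by push_cast; linarith)
    (by push_cast; linarith) (by
      rintro ⟨h1, h2⟩
      rcases hX with h | h
      · linarith
      · linarith)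
  obtain ⟨c, e1, e2, e3, e4, hA1, hB1, hcl, hck⟩ := hG.mem r hr
  refine ⟨_, _, hFIN hTRU (Wp OM) (Wp LA) ps rows hTb (Wp_cont OM hb0) (Wp_cont LA hb0) TV gs hlen
    (fun g hg => ⟨(hgs g hg).1, (hgs g hg).2⟩) mu c hA1 hB1 hcl hck v γ R hD A B ?_ hz D1 D2 ho M hM1 hM2⟩
  exact ⟨by rw [e1]; exact hin.a1, by rw [e2]; exact hin.a2, by rw [e3]; exact hin.b1, by rw [e4]; exact hin.b2⟩

end Pool.Agent.Lib.MP_084b88_gt.QV
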