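import Pool.Agent.Lib.MP_084b88_gt.CT.Defs

/-!
# MP_084b88_gt, project QV: the checker of the cover (regime II), natural numbers only

Scales: `A, B` `2^8`; `y` `2^20`; `n = A (1-y) + B y` `2^28`; `v, x` `384`; `Z = n v` `2^28 * 384`; `zj` `2^10`; multipliers
`2^12`; `20 (1 + r)` for the ratios `r`; generator constants `10^5`; `b` `2^24`, bias `2^25`.
-/

set_option autoImplicit false

namespace Pool.Agent.Lib.MP_084b88_gt.QV

open Pool.Agent.Lib.MP_084b88_gt.CT (ifle getL Nod contr)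

/-- Conjunction. -/
noncomputable def andb (a b : Bool) : Bool := @Bool.rec (fun _ => Bool) false b a

/-- Maximum. -/
noncomputable def mx (a b : Nat) : Nat := Nat.add b (Nat.sub a b)

/-- Minimum. -/
noncomputable def mn (a b : Nat) : Nat := Nat.sub a (Nat.sub a b)

/-- Absolute difference. -/
noncomputable def ad (a b : Nat) : Nat := Nat.add (Nat.sub a b) (Nat.sub b a)

/-- The base of the packed numbers, `2^128`. -/
def BS : Nat := 340282366920938463463374607431768211456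

/-- `BS^4`. -/
def BS4 : Nat := 13407807929942597099574024998205846127479365820592393377723561443721764030073546976801874298166903427690031858186486050853753882811946569946433649006084096

/-- `Σ_{l < 8} BS^l`. -/
def one8 : Nat := 528294531135665246352339784916516606520399844128422231063109688515136405111986307932151574694014881104306146237268412201528404470859010781743924190173406846268890965642294205800438269168685095342047538166014444022988625525970748234723644093345682544597060157565694902273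

/-- Bounds of functions on a range of `z` (from the `z` of the row to `zj`), `Z = 2^28 * 384 z`, `Ψ = 2^58 * 1171875`:
`(g0p - g0n)/2^30 + (g1p - g1n)/2^24 z ≤ K(z)`, `wl/2^30 + (o1p - o1n)/2^24 z ≤ Ω(z) ≤ wu/2^30 + (o1p - o1n)/2^24 z`,
`|Ψ λ(z) - ((lmp - lmn) + (l1p - l1n) Z)| ≤ dl`, `Ψ e(z) ≤ e0`, `na - n1 Z ≤ 3 * 2^47 / z^2 ≤ nb - n1 Z`. -/
structure Ln where
  zj : Nat
  g0p : Nat
  g0n : Nat
  g1p : Nat
  g1n : Nat
  wl : Nat
  wu : Nat
  o1p : Nat
  o1n : Nat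
  lmp : Nat
  l1p : Nat
  lmn : Nat
  l1n : Nat
  dl : Nat
  e0 : Nat
  na : Nat
  nb : Nat
  n1 : Nat

/-- A row of the table of lines: the lines valid from `z/2^10` on. -/
structure Row where
  z : Nat
  l : List Ln

/-- One lane: `n`, `aw`, `bw` (multiplier sum `w = aw (1 + v) - bw v`). -/
structure Lan where
  n : Nat
  aw : Nat
  bw : Nat

/-- Payment coefficients (scale 1000), bounds of `M` (scale 800000). -/
structure Pay where
  t1 : Nat
  t2 : Nat
  t3 : Nat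
  m1 : Nat
  m2 : Nat

/-! ## The V part: `P`, `R` with `X γ o + a o² - t3 N γ² + P γ² + R o² ≥ 0` -/

noncomputable def vX (p : Pay) (A B dl N : Nat) : Nat := Nat.add dl (ad A (Nat.add B (Nat.mul p.t2 N)))
noncomputable def vE (p : Pay) (s N X : Nat) : Nat :=
  mx (Nat.sub (Nat.mul p.t1 N) s) (Nat.add (Nat.div X 16) 1)
noncomputable def vP (p : Pay) (hs N X ae : Nat) : Nat :=
  Nat.add (Nat.div (Nat.add (Nat.div (Nat.mul X X) (Nat.mul 4 ae)) (Nat.add (Nat.mul p.t3 N) 1)) hs) 1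
noncomputable def vR (p : Pay) (hs s N ae : Nat) : Nat :=
  Nat.add (Nat.div (Nat.sub (Nat.add ae s) (Nat.mul p.t1 N)) hs) 1
noncomputable def vPX (p : Pay) (hs s N X : Nat) : Nat := vP p hs N X (vE p s N X)
noncomputable def vPN (p : Pay) (hs A B s dl N : Nat) : Nat := vPX p hs s N (vX p A B dl N)
noncomputable def vRN (p : Pay) (hs A B s dl N : Nat) : Nat := vR p hs s N (vE p s N (vX p A B dl N))
noncomputable def vPm (p : Pay) (hs A B s dl N1 N2 : Nat) : Nat := mx (vPN p hs A B s dl N1) (vPN p hs A B s dl N2)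
noncomputable def vRm (p : Pay) (hs A B s dl N1 N2 : Nat) : Nat := mx (vRN p hs A B s dl N1) (vRN p hs A B s dl N2)
noncomputable def vA (l : Ln) (Z : Nat) : Nat := Nat.add l.lmp (Nat.mul l.l1p Z)
noncomputable def vB (l : Ln) (Z w : Nat) : Nat := Nat.add (Nat.add l.lmn (Nat.mul l.l1n Z)) (Nat.mul 23 w)
noncomputable def vN (m a : Nat) (l : Ln) (Z : Nat) : Nat := Nat.mul m (Nat.sub a (Nat.mul l.n1 Z))
noncomputable def vPz (p : Pay) (hs m2 : Nat) (l : Ln) (Z w : Nat) : Nat :=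
  vPm p hs (vA l Z) (vB l Z w) (Nat.add l.e0 w) l.dl (vN p.m1 l.na l Z) (vN m2 l.nb l Z)
noncomputable def vRz (p : Pay) (hs m2 : Nat) (l : Ln) (Z w : Nat) : Nat :=
  vRm p hs (vA l Z) (vB l Z w) (Nat.add l.e0 w) l.dl (vN p.m1 l.na l Z) (vN m2 l.nb l Z)
noncomputable def vW (u : Lan) (V : Nat) : Nat := Nat.sub (Nat.mul u.aw (Nat.add 384 V)) (Nat.mul u.bw V)
noncomputable def PL (p : Pay) (hs m2 V : Nat) (l : Ln) (u : Lan) : Nat := vPz p hs m2 l (Nat.mul u.n V) (vW u V)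
noncomputable def RL (p : Pay) (hs m2 V : Nat) (l : Ln) (u : Lan) : Nat := vRz p hs m2 l (Nat.mul u.n V) (vW u V)

/-- Packing over the lanes. -/
noncomputable def pk (f : Lan → Nat) (us : List Lan) : Nat :=
  @List.rec Lan (fun _ => Nat) 0 (fun u _ ih => Nat.add (f u) (Nat.mul ih BS)) us

/-- Sum over the lanes. -/
noncomputable def sm (f : Lan → Nat) (us : List Lan) : Nat :=
  @List.rec Lan (fun _ => Nat) 0 (fun u _ ih => Nat.add (f u) ih) us

/-- Scalar product. -/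
noncomputable def dot (l : List Nat) : List Nat → Nat :=
  @List.rec Nat (fun _ => List Nat → Nat) (fun _ => 0)
    (fun a _ ih m => @List.rec Nat (fun _ => Nat) 0 (fun b t _ => Nat.add (Nat.mul a b) (ih t)) m) l

/-- A piece `v ∈ [a/384, b/384]`: `sq ≥ 1024 √(b/384)`, `hs = (b - a) * 2^28 * 1171875`; `T` the packed tables
modulo `E`, `K` the constant, `M` the mask, `E` the modulus. -/
structure Pc where
  a : Nat
  b : Nat
  sq : Nat
  hs : Nat
  T : List Nat
  K : Nat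
  M : Nat
  E : Nat

/-- The mask test. -/
noncomputable def tst (c : Pc) (X : Nat) : Bool :=
  Nat.beq (Nat.land (Nat.mod (Nat.add X c.K) c.E) c.M) c.M

/-- Bounds of `P`, `R`. -/
noncomputable def bnd (us : List Lan) (f0 f1 g0 g1 : Lan → Nat) : Bool :=
  Nat.ble (Nat.add (Nat.add (sm f0 us) (sm f1 us)) (Nat.add (sm g0 us) (sm g1 us))) 17592186044416

/-- The scalar product of a piece: `P0, P1, R0, R1` the packed values, `ds` the packed multiplier data and `b`. -/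
noncomputable def dpr (T : List Nat) (l : Ln) (N : Nat) (ds : List Nat) (P0 P1 R0 R1 : Nat) : Nat :=
  dot (List.cons (Nat.mul l.g0p one8) (List.cons (Nat.mul l.g0n one8) (List.cons (Nat.mul l.g1p N)
    (List.cons (Nat.mul l.g1n N) (List.cons (Nat.mul l.wl one8) (List.cons (Nat.mul l.wu one8)
    (List.cons (Nat.mul l.o1p N) (List.cons (Nat.mul l.o1n N) (List.cons P0 (List.cons P1
    (List.cons R0 (List.cons R1 ds)))))))))))) T

/-- One piece with the line `l`; `m2` the bound of `M` times `√v`. -/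
noncomputable def pie1 (p : Pay) (c : Pc) (l : Ln) (us : List Lan) (N : Nat) (ds : List Nat) (zb m2 : Nat) : Bool :=
  andb (Nat.ble (Nat.mul l.n1 zb) l.na) (andb
    (bnd us (PL p c.hs m2 c.a l) (PL p c.hs m2 c.b l) (RL p c.hs m2 c.a l) (RL p c.hs m2 c.b l))
    (tst c (dpr c.T l N ds (pk (PL p c.hs m2 c.a l) us) (pk (PL p c.hs m2 c.b l) us)
      (pk (RL p c.hs m2 c.a l) us) (pk (RL p c.hs m2 c.b l) us))))

noncomputable def pie (p : Pay) (c : Pc) (l : Ln) (us : List Lan) (N : Nat) (ds : List Nat) (zb : Nat) : Bool :=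
  pie1 p c l us N ds zb (Nat.add (Nat.div (Nat.mul p.m2 c.sq) 1024) 1)

/-- Drop the rows before the one of `za`. -/
noncomputable def drp (za : Nat) (cont : Row → List Row → Bool) (l : List Row) : Row → Bool :=
  @List.rec Row (fun _ => Row → Bool) (fun r0 => cont r0 List.nil)
    (fun r1 t ih r0 => ifle (Nat.mul r1.z 100663296) za (ih r1) (cont r0 (List.cons r1 t))) l

/-- The first line reaching `zb`. -/
noncomputable def fnd (zb : Nat) (k : Ln → Bool) (l : List Ln) : Bool :=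
  @List.rec Ln (fun _ => Bool) false (fun x _ ih => ifle zb (Nat.mul x.zj 100663296) (k x) ih) l

/-- The upper end of the range, at most the last knot `208980/1024`. -/
noncomputable def zcl (zb : Nat) : Nat := ifle zb 21036615598080 zb 21036615598080

/-- All pieces. -/
noncomputable def pieces (p : Pay) (nmin nmax : Nat) (us : List Lan) (N : Nat) (ds : List Nat) (ps : List Pc) :
    Row → List Row → Bool :=
  @List.rec Pc (fun _ => Row → List Row → Bool) (fun _ _ => true)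
    (fun c _ ih r0 rs => ifle 25769803776 (Nat.mul nmax c.b)
      (ifle (Nat.mul nmin c.a) 21036574511020
        (drp (Nat.mul nmin c.a) (fun r0 rs =>
          andb (fnd (zcl (Nat.mul nmax c.b)) (fun l => pie p c l us N ds (Nat.mul nmax c.b)) r0.l) (ih r0 rs)) rs r0)
        true)
      (ih r0 rs)) ps

/-- Multipliers of one generator at the corners `(A1, B1), (A1, B2), (A2, B1), (A2, B2)`. -/
structure Q4 where
  c0 : Nat
  c1 : Nat
  c2 : Nat
  c3 : Nat

/-- Weights: for each kind of constant (`S, R, U = -(C + l + m), E = eps, K = k, L = -l`) the lists over the generators of the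
constant, of the constant times `20 (1 + rc)` (`c`) and times `20 (1 + rs)` (`s`). -/
structure Wt where
  S : List Nat
  Sc : List Nat
  Ss : List Nat
  R : List Nat
  Rc : List Nat
  Rs : List Nat
  U : List Nat
  Uc : List Nat
  Us : List Nat
  E : List Nat
  Ec : List Nat
  Es : List Nat
  K : List Nat
  Kc : List Nat
  Ks : List Nat
  L : List Nat
  Lc : List Nat
  Ls : List Nat

/-- A corner: `aw = 4096 * 20 * 2^20 Σ c L`, `b0 = 4096 Σ c L 20 (1 + rc)`, `b1 = 4096 Σ c L 20 (1 + rs)`. -/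
structure Cor where
  A : Nat
  B : Nat
  aw : Nat
  b0 : Nat
  b1 : Nat

noncomputable def cor (w : Wt) (A B : Nat) (c : List Nat) : Cor :=
  ⟨A, B, Nat.mul 85899345920 (dot w.L c), Nat.mul 4096 (dot w.Lc c), Nat.mul 4096 (dot w.Ls c)⟩

noncomputable def lan (u : Cor) (y : Nat) : Lan :=
  ⟨Nat.add (Nat.mul u.A (Nat.sub 1048576 y)) (Nat.mul u.B y), u.aw,
    Nat.add (Nat.mul u.b0 (Nat.sub 1048576 y)) (Nat.mul u.b1 y)⟩

/-- A sector: the position `k` of its upper node, lower bounds at the lower end (`b0 .. b3`: corners) and at the upper end. -/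
structure Sec where
  k : Nat
  b0 : Nat
  b1 : Nat
  b2 : Nat
  b3 : Nat
  b4 : Nat
  b5 : Nat
  b6 : Nat
  b7 : Nat

/-- Packing of four numbers. -/
noncomputable def pk4 (a b c d : Nat) : Nat :=
  Nat.add a (Nat.mul (Nat.add b (Nat.mul (Nat.add c (Nat.mul d BS)) BS)) BS)

noncomputable def lin (a b u1 u2 : Nat) : Nat := Nat.add (Nat.mul a u1) (Nat.mul b u2)

/-- The packed multiplier data of a sector; `C` the packed multipliers, `u1, u2` the packed `2^20 (1-y)`, `2^20 y`. -/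
noncomputable def dsl (w : Wt) (C : List Nat) (u1 u2 bp : Nat) : List Nat :=
  List.cons (Nat.mul (dot w.S C) (Nat.add u1 u2)) (List.cons (lin (dot w.Sc C) (dot w.Ss C) u1 u2)
  (List.cons (Nat.mul (dot w.R C) (Nat.add u1 u2)) (List.cons (lin (dot w.Rc C) (dot w.Rs C) u1 u2)
  (List.cons (Nat.mul (dot w.U C) (Nat.add u1 u2)) (List.cons (lin (dot w.Uc C) (dot w.Us C) u1 u2)
  (List.cons (Nat.mul (dot w.E C) (Nat.add u1 u2)) (List.cons (lin (dot w.Ec C) (dot w.Es C) u1 u2)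
  (List.cons (Nat.mul (dot w.K C) (Nat.add u1 u2)) (List.cons (lin (dot w.Kc C) (dot w.Ks C) u1 u2)
  (List.cons bp List.nil))))))))))

/-- Data of a cell; `th = 20 θ`. -/
structure Cell where
  A1 : Nat
  A2 : Nat
  B1 : Nat
  B2 : Nat
  th : Nat
  m1 : Nat
  m2 : Nat
  c : List Q4
  s : List Sec

/-- Everything that is constant on a cell. -/
structure Cd where
  p : Pay
  c0 : Cor
  c1 : Cor
  c2 : Cor
  c3 : Cor
  C : List Nat
  AA : Nat
  BB : Nat

noncomputable def mp (f : Q4 → Nat) (l : List Q4) : List Nat :=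
  @List.rec Q4 (fun _ => List Nat) List.nil (fun x _ ih => List.cons (f x) ih) l

noncomputable def mkP (c : Cell) : Pay :=
  ⟨Nat.sub 1000 (Nat.mul 4 (Nat.mul c.th c.th)), Nat.mul 8 (Nat.mul c.th (Nat.sub 20 c.th)),
    Nat.mul 4 (Nat.mul (Nat.sub 20 c.th) (Nat.sub 20 c.th)), c.m1, c.m2⟩

noncomputable def mkCd (w : Wt) (c : Cell) : Cd :=
  ⟨mkP c, cor w c.A1 c.B1 (mp Q4.c0 c.c), cor w c.A1 c.B2 (mp Q4.c1 c.c), cor w c.A2 c.B1 (mp Q4.c2 c.c),
    cor w c.A2 c.B2 (mp Q4.c3 c.c), mp (fun x => pk4 x.c0 x.c1 x.c2 x.c3) c.c,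
    pk4 c.A1 c.A1 c.A2 c.A2, pk4 c.B1 c.B2 c.B1 c.B2⟩

/-- The lanes of a sector. -/
noncomputable def lns (d : Cd) (yl yu : Nat) : List Lan :=
  List.cons (lan d.c0 yl) (List.cons (lan d.c1 yl) (List.cons (lan d.c2 yl) (List.cons (lan d.c3 yl)
    (List.cons (lan d.c0 yu) (List.cons (lan d.c1 yu) (List.cons (lan d.c2 yu) (List.cons (lan d.c3 yu) List.nil)))))))

/-- One sector; `K0 :: K` the rows. -/
noncomputable def sec2 (ps : List Pc) (K0 : Row) (K : List Row) (w : Wt) (d : Cd) (yl yu u1 u2 bp : Nat) : Bool :=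
  pieces d.p (mn (lan d.c0 yl).n (lan d.c0 yu).n) (mx (lan d.c3 yl).n (lan d.c3 yu).n)
    (lns d yl yu) (lin d.AA d.BB u1 u2) (dsl w d.C u1 u2 bp) ps K0 K

noncomputable def sec1 (ps : List Pc) (K0 : Row) (K : List Row) (w : Wt) (d : Cd) (yl yu : Nat) (s : Sec) : Bool :=
  sec2 ps K0 K w d yl yu
    (Nat.add (Nat.sub 1048576 yl) (Nat.mul (Nat.sub 1048576 yu) BS4)) (Nat.add yl (Nat.mul yu BS4))
    (Nat.add (pk4 s.b0 s.b1 s.b2 s.b3) (Nat.mul (pk4 s.b4 s.b5 s.b6 s.b7) BS4))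

/-- The nodes (position 0 to 104), `k` in units `π/512`: `yl ≤ 2^20 sin²(k π/512) ≤ yu`, `sg ≤ 2^20 (128/π) sin(k π/256) ≤ sg + 1`. -/
def nodU : List Nod := [
   ⟨0, 0, 0, 0⟩, ⟨1, 39, 40, 524274⟩, ⟨2, 157, 158, 1048470⟩, ⟨3, 355, 356, 1572508⟩,
   ⟨4, 631, 632, 2096309⟩, ⟨5, 986, 987, 2619795⟩, ⟨6, 1420, 1421, 3142886⟩, ⟨7, 1933, 1934, 3665503⟩,
   ⟨8, 2524, 2525, 4187569⟩, ⟨9, 3194, 3195, 4709004⟩, ⟨10, 3942, 3943, 5229730⟩, ⟨11, 4769, 4770, 5749668⟩,
   ⟨12, 5674, 5675, 6268741⟩, ⟨13, 6657, 6658, 6786869⟩, ⟨14, 7718, 7719, 7303975⟩, ⟨15, 8857, 8858, 7819981⟩,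
   ⟨16, 10074, 10075, 8334810⟩, ⟨17, 11367, 11368, 8848384⟩, ⟨18, 12739, 12740, 9360624⟩, ⟨19, 14187, 14188, 9871456⟩,
   ⟨20, 15712, 15713, 10380800⟩, ⟨21, 17313, 17314, 10888582⟩, ⟨22, 18991, 18992, 11394723⟩, ⟨23, 20745, 20746, 11899149⟩,
   ⟨24, 22575, 22576, 12401782⟩, ⟨25, 24481, 24482, 12902548⟩, ⟨26, 26461, 26462, 13401371⟩, ⟨27, 28517, 28518, 13898176⟩,
   ⟨28, 30647, 30648, 14392887⟩, ⟨29, 32852, 32853, 14885431⟩, ⟨30, 35131, 35132, 15375734⟩, ⟨31, 37483, 37484, 15863721⟩,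
   ⟨32, 39909, 39910, 16349319⟩, ⟨33, 42407, 42408, 16832454⟩, ⟨34, 44978, 44979, 17313055⟩, ⟨35, 47622, 47623, 17791049⟩,
   ⟨36, 50337, 50338, 18266363⟩, ⟨37, 53123, 53124, 18738926⟩, ⟨38, 55981, 55982, 19208668⟩, ⟨39, 58909, 58910, 19675516⟩,
   ⟨40, 61907, 61908, 20139402⟩, ⟨42, 68111, 68112, 21058005⟩, ⟨44, 74591, 74592, 21963924⟩, ⟨46, 81341, 81342, 22856612⟩,
   ⟨48, 88358, 88359, 23735532⟩, ⟨50, 95638, 95639, 24600155⟩, ⟨52, 103175, 103176, 25449959⟩, ⟨54, 110967, 110968, 26284434⟩,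
   ⟨56, 119007, 119008, 27103076⟩, ⟨58, 127292, 127293, 27905392⟩, ⟨60, 135816, 135817, 28690898⟩, ⟨62, 144573, 144574, 29459123⟩,
   ⟨64, 153560, 153561, 30209602⟩, ⟨66, 162770, 162771, 30941884⟩, ⟨68, 172197, 172198, 31655528⟩, ⟨70, 181837, 181838, 32350104⟩,
   ⟨72, 191683, 191684, 33025193⟩, ⟨74, 201729, 201730, 33680390⟩, ⟨76, 211970, 211971, 34315298⟩, ⟨78, 222398, 222399, 34929536⟩,
   ⟨80, 233009, 233010, 35522734⟩, ⟨84, 254750, 254751, 36644593⟩, ⟨88, 277140, 277141, 37678172⟩, ⟨92, 300125, 300126, 38620980⟩,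
   ⟨96, 323651, 323652, 39470747⟩, ⟨100, 347660, 347661, 40225426⟩, ⟨104, 372095, 372096, 40883199⟩, ⟨108, 396896, 396897, 41442480⟩,
   ⟨112, 422004, 422005, 41901922⟩, ⟨116, 447358, 447359, 42260419⟩, ⟨120, 472898, 472899, 42517107⟩, ⟨124, 498562, 498563, 42671368⟩,
   ⟨128, 524288, 524288, 42722829⟩, ⟨132, 550013, 550014, 42671368⟩, ⟨136, 575677, 575678, 42517107⟩, ⟨140, 601217, 601218, 42260419⟩,
   ⟨144, 626571, 626572, 41901922⟩, ⟨148, 651679, 651680, 41442480⟩, ⟨152, 676480, 676481, 40883199⟩, ⟨156, 700915, 700916, 40225426⟩,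
   ⟨160, 724924, 724925, 39470747⟩, ⟨164, 748450, 748451, 38620980⟩, ⟨168, 771435, 771436, 37678172⟩, ⟨172, 793825, 793826, 36644593⟩,
   ⟨176, 815566, 815567, 35522734⟩, ⟨180, 836605, 836606, 34315298⟩, ⟨184, 856892, 856893, 33025193⟩, ⟨188, 876378, 876379, 31655528⟩,
   ⟨192, 895015, 895016, 30209602⟩, ⟨196, 912759, 912760, 28690898⟩, ⟨200, 929568, 929569, 27103076⟩, ⟨204, 945400, 945401, 25449959⟩,
   ⟨208, 960217, 960218, 23735532⟩, ⟨212, 973984, 973985, 21963924⟩, ⟨216, 986668, 986669, 20139402⟩, ⟨220, 998238, 998239, 18266363⟩,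
   ⟨224, 1008666, 1008667, 16349319⟩, ⟨228, 1017928, 1017929, 14392887⟩, ⟨232, 1026000, 1026001, 12401782⟩, ⟨236, 1032863, 1032864, 10380800⟩,
   ⟨240, 1038501, 1038502, 8334810⟩, ⟨244, 1042901, 1042902, 6268741⟩, ⟨248, 1046051, 1046052, 4187569⟩, ⟨252, 1047944, 1047945, 2096309⟩,
   ⟨256, 1048576, 1048576, 0⟩]

/-- The node at the position `k`. -/
noncomputable def nd (k : Nat) : Nod := getL ⟨0, 0, 0, 0⟩ nodU k

/-- Sum of the numbers of a sector (bound of the `b`). -/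
noncomputable def sb (s : Sec) : Nat :=
  Nat.add (Nat.add (Nat.add s.b0 s.b1) (Nat.add s.b2 s.b3)) (Nat.add (Nat.add s.b4 s.b5) (Nat.add s.b6 s.b7))

/-- All sectors from the node `k`. -/
noncomputable def secs (ps : List Pc) (K0 : Row) (K : List Row) (w : Wt) (d : Cd) (l : List Sec) : Nat → Bool :=
  @List.rec Sec (fun _ => Nat → Bool) (fun k => Nat.beq k 104)
    (fun s _ ih k => andb (andb (Nat.ble (Nat.succ k) s.k) (andb (Nat.ble s.k 104) (Nat.ble (sb s) 1073741824)))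
      (andb (sec1 ps K0 K w d (nd k).yl (nd s.k).yu s) (ih s.k))) l

/-- Contribution of the sector from `x` to `x'` with the values `ml`, `mu` at the ends. -/
noncomputable def ctb (x x' : Nod) (ml mu : Nat) : Nat :=
  contr (Nat.sub x'.k x.k)
    (Nat.sub (Nat.add (Nat.mul (Nat.sub x'.k x.k) 524288) x.sg) (Nat.add x'.sg 1))
    (Nat.sub (Nat.add (Nat.mul (Nat.sub x'.k x.k) 524288) (Nat.add x.sg 1)) x'.sg) x.yl x'.yu ml mu 0

/-- Lower bound of the integral at a corner. -/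
noncomputable def itg (f g : Sec → Nat) (l : List Sec) : Nat → Nat :=
  @List.rec Sec (fun _ => Nat → Nat) (fun _ => 0)
    (fun s _ ih k => Nat.add (ctb (nd k) (nd s.k) (f s) (g s)) (ih s.k)) l

/-- `256 * 2^25 ≤` the integral at the four corners. -/
noncomputable def itgs (l : List Sec) : Bool :=
  andb (andb (Nat.ble 8589934592 (itg Sec.b0 Sec.b4 l 0)) (Nat.ble 8589934592 (itg Sec.b1 Sec.b5 l 0)))
    (andb (Nat.ble 8589934592 (itg Sec.b2 Sec.b6 l 0)) (Nat.ble 8589934592 (itg Sec.b3 Sec.b7 l 0)))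

/-- Bound of the multipliers. -/
noncomputable def cbd (l : List Q4) : Bool :=
  @List.rec Q4 (fun _ => Bool) true
    (fun x _ ih => andb (Nat.ble (Nat.add (Nat.add x.c0 x.c1) (Nat.add x.c2 x.c3)) 1048576) ih) l

/-- `m1/800000 ≤ 3 mu √A1 √B1/(4 π)`, `m2/800000 ≥ 5/12 mu √A2 √B2`, with `mu/10^4`, `π ≤ 355/113`:
`m1 * 256 * 4 * 355 * 10^4 ≤ 3 * 113 * 800000 mu √A1 √B1`, `5 * 800000 mu √A2 √B2 ≤ 12 * 256 * 10^4 m2`. -/
noncomputable def mbd (mu : Nat) (c : Cell) : Bool :=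
  andb (Nat.ble (Nat.mul (Nat.mul c.m1 363520) (Nat.mul c.m1 363520))
      (Nat.mul (Nat.mul (Nat.mul mu 27120) (Nat.mul mu 27120)) (Nat.mul c.A1 c.B1)))
    (Nat.ble (Nat.mul (Nat.mul (Nat.mul mu 400) (Nat.mul mu 400)) (Nat.mul c.A2 c.B2))
      (Nat.mul (Nat.mul c.m2 3072) (Nat.mul c.m2 3072)))

/-- The check of a cell; `mu/10^4`. -/
noncomputable def chk (ps : List Pc) (rows : List Row) (w : Wt) (mu : Nat) (c : Cell) : Bool :=
  @List.rec Row (fun _ => Bool) false (fun K0 K _ =>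
    andb (andb (andb (Nat.ble (Nat.succ c.A1) c.A2) (Nat.ble (Nat.succ c.B1) c.B2))
      (andb (Nat.ble c.A2 104490) (Nat.ble c.B2 104490)))
    (andb (andb (Nat.ble c.th 12) (andb (cbd c.c) (mbd mu c)))
    (andb (itgs c.s) (secs ps K0 K w (mkCd w c) c.s 0)))) rows

end Pool.Agent.Lib.MP_084b88_gt.QV
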