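import Pool.Agent.Lib.MP_084b88_gt.QV.SpecC

/-!
# MP_084b88_gt, project QV, module FIN: the conclusion for a cell
-/

set_option autoImplicit false

open MeasureTheory Set Real

namespace Pool.Agent.Lib.MP_084b88_gt.QV

open Pool.Agent.Lib.MP_084b88_gt.CW Pool.Agent.Lib.MP_084b88_gt.SY Pool.Agent.Lib.MP_084b88_gt.LG
open Pool.Agent.Lib.MP_084b88_gt.AY

namespace FINM

theorem of_andb {a b : Bool} (h : andb a b = true) : a = true ∧ b = true := by
  cases a
  · exact absurd h (by simp [andb])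
  · exact ⟨rfl, h⟩

/-! ### the table of the nodes -/

theorem node_yu (k : ℕ) (hk : k ≤ 104) : (nd k).yu ≤ 1048576 := by
  unfold nd
  interval_cases k <;> decide

theorem node_lt_succ (k : ℕ) (hk : k < 104) : (nd k).yl < (nd (k + 1)).yl := by
  unfold nd
  interval_cases k <;> decide

theorem node_yl_yu (k : ℕ) (hk : k ≤ 104) : (nd k).yl ≤ (nd k).yu := by
  unfold nd
  interval_cases k <;> decide

theorem node_lt {j k : ℕ} (h : j < k) (hk : k ≤ 104) : (nd j).yl < (nd k).yu := by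
  have key : ∀ d : ℕ, j + d + 1 ≤ 104 → (nd j).yl < (nd (j + d + 1)).yl := by
    intro d
    induction d with
    | zero => intro hd; exact node_lt_succ j (by omega)
    | succ d ih => intro hd; exact lt_trans (ih (by omega)) (node_lt_succ (j + d + 1) (by omega))
  obtain ⟨d, rfl⟩ : ∃ d, k = j + d + 1 := ⟨k - j - 1, by omega⟩
  exact lt_of_lt_of_le (key d hk) (node_yl_yu _ hk)

theorem cbd_spec : ∀ l : List Q4, cbd l = true → ∀ q ∈ l, q.c0 + q.c1 + q.c2 + q.c3 ≤ 1048576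
  | [], _, _, hq => absurd hq (by simp)
  | x :: t, h, q, hq => by
    have h' : andb (Nat.ble (Nat.add (Nat.add x.c0 x.c1) (Nat.add x.c2 x.c3)) 1048576) (cbd t) = true := h
    obtain ⟨h1, h2⟩ := of_andb h'
    rcases List.mem_cons.1 hq with rfl | hq
    · have h3 : q.c0 + q.c1 + (q.c2 + q.c3) ≤ 1048576 := Nat.le_of_ble_eq_true h1
      omega
    · exact cbd_spec t h2 q hq

theorem secs_spec (ps : List Pc) (K0 : Row) (K : List Row) (w : Wt) (d : Cd) : ∀ (l : List Sec) (k0 : ℕ),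
    secs ps K0 K w d l k0 = true → ChS l k0 ∧ ∀ (k : ℕ) (x : Sec), InS l k0 k x →
      k < x.k ∧ x.k ≤ 104 ∧ sb x ≤ 1073741824 ∧ sec1 ps K0 K w d (nd k).yl (nd x.k).yu x = true
  | [], k0, h => by
    have h' : Nat.beq k0 104 = true := h
    exact ⟨Nat.eq_of_beq_eq_true h', fun k x hx => absurd hx (by simp [InS])⟩
  | s :: t, k0, h => by
    have h' : andb (andb (Nat.ble (Nat.succ k0) s.k) (andb (Nat.ble s.k 104) (Nat.ble (sb s) 1073741824)))
      (andb (sec1 ps K0 K w d (nd k0).yl (nd s.k).yu s) (secs ps K0 K w d t s.k)) = true := h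
    obtain ⟨h1, h2⟩ := of_andb h'
    obtain ⟨h3, h4⟩ := of_andb h1
    obtain ⟨h5, h6⟩ := of_andb h4
    obtain ⟨h7, h8⟩ := of_andb h2
    obtain ⟨h9, h10⟩ := secs_spec ps K0 K w d t s.k h8
    have e3 : k0 < s.k := Nat.le_of_ble_eq_true h3
    have e5 : s.k ≤ 104 := Nat.le_of_ble_eq_true h5
    have e6 : sb s ≤ 1073741824 := Nat.le_of_ble_eq_true h6
    refine ⟨⟨e3, e5, h9⟩, fun k x hx => ?_⟩
    rcases hx with ⟨rfl, rfl⟩ | hx
    · exact ⟨e3, e5, e6, h7⟩
    · exact h10 k x hx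

/-- The sum over the generators as a finite sum. -/
theorem sum_gsum (f : Gn → ℝ) : ∀ (cs : List ℝ) (gs : List Gn), cs.length = gs.length →
    ∑ i : Fin gs.length, cs.getD i 0 * f (gs.get i) = gsum f cs gs
  | [], [], _ => by simp [gsum]
  | [], g :: gs, h => absurd h (by simp)
  | c :: cs, [], h => absurd h (by simp)
  | c :: cs, g :: gs, h => by
    have h' : cs.length = gs.length := by simpa using h
    have ih := sum_gsum f cs gs h'
    have e : ∑ i : Fin (g :: gs).length, (c :: cs).getD i 0 * f ((g :: gs).get i) =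
        c * f g + ∑ i : Fin gs.length, cs.getD i 0 * f (gs.get i) := by
      simp only [List.length_cons]
      rw [Fin.sum_univ_succ]
      simp
    rw [e, ih]
    unfold gsum
    simp

theorem wq_nonneg {c : Cell} (hA : c.A1 < c.A2) (hB : c.B1 < c.B2) {A B : ℝ} (h : InQ c A B)
    {x0 x1 x2 x3 : ℝ} (h0 : 0 ≤ x0) (h1 : 0 ≤ x1) (h2 : 0 ≤ x2) (h3 : 0 ≤ x3) : 0 ≤ wq c A B x0 x1 x2 x3 := by
  have g1 : (c.A1 : ℝ) < c.A2 := by exact_mod_cast hA
  have g2 : (c.B1 : ℝ) < c.B2 := by exact_mod_cast hB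
  have u1 : 0 ≤ (c.A2 : ℝ) - 256 * A := by linarith [h.a2]
  have u2 : 0 ≤ 256 * A - (c.A1 : ℝ) := by linarith [h.a1]
  have u3 : 0 ≤ (c.B2 : ℝ) - 256 * B := by linarith [h.b2]
  have u4 : 0 ≤ 256 * B - (c.B1 : ℝ) := by linarith [h.b1]
  have u5 : 0 ≤ (c.A2 : ℝ) - (c.A1 : ℝ) := by linarith
  have u6 : 0 ≤ (c.B2 : ℝ) - (c.B1 : ℝ) := by linarith
  unfold wq
  positivity

theorem csq_nonneg {c : Cell} (hA : c.A1 < c.A2) (hB : c.B1 < c.B2) {A B : ℝ} (h : InQ c A B) (i : ℕ) :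
    0 ≤ (csq c A B).getD i 0 := by
  rw [List.getD_eq_getElem?_getD]
  cases hx : (csq c A B)[i]? with
  | none => simp
  | some x =>
    have hm : x ∈ csq c A B := List.mem_of_getElem? hx
    unfold csq at hm
    obtain ⟨q, _, rfl⟩ := List.mem_map.1 hm
    have h1 := wq_nonneg hA hB h (Nat.cast_nonneg (α := ℝ) q.c0) (Nat.cast_nonneg (α := ℝ) q.c1)
      (Nat.cast_nonneg (α := ℝ) q.c2) (Nat.cast_nonneg (α := ℝ) q.c3)
    show 0 ≤ wq c A B q.c0 q.c1 q.c2 q.c3 / 4096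
    positivity

theorem rng {z : ℝ} (h1 : 1 / 4 ≤ z) (h2 : z ≤ 1 / (7 / 100) ^ 2) : 1 / √z ∈ Icc (7 / 100 : ℝ) 2 := by
  have hz : 0 < z := by linarith
  have hs : 0 < √z := Real.sqrt_pos.2 hz
  have a1 : 1 / 2 ≤ √z := by
    apply Real.le_sqrt_of_sq_le
    linarith
  have a2 : √z ≤ 100 / 7 := by
    rw [show (100 / 7 : ℝ) = √((100 / 7) ^ 2) by rw [Real.sqrt_sq (by norm_num)]]
    apply Real.sqrt_le_sqrt
    refine h2.trans (le_of_eq ?_)
    norm_num
  constructor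
  · rw [le_div_iff₀ hs]
    linarith
  · rw [div_le_iff₀ hs]
    linarith

end FINM

open FINM in
theorem specFIN (hSEC : SpecSEC) (hINT : SpecINT) : SpecFIN := by
  intro hTRG W L ps rows hTb hW hL T gs hlen hgs mu c hA1 hB1 hcl hck v γ R hD A B hin hz D1 D2 ho M hM1 hM2
  cases rows with
  | nil => exact absurd hck (by simp [chk])
  | cons K0 K =>
    have hck' : andb (andb (andb (Nat.ble (Nat.succ c.A1) c.A2) (Nat.ble (Nat.succ c.B1) c.B2))
        (andb (Nat.ble c.A2 104490) (Nat.ble c.B2 104490)))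
      (andb (andb (Nat.ble c.th 12) (andb (cbd c.c) (mbd mu c)))
        (andb (itgs c.s) (secs ps K0 K (wtOf gs) (mkCd (wtOf gs) c) c.s 0))) = true := hck
    obtain ⟨h1, h2⟩ := of_andb hck'
    obtain ⟨h3, h4⟩ := of_andb h1
    obtain ⟨h5, h6⟩ := of_andb h3
    obtain ⟨h7, h8⟩ := of_andb h4
    obtain ⟨h9, h10⟩ := of_andb h2
    obtain ⟨h11, h12⟩ := of_andb h9
    obtain ⟨h13, h14⟩ := of_andb h12
    obtain ⟨h15, h16⟩ := of_andb h10
    have hm : andb (Nat.ble (Nat.mul (Nat.mul c.m1 363520) (Nat.mul c.m1 363520))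
        (Nat.mul (Nat.mul (Nat.mul mu 27120) (Nat.mul mu 27120)) (Nat.mul c.A1 c.B1)))
      (Nat.ble (Nat.mul (Nat.mul (Nat.mul mu 400) (Nat.mul mu 400)) (Nat.mul c.A2 c.B2))
        (Nat.mul (Nat.mul c.m2 3072) (Nat.mul c.m2 3072))) = true := h14
    obtain ⟨h17, h18⟩ := of_andb hm
    have eA : c.A1 < c.A2 := Nat.le_of_ble_eq_true h5
    have eB : c.B1 < c.B2 := Nat.le_of_ble_eq_true h6
    have hCl : ClOK mu c := ⟨eA, eB, hA1, hB1, Nat.le_of_ble_eq_true h7, Nat.le_of_ble_eq_true h8,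
      Nat.le_of_ble_eq_true h11, cbd_spec _ h13, Nat.le_of_ble_eq_true h17, Nat.le_of_ble_eq_true h18⟩
    obtain ⟨hch, hsec⟩ := secs_spec _ _ _ _ _ _ _ h16
    obtain ⟨b, hbi, hb0, hb⟩ := hINT hTRG c A B hin eA eB hch h15
    have hA : 0 < A := by
      have : (0 : ℝ) < c.A1 := by exact_mod_cast hA1
      linarith [hin.a1]
    have hB : 0 < B := by
      have : (0 : ℝ) < c.B1 := by exact_mod_cast hB1
      linarith [hin.b1]
    have hcs : (csq c A B).length = gs.length := by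
      unfold csq
      rw [List.length_map, hcl]
    refine rebMain (T := T) (b0 := 7 / 100) (mu := (mu : ℝ) / 10000) (θ := (c.th : ℝ) / 20) hW hL hD hA hB
      (fun s => rng (hz s).1 (hz s).2) hz ho hM1 hM2 (k := gs.length) (fun i => gpo (gs.get i))
      (fun i => (hgs _ (List.get_mem gs i)).2) (fun i => (csq c A B).getD i 0)
      (fun i => csq_nonneg eA eB hin i) b hbi hb0 ?_
    intro s v' γ' R' Y' hAd
    obtain ⟨k, x, hx1, hx2, hx3, hx4⟩ := hb s
    obtain ⟨q1, q2, q3, q4⟩ := hsec k x hx1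
    have hn : A * (1 - sin s ^ 2) + B * sin s ^ 2 = nn A B s := by
      unfold nn
      have := sin_sq_add_cos_sq s
      rw [show cos s ^ 2 = 1 - sin s ^ 2 by linarith]
    have hS := hSEC W L ps K0 K hTb gs hlen (fun g hg => (hgs g hg).1) mu c hCl hcl (nd k).yl (nd x.k).yu x
      (node_lt q1 q2) (node_yu x.k q2) q3 q4 A B hin (sin s ^ 2) v' γ' R' Y' M hx2 hx3
      (by rw [hn]; exact hAd)
    rw [hn] at hS
    rw [sum_gsum (fun g => gI (gpo g) (sin s ^ 2) v' γ' R' Y') _ _ hcs, hx4]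
    exact hS

end Pool.Agent.Lib.MP_084b88_gt.QV
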