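import Pool.Agent.Lib.MP_084b88_gt.QV.SpecC
import Pool.Agent.Lib.MP_084b88_gt.CT.CEL
import Pool.Agent.Lib.MP_084b88_gt.CT.SCT

/-!
# MP_084b88_gt, project QV, module INT: the piecewise bound and its integral
-/

set_option autoImplicit false

open MeasureTheory Set Real

namespace Pool.Agent.Lib.MP_084b88_gt.QV

open Pool.Agent.Lib.MP_084b88_gt.CT (contr getL Nod)

namespace INTM

/-! ### the table of nodes -/

theorem nd_mem (k : ℕ) (hk : k ≤ 104) : nd k ∈ nodU :=
  CT.CELM.getL_mem _ _ _ (lt_of_le_of_lt hk (by decide))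

theorem nd_zero : (nd 0).k = 0 := rfl

theorem nd_last : (nd 104).k = 256 := rfl

theorem nd_k_succ : ∀ k : ℕ, k < 104 → (nd k).k < (nd (k + 1)).k := by
  intro k hk
  unfold nd
  interval_cases k <;> decide

theorem nd_yl_succ : ∀ k : ℕ, k < 104 → (nd k).yl < (nd (k + 1)).yl := by
  intro k hk
  unfold nd
  interval_cases k <;> decide

theorem nd_yl_yu : ∀ k : ℕ, k ≤ 104 → (nd k).yl ≤ (nd k).yu := by
  intro k hk
  unfold nd
  interval_cases k <;> decide

theorem mono_of_succ (f : ℕ → ℕ) (h : ∀ k : ℕ, k < 104 → f k < f (k + 1)) {j k : ℕ} (hjk : j < k)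
    (hk : k ≤ 104) : f j < f k := by
  have key : ∀ d : ℕ, j + d + 1 ≤ 104 → f j < f (j + d + 1) := by
    intro d
    induction d with
    | zero => intro hd; exact h j (by omega)
    | succ d ih => intro hd; exact lt_trans (ih (by omega)) (h (j + d + 1) (by omega))
  obtain ⟨d, rfl⟩ : ∃ d, k = j + d + 1 := ⟨k - j - 1, by omega⟩
  exact key d hk

theorem nd_k_lt {j k : ℕ} (hjk : j < k) (hk : k ≤ 104) : (nd j).k < (nd k).k :=
  mono_of_succ (fun k => (nd k).k) nd_k_succ hjk hk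

theorem nd_k_le {j k : ℕ} (hjk : j ≤ k) (hk : k ≤ 104) : (nd j).k ≤ (nd k).k := by
  rcases Nat.eq_or_lt_of_le hjk with h | h
  · rw [h]
  · exact (nd_k_lt h hk).le

theorem nd_lt {j k : ℕ} (h : j < k) (hk : k ≤ 104) : (nd j).yl < (nd k).yu :=
  lt_of_lt_of_le (mono_of_succ (fun k => (nd k).yl) nd_yl_succ h hk) (nd_yl_yu k hk)

/-- Angle of a node. -/
noncomputable def th (k : ℕ) : ℝ := ((nd k).k : ℝ) * π / 512

theorem th_zero : th 0 = 0 := by
  unfold th
  rw [nd_zero]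
  simp

theorem th_last : th 104 = π / 2 := by
  unfold th
  rw [nd_last]
  push_cast
  ring

theorem th_le {j k : ℕ} (h : j ≤ k) (hk : k ≤ 104) : th j ≤ th k := by
  unfold th
  have : ((nd j).k : ℝ) ≤ (nd k).k := by exact_mod_cast nd_k_le h hk
  have hp := pi_pos
  gcongr

theorem th_range {k : ℕ} (hk : k ≤ 104) : 0 ≤ th k ∧ th k ≤ π / 2 := by
  rw [← th_zero, ← th_last]
  exact ⟨th_le (Nat.zero_le _) hk, th_le hk le_rfl⟩

/-- The integral over a sector. -/
theorem sec_int (hTRU : SpecTRU) (f : ℝ → ℝ) (hf : Continuous f) {j k : ℕ} (hjk : j < k)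
    (hk : k ≤ 104) (a b : ℝ)
    (hmin : ∀ s : ℝ, ((nd j).yl : ℝ) ≤ 1048576 * sin s ^ 2 → 1048576 * sin s ^ 2 ≤ ((nd k).yu : ℝ) →
      a * (((nd k).yu : ℝ) - 1048576 * sin s ^ 2) + b * (1048576 * sin s ^ 2 - ((nd j).yl : ℝ)) ≤ f s) :
    ∃ η : ℝ, (((nd k).k : ℝ) - ((nd j).k : ℝ)) * 524288 - (((nd k).sg : ℝ) - ((nd j).sg : ℝ)) - 1 ≤ η ∧
      η ≤ (((nd k).k : ℝ) - ((nd j).k : ℝ)) * 524288 - (((nd k).sg : ℝ) - ((nd j).sg : ℝ)) + 1 ∧
      ((nd j).yl : ℝ) * (((nd k).k : ℝ) - ((nd j).k : ℝ)) ≤ η ∧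
      η ≤ ((nd k).yu : ℝ) * (((nd k).k : ℝ) - ((nd j).k : ℝ)) ∧
      a * (((nd k).yu : ℝ) * (((nd k).k : ℝ) - ((nd j).k : ℝ)) - η) +
        b * (η - ((nd j).yl : ℝ) * (((nd k).k : ℝ) - ((nd j).k : ℝ))) ≤
        512 / π * ∫ s in (th j)..(th k), f s := by
  have hp := pi_pos
  have h1 := hTRU (nd j) (nd_mem j (by omega))
  have h2 := hTRU (nd k) (nd_mem k hk)
  set x := nd j with hx
  set x' := nd k with hx'
  have hjk' : th j ≤ th k := th_le hjk.le hk
  have hlo : ∀ s, th j ≤ s → s ≤ th k → (x.yl : ℝ) ≤ 1048576 * sin s ^ 2 := by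
    intro s hs1 hs2
    have := CT.CELM.sin_sq_mono (th_range (k := j) (by omega)).1 hs1 (le_trans hs2 (th_range hk).2)
    have h3 : sin ((x.k : ℝ) * π / 512) ^ 2 ≤ sin s ^ 2 := this
    linarith [h1.1]
  have hup : ∀ s, th j ≤ s → s ≤ th k → 1048576 * sin s ^ 2 ≤ (x'.yu : ℝ) := by
    intro s hs1 hs2
    have := CT.CELM.sin_sq_mono (le_trans (th_range (k := j) (by omega)).1 hs1) hs2 (th_range hk).2
    have h3 : sin s ^ 2 ≤ sin ((x'.k : ℝ) * π / 512) ^ 2 := this
    linarith [h2.2.1]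
  set I : ℝ := ∫ s in (th j)..(th k), 1048576 * sin s ^ 2 with hI
  have hlen : 512 / π * (th k - th j) = (x'.k : ℝ) - x.k := by
    unfold th
    rw [← hx, ← hx']
    field_simp
  have hci : ∀ g : ℝ → ℝ, Continuous g → IntervalIntegrable g volume (th j) (th k) :=
    fun g hg => hg.intervalIntegrable _ _
  have hIval : I = 1048576 * ((sin (th j) * cos (th j) - sin (th k) * cos (th k) + th k - th j) / 2) := by
    rw [hI, intervalIntegral.integral_const_mul, integral_sin_sq]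
  have hs2 : ∀ m : ℕ, sin (th m) * cos (th m) = sin (((nd m).k : ℝ) * π / 256) / 2 := by
    intro m
    have : ((nd m).k : ℝ) * π / 256 = 2 * th m := by unfold th; ring
    rw [this, sin_two_mul]; ring
  have hη : 512 / π * I = 524288 * ((x'.k : ℝ) - x.k) - (1048576 * (128 / π) * sin ((x'.k : ℝ) * π / 256) -
      1048576 * (128 / π) * sin ((x.k : ℝ) * π / 256)) := by
    rw [hIval, hs2, hs2, ← hx, ← hx', ← hlen]
    field_simp
    ring
  have hcs : Continuous fun s : ℝ => (1048576 : ℝ) * sin s ^ 2 := by fun_prop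
  have hIlo : (x.yl : ℝ) * (th k - th j) ≤ I := by
    have : ∫ _ in (th j)..(th k), (x.yl : ℝ) ≤ I := by
      apply intervalIntegral.integral_mono_on hjk' (by simp) (hci _ hcs)
      intro s hs
      exact hlo s hs.1 hs.2
    rw [intervalIntegral.integral_const, smul_eq_mul] at this
    linarith
  have hIup : I ≤ (x'.yu : ℝ) * (th k - th j) := by
    have : I ≤ ∫ _ in (th j)..(th k), (x'.yu : ℝ) := by
      apply intervalIntegral.integral_mono_on hjk' (hci _ hcs) (by simp)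
      intro s hs
      exact hup s hs.1 hs.2
    rw [intervalIntegral.integral_const, smul_eq_mul] at this
    linarith
  have hc0 : (0 : ℝ) ≤ 512 / π := by positivity
  refine ⟨512 / π * I, ?_, ?_, ?_, ?_, ?_⟩
  · rw [hη]; linarith [h1.2.2.1, h2.2.2.2]
  · rw [hη]; linarith [h1.2.2.2, h2.2.2.1]
  · rw [← hlen]
    have := mul_le_mul_of_nonneg_left hIlo hc0
    linarith
  · rw [← hlen]
    have := mul_le_mul_of_nonneg_left hIup hc0
    linarith
  · rw [← hlen]
    have hmain : ∫ s in (th j)..(th k), (a * ((x'.yu : ℝ) - 1048576 * sin s ^ 2) +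
        b * (1048576 * sin s ^ 2 - (x.yl : ℝ))) ≤ ∫ s in (th j)..(th k), f s := by
      apply intervalIntegral.integral_mono_on hjk' (hci _ (by fun_prop)) (hci _ hf)
      intro s hs
      exact hmin s (hlo s hs.1 hs.2) (hup s hs.1 hs.2)
    have he : ∫ s in (th j)..(th k), (a * ((x'.yu : ℝ) - 1048576 * sin s ^ 2) +
        b * (1048576 * sin s ^ 2 - (x.yl : ℝ))) =
        a * ((x'.yu : ℝ) * (th k - th j) - I) + b * (I - (x.yl : ℝ) * (th k - th j)) := by
      have e1 : ∀ s : ℝ, a * ((x'.yu : ℝ) - 1048576 * sin s ^ 2) + b * (1048576 * sin s ^ 2 - (x.yl : ℝ)) =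
          (a * (x'.yu : ℝ) - b * (x.yl : ℝ)) + (b - a) * (1048576 * sin s ^ 2) := by intro s; ring
      simp only [e1]
      rw [intervalIntegral.integral_add (by simp) ((hci _ hcs).const_mul _),
        intervalIntegral.integral_const, intervalIntegral.integral_const_mul, ← hI, smul_eq_mul]
      ring
    rw [he] at hmain
    have := mul_le_mul_of_nonneg_left hmain hc0
    linarith

/-! ### the bilinear interpolation -/

theorem wq_add (c : Cell) (A B d1 d2 d3 d4 e1 e2 e3 e4 : ℝ) :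
    wq c A B (d1 + e1) (d2 + e2) (d3 + e3) (d4 + e4) = wq c A B d1 d2 d3 d4 + wq c A B e1 e2 e3 e4 := by
  unfold wq
  ring

theorem wq_const {c : Cell} (hA : c.A1 < c.A2) (hB : c.B1 < c.B2) (A B d : ℝ) :
    wq c A B d d d d = d := by
  have h1 : (c.A1 : ℝ) < c.A2 := by exact_mod_cast hA
  have h2 : (c.B1 : ℝ) < c.B2 := by exact_mod_cast hB
  have h3 : (0 : ℝ) < ((c.A2 : ℝ) - c.A1) * ((c.B2 : ℝ) - c.B1) := mul_pos (by linarith) (by linarith)
  unfold wq
  rw [div_eq_iff h3.ne']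
  ring

theorem wq_mono {c : Cell} (hA : c.A1 < c.A2) (hB : c.B1 < c.B2) {A B : ℝ} (h : InQ c A B)
    {d1 d2 d3 d4 e1 e2 e3 e4 : ℝ} (h1 : d1 ≤ e1) (h2 : d2 ≤ e2) (h3 : d3 ≤ e3) (h4 : d4 ≤ e4) :
    wq c A B d1 d2 d3 d4 ≤ wq c A B e1 e2 e3 e4 := by
  have g1 : (c.A1 : ℝ) < c.A2 := by exact_mod_cast hA
  have g2 : (c.B1 : ℝ) < c.B2 := by exact_mod_cast hB
  have g3 : (0 : ℝ) < ((c.A2 : ℝ) - c.A1) * ((c.B2 : ℝ) - c.B1) := mul_pos (by linarith) (by linarith)
  unfold wq
  rw [div_le_div_iff_of_pos_right g3]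
  have u1 : 0 ≤ (c.A2 : ℝ) - 256 * A := by linarith [h.a2]
  have u2 : 0 ≤ 256 * A - (c.A1 : ℝ) := by linarith [h.a1]
  have u3 : 0 ≤ (c.B2 : ℝ) - 256 * B := by linarith [h.b2]
  have u4 : 0 ≤ 256 * B - (c.B1 : ℝ) := by linarith [h.b1]
  gcongr

/-- linear combinations commute with the interpolation -/
theorem wq_lin (c : Cell) (A B p q d1 d2 d3 d4 e1 e2 e3 e4 : ℝ) :
    wq c A B (d1 * p + e1 * q) (d2 * p + e2 * q) (d3 * p + e3 * q) (d4 * p + e4 * q) =
      wq c A B d1 d2 d3 d4 * p + wq c A B e1 e2 e3 e4 * q := by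
  unfold wq
  ring

/-! ### the piecewise function -/

/-- the bound on the sectors of the list, the first one starts at the node `k` -/
noncomputable def G (c : Cell) (A B : ℝ) : List Sec → ℕ → ℝ → ℝ
  | [], _, _ => 0
  | x :: r, k, t => if t ≤ th x.k then bet c (nd k).yl (nd x.k).yu x A B (sin t ^ 2)
      else G c A B r x.k t

theorem bet_aff (c : Cell) (yl yu : ℕ) (x : Sec) (A B : ℝ) :
    ∃ α β : ℝ, ∀ y : ℝ, bet c yl yu x A B y = α + β * y := by
  refine ⟨((wq c A B x.b0 x.b1 x.b2 x.b3 - 2 ^ 25) / 2 ^ 24 * (yu : ℝ) -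
    (wq c A B x.b4 x.b5 x.b6 x.b7 - 2 ^ 25) / 2 ^ 24 * (yl : ℝ)) / ((yu : ℝ) - (yl : ℝ)),
    ((wq c A B x.b4 x.b5 x.b6 x.b7 - 2 ^ 25) / 2 ^ 24 * 2 ^ 20 -
    (wq c A B x.b0 x.b1 x.b2 x.b3 - 2 ^ 25) / 2 ^ 24 * 2 ^ 20) / ((yu : ℝ) - (yl : ℝ)), fun y => ?_⟩
  unfold bet
  ring

theorem cont_bet (c : Cell) (yl yu : ℕ) (x : Sec) (A B : ℝ) :
    Continuous fun t : ℝ => bet c yl yu x A B (sin t ^ 2) := by
  obtain ⟨α, β, h⟩ := bet_aff c yl yu x A B
  simp only [h]
  fun_prop

theorem meas_G (c : Cell) (A B : ℝ) (l : List Sec) : ∀ k : ℕ, Measurable (G c A B l k) := by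
  induction l with
  | nil => intro k; exact measurable_const
  | cons x r ih =>
    intro k
    exact Measurable.ite measurableSet_Iic (cont_bet c _ _ x A B).measurable (ih x.k)

theorem bdd_G (c : Cell) (A B : ℝ) (l : List Sec) : ∀ k : ℕ, ∃ M : ℝ, ∀ t, |G c A B l k t| ≤ M := by
  induction l with
  | nil => intro k; exact ⟨0, fun t => by simp [G]⟩
  | cons x r ih =>
    intro k
    obtain ⟨M, hM⟩ := ih x.k
    obtain ⟨α, β, h⟩ := bet_aff c (nd k).yl (nd x.k).yu x A B
    refine ⟨max M (|α| + |β|), fun t => ?_⟩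
    show |if t ≤ th x.k then bet c (nd k).yl (nd x.k).yu x A B (sin t ^ 2) else G c A B r x.k t| ≤ _
    split_ifs with ht
    · refine le_trans ?_ (le_max_right _ _)
      rw [h]
      refine (abs_add_le _ _).trans (add_le_add le_rfl ?_)
      rw [abs_mul]
      have h1 : |sin t ^ 2| ≤ 1 := by
        rw [abs_of_nonneg (sq_nonneg _)]
        exact sin_sq_le_one t
      calc |β| * |sin t ^ 2| ≤ |β| * 1 := by gcongr
        _ = |β| := mul_one _
    · exact (hM t).trans (le_max_left _ _)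

theorem int_G (c : Cell) (A B : ℝ) (l : List Sec) (k : ℕ) (a b : ℝ) :
    IntervalIntegrable (G c A B l k) volume a b := by
  obtain ⟨M, hM⟩ := bdd_G c A B l k
  refine (intervalIntegrable_const (c := M)).mono_fun' (meas_G c A B l k).aestronglyMeasurable ?_
  refine Filter.Eventually.of_forall fun t => ?_
  show |G c A B l k t| ≤ M
  exact hM t

/-- facts on the nodes -/
theorem ChS_le {l : List Sec} : ∀ {k : ℕ}, ChS l k → k ≤ 104 := by
  induction l with
  | nil => intro k h; exact h.le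
  | cons x r ih => intro k h; exact h.1.le.trans h.2.1

/-- the sector of a point -/
theorem exists_sec (c : Cell) (A B : ℝ) (l : List Sec) : ∀ (k : ℕ) (t : ℝ), l ≠ [] → ChS l k →
    th k ≤ t → t ≤ th 104 → ∃ (j : ℕ) (x : Sec), InS l k j x ∧ j < x.k ∧ x.k ≤ 104 ∧ th j ≤ t ∧
      t ≤ th x.k ∧ G c A B l k t = bet c (nd j).yl (nd x.k).yu x A B (sin t ^ 2) := by
  induction l with
  | nil => intro k t h; exact absurd rfl h
  | cons x r ih =>
    intro k t _ hc h1 h2
    obtain ⟨c1, c2, c3⟩ := hc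
    by_cases ht : t ≤ th x.k
    · exact ⟨k, x, Or.inl ⟨rfl, rfl⟩, c1, c2, h1, ht, if_pos ht⟩
    · have hr : r ≠ [] := by
        rintro rfl
        have : x.k = 104 := c3
        rw [this] at ht
        exact ht h2
      obtain ⟨j, z, a1, a2, a3, a4, a5, a6⟩ := ih x.k t hr c3 (not_le.1 ht).le h2
      refine ⟨j, z, Or.inr a1, a2, a3, a4, a5, ?_⟩
      rw [← a6]
      exact if_neg ht

/-- one sector of the integral -/
theorem sec_le (hTRU : SpecTRU) {c : Cell} {A B : ℝ} (hin : InQ c A B) (hA : c.A1 < c.A2)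
    (hB : c.B1 < c.B2) {k : ℕ} (x : Sec) (hk : k < x.k) (hx : x.k ≤ 104) :
    wq c A B (ctb (nd k) (nd x.k) x.b0 x.b4 : ℕ) (ctb (nd k) (nd x.k) x.b1 x.b5 : ℕ)
      (ctb (nd k) (nd x.k) x.b2 x.b6 : ℕ) (ctb (nd k) (nd x.k) x.b3 x.b7 : ℕ) -
        2 ^ 25 * (((nd x.k).k : ℝ) - (nd k).k) ≤
      512 / π * (2 ^ 24 * ∫ t in (th k)..(th x.k), bet c (nd k).yl (nd x.k).yu x A B (sin t ^ 2)) := by
  have hyy : (nd k).yl < (nd x.k).yu := nd_lt hk hx
  have hkk : (nd k).k < (nd x.k).k := nd_k_lt hk hx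
  have hyr : (0 : ℝ) < ((nd x.k).yu : ℝ) - (nd k).yl := by
    have : ((nd k).yl : ℝ) < (nd x.k).yu := by exact_mod_cast hyy
    linarith
  set yl : ℝ := ((nd k).yl : ℝ) with hyl
  set yu : ℝ := ((nd x.k).yu : ℝ) with hyu
  set a : ℝ := (wq c A B x.b0 x.b1 x.b2 x.b3 - 2 ^ 25) / (yu - yl) with ha
  set b : ℝ := (wq c A B x.b4 x.b5 x.b6 x.b7 - 2 ^ 25) / (yu - yl) with hb
  have hbet : ∀ t : ℝ, a * (yu - 1048576 * sin t ^ 2) + b * (1048576 * sin t ^ 2 - yl) =
      2 ^ 24 * bet c (nd k).yl (nd x.k).yu x A B (sin t ^ 2) := by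
    intro t
    unfold bet
    rw [← hyl, ← hyu, ha, hb]
    field_simp
    ring
  obtain ⟨η, e1, e2, e3, e4, e5⟩ := sec_int hTRU
    (fun t => 2 ^ 24 * bet c (nd k).yl (nd x.k).yu x A B (sin t ^ 2))
    (continuous_const.mul (cont_bet c _ _ x A B)) hk hx a b (by
      intro s _ _
      rw [← hyl, ← hyu, hbet])
  rw [← hyl, ← hyu] at e5
  rw [← hyl] at e3
  rw [← hyu] at e4
  rw [intervalIntegral.integral_const_mul] at e5
  refine le_trans ?_ e5
  -- the numbers of the checker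
  have hdk : (((nd x.k).k - (nd k).k : ℕ) : ℝ) = ((nd x.k).k : ℝ) - (nd k).k := Nat.cast_sub hkk.le
  have hdk0 : (0 : ℝ) ≤ ((nd x.k).k : ℝ) - (nd k).k := by
    rw [← hdk]
    exact Nat.cast_nonneg _
  have hyl0 : (0 : ℝ) ≤ yl := Nat.cast_nonneg _
  have hη0 : 0 ≤ η := le_trans (mul_nonneg hyl0 hdk0) e3
  set dk : ℕ := (nd x.k).k - (nd k).k with hdkn
  have g0 : ((dk * 524288 + (nd k).sg - ((nd x.k).sg + 1) : ℕ) : ℝ) ≤ η := by
    rcases le_total ((nd x.k).sg + 1) (dk * 524288 + (nd k).sg) with h | h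
    · rw [Nat.cast_sub h]
      push_cast
      rw [hdk]
      linarith
    · rw [Nat.sub_eq_zero_of_le h]
      simpa using hη0
  have g1 : η ≤ ((dk * 524288 + ((nd k).sg + 1) - (nd x.k).sg : ℕ) : ℝ) := by
    have h1 : ((dk * 524288 + ((nd k).sg + 1) : ℕ) : ℝ) ≤
        ((dk * 524288 + ((nd k).sg + 1) - (nd x.k).sg : ℕ) : ℝ) + (nd x.k).sg := by
      have : dk * 524288 + ((nd k).sg + 1) ≤
          (dk * 524288 + ((nd k).sg + 1) - (nd x.k).sg) + (nd x.k).sg := by omega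
      exact_mod_cast this
    push_cast at h1
    rw [hdk] at h1
    linarith
  have hc : ∀ ml mu : ℕ, ((ctb (nd k) (nd x.k) ml mu : ℕ) : ℝ) ≤
      (ml : ℝ) * ((yu * (((nd x.k).k : ℝ) - (nd k).k) - η) / (yu - yl)) +
        (mu : ℝ) * ((η - yl * (((nd x.k).k : ℝ) - (nd k).k)) / (yu - yl)) := by
    intro ml mu
    have := CT.SCTM.contr_real dk (dk * 524288 + (nd k).sg - ((nd x.k).sg + 1))
      (dk * 524288 + ((nd k).sg + 1) - (nd x.k).sg) (nd k).yl (nd x.k).yu ml mu 0 η hyy g0 g1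
      (by rw [hdk]; exact e3) (by rw [hdk]; exact e4)
    rw [hdk, ← hyl, ← hyu, Nat.cast_zero, sub_zero] at this
    refine le_trans this (le_of_eq ?_)
    ring
  refine (sub_le_sub_right (wq_mono hA hB hin (hc x.b0 x.b4) (hc x.b1 x.b5) (hc x.b2 x.b6)
    (hc x.b3 x.b7)) _).trans ?_
  rw [wq_lin, ha, hb]
  apply le_of_eq
  have hne := hyr.ne'
  field_simp
  ring

/-- the integral over all sectors -/
theorem itg_le (hTRU : SpecTRU) {c : Cell} {A B : ℝ} (hin : InQ c A B) (hA : c.A1 < c.A2)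
    (hB : c.B1 < c.B2) (l : List Sec) : ∀ k : ℕ, ChS l k →
    wq c A B (itg Sec.b0 Sec.b4 l k : ℕ) (itg Sec.b1 Sec.b5 l k : ℕ) (itg Sec.b2 Sec.b6 l k : ℕ)
      (itg Sec.b3 Sec.b7 l k : ℕ) - 2 ^ 25 * (256 - ((nd k).k : ℝ)) ≤
      512 / π * (2 ^ 24 * ∫ t in (th k)..(th 104), G c A B l k t) := by
  induction l with
  | nil =>
    intro k hk
    have hk' : k = 104 := hk
    subst hk'
    have h0 : ∀ f g : Sec → ℕ, itg f g [] 104 = 0 := fun f g => rfl
    rw [h0, h0, h0, h0, intervalIntegral.integral_same, Nat.cast_zero, wq_const hA hB, nd_last]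
    norm_num
  | cons x r ih =>
    intro k hk
    obtain ⟨c1, c2, c3⟩ := hk
    have h0 : ∀ f g : Sec → ℕ, itg f g (x :: r) k = ctb (nd k) (nd x.k) (f x) (g x) + itg f g r x.k :=
      fun f g => rfl
    have h1 := ih x.k c3
    have h2 := sec_le hTRU hin hA hB x c1 c2
    have hi1 : ∫ t in (th k)..(th x.k), G c A B (x :: r) k t =
        ∫ t in (th k)..(th x.k), bet c (nd k).yl (nd x.k).yu x A B (sin t ^ 2) := by
      apply intervalIntegral.integral_congr_ae
      refine Filter.Eventually.of_forall fun t ht => ?_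
      rw [uIoc_of_le (th_le c1.le c2)] at ht
      exact if_pos ht.2
    have hi2 : ∫ t in (th x.k)..(th 104), G c A B (x :: r) k t =
        ∫ t in (th x.k)..(th 104), G c A B r x.k t := by
      apply intervalIntegral.integral_congr_ae
      refine Filter.Eventually.of_forall fun t ht => ?_
      rw [uIoc_of_le (th_le c2 le_rfl)] at ht
      exact if_neg (not_le.2 ht.1)
    have hi : ∫ t in (th k)..(th 104), G c A B (x :: r) k t =
        (∫ t in (th k)..(th x.k), bet c (nd k).yl (nd x.k).yu x A B (sin t ^ 2)) +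
          ∫ t in (th x.k)..(th 104), G c A B r x.k t := by
      rw [← hi1, ← hi2]
      exact (intervalIntegral.integral_add_adjacent_intervals (int_G _ _ _ _ _ _ _)
        (int_G _ _ _ _ _ _ _)).symm
    rw [hi, h0, h0, h0, h0]
    push_cast
    rw [wq_add]
    linarith

/-! ### the periodic function -/

/-- the bound as a function of the angle -/
noncomputable def bb (c : Cell) (A B : ℝ) (s : ℝ) : ℝ := G c A B c.s 0 (arcsin |sin s|)

theorem meas_bb (c : Cell) (A B : ℝ) : Measurable (bb c A B) := by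
  refine (meas_G c A B c.s 0).comp ?_
  exact (continuous_arcsin.comp (continuous_sin.abs)).measurable

theorem int_bb (c : Cell) (A B : ℝ) (a b : ℝ) : IntervalIntegrable (bb c A B) volume a b := by
  obtain ⟨M, hM⟩ := bdd_G c A B c.s 0
  refine (intervalIntegrable_const (c := M)).mono_fun' (meas_bb c A B).aestronglyMeasurable ?_
  refine Filter.Eventually.of_forall fun t => ?_
  show |G c A B c.s 0 (arcsin |sin t|)| ≤ M
  exact hM _

theorem bb_sub (c : Cell) (A B s : ℝ) : bb c A B (π - s) = bb c A B s := by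
  unfold bb
  rw [sin_pi_sub]

theorem bb_add (c : Cell) (A B s : ℝ) : bb c A B (s + π) = bb c A B s := by
  unfold bb
  rw [sin_add_pi, abs_neg]

theorem integral_bb (c : Cell) (A B : ℝ) :
    ∫ s in (0 : ℝ)..(2 * π), bb c A B s = 4 * ∫ t in (th 0)..(th 104), G c A B c.s 0 t := by
  have h0 : th 0 = 0 := th_zero
  have h64 : th 104 = π / 2 := th_last
  have e1 : ∫ s in (0 : ℝ)..(π / 2), bb c A B s = ∫ t in (th 0)..(th 104), G c A B c.s 0 t := by
    rw [h0, h64]
    apply intervalIntegral.integral_congr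
    intro s hs
    rw [uIcc_of_le (by positivity)] at hs
    show G c A B c.s 0 (arcsin |sin s|) = G c A B c.s 0 s
    have hs0 : 0 ≤ sin s := sin_nonneg_of_nonneg_of_le_pi hs.1 (by linarith [hs.2, pi_pos])
    rw [abs_of_nonneg hs0, arcsin_sin (by linarith [hs.1, pi_pos]) hs.2]
  have e2 : ∫ s in (π / 2)..π, bb c A B s = ∫ s in (0 : ℝ)..(π / 2), bb c A B s := by
    have h1 := intervalIntegral.integral_comp_sub_left (a := 0) (b := π / 2) (fun s => bb c A B s) π
    rw [sub_zero, show π - π / 2 = π / 2 by ring] at h1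
    rw [← h1]
    apply intervalIntegral.integral_congr
    intro s _
    exact bb_sub c A B s
  have e3 : ∫ s in (0 : ℝ)..π, bb c A B s = 2 * ∫ s in (0 : ℝ)..(π / 2), bb c A B s := by
    rw [← intervalIntegral.integral_add_adjacent_intervals (int_bb c A B 0 (π / 2))
      (int_bb c A B (π / 2) π), e2]
    ring
  have e4 : ∫ s in π..(2 * π), bb c A B s = ∫ s in (0 : ℝ)..π, bb c A B s := by
    have h1 := intervalIntegral.integral_comp_add_right (a := 0) (b := π) (fun s => bb c A B s) π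
    rw [zero_add, show π + π = 2 * π by ring] at h1
    rw [← h1]
    apply intervalIntegral.integral_congr
    intro s _
    exact bb_add c A B s
  rw [← intervalIntegral.integral_add_adjacent_intervals (int_bb c A B 0 π)
    (int_bb c A B π (2 * π)), e4, e3, e1]
  ring

theorem of_andb {a b : Bool} (h : andb a b = true) : a = true ∧ b = true := by
  cases a
  · exact absurd h (by simp [andb])
  · exact ⟨rfl, h⟩

end INTM

open INTM in
theorem specINT : SpecINT := by
  intro hTRU c A B hin hA hB hch hit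
  refine ⟨bb c A B, int_bb c A B _ _, ?_, ?_⟩
  · rw [integral_bb]
    have h1 := itg_le hTRU hin hA hB c.s 0 hch
    obtain ⟨h2, h3⟩ := of_andb hit
    obtain ⟨h4, h5⟩ := of_andb h2
    obtain ⟨h6, h7⟩ := of_andb h3
    have g : ∀ n : ℕ, Nat.ble 8589934592 n = true → (8589934592 : ℝ) ≤ (n : ℝ) := by
      intro n hn
      have := Nat.le_of_ble_eq_true hn
      exact_mod_cast this
    have h8 := wq_mono hA hB hin (g _ h4) (g _ h5) (g _ h6) (g _ h7)
    rw [wq_const hA hB] at h8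
    have h9 : 0 ≤ 512 / π * (2 ^ 24 * ∫ t in (th 0)..(th 104), G c A B c.s 0 t) := by
      refine le_trans ?_ h1
      rw [nd_zero, Nat.cast_zero]
      linarith
    have hp : (0 : ℝ) < 512 / π := by positivity
    have h10 := nonneg_of_mul_nonneg_right h9 hp
    have h11 := nonneg_of_mul_nonneg_right h10 (by norm_num)
    linarith
  · intro s
    have hs1 : |sin s| ≤ 1 := abs_sin_le_one s
    have hs0 : 0 ≤ |sin s| := abs_nonneg _
    have ht0 : th 0 ≤ arcsin |sin s| := by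
      rw [th_zero]
      exact arcsin_nonneg.2 hs0
    have ht1 : arcsin |sin s| ≤ th 104 := by
      rw [th_last]
      exact arcsin_le_pi_div_two _
    have hne : c.s ≠ [] := by
      intro h
      rw [h] at hch
      exact absurd hch (by simp [ChS])
    obtain ⟨k, x, a1, a2, a3, a4, a5, a6⟩ := exists_sec c A B c.s 0 _ hne hch ht0 ht1
    have hsq : sin (arcsin |sin s|) ^ 2 = sin s ^ 2 := by
      rw [sin_arcsin (by linarith) hs1, sq_abs]
    rw [hsq] at a6
    have hr := th_range (k := k) (by omega)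
    have hr' := th_range a3
    have b1 := CT.CELM.sin_sq_mono hr.1 a4 (le_trans a5 hr'.2)
    have b2 := CT.CELM.sin_sq_mono (le_trans hr.1 a4) a5 hr'.2
    rw [hsq] at b1 b2
    have t1 := (hTRU (nd k) (nd_mem k (by omega))).1
    have t2 := (hTRU (nd x.k) (nd_mem x.k a3)).2.1
    have b1' : sin (((nd k).k : ℝ) * π / 512) ^ 2 ≤ sin s ^ 2 := b1
    have b2' : sin s ^ 2 ≤ sin (((nd x.k).k : ℝ) * π / 512) ^ 2 := b2
    refine ⟨k, x, a1, ?_, ?_, a6⟩
    · norm_num
      linarith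
    · norm_num
      linarith

end Pool.Agent.Lib.MP_084b88_gt.QV
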