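import Pool.Agent.Lib.MP_084b88_gt.QV.SpecD
import Pool.Agent.Lib.MP_084b88_gt.AY.RGM
import Pool.Agent.Lib.MP_084b88_gt.CT.KGL

/-!
# MP_084b88_gt, project QV, module KNT: the check of the knots is correct
-/

set_option autoImplicit false

open MeasureTheory Set Real

namespace Pool.Agent.Lib.MP_084b88_gt.QV.KNTM

open Pool.Agent.Lib.MP_084b88_gt.CW Pool.Agent.Lib.MP_084b88_gt.SY Pool.Agent.Lib.MP_084b88_gt.LG
open Pool.Agent.Lib.MP_084b88_gt.AY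

/-! ## Real inequalities -/

/-- The root. -/
theorem le_GV {W L : ℝ → ℝ} {z g : ℝ} (hz : 0 < z) (ht : 0 ≤ taup)
    (h : g ^ 2 + taup * (g - W (1 / √z)) ^ 2 ≤ om z) : g ≤ GV W L (1 / √z) 0 := by
  have hs : 0 < √z := Real.sqrt_pos.2 hz
  have e : (1 + 1 / √z) ^ 2 / (4 * (1 / √z)) = om z := by
    unfold om
    field_simp
    ring
  unfold GV
  rw [e, le_div_iff₀ (by linarith)]
  have h1 : ((1 + taup) * g - taup * W (1 / √z)) ^ 2 ≤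
      (1 + taup) * (om z - (L (1 / √z) * 0) ^ 2 / 2) - taup * W (1 / √z) ^ 2 := by
    have h2 := mul_le_mul_of_nonneg_left h (by linarith : (0 : ℝ) ≤ 1 + taup)
    nlinarith
  have h3 := Real.le_sqrt_of_sq_le h1
  linarith

/-- `S ≤ √z`. -/
theorem S_le {s w : ℝ} (hs : 0 < s) (h : s ≤ w) :
    (3 * s ^ 4 + 6 * s ^ 2 * w ^ 2 - (w ^ 2) ^ 2) / (8 * s ^ 3) ≤ w := by
  rw [div_le_iff₀ (by positivity)]
  have h1 : 0 ≤ (w - s) ^ 3 * (w + 3 * s) :=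
    mul_nonneg (pow_nonneg (sub_nonneg.2 h) 3) (by linarith)
  nlinarith

/-- `R ≤ 1/√z`. -/
theorem R_le {r w : ℝ} (hw : 0 < w) (h : w ≤ r) :
    (15 * r ^ 4 - 10 * r ^ 2 * w ^ 2 + 3 * (w ^ 2) ^ 2) / (8 * r ^ 5) ≤ 1 / w := by
  have hr : 0 < r := lt_of_lt_of_le hw h
  rw [div_le_div_iff₀ (by positivity) hw]
  have h1 : 0 ≤ (r - w) ^ 3 * (8 * r ^ 2 + 9 * r * w + 3 * w ^ 2) :=
    mul_nonneg (pow_nonneg (sub_nonneg.2 h) 3) (by positivity)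
  nlinarith

/-- `m ≤ om z`. -/
theorem m_le {a b z : ℝ} (ha : 0 < a) (h1 : a * a ≤ 2 ^ 44 * z) (hb : 0 < b) (h2 : 2 ^ 44 * z ≤ b * b) :
    ((3 * (a * a * (a * a)) + 6 * 2 ^ 44 * (a * a * z) - 2 ^ 88 * z ^ 2) * (b * b * (b * b) * b) +
      2 ^ 44 * ((15 * (b * b * (b * b)) - 10 * 2 ^ 44 * (b * b * z) + 3 * 2 ^ 88 * z ^ 2) * (a * a * a)) +
      2 ^ 26 * (a * a * a * (b * b * (b * b) * b))) / (2 ^ 27 * (a * a * a * (b * b * (b * b) * b))) ≤ om z := by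
  have hz : 0 < z := by
    have : 0 < a * a := by positivity
    linarith
  have hs : 0 < √z := Real.sqrt_pos.2 hz
  have e : √z ^ 2 = z := Real.sq_sqrt hz.le
  have k1 : a / 2 ^ 22 ≤ √z := by
    apply Real.le_sqrt_of_sq_le
    rw [div_pow, div_le_iff₀ (by positivity)]
    nlinarith
  have k2 : √z ≤ b / 2 ^ 22 := by
    rw [Real.sqrt_le_left (by positivity), div_pow, le_div_iff₀ (by positivity)]
    nlinarith
  have s1 := S_le (by positivity : (0 : ℝ) < a / 2 ^ 22) k1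
  have s2 := R_le hs k2
  rw [e] at s1 s2
  have h3 : ((3 * (a * a * (a * a)) + 6 * 2 ^ 44 * (a * a * z) - 2 ^ 88 * z ^ 2) * (b * b * (b * b) * b) +
      2 ^ 44 * ((15 * (b * b * (b * b)) - 10 * 2 ^ 44 * (b * b * z) + 3 * 2 ^ 88 * z ^ 2) * (a * a * a)) +
      2 ^ 26 * (a * a * a * (b * b * (b * b) * b))) / (2 ^ 27 * (a * a * a * (b * b * (b * b) * b))) =
      ((3 * (a / 2 ^ 22) ^ 4 + 6 * (a / 2 ^ 22) ^ 2 * z - z ^ 2) / (8 * (a / 2 ^ 22) ^ 3) +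
        (15 * (b / 2 ^ 22) ^ 4 - 10 * (b / 2 ^ 22) ^ 2 * z + 3 * z ^ 2) / (8 * (b / 2 ^ 22) ^ 5) + 2) / 4 := by
    field_simp
    ring
  rw [h3]
  unfold om
  linarith

/-- Bernstein coefficients of degree 4. -/
theorem ck5_sound {T Q M0 M1 M2 g0 g1 g2 h0 h1 h2 : ℤ} (h : ck5 T Q M0 M1 M2 g0 g1 g2 h0 h1 h2 = true)
    {A B : ℝ} (hA : 0 ≤ A) (hB : 0 ≤ B) :
    (Q : ℝ) * (10000000000 * ((g0 : ℝ) * A ^ 2 + 2 * g1 * (A * B) + g2 * B ^ 2) ^ 2 +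
      807592923 * ((h0 : ℝ) * A ^ 2 + 2 * h1 * (A * B) + h2 * B ^ 2) ^ 2) ≤
    (T : ℝ) * ((M0 : ℝ) * A ^ 2 + 2 * M1 * (A * B) + M2 * B ^ 2) * (A + B) ^ 2 := by
  simp only [ck5, Bool.and_eq_true, decide_eq_true_eq] at h
  obtain ⟨⟨⟨⟨c0, c1⟩, c2⟩, c3⟩, c4⟩ := h
  have d0 : (Q : ℝ) * (10000000000 * ((g0 : ℝ) * g0) + 807592923 * ((h0 : ℝ) * h0)) ≤ T * M0 := by exact_mod_cast c0
  have d1 : 2 * (Q : ℝ) * (10000000000 * ((g0 : ℝ) * g1) + 807592923 * ((h0 : ℝ) * h1)) ≤ T * (M0 + M1) := by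
    exact_mod_cast c1
  have d2 : 2 * (Q : ℝ) * (10000000000 * ((g0 : ℝ) * g2 + 2 * ((g1 : ℝ) * g1)) +
      807592923 * ((h0 : ℝ) * h2 + 2 * ((h1 : ℝ) * h1))) ≤ T * (M0 + 4 * M1 + M2) := by exact_mod_cast c2
  have d3 : 2 * (Q : ℝ) * (10000000000 * ((g1 : ℝ) * g2) + 807592923 * ((h1 : ℝ) * h2)) ≤ T * (M1 + M2) := by
    exact_mod_cast c3
  have d4 : (Q : ℝ) * (10000000000 * ((g2 : ℝ) * g2) + 807592923 * ((h2 : ℝ) * h2)) ≤ T * M2 := by exact_mod_cast c4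
  have e0 := mul_le_mul_of_nonneg_right d0 (by positivity : (0 : ℝ) ≤ A ^ 4)
  have e1 := mul_le_mul_of_nonneg_right d1 (by positivity : (0 : ℝ) ≤ 2 * (A ^ 3 * B))
  have e2 := mul_le_mul_of_nonneg_right d2 (by positivity : (0 : ℝ) ≤ A ^ 2 * B ^ 2)
  have e3 := mul_le_mul_of_nonneg_right d3 (by positivity : (0 : ℝ) ≤ 2 * (A * B ^ 3))
  have e4 := mul_le_mul_of_nonneg_right d4 (by positivity : (0 : ℝ) ≤ B ^ 4)
  have e := add_le_add (add_le_add (add_le_add (add_le_add e0 e1) e2) e3) e4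
  refine le_trans (le_of_eq ?_) (e.trans (le_of_eq ?_))
  · ring
  · ring

/-! ## Segments -/

theorem seg {l : List (ℚ × ℚ)} (hi : Inc l = true) {za zb d : ℕ} {x y : ℚ} (hz : za < zb) (hd : 0 < d)
    (h : lnOK l ((za : ℚ) / 1024) ((zb : ℚ) / 1024) (x / d) (y / d) = true) {z : ℝ}
    (h0 : (za : ℝ) ≤ 1024 * z) (h1 : 1024 * z ≤ (zb : ℝ)) :
    (d : ℝ) * ((zb : ℝ) - za) * pwl l z = ((x : ℝ) * zb - y * za) + ((y : ℝ) - x) * (1024 * z) := by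
  have hzr : (za : ℝ) < zb := by exact_mod_cast hz
  have hzq : (za : ℚ) < zb := by exact_mod_cast hz
  have hdr : (0 : ℝ) < d := by exact_mod_cast hd
  rw [lnOK_sound hi (by linarith) h (z := z) (by push_cast; linarith) (by push_cast; linarith)]
  push_cast
  have h5 : (zb : ℝ) - za ≠ 0 := (sub_pos.2 hzr).ne'
  have h6 : (zb : ℝ) / 1024 - (za : ℝ) / 1024 = ((zb : ℝ) - za) / 1024 := by ring
  rw [h6]
  field_simp
  ring

/-- Data of a segment: the values of `Ω`, `λ`. -/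
theorem sgk_sound {OM LA : List (ℚ × ℚ)} (hO : Inc OM = true) (hL : Inc LA = true) {s : Sg}
    (hs : sgk OM LA s = true) {z : ℝ} (h0 : (s.za : ℝ) ≤ 1024 * z) (h1 : 1024 * z ≤ (s.zb : ℝ)) :
    0 < (Dn s : ℝ) ∧ (Dn s : ℝ) * pwl OM z = (F0 s : ℝ) + F1 s * (1024 * z) ∧
      (Dn s : ℝ) * pwl LA z = (G0 s : ℝ) + G1 s * (1024 * z) := by
  simp only [sgk, Bool.and_eq_true, decide_eq_true_eq] at hs
  obtain ⟨⟨⟨c1, c2⟩, c3⟩, c4⟩ := hs
  have hz : (s.za : ℝ) < s.zb := by exact_mod_cast c1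
  have hd : (0 : ℝ) < s.d := by exact_mod_cast c2
  refine ⟨?_, ?_, ?_⟩
  · unfold Dn
    push_cast
    exact mul_pos hd (by linarith)
  · have := seg hO c1 c2 c3 h0 h1
    unfold Dn F0 F1
    push_cast at this ⊢
    linarith
  · have := seg hL c1 c2 c4 h0 h1
    unfold Dn G0 G1
    push_cast at this ⊢
    linarith

/-- The chord of a linear function from bounds at the ends. -/
theorem chord_le {a b t u v c f0 f1 D P : ℝ} (h0 : a ≤ t) (h1 : t ≤ b) (hD : 0 < D)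
    (hu : D * u ≤ c * (f0 + f1 * a)) (hv : D * v ≤ c * (f0 + f1 * b)) (hP : D * P = f0 + f1 * t) :
    u * (b - t) + v * (t - a) ≤ c * (b - a) * P := by
  have k1 := mul_le_mul_of_nonneg_right hu (sub_nonneg.2 h1)
  have k2 := mul_le_mul_of_nonneg_right hv (sub_nonneg.2 h0)
  have k3 : D * (u * (b - t) + v * (t - a)) ≤ D * (c * (b - a) * P) := by
    have e : D * (c * (b - a) * P) = c * (b - a) * (D * P) := by ring
    rw [e, hP]
    linarith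
  exact le_of_mul_le_mul_left k3 hD

theorem le_chord {a b t u v c f0 f1 D P : ℝ} (h0 : a ≤ t) (h1 : t ≤ b) (hD : 0 < D)
    (hu : c * (f0 + f1 * a) ≤ D * u) (hv : c * (f0 + f1 * b) ≤ D * v) (hP : D * P = f0 + f1 * t) :
    c * (b - a) * P ≤ u * (b - t) + v * (t - a) := by
  have k1 := mul_le_mul_of_nonneg_right hu (sub_nonneg.2 h1)
  have k2 := mul_le_mul_of_nonneg_right hv (sub_nonneg.2 h0)
  have k3 : D * (c * (b - a) * P) ≤ D * (u * (b - t) + v * (t - a)) := by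
    have e : D * (c * (b - a) * P) = c * (b - a) * (D * P) := by ring
    rw [e, hP]
    linarith
  exact le_of_mul_le_mul_left k3 hD

/-- Convexity of the square. -/
theorem sq_chord {a b t c f0 f1 D P E : ℝ} (h0 : a ≤ t) (h1 : t ≤ b) (hab : a < b) (hc : 0 ≤ c)
    (hu : c * ((f0 + f1 * a) * (f0 + f1 * a)) ≤ D * D * E) (hv : c * ((f0 + f1 * b) * (f0 + f1 * b)) ≤ D * D * E)
    (hD : 0 < D) (hP : D * P = f0 + f1 * t) : c * P ^ 2 ≤ E := by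
  have k1 := mul_le_mul_of_nonneg_right hu (sub_nonneg.2 h1)
  have k2 := mul_le_mul_of_nonneg_right hv (sub_nonneg.2 h0)
  have k4 : 0 ≤ c * f1 ^ 2 * ((t - a) * (b - t)) * (b - a) :=
    mul_nonneg (mul_nonneg (mul_nonneg hc (sq_nonneg _)) (mul_nonneg (sub_nonneg.2 h0) (sub_nonneg.2 h1)))
      (sub_nonneg.2 hab.le)
  have k3 : (b - a) * (D * D) * (c * P ^ 2) ≤ (b - a) * (D * D) * E := by
    have e : (b - a) * (D * D) * (c * P ^ 2) = c * (b - a) * (D * P) ^ 2 := by ring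
    rw [e, hP]
    nlinarith
  exact le_of_mul_le_mul_left k3 (mul_pos (sub_pos.2 hab) (mul_pos hD hD))

/-- Tangent of `1/t²`. -/
theorem tan_le {a b t u v : ℝ} (ha : 0 < a) (h0 : a ≤ t) (h1 : t ≤ b) (hab : a < b)
    (hu : u * ((a + b) * ((a + b) * (a + b))) ≤ 1770887431076116955136 * (3 * b - a))
    (hv : v * ((a + b) * ((a + b) * (a + b))) ≤ 1770887431076116955136 * (3 * a - b)) :
    u * (b - t) + v * (t - a) ≤ (b - a) * (3 * 2 ^ 67 / t ^ 2) := by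
  have ht : 0 < t := by linarith
  have hT : 0 < (a + b) * ((a + b) * (a + b)) := by
    have : 0 < a + b := by linarith
    positivity
  have k1 := mul_le_mul_of_nonneg_right hu (sub_nonneg.2 h1)
  have k2 := mul_le_mul_of_nonneg_right hv (sub_nonneg.2 h0)
  have k3 : (u * (b - t) + v * (t - a)) * ((a + b) * ((a + b) * (a + b))) ≤
      1770887431076116955136 * ((b - a) * (3 * (a + b) - 4 * t)) := by
    nlinarith
  have k4 : (3 * (a + b) - 4 * t) * (4 * t ^ 2) ≤ (a + b) * ((a + b) * (a + b)) := by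
    have h3 : 0 ≤ (2 * t - (a + b)) ^ 2 * (4 * t + (a + b)) := mul_nonneg (sq_nonneg _) (by linarith)
    nlinarith
  rw [← mul_div_assoc, le_div_iff₀ (by positivity)]
  have k5 : (u * (b - t) + v * (t - a)) * t ^ 2 * ((a + b) * ((a + b) * (a + b))) ≤
      (b - a) * (3 * 2 ^ 67) * ((a + b) * ((a + b) * (a + b))) := by
    have k6 := mul_le_mul_of_nonneg_right k3 (sq_nonneg t)
    have k7 := mul_le_mul_of_nonneg_left k4 (mul_nonneg (by norm_num : (0 : ℝ) ≤ 3 * 2 ^ 67) (sub_nonneg.2 hab.le))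
    nlinarith
  exact le_of_mul_le_mul_right k5 hT

/-- Chord of `1/t²`. -/
theorem le_inv {a b t u v : ℝ} (ha : 0 < a) (h0 : a ≤ t) (h1 : t ≤ b)
    (hu : 442721857769029238784 ≤ u * (a * a)) (hv : 442721857769029238784 ≤ v * (b * b)) :
    (b - a) * (3 * 2 ^ 67 / t ^ 2) ≤ u * (b - t) + v * (t - a) := by
  have ht : 0 < t := by linarith
  have hb : 0 < b := by linarith
  have hu' : 442721857769029238784 / (a * a) ≤ u := by
    rw [div_le_iff₀ (by positivity)]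
    exact hu
  have hv' : 442721857769029238784 / (b * b) ≤ v := by
    rw [div_le_iff₀ (by positivity)]
    exact hv
  have k1 := mul_le_mul_of_nonneg_right hu' (sub_nonneg.2 h1)
  have k2 := mul_le_mul_of_nonneg_right hv' (sub_nonneg.2 h0)
  refine le_trans ?_ (add_le_add k1 k2)
  rw [← sub_nonneg]
  have e : 442721857769029238784 / (a * a) * (b - t) + 442721857769029238784 / (b * b) * (t - a) -
      (b - a) * (3 * 2 ^ 67 / t ^ 2) =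
      442721857769029238784 * ((b - a) * ((t - a) * (b - t) * ((a + b) * t + a * b))) / (a ^ 2 * b ^ 2 * t ^ 2) := by
    field_simp
    ring
  rw [e]
  apply div_nonneg _ (by positivity)
  apply mul_nonneg (by norm_num)
  apply mul_nonneg (by linarith)
  apply mul_nonneg (mul_nonneg (by linarith) (by linarith)) (by positivity)

/-! ## The check of `K` -/

theorem ckH_sound {s : Sg} {k k' : Kt} {rho : ℤ} (h : ckH s k k' rho = true) {z X Ω : ℝ}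
    (hD : 0 < (Dn s : ℝ)) (hkk : (k.z : ℝ) < k'.z)
    (h0 : (k.z : ℝ) ≤ 1024 * z) (h1 : 1024 * z ≤ (k'.z : ℝ)) (hk : 0 < k.z)
    (hs0 : 0 < k.s) (hs1 : (k.s : ℝ) * k.s ≤ k.z * 17179869184)
    (hs2 : (k'.z : ℝ) * 17179869184 < ((k'.s : ℝ) + 1) * (k'.s + 1))
    (hX : chd k k' (kv k : ℝ) (kv k' : ℝ) (1024 * z) = 2 ^ 30 * ((k'.z : ℝ) - k.z) * X)
    (hΩ : (Dn s : ℝ) * Ω = (F0 s : ℝ) + F1 s * (1024 * z)) :
    (1 + (rho : ℝ) / 10 ^ 11 * (z * X)) ^ 2 +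
      807592923 / 10 ^ 10 * (1 + (rho : ℝ) / 10 ^ 11 * (z * X) - z * Ω) ^ 2 ≤ om z := by
  unfold ckH at h
  have hA : 0 ≤ (k'.z : ℝ) - 1024 * z := sub_nonneg.2 h1
  have hB : 0 ≤ 1024 * z - (k.z : ℝ) := sub_nonneg.2 h0
  have hc := ck5_sound h hA hB
  have hkz : (0 : ℝ) < k.z := by exact_mod_cast hk
  have ha : (0 : ℝ) < k.s := by exact_mod_cast hs0
  have hb : (0 : ℝ) < (k'.s : ℝ) + 1 := by positivity
  have hm := m_le (a := (k.s : ℝ)) (b := (k'.s : ℝ) + 1) (z := z) ha (by nlinarith) hb (by nlinarith)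
  refine le_trans ?_ hm
  obtain ⟨D, hDd⟩ : ∃ D, D = (k'.z : ℝ) - k.z := ⟨_, rfl⟩
  have hD0 : 0 < D := by rw [hDd]; linarith
  -- the three polynomials
  have eG : ((gcf s rho (2 * k.z * kv k) : ℤ) : ℝ) * ((k'.z : ℝ) - 1024 * z) ^ 2 +
      2 * ((gcf s rho (k.z * kv k' + k'.z * kv k) : ℤ) : ℝ) * (((k'.z : ℝ) - 1024 * z) * (1024 * z - (k.z : ℝ))) +
      ((gcf s rho (2 * k'.z * kv k') : ℤ) : ℝ) * (1024 * z - (k.z : ℝ)) ^ 2 =
      (10 ^ 11 * 2 ^ 41 * (Dn s : ℝ)) * (1 + (rho : ℝ) / 10 ^ 11 * (z * X)) * D ^ 2 := by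
    have hX2 : (kv k : ℝ) * ((k'.z : ℝ) - 1024 * z) + (kv k' : ℝ) * (1024 * z - (k.z : ℝ)) =
        2 ^ 30 * D * X := by
      rw [hDd]
      exact hX
    have hz2 : (k.z : ℝ) * ((k'.z : ℝ) - 1024 * z) + (k'.z : ℝ) * (1024 * z - (k.z : ℝ)) = 1024 * z * D := by
      rw [hDd]
      ring
    have hAB : ((k'.z : ℝ) - 1024 * z) + (1024 * z - (k.z : ℝ)) = D := by
      rw [hDd]
      ring
    have e1 : ((gcf s rho (2 * k.z * kv k) : ℤ) : ℝ) * ((k'.z : ℝ) - 1024 * z) ^ 2 +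
      2 * ((gcf s rho (k.z * kv k' + k'.z * kv k) : ℤ) : ℝ) * (((k'.z : ℝ) - 1024 * z) * (1024 * z - (k.z : ℝ))) +
      ((gcf s rho (2 * k'.z * kv k') : ℤ) : ℝ) * (1024 * z - (k.z : ℝ)) ^ 2 =
      (Dn s : ℝ) * (219902325555200000000000 * (((k'.z : ℝ) - 1024 * z) + (1024 * z - (k.z : ℝ))) ^ 2 +
        2 * rho * (((k.z : ℝ) * ((k'.z : ℝ) - 1024 * z) + (k'.z : ℝ) * (1024 * z - (k.z : ℝ))) *
          ((kv k : ℝ) * ((k'.z : ℝ) - 1024 * z) + (kv k' : ℝ) * (1024 * z - (k.z : ℝ))))) := by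
      unfold gcf
      push_cast
      ring
    rw [e1, hX2, hz2, hAB]
    ring
  have eH : ((hcf s rho (2 * k.z * kv k) (2 * k.z * (F0 s + F1 s * k.z)) : ℤ) : ℝ) * ((k'.z : ℝ) - 1024 * z) ^ 2 +
      2 * ((hcf s rho (k.z * kv k' + k'.z * kv k) (k.z * (F0 s + F1 s * k'.z) + k'.z * (F0 s + F1 s * k.z)) : ℤ) : ℝ) *
        (((k'.z : ℝ) - 1024 * z) * (1024 * z - (k.z : ℝ))) +
      ((hcf s rho (2 * k'.z * kv k') (2 * k'.z * (F0 s + F1 s * k'.z)) : ℤ) : ℝ) * (1024 * z - (k.z : ℝ)) ^ 2 =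
      (10 ^ 11 * 2 ^ 41 * (Dn s : ℝ)) * (1 + (rho : ℝ) / 10 ^ 11 * (z * X) - z * Ω) * D ^ 2 := by
    have e2 : (10 ^ 11 * 2 ^ 41 * (Dn s : ℝ)) * (1 + (rho : ℝ) / 10 ^ 11 * (z * X) - z * Ω) * D ^ 2 =
        (10 ^ 11 * 2 ^ 41 * (Dn s : ℝ)) * (1 + (rho : ℝ) / 10 ^ 11 * (z * X)) * D ^ 2 -
          10 ^ 11 * 2 ^ 41 * z * (Dn s * Ω) * D ^ 2 := by ring
    rw [e2, ← eG, hΩ, hDd]
    unfold hcf
    push_cast
    ring
  have eM : ((MMp k.s (k'.s + 1) (2 * k.z) (k.z * k.z) : ℤ) : ℝ) * ((k'.z : ℝ) - 1024 * z) ^ 2 +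
      2 * ((MMp k.s (k'.s + 1) (k.z + k'.z) (k.z * k'.z) : ℤ) : ℝ) * (((k'.z : ℝ) - 1024 * z) * (1024 * z - (k.z : ℝ))) +
      ((MMp k.s (k'.s + 1) (2 * k'.z) (k'.z * k'.z) : ℤ) : ℝ) * (1024 * z - (k.z : ℝ)) ^ 2 =
      ((3 * ((k.s : ℝ) * k.s * (k.s * k.s)) + 6 * 2 ^ 44 * ((k.s : ℝ) * k.s * z) - 2 ^ 88 * z ^ 2) *
          (((k'.s : ℝ) + 1) * (k'.s + 1) * ((k'.s + 1) * (k'.s + 1)) * (k'.s + 1)) +
        2 ^ 44 * ((15 * (((k'.s : ℝ) + 1) * (k'.s + 1) * ((k'.s + 1) * (k'.s + 1))) -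
          10 * 2 ^ 44 * (((k'.s : ℝ) + 1) * (k'.s + 1) * z) + 3 * 2 ^ 88 * z ^ 2) * ((k.s : ℝ) * k.s * k.s)) +
        2 ^ 26 * ((k.s : ℝ) * k.s * k.s * (((k'.s : ℝ) + 1) * (k'.s + 1) * ((k'.s + 1) * (k'.s + 1)) * (k'.s + 1)))) *
        D ^ 2 := by
    rw [hDd]
    unfold MMp SSp RRp
    push_cast
    ring
  obtain ⟨T, hT⟩ : ∃ T : ℝ, T = 10 ^ 11 * 2 ^ 41 * (Dn s : ℝ) := ⟨_, rfl⟩
  have hT0 : 0 < T := by rw [hT]; positivity
  rw [eG, eH, eM, ← hT] at hc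
  have hTT : (((10000000000 * (TTd s * TTd s) : ℤ)) : ℝ) = 10 ^ 10 * T ^ 2 := by
    rw [hT]
    unfold TTd
    push_cast
    ring
  have hQ : ((QQp k.s (k'.s + 1) : ℤ) : ℝ) =
      2 ^ 27 * ((k.s : ℝ) * k.s * k.s * (((k'.s : ℝ) + 1) * (k'.s + 1) * ((k'.s + 1) * (k'.s + 1)) * (k'.s + 1))) := by
    unfold QQp
    push_cast
    ring
  have hAB : ((k'.z : ℝ) - 1024 * z) + (1024 * z - (k.z : ℝ)) = D := by
    rw [hDd]
    ring
  rw [hTT, hQ, hAB] at hc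
  rw [le_div_iff₀ (by positivity)]
  obtain ⟨g, hg⟩ : ∃ g, g = 1 + (rho : ℝ) / 10 ^ 11 * (z * X) := ⟨_, rfl⟩
  obtain ⟨Q, hQd⟩ : ∃ Q, Q = 2 ^ 27 * ((k.s : ℝ) * k.s * k.s *
    (((k'.s : ℝ) + 1) * (k'.s + 1) * ((k'.s + 1) * (k'.s + 1)) * (k'.s + 1))) := ⟨_, rfl⟩
  obtain ⟨M, hM⟩ : ∃ M, M = ((3 * ((k.s : ℝ) * k.s * (k.s * k.s)) + 6 * 2 ^ 44 * ((k.s : ℝ) * k.s * z) - 2 ^ 88 * z ^ 2) *
          (((k'.s : ℝ) + 1) * (k'.s + 1) * ((k'.s + 1) * (k'.s + 1)) * (k'.s + 1)) +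
        2 ^ 44 * ((15 * (((k'.s : ℝ) + 1) * (k'.s + 1) * ((k'.s + 1) * (k'.s + 1))) -
          10 * 2 ^ 44 * (((k'.s : ℝ) + 1) * (k'.s + 1) * z) + 3 * 2 ^ 88 * z ^ 2) * ((k.s : ℝ) * k.s * k.s)) +
        2 ^ 26 * ((k.s : ℝ) * k.s * k.s * (((k'.s : ℝ) + 1) * (k'.s + 1) * ((k'.s + 1) * (k'.s + 1)) * (k'.s + 1)))) :=
    ⟨_, rfl⟩
  rw [← hg, ← hQd, ← hM] at hc ⊢
  have hp : 0 < 10 ^ 10 * T ^ 2 * D ^ 4 := by positivity
  refine le_of_mul_le_mul_left ?_ hp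
  refine le_trans (le_of_eq ?_) (hc.trans (le_of_eq ?_))
  · ring
  · ring

theorem ckG_sound {OM LA : List (ℚ × ℚ)} {s : Sg} {k k' : Kt} (h : ckG s k k' = true) {z : ℝ}
    (hD : 0 < (Dn s : ℝ)) (hkk : (k.z : ℝ) < k'.z)
    (h0 : (k.z : ℝ) ≤ 1024 * z) (h1 : 1024 * z ≤ (k'.z : ℝ)) (hk : 0 < k.z)
    (hΩ : (Dn s : ℝ) * pwl OM z = (F0 s : ℝ) + F1 s * (1024 * z)) :
    chd k k' ((k.kp : ℝ) - k.kn) ((k'.kp : ℝ) - k'.kn) (1024 * z) ≤
      2 ^ 30 * ((k'.z : ℝ) - k.z) * KZ (Wp OM) (Wp LA) z := by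
  simp only [ckG, Bool.and_eq_true, decide_eq_true_eq] at h
  obtain ⟨⟨⟨⟨c1, c2⟩, c3⟩, c4⟩, c5⟩ := h
  have hkz : (0 : ℝ) < k.z := by exact_mod_cast hk
  have hz : 0 < z := by linarith
  have c1' : (k.s : ℝ) * k.s ≤ k.z * 17179869184 := by exact_mod_cast c1
  have c2' : (k'.z : ℝ) * 17179869184 < ((k'.s : ℝ) + 1) * (k'.s + 1) := by exact_mod_cast c2
  have hD0 : 0 < (k'.z : ℝ) - k.z := by linarith
  obtain ⟨X, hX⟩ : ∃ X, X = chd k k' (kv k : ℝ) (kv k' : ℝ) (1024 * z) / (2 ^ 30 * ((k'.z : ℝ) - k.z)) := ⟨_, rfl⟩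
  have hX' : chd k k' (kv k : ℝ) (kv k' : ℝ) (1024 * z) = 2 ^ 30 * ((k'.z : ℝ) - k.z) * X := by
    rw [hX]
    field_simp
  have e0 := ckH_sound c4 hD hkk h0 h1 hk c3 c1' c2' hX' hΩ
  have e1 := ckH_sound c5 hD hkk h0 h1 hk c3 c1' c2' hX' hΩ
  obtain ⟨r0, r1⟩ := CT.KGLM.rho_bd
  obtain ⟨t0, t1⟩ := CT.KGLM.taup_bd
  push_cast at e0 e1
  have hc := CT.KGLM.conv _ _ (3 * π / 8) (z * X) _ (z * pwl OM z) (om z) (by norm_num) r0 r1 (by norm_num) e0 e1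
  have hg := le_GV (W := Wp OM) (L := Wp LA) (z := z) (g := 1 + 3 * π / 8 * (z * X)) hz t0 (by
    rw [Wp_z OM hz]
    exact le_trans (add_le_add_right (mul_le_mul_of_nonneg_right t1 (sq_nonneg _)) _) hc)
  have hkap : kap * (3 * π / 8) = 1 := by
    unfold kap
    have := Real.pi_pos
    field_simp
  have hkp : 0 < kap := by
    unfold kap
    positivity
  have he : X ≤ KZ (Wp OM) (Wp LA) z := by
    unfold KZ
    rw [le_div_iff₀ hz]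
    have h5 := mul_le_mul_of_nonneg_left (sub_le_sub_right hg 1) hkp.le
    refine le_trans (le_of_eq ?_) h5
    have h6 : kap * (1 + 3 * π / 8 * (z * X) - 1) = (kap * (3 * π / 8)) * (X * z) := by ring
    rw [h6, hkap, one_mul]
  have hkv : ((kv k : ℤ) : ℝ) = (k.kp : ℝ) - k.kn := by
    simp [kv]
  have hkv' : ((kv k' : ℤ) : ℝ) = (k'.kp : ℝ) - k'.kn := by
    simp [kv]
  rw [← hkv, ← hkv', hX']
  exact mul_le_mul_of_nonneg_left he (by positivity)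

/-! ## The pairs -/

theorem ckR_sound {OM LA : List (ℚ × ℚ)} (hO : Inc OM = true) (hL : Inc LA = true) {s : Sg}
    (hs : sgk OM LA s = true) {k k' : Kt} (h : ckR s k k' = true) : PrOK (Wp OM) (Wp LA) k k' := by
  simp only [ckR, Bool.and_eq_true, decide_eq_true_eq] at h
  obtain ⟨⟨⟨⟨⟨⟨⟨⟨⟨⟨c0, _⟩, c2⟩, c3⟩, c4⟩, cv⟩, cv'⟩, ce⟩, ce'⟩, cn⟩, cg⟩ := h
  have hk : 0 < k.z := lt_of_lt_of_le c0 c2
  have hkz : (0 : ℝ) < k.z := by exact_mod_cast hk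
  have hkk : (k.z : ℝ) < k'.z := by exact_mod_cast c3
  have hza : (s.za : ℝ) ≤ k.z := by exact_mod_cast c2
  have hzb : (k'.z : ℝ) ≤ s.zb := by exact_mod_cast c4
  have key : ∀ z : ℝ, (k.z : ℝ) ≤ 1024 * z → 1024 * z ≤ (k'.z : ℝ) → 0 < z ∧
      0 < (Dn s : ℝ) ∧ (Dn s : ℝ) * pwl OM z = (F0 s : ℝ) + F1 s * (1024 * z) ∧
      (Dn s : ℝ) * pwl LA z = (G0 s : ℝ) + G1 s * (1024 * z) ∧
      Wp OM (1 / √z) / z = pwl OM z ∧ Wp LA (1 / √z) / z = pwl LA z := by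
    intro z h0 h1
    have hz : 0 < z := by linarith
    obtain ⟨a1, a2, a3⟩ := sgk_sound hO hL hs (z := z) (hza.trans h0) (h1.trans hzb)
    refine ⟨hz, a1, a2, a3, ?_, ?_⟩
    · rw [Wp_z OM hz]
      field_simp
    · rw [Wp_z LA hz]
      field_simp
  simp only [ckV, Bool.and_eq_true, decide_eq_true_eq] at cv cv'
  obtain ⟨⟨⟨⟨v1, v2⟩, v3⟩, v4⟩, v5⟩ := cv
  obtain ⟨⟨⟨⟨u1, u2⟩, u3⟩, u4⟩, u5⟩ := cv'
  have v1' : (Dn s : ℝ) * k.w ≤ 1073741824 * ((F0 s : ℝ) + F1 s * k.z) := by exact_mod_cast v1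
  have v2' : 1073741824 * ((F0 s : ℝ) + F1 s * k.z) ≤ (Dn s : ℝ) * (k.w + 1) := by exact_mod_cast v2
  have v3' : (Dn s : ℝ) * ((k.lp : ℝ) - k.ln) ≤ 337769972052787200000000 * ((G0 s : ℝ) + G1 s * k.z) := by
    exact_mod_cast v3
  have v4' : 337769972052787200000000 * ((G0 s : ℝ) + G1 s * k.z) ≤ (Dn s : ℝ) * ((k.lp : ℝ) - k.ln + 1) := by
    exact_mod_cast v4
  have v5' : (442721857769029238784 : ℝ) ≤ k.nu * ((k.z : ℝ) * k.z) := by exact_mod_cast v5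
  have u1' : (Dn s : ℝ) * k'.w ≤ 1073741824 * ((F0 s : ℝ) + F1 s * k'.z) := by exact_mod_cast u1
  have u2' : 1073741824 * ((F0 s : ℝ) + F1 s * k'.z) ≤ (Dn s : ℝ) * (k'.w + 1) := by exact_mod_cast u2
  have u3' : (Dn s : ℝ) * ((k'.lp : ℝ) - k'.ln) ≤ 337769972052787200000000 * ((G0 s : ℝ) + G1 s * k'.z) := by
    exact_mod_cast u3
  have u4' : 337769972052787200000000 * ((G0 s : ℝ) + G1 s * k'.z) ≤ (Dn s : ℝ) * ((k'.lp : ℝ) - k'.ln + 1) := by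
    exact_mod_cast u4
  have u5' : (442721857769029238784 : ℝ) ≤ k'.nu * ((k'.z : ℝ) * k'.z) := by exact_mod_cast u5
  simp only [ckE, decide_eq_true_eq] at ce ce'
  have ce1 : 3039929748475084800000000 * (k'.z : ℝ) * (((G0 s : ℝ) + G1 s * k.z) * ((G0 s : ℝ) + G1 s * k.z)) ≤
      40960 * ((Dn s : ℝ) * Dn s) * k.ee := by exact_mod_cast ce
  have ce2 : 3039929748475084800000000 * (k'.z : ℝ) * (((G0 s : ℝ) + G1 s * k'.z) * ((G0 s : ℝ) + G1 s * k'.z)) ≤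
      40960 * ((Dn s : ℝ) * Dn s) * k.ee := by exact_mod_cast ce'
  simp only [ckN, Bool.and_eq_true, decide_eq_true_eq] at cn
  obtain ⟨n1, n2⟩ := cn
  have n1' : (k.nl : ℝ) * (((k.z : ℝ) + k'.z) * (((k.z : ℝ) + k'.z) * ((k.z : ℝ) + k'.z))) ≤
      1770887431076116955136 * (3 * (k'.z : ℝ) - k.z) := by exact_mod_cast n1
  have n2' : (k'.nl : ℝ) * (((k.z : ℝ) + k'.z) * (((k.z : ℝ) + k'.z) * ((k.z : ℝ) + k'.z))) ≤
      1770887431076116955136 * (3 * (k.z : ℝ) - k'.z) := by exact_mod_cast n2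
  have eν : ∀ z : ℝ, 0 < z → (3 * 2 ^ 47 / z ^ 2 : ℝ) = 3 * 2 ^ 67 / (1024 * z) ^ 2 := by
    intro z hz
    field_simp
    ring
  refine ⟨hk, c3, ?_, ?_, ?_, ?_, ?_, ?_, ?_, ?_⟩
  · intro z h0 h1
    obtain ⟨_, a1, a2, _⟩ := key z h0 h1
    exact ckG_sound cg a1 hkk h0 h1 hk a2
  · intro z h0 h1
    obtain ⟨_, a1, a2, _, a4, _⟩ := key z h0 h1
    rw [a4]
    refine (chord_le h0 h1 a1 v1' u1' a2).trans (le_of_eq ?_)
    norm_num
  · intro z h0 h1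
    obtain ⟨_, a1, a2, _, a4, _⟩ := key z h0 h1
    rw [a4]
    refine le_trans (le_of_eq ?_) (le_chord h0 h1 a1 v2' u2' a2)
    norm_num
  · intro z h0 h1
    obtain ⟨_, a1, _, a3, _, a5⟩ := key z h0 h1
    rw [a5]
    refine (chord_le h0 h1 a1 v3' u3' a3).trans (le_of_eq ?_)
    norm_num
  · intro z h0 h1
    obtain ⟨_, a1, _, a3, _, a5⟩ := key z h0 h1
    rw [a5]
    refine le_trans (le_of_eq ?_) (le_chord h0 h1 a1 v4' u4' a3)
    norm_num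
  · intro z h0 h1
    obtain ⟨a0, a1, _, a3, _, a5⟩ := key z h0 h1
    have e1 := sq_chord (c := 3039929748475084800000000 * (k'.z : ℝ)) (E := 40960 * (k.ee : ℝ)) h0 h1 hkk (by positivity) (by linarith) (by linarith) a1 a3
    have e2 : 2 ^ 58 * 1171875 * (9 / 40 * Wp LA (1 / √z) ^ 2 / z) = 2 ^ 58 * 1171875 * 9 / 40 * z * pwl LA z ^ 2 := by
      rw [Wp_z LA a0]
      field_simp
    rw [e2]
    have e3 : z ≤ (k'.z : ℝ) / 1024 := by linarith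
    have e4 := mul_le_mul_of_nonneg_right e3 (mul_nonneg (by norm_num : (0 : ℝ) ≤ 2 ^ 58 * 1171875 * 9 / 40)
      (sq_nonneg (pwl LA z)))
    nlinarith
  · intro z h0 h1
    obtain ⟨a0, _⟩ := key z h0 h1
    rw [eν z a0]
    exact tan_le hkz h0 h1 hkk n1' n2'
  · intro z h0 h1
    obtain ⟨a0, _⟩ := key z h0 h1
    rw [eν z a0]
    exact le_inv hkz h0 h1 v5' u5'

theorem nxt_mem {k' : Kt} {ss : List Sg} {s : Sg} (h : s ∈ nxt k' ss) : s ∈ ss := by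
  cases ss with
  | nil => exact absurd h (by simp [nxt])
  | cons a l =>
    cases l with
    | nil => exact h
    | cons b m =>
      have e : nxt k' (a :: b :: m) = if k'.z = a.zb then b :: m else a :: b :: m := rfl
      rw [e] at h
      split_ifs at h with h1
      · exact List.mem_cons_of_mem _ h
      · exact h

theorem kck_sound {OM LA : List (ℚ × ℚ)} (hO : Inc OM = true) (hL : Inc LA = true) (ks : List Kt) :
    ∀ ss : List Sg, (∀ s ∈ ss, sgk OM LA s = true) → kck ks ss = true →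
      ChK (PrOK (Wp OM) (Wp LA)) ks := by
  induction ks with
  | nil => intro ss _ _; trivial
  | cons a l ih =>
    intro ss hss h
    cases l with
    | nil => trivial
    | cons b l =>
      have e : kck (a :: b :: l) ss = (ckF ss a b && kck (b :: l) (nxt b ss)) := rfl
      rw [e, Bool.and_eq_true] at h
      refine ⟨?_, ih (nxt b ss) (fun s hs => hss s (nxt_mem hs)) h.2⟩
      cases ss with
      | nil => exact absurd h.1 (by simp [ckF])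
      | cons s m => exact ckR_sound hO hL (hss s (List.mem_cons_self ..)) h.1

end Pool.Agent.Lib.MP_084b88_gt.QV.KNTM

namespace Pool.Agent.Lib.MP_084b88_gt.QV

open Pool.Agent.Lib.MP_084b88_gt.AY

/-- Module KNT. -/
theorem specKNT : SpecKNT := by
  intro OM LA ss ks hs hk
  simp only [sgs, Bool.and_eq_true, List.all_eq_true] at hs
  obtain ⟨⟨h1, h2⟩, h3⟩ := hs
  exact KNTM.kck_sound h1 h2 ks ss h3 hk

end Pool.Agent.Lib.MP_084b88_gt.QV
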