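import Pool.Agent.Lib.MP_084b88_gt.QV.SpecA
import Pool.Agent.Lib.MP_084b88_gt.SK.Psd

/-!
# MP_084b88_gt, project QV, module PAK: the mask test of the packed numbers
-/

set_option autoImplicit false

open Finset

namespace Pool.Agent.Lib.MP_084b88_gt.QV

open Pool.Agent.Lib.MP_084b88_gt.SK

namespace PAKM

theorem BS_eq : BS = 2 ^ 128 := by
  unfold BS
  norm_num

theorem BS_pos : 0 < BS := by
  rw [BS_eq]
  positivity

theorem ons_succ (m : ℕ) : ons (m + 1) = 1 + BS * ons m := by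
  unfold ons
  rw [Finset.sum_range_succ', Finset.mul_sum, add_comm]
  simp only [pow_zero]
  congr 1
  exact Finset.sum_congr rfl fun j _ => by ring

theorem mask : ∀ (m D : ℕ), D &&& (2 ^ 127 * ons m) = 2 ^ 127 * ons m →
    ∀ j < m, 2 ^ 127 ≤ dig BS D j := by
  intro m
  induction m with
  | zero =>
    intro D _ j hj
    exact absurd hj (Nat.not_lt_zero _)
  | succ m ih =>
    intro D h j hj
    have hlt : (2 : ℕ) ^ 127 < 2 ^ 128 := by norm_num
    have e : 2 ^ 127 * ons (m + 1) = 2 ^ 127 + 2 ^ 128 * (2 ^ 127 * ons m) := by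
      rw [ons_succ, BS_eq]
      ring
    have hm : (2 ^ 127 * ons (m + 1)) % 2 ^ 128 = 2 ^ 127 := by
      rw [e, Nat.add_mul_mod_self_left, Nat.mod_eq_of_lt hlt]
    have hd : (2 ^ 127 * ons (m + 1)) / 2 ^ 128 = 2 ^ 127 * ons m := by
      rw [e, Nat.add_mul_div_left _ _ (by positivity), Nat.div_eq_of_lt hlt, zero_add]
    have h1 : (D &&& (2 ^ 127 * ons (m + 1))) % 2 ^ 128 = (D % 2 ^ 128) &&& 2 ^ 127 := by
      rw [Nat.and_mod_two_pow, hm]
    have h2 : (D &&& (2 ^ 127 * ons (m + 1))) / 2 ^ 128 = (D / 2 ^ 128) &&& (2 ^ 127 * ons m) := by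
      rw [Nat.and_div_two_pow, hd]
    rw [h, hm] at h1
    rw [h, hd] at h2
    cases j with
    | zero =>
      rw [PsdM.dig_zero, BS_eq, h1]
      exact Nat.and_le_left
    | succ j =>
      rw [PsdM.dig_succ, BS_eq]
      have := ih (D / 2 ^ 128) h2.symm j (Nat.lt_of_succ_lt_succ hj)
      rwa [BS_eq] at this

theorem dot_cons (a b : ℕ) (l m : List ℕ) : dot (a :: l) (b :: m) = a * b + dot l m := rfl

theorem dot_nil (m : List ℕ) : dot [] m = 0 := rfl

theorem dd_cons (d : ℕ → ℕ) (t : ℕ → ℤ) (ds : List (ℕ → ℕ)) (ts : List (ℕ → ℤ)) (s l : ℕ) :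
    dd (d :: ds) (t :: ts) s l = (d l : ℤ) * t s + dd ds ts s l := by
  simp [dd]

theorem sum_blocks {β : Type} [AddCommMonoid β] (f : ℕ → β) : ∀ S : ℕ,
    ∑ i ∈ range (8 * S), f i = ∑ s ∈ range S, ∑ l ∈ range 8, f (8 * s + l) := by
  intro S
  induction S with
  | zero => simp
  | succ S ih =>
    rw [Nat.mul_succ, Finset.sum_range_add, ih,
      Finset.sum_range_succ (fun s => ∑ l ∈ range 8, f (8 * s + l)) S]

theorem dot_eq (E S : ℕ) (T : List ℕ) (ts : List (ℕ → ℤ))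
    (h : List.Forall₂ (fun (T : ℕ) (t : ℕ → ℤ) =>
      ∃ q : ℤ, (T : ℤ) = ∑ s ∈ range S, t s * (BS : ℤ) ^ (8 * s) + q * (E : ℤ)) T ts) :
    ∀ ds : List (ℕ → ℕ), ds.length = ts.length →
      ∃ q : ℤ, (dot (ds.map pv) T : ℤ) =
        ∑ s ∈ range S, ∑ l ∈ range 8, dd ds ts s l * (BS : ℤ) ^ (8 * s + l) + q * (E : ℤ) := by
  induction h with
  | nil =>
    intro ds hds
    have : ds = [] := List.eq_nil_of_length_eq_zero (by simpa using hds)
    subst this
    exact ⟨0, by simp [dd, dot_nil]⟩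
  | @cons T0 t T ts h0 _ ih =>
    intro ds hds
    cases ds with
    | nil => simp at hds
    | cons d ds =>
      obtain ⟨q0, hq0⟩ := h0
      obtain ⟨q, hq⟩ := ih ds (by simpa using hds)
      refine ⟨(pv d : ℤ) * q0 + q, ?_⟩
      rw [List.map_cons, dot_cons, Nat.cast_add, Nat.cast_mul, hq, hq0]
      have e1 : (pv d : ℤ) * ∑ s ∈ range S, t s * (BS : ℤ) ^ (8 * s) =
          ∑ s ∈ range S, ∑ l ∈ range 8, (d l : ℤ) * t s * (BS : ℤ) ^ (8 * s + l) := by
        unfold pv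
        rw [Nat.cast_sum, Finset.mul_sum]
        refine Finset.sum_congr rfl fun s _ => ?_
        rw [Finset.sum_mul]
        refine Finset.sum_congr rfl fun l _ => ?_
        rw [Nat.cast_mul, Nat.cast_pow, pow_add]
        ring
      have e2 : ∑ s ∈ range S, ∑ l ∈ range 8, dd (d :: ds) (t :: ts) s l * (BS : ℤ) ^ (8 * s + l) =
          (∑ s ∈ range S, ∑ l ∈ range 8, (d l : ℤ) * t s * (BS : ℤ) ^ (8 * s + l)) +
            ∑ s ∈ range S, ∑ l ∈ range 8, dd ds ts s l * (BS : ℤ) ^ (8 * s + l) := by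
        rw [← Finset.sum_add_distrib]
        refine Finset.sum_congr rfl fun s _ => ?_
        rw [← Finset.sum_add_distrib]
        refine Finset.sum_congr rfl fun l _ => ?_
        rw [dd_cons]
        ring
      rw [e2, ← e1]
      ring

end PAKM

open PAKM in
/-- **PAK**. -/
theorem specPAK : SpecPAK := by
  intro c S k0 ts ds hc hlen hb htst s hs l hl
  obtain ⟨q, hq⟩ := dot_eq c.E S c.T ts hc.T ds hlen
  -- the digits
  obtain ⟨D, hD⟩ : ∃ D : ℕ → ℕ, D = fun i => (dd ds ts (i / 8) (i % 8) + k0 + 2 ^ 127).toNat := ⟨_, rfl⟩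
  have hDv : ∀ s < S, ∀ l < 8, (D (8 * s + l) : ℤ) = dd ds ts s l + k0 + 2 ^ 127 := by
    intro s hs l hl
    have h1 : (8 * s + l) / 8 = s := by omega
    have h2 : (8 * s + l) % 8 = l := by omega
    have h3 := abs_lt.1 (hb s hs l hl)
    rw [hD]
    simp only [h1, h2]
    exact Int.toNat_of_nonneg (by linarith [h3.1])
  have hDlt : ∀ i < 8 * S, D i < BS := by
    intro i hi
    have h1 := hDv (i / 8) (by omega) (i % 8) (by omega)
    rw [Nat.div_add_mod] at h1
    have h3 := abs_lt.1 (hb (i / 8) (by omega) (i % 8) (by omega))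
    have h4 : (D i : ℤ) < ((2 ^ 128 : ℕ) : ℤ) := by
      rw [h1]
      push_cast
      linarith [h3.2]
    rw [BS_eq]
    exact_mod_cast h4
  obtain ⟨hlt, hdig⟩ := PsdM.dig_sum BS BS_pos (8 * S) D hDlt
  -- the sum of the digits
  have hsum : ((∑ i ∈ range (8 * S), D i * BS ^ i : ℕ) : ℤ) =
      (∑ s ∈ range S, ∑ l ∈ range 8, dd ds ts s l * (BS : ℤ) ^ (8 * s + l)) + c.K := by
    rw [hc.K]
    unfold ons
    rw [Nat.cast_sum, Nat.cast_sum, sum_blocks, sum_blocks, Finset.mul_sum, ← Finset.sum_add_distrib]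
    refine Finset.sum_congr rfl fun s hs => ?_
    rw [Finset.mul_sum, ← Finset.sum_add_distrib]
    refine Finset.sum_congr rfl fun l hl => ?_
    rw [Nat.cast_mul, hDv s (Finset.mem_range.1 hs) l (Finset.mem_range.1 hl), Nat.cast_pow]
    ring
  have hmod : Nat.mod (Nat.add (dot (ds.map pv) c.T) c.K) c.E = ∑ i ∈ range (8 * S), D i * BS ^ i := by
    change (dot (ds.map pv) c.T + c.K) % c.E = _
    have h1 : (((dot (ds.map pv) c.T + c.K : ℕ)) : ℤ) =
        ((∑ i ∈ range (8 * S), D i * BS ^ i : ℕ) : ℤ) + q * (c.E : ℤ) := by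
      rw [hsum, Nat.cast_add, hq]
      ring
    have h2 : (((dot (ds.map pv) c.T + c.K) % c.E : ℕ) : ℤ) =
        (((∑ i ∈ range (8 * S), D i * BS ^ i) % c.E : ℕ) : ℤ) := by
      rw [Int.natCast_mod, h1, Int.add_mul_emod_self_right, ← Int.natCast_mod]
    have h3 : (dot (ds.map pv) c.T + c.K) % c.E = (∑ i ∈ range (8 * S), D i * BS ^ i) % c.E := by
      exact_mod_cast h2
    rw [h3, Nat.mod_eq_of_lt]
    rw [hc.E]
    exact hlt
  have ht := Nat.eq_of_beq_eq_true htst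
  change Nat.mod (Nat.add (dot (ds.map pv) c.T) c.K) c.E &&& c.M = c.M at ht
  rw [hmod, hc.M] at ht
  have hm := mask (8 * S) _ ht (8 * s + l) (by omega)
  rw [hdig (8 * s + l) (by omega)] at hm
  have h5 : ((2 ^ 127 : ℕ) : ℤ) ≤ (D (8 * s + l) : ℤ) := by exact_mod_cast hm
  rw [hDv s hs l hl] at h5
  push_cast at h5
  linarith

end Pool.Agent.Lib.MP_084b88_gt.QV
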