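import Pool.Agent.Lib.MP_084b88_gt.QV.SpecB
import Pool.Agent.Lib.MP_084b88_gt.QV.PAK

/-!
# MP_084b88_gt, project QV, module LNC: one piece at one lane (Bernstein coefficients and the polygon)
-/

set_option autoImplicit false

open Finset

namespace Pool.Agent.Lib.MP_084b88_gt.QV

namespace LNCM

theorem zw {α : Type} (dflt : α) : ∀ (L : List α) (n : ℕ) (g : α → ℕ → ℤ), L.length = n →
    (List.zipWith g L (List.range n)).sum = ∑ j ∈ range n, g (L.getD j dflt) j := by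
  intro L
  induction L with
  | nil =>
    intro n g h
    have : n = 0 := h.symm
    subst this
    simp
  | cons a L ih =>
    intro n g h
    obtain ⟨m, rfl⟩ : ∃ m, n = m + 1 := ⟨L.length, by simpa using h.symm⟩
    have hL : L.length = m := by simpa using h
    rw [List.range_succ_eq_map, List.zipWith_cons_cons, List.sum_cons, List.zipWith_map_right,
      ih m (fun a j => g a (Nat.succ j)) hL, Finset.sum_range_succ', add_comm]
    rfl

theorem dd_eq (n : ℕ) (ds : List (ℕ → ℕ)) (hd : ds.length = n) (f : ℕ → ℕ → ℤ) (s l : ℕ) :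
    dd ds ((List.range n).map f) s l = ∑ j ∈ range n, ((ds.getD j (fun _ => 0)) l : ℤ) * f j s := by
  unfold dd
  rw [List.zipWith_map_right]
  exact zw (fun _ => 0) ds n (fun d j => (d l : ℤ) * f j s) hd

/-- All slots are nonnegative. -/
theorem slots (c : Pc) (q : PV) (hq : PcOK c q) (ds : List (ℕ → ℕ)) (hd : ds.length = 23)
    (hb : ∀ j < 23, ∀ l < 8, (ds.getD j (fun _ => 0)) l ≤ Dmx.getD j 0)
    (ht : tst c (dot (ds.map pv) c.T) = true) (l : ℕ) (hl : l < 8) (s : ℕ) (hs : s < 16 * q.nds.length) :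
    0 ≤ ∑ j ∈ range 23, ((ds.getD j (fun _ => 0)) l : ℤ) * slt q j s + kc0 := by
  have hk0 : (0 : ℤ) ≤ kc0 := by
    unfold kc0
    norm_num
  have h := specPAK c (16 * q.nds.length) kc0 ((List.range 23).map (slt q)) ds hq.pk (by simp [hd])
    (by
      intro s hs l hl
      rw [dd_eq 23 ds hd]
      have h1 := hq.bd s hs
      rw [zw 0 Dmx 23 (fun (d : ℕ) (j : ℕ) => (d : ℤ) * |slt q j s|) rfl] at h1
      have h2 : |∑ j ∈ range 23, ((ds.getD j (fun _ => 0)) l : ℤ) * slt q j s| ≤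
          ∑ j ∈ range 23, ((Dmx.getD j 0 : ℕ) : ℤ) * |slt q j s| := by
        refine (Finset.abs_sum_le_sum_abs _ _).trans (Finset.sum_le_sum fun j hj => ?_)
        rw [abs_mul]
        refine mul_le_mul_of_nonneg_right ?_ (abs_nonneg _)
        rw [abs_of_nonneg (by positivity)]
        exact_mod_cast hb j (Finset.mem_range.1 hj) l hl
      calc |∑ j ∈ range 23, ((ds.getD j (fun _ => 0)) l : ℤ) * slt q j s + kc0|
          ≤ |∑ j ∈ range 23, ((ds.getD j (fun _ => 0)) l : ℤ) * slt q j s| + |kc0| := abs_add_le _ _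
        _ ≤ ∑ j ∈ range 23, ((Dmx.getD j 0 : ℕ) : ℤ) * |slt q j s| + kc0 := by
            rw [abs_of_nonneg hk0]
            exact add_le_add h2 le_rfl
        _ < 2 ^ 127 := h1) ht s hs l hl
  rwa [dd_eq 23 ds hd] at h

theorem vxs_length (l : List Nv) : (vxs l).length = 4 * l.length := by
  induction l with
  | nil => rfl
  | cons x l ih =>
    unfold vxs at ih ⊢
    rw [List.flatMap_cons, List.length_append, ih]
    simp only [List.length_cons, List.length_nil]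
    omega

theorem vxs_mem (l : List Nv) (x : Nv) (hx : x ∈ l) (up om : Bool) :
    ∃ i < 4 * l.length, (vxs l).getD i (⟨0, 0, 0, 0, 0⟩, false, false) = (x, up, om) := by
  have hm : (x, up, om) ∈ vxs l := by
    unfold vxs
    rw [List.mem_flatMap]
    refine ⟨x, hx, ?_⟩
    cases up <;> cases om <;> simp
  obtain ⟨i, hi, he⟩ := List.mem_iff_getElem.1 hm
  refine ⟨i, by rw [← vxs_length]; exact hi, ?_⟩
  rw [List.getD_eq_getElem _ _ hi, he]

/-- The term `j`. -/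
def tm (q : PV) (x : Nv) (up om : Bool) (j : ℕ) : Tm :=
  (tri q.a q.b q.D x up om).getD j (0, (0, 0), (0, 0), (0, 0))

/-- The value of a term. -/
noncomputable def tv (τ : ℝ) (t : Tm) : ℝ := (t.1 : ℝ) * (ip τ t.2.1 * ip τ t.2.2.1 * ip τ t.2.2.2)

theorem bern (τ : ℝ) (t : Tm) :
    3 * tv τ t = (1 - τ) ^ 3 * ((t.1 * bl3 t.2.1 t.2.2.1 t.2.2.2 0 : ℤ) : ℝ) +
      3 * (1 - τ) ^ 2 * τ * ((t.1 * bl3 t.2.1 t.2.2.1 t.2.2.2 1 : ℤ) : ℝ) +
      3 * (1 - τ) * τ ^ 2 * ((t.1 * bl3 t.2.1 t.2.2.1 t.2.2.2 2 : ℤ) : ℝ) +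
      τ ^ 3 * ((t.1 * bl3 t.2.1 t.2.2.1 t.2.2.2 3 : ℤ) : ℝ) := by
  unfold tv ip bl3
  simp only [if_true, if_false, one_ne_zero, OfNat.ofNat_ne_zero, OfNat.ofNat_ne_one]
  push_cast
  ring

/-- At a vertex. -/
theorem vertex (c : Pc) (q : PV) (hq : PcOK c q) (ds : List (ℕ → ℕ)) (hd : ds.length = 23)
    (hb : ∀ j < 23, ∀ l < 8, (ds.getD j (fun _ => 0)) l ≤ Dmx.getD j 0)
    (ht : tst c (dot (ds.map pv) c.T) = true) (l : ℕ) (hl : l < 8) (x : Nv) (hx : x ∈ q.nds) (up om : Bool)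
    (τ : ℝ) (h0 : 0 ≤ τ) (h1 : τ ≤ 1) :
    0 ≤ ∑ j ∈ range 23, ((ds.getD j (fun _ => 0)) l : ℝ) * tv τ (tm q x up om j) +
      227994731135631360000000 * 2 ^ 25 := by
  obtain ⟨i, hi, he⟩ := vxs_mem q.nds x hx up om
  have hslt : ∀ j k, k < 4 → slt q j (4 * i + k) =
      (tm q x up om j).1 * bl3 (tm q x up om j).2.1 (tm q x up om j).2.2.1 (tm q x up om j).2.2.2 k := by
    intro j k hk
    have e1 : (4 * i + k) / 4 = i := by omega
    have e2 : (4 * i + k) % 4 = k := by omega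
    unfold slt
    simp only [e1, e2, he]
    rfl
  have hS : ∀ k, k < 4 → 0 ≤ ∑ j ∈ range 23, ((ds.getD j (fun _ => 0)) l : ℝ) *
      (((tm q x up om j).1 * bl3 (tm q x up om j).2.1 (tm q x up om j).2.2.1 (tm q x up om j).2.2.2 k : ℤ) : ℝ) +
      3 * 227994731135631360000000 * 2 ^ 25 := by
    intro k hk
    have h := slots c q hq ds hd hb ht l hl (4 * i + k) (by omega)
    have h2 : (0 : ℝ) ≤ ((∑ j ∈ range 23, ((ds.getD j (fun _ => 0)) l : ℤ) * slt q j (4 * i + k) + kc0 : ℤ) : ℝ) := by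
      exact_mod_cast h
    refine le_of_le_of_eq h2 ?_
    rw [Int.cast_add, Int.cast_sum]
    congr 1
    · refine Finset.sum_congr rfl fun j _ => ?_
      rw [hslt j k hk, Int.cast_mul, Int.cast_natCast]
    · unfold kc0
      push_cast
      ring
  have hw : ∀ j, ((ds.getD j (fun _ => 0)) l : ℝ) * (3 * tv τ (tm q x up om j)) =
      (1 - τ) ^ 3 * (((ds.getD j (fun _ => 0)) l : ℝ) * (((tm q x up om j).1 * bl3 (tm q x up om j).2.1
        (tm q x up om j).2.2.1 (tm q x up om j).2.2.2 0 : ℤ) : ℝ)) +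
      3 * (1 - τ) ^ 2 * τ * (((ds.getD j (fun _ => 0)) l : ℝ) * (((tm q x up om j).1 * bl3 (tm q x up om j).2.1
        (tm q x up om j).2.2.1 (tm q x up om j).2.2.2 1 : ℤ) : ℝ)) +
      3 * (1 - τ) * τ ^ 2 * (((ds.getD j (fun _ => 0)) l : ℝ) * (((tm q x up om j).1 * bl3 (tm q x up om j).2.1
        (tm q x up om j).2.2.1 (tm q x up om j).2.2.2 2 : ℤ) : ℝ)) +
      τ ^ 3 * (((ds.getD j (fun _ => 0)) l : ℝ) * (((tm q x up om j).1 * bl3 (tm q x up om j).2.1
        (tm q x up om j).2.2.1 (tm q x up om j).2.2.2 3 : ℤ) : ℝ)) := by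
    intro j
    rw [bern]
    ring
  have hsum : 3 * ∑ j ∈ range 23, ((ds.getD j (fun _ => 0)) l : ℝ) * tv τ (tm q x up om j) =
      (1 - τ) ^ 3 * ∑ j ∈ range 23, (((ds.getD j (fun _ => 0)) l : ℝ) * (((tm q x up om j).1 * bl3 (tm q x up om j).2.1
        (tm q x up om j).2.2.1 (tm q x up om j).2.2.2 0 : ℤ) : ℝ)) +
      3 * (1 - τ) ^ 2 * τ * ∑ j ∈ range 23, (((ds.getD j (fun _ => 0)) l : ℝ) * (((tm q x up om j).1 * bl3 (tm q x up om j).2.1
        (tm q x up om j).2.2.1 (tm q x up om j).2.2.2 1 : ℤ) : ℝ)) +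
      3 * (1 - τ) * τ ^ 2 * ∑ j ∈ range 23, (((ds.getD j (fun _ => 0)) l : ℝ) * (((tm q x up om j).1 * bl3 (tm q x up om j).2.1
        (tm q x up om j).2.2.1 (tm q x up om j).2.2.2 2 : ℤ) : ℝ)) +
      τ ^ 3 * ∑ j ∈ range 23, (((ds.getD j (fun _ => 0)) l : ℝ) * (((tm q x up om j).1 * bl3 (tm q x up om j).2.1
        (tm q x up om j).2.2.1 (tm q x up om j).2.2.2 3 : ℤ) : ℝ)) := by
    rw [Finset.mul_sum, Finset.mul_sum, Finset.mul_sum, Finset.mul_sum, Finset.mul_sum, ← Finset.sum_add_distrib,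
      ← Finset.sum_add_distrib, ← Finset.sum_add_distrib]
    refine Finset.sum_congr rfl fun j _ => ?_
    rw [← hw j]
    ring
  have g0 := mul_nonneg (pow_nonneg (sub_nonneg.2 h1) 3) (hS 0 (by norm_num))
  have g1 := mul_nonneg (mul_nonneg (mul_nonneg (by norm_num : (0 : ℝ) ≤ 3) (pow_nonneg (sub_nonneg.2 h1) 2)) h0)
    (hS 1 (by norm_num))
  have g2 := mul_nonneg (mul_nonneg (mul_nonneg (by norm_num : (0 : ℝ) ≤ 3) (sub_nonneg.2 h1)) (pow_nonneg h0 2))
    (hS 2 (by norm_num))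
  have g3 := mul_nonneg (pow_nonneg h0 3) (hS 3 (by norm_num))
  have e : (1 - τ) ^ 3 + 3 * (1 - τ) ^ 2 * τ + 3 * (1 - τ) * τ ^ 2 + τ ^ 3 = 1 := by ring
  rw [mul_add] at g0 g1 g2 g3
  have hc : (1 - τ) ^ 3 * (3 * 227994731135631360000000 * 2 ^ 25 : ℝ) +
      3 * (1 - τ) ^ 2 * τ * (3 * 227994731135631360000000 * 2 ^ 25) +
      3 * (1 - τ) * τ ^ 2 * (3 * 227994731135631360000000 * 2 ^ 25) +
      τ ^ 3 * (3 * 227994731135631360000000 * 2 ^ 25) = 3 * 227994731135631360000000 * 2 ^ 25 := by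
    rw [← add_mul, ← add_mul, ← add_mul, e, one_mul]
  linarith

/-- The value of `FV` at a vertex. -/
theorem fv_eq (q : PV) (x : Nv) (up om : Bool) (τ : ℝ) (D : ℕ → ℝ) :
    ∑ j ∈ range 23, D j * tv τ (tm q x up om j) + 227994731135631360000000 * 2 ^ 25 =
      FV D om (q.a : ℝ) (q.b : ℝ) (ip τ (q.a, q.b)) (ip τ (x.xa, x.xb))
        (if up then ip τ (x.ua, x.ub) else 147104 * 384 - 212389 * ip τ (x.xa, x.xb))
        (2 * (x.m : ℝ) * (ip τ (x.xa, x.xb) - 288) - (x.m : ℝ) ^ 2 - (q.D : ℝ)) := by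
  simp only [Finset.sum_range_succ, Finset.sum_range_zero, zero_add]
  cases up <;> cases om <;>
  · unfold FV tm tri tv ip rlo
    simp only [List.getD_cons_succ, List.getD_cons_zero, if_true, if_false, Bool.false_eq_true]
    push_cast
    ring

end LNCM

open LNCM in
/-- **LNC**. -/
theorem specLNC (hPOL : SpecPOL) : SpecLNC := by
  intro c q hq ds hd hb ht l hl h21 om V X r hV1 hV2 hP
  obtain ⟨x0, y0, t, hnds, hG, ha, hb', hlast⟩ := hq.ne
  have hab : (c.a : ℝ) < (c.b : ℝ) := by exact_mod_cast hq.ab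
  have hca : ((q.a : ℤ) : ℝ) = (c.a : ℝ) := by
    rw [← hq.a]
    simp
  have hcb : ((q.b : ℤ) : ℝ) = (c.b : ℝ) := by
    rw [← hq.b]
    simp
  have hba : (0 : ℝ) < (c.b : ℝ) - (c.a : ℝ) := by linarith
  obtain ⟨τ, hτ⟩ : ∃ τ : ℝ, τ = (V - (c.a : ℝ)) / ((c.b : ℝ) - (c.a : ℝ)) := ⟨_, rfl⟩
  have hτ0 : 0 ≤ τ := hτ ▸ div_nonneg (by linarith) hba.le
  have hτ1 : τ ≤ 1 := by
    rw [hτ, div_le_one hba]
    linarith
  have hipV : ip τ (q.a, q.b) = V := by
    unfold ip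
    simp only [hca, hcb]
    rw [hτ]
    field_simp
    ring
  have hc1 : (192 : ℝ) ≤ (c.a : ℝ) := by exact_mod_cast hq.a1
  have hc2 : (c.b : ℝ) ≤ 384 := by exact_mod_cast hq.b1
  obtain ⟨D, hD⟩ : ∃ D : ℕ → ℝ, D = fun j => ((ds.getD j (fun _ => 0)) l : ℝ) := ⟨_, rfl⟩
  have hvert : ∀ x ∈ x0 :: y0 :: t, ∀ up : Bool,
      0 ≤ FV D om (c.a : ℝ) (c.b : ℝ) V (ip τ (x.xa, x.xb))
        (if up then ip τ (x.ua, x.ub) else 147104 * 384 - 212389 * ip τ (x.xa, x.xb))
        (2 * (x.m : ℝ) * (ip τ (x.xa, x.xb) - 288) - (x.m : ℝ) ^ 2 - (q.D : ℝ)) := by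
    intro x hx up
    have h := vertex c q hq ds hd hb ht l hl x (hnds ▸ hx) up om τ hτ0 hτ1
    have h2 := fv_eq q x up om τ D
    rw [hca, hcb, hipV] at h2
    rw [← h2, hD]
    exact h
  have hD20 : 0 ≤ D 20 := by
    rw [hD]
    positivity
  have hD21 : D 21 ≤ 40 * D 20 := by
    rw [hD]
    change ((ds.getD 21 (fun _ => 0)) l : ℝ) ≤ 40 * ((ds.getD 20 (fun _ => 0)) l : ℝ)
    exact_mod_cast h21
  have hV0 : 0 ≤ V := by linarith
  have hκ : 0 ≤ 409600 * D 20 * V * (384 + V) - 20480 * D 21 * V ^ 2 := by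
    have h1 : 20480 * D 21 * V ^ 2 ≤ 20480 * (40 * D 20) * V ^ 2 :=
      mul_le_mul_of_nonneg_right (mul_le_mul_of_nonneg_left hD21 (by norm_num)) (sq_nonneg V)
    have h2 : 0 ≤ 409600 * D 20 * V * (384 - V) :=
      mul_nonneg (mul_nonneg (mul_nonneg (by norm_num) hD20) hV0) (by linarith)
    nlinarith
  have hfin := hPOL q.D x0 (y0 :: t) q.ls hG (by simp) τ X r hτ0 hτ1
    (by
      rw [ha, hb', hipV]
      exact hP.x1)
    (by
      rcases hlast with ⟨e1, e2⟩ | ⟨e1, e2⟩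
      · rw [e1, e2]
        have : ip τ (3 * q.a - 384, 3 * q.b - 384) = 3 * ip τ (q.a, q.b) - 384 := by
          unfold ip
          push_cast
          ring
        rw [this, hipV]
        exact hP.x3
      · rw [e1, e2]
        have : ip τ (384, 384) = 384 := by
          unfold ip
          push_cast
          ring
        rw [this]
        exact hP.x2)
    hP.lo hP.hi
    (9277129359360000000 * (D 0 - D 1) * V + 5760000000 * (D 2 - D 3) * V ^ 2 +
      8053063680 * (if om then D 5 else D 4) * V * 144000000 +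
      5 * (D 6 - D 7) * V ^ 2 * 144000000 +
      8053063680000000 * (D 8 * ((c.b : ℝ) - V) + D 9 * (V - (c.a : ℝ))) * V * V -
      9277129359360000000 * (D 10 * ((c.b : ℝ) - V) + D 11 * (V - (c.a : ℝ))) * V -
      (5242880 * D 12 * V * (384 + V) - 262144 * D 13 * V ^ 2) * 144000000 -
      (52428800 * D 16 * V * (384 + V) - 2621440 * D 17 * V ^ 2) * V -
      (60397977600 * D 18 * V * (384 + V) - 3019898880 * D 19 * V ^ 2) -
      227994731135631360000000 * (D 22 - 2 ^ 25))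
    (-(8053063680 * (if om then D 5 else D 4) * V * 500000) - 5 * (D 6 - D 7) * V ^ 2 * 500000 -
      8053063680000000 * (D 8 * ((c.b : ℝ) - V) + D 9 * (V - (c.a : ℝ))) * V +
      (5242880 * D 12 * V * (384 + V) - 262144 * D 13 * V ^ 2) * 500000 +
      (52428800 * D 16 * V * (384 + V) - 2621440 * D 17 * V ^ 2))
    (8053063680 * (if om then D 5 else D 4) * V + 5 * (D 6 - D 7) * V ^ 2 -
      (5242880 * D 14 * V * (384 + V) - 262144 * D 15 * V ^ 2))
    (409600 * D 20 * V * (384 + V) - 20480 * D 21 * V ^ 2) hκ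
    (by
      intro x hx
      have h1 := hvert x hx false
      have h2 := hvert x hx true
      simp only [if_true, if_false, Bool.false_eq_true] at h1 h2
      constructor
      · refine le_of_le_of_eq h1 ?_
        unfold FV
        ring
      · refine le_of_le_of_eq h2 ?_
        unfold FV
        ring)
  refine le_of_le_of_eq hfin ?_
  rw [hD]
  unfold FV
  ring

end Pool.Agent.Lib.MP_084b88_gt.QV
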