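import Pool.Agent.Lib.MP_084b88_gt.QV.SpecD

/-!
# MP_084b88_gt, project QV, module LNS: the lines of the rows are valid
-/

set_option autoImplicit false

open MeasureTheory Set Real

namespace Pool.Agent.Lib.MP_084b88_gt.QV

open Pool.Agent.Lib.MP_084b88_gt.CW Pool.Agent.Lib.MP_084b88_gt.SY Pool.Agent.Lib.MP_084b88_gt.LG
open Pool.Agent.Lib.MP_084b88_gt.AY
open Pool.Agent.Lib.MP_084b88_gt.CT (ifle)

namespace LNSM

theorem of_andb {a b : Bool} (h : andb a b = true) : a = true ∧ b = true := by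
  cases a
  · exact absurd h (by simp [andb])
  · exact ⟨rfl, h⟩

theorem ifle_eq {α : Type} (a b : ℕ) (x y : α) : ifle a b x y = if a ≤ b then x else y := by
  unfold ifle
  by_cases h : a ≤ b
  · rw [if_pos h]
    have : Nat.ble a b = true := Nat.ble_eq_true_of_le h
    rw [this]
  · rw [if_neg h]
    have : Nat.ble a b = false := by
      by_contra hc
      exact h (Nat.le_of_ble_eq_true (by simpa using hc))
    rw [this]

/-! ### chords -/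

theorem chd_le {k k' : Kt} {x x' α β t : ℝ} (h1 : α + β * (k.z : ℝ) ≤ x) (h2 : α + β * (k'.z : ℝ) ≤ x')
    (ha : (k.z : ℝ) ≤ t) (hb : t ≤ (k'.z : ℝ)) :
    ((k'.z : ℝ) - k.z) * (α + β * t) ≤ chd k k' x x' t := by
  unfold chd
  have e1 := mul_le_mul_of_nonneg_right h1 (sub_nonneg.2 hb)
  have e2 := mul_le_mul_of_nonneg_right h2 (sub_nonneg.2 ha)
  have e3 : ((k'.z : ℝ) - k.z) * (α + β * t) =
      (α + β * (k.z : ℝ)) * ((k'.z : ℝ) - t) + (α + β * (k'.z : ℝ)) * (t - (k.z : ℝ)) := by ring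
  rw [e3]
  exact add_le_add e1 e2

theorem le_chd {k k' : Kt} {x x' α β t : ℝ} (h1 : x ≤ α + β * (k.z : ℝ)) (h2 : x' ≤ α + β * (k'.z : ℝ))
    (ha : (k.z : ℝ) ≤ t) (hb : t ≤ (k'.z : ℝ)) :
    chd k k' x x' t ≤ ((k'.z : ℝ) - k.z) * (α + β * t) := by
  unfold chd
  have e1 := mul_le_mul_of_nonneg_right h1 (sub_nonneg.2 hb)
  have e2 := mul_le_mul_of_nonneg_right h2 (sub_nonneg.2 ha)
  have e3 : ((k'.z : ℝ) - k.z) * (α + β * t) =
      (α + β * (k.z : ℝ)) * ((k'.z : ℝ) - t) + (α + β * (k'.z : ℝ)) * (t - (k.z : ℝ)) := by ring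
  rw [e3]
  exact add_le_add e1 e2

/-! ### the bounds at a knot -/

/-- The content of `lck`. -/
structure LK (l : Ln) (k : Kt) : Prop where
  g : ((l.g0p : ℝ) - l.g0n) + ((l.g1p : ℝ) - l.g1n) / 16 * (k.z : ℝ) ≤ (k.kp : ℝ) - k.kn
  w1 : (l.wl : ℝ) + ((l.o1p : ℝ) - l.o1n) / 16 * (k.z : ℝ) ≤ (k.w : ℝ)
  w2 : (k.w : ℝ) + 1 ≤ (l.wu : ℝ) + ((l.o1p : ℝ) - l.o1n) / 16 * (k.z : ℝ)
  l1 : (k.lp : ℝ) - k.ln + 1 ≤
    ((l.lmp : ℝ) - l.lmn + l.dl) + ((l.l1p : ℝ) - l.l1n) * 100663296 * (k.z : ℝ)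
  l2 : ((l.lmp : ℝ) - l.lmn - l.dl) + ((l.l1p : ℝ) - l.l1n) * 100663296 * (k.z : ℝ) ≤ (k.lp : ℝ) - k.ln
  na : (l.na : ℝ) + -((l.n1 : ℝ) * 100663296) * (k.z : ℝ) ≤ (k.nl : ℝ)
  nb : (k.nu : ℝ) ≤ (l.nb : ℝ) + -((l.n1 : ℝ) * 100663296) * (k.z : ℝ)

theorem lck_spec {l : Ln} {k : Kt} (h : lck l k = true) : LK l k := by
  unfold lck at h
  obtain ⟨h1, h2⟩ := of_andb h
  obtain ⟨h3, h4⟩ := of_andb h1
  obtain ⟨h5, h6⟩ := of_andb h4
  obtain ⟨h7, h8⟩ := of_andb h2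
  obtain ⟨h9, h10⟩ := of_andb h7
  obtain ⟨h11, h12⟩ := of_andb h8
  have a3 : 16 * (l.g0p + k.kn) + l.g1p * k.z ≤ 16 * (l.g0n + k.kp) + l.g1n * k.z :=
    Nat.le_of_ble_eq_true h3
  have a5 : 16 * l.wl + l.o1p * k.z ≤ 16 * k.w + l.o1n * k.z := Nat.le_of_ble_eq_true h5
  have a6 : 16 * (k.w + 1) + l.o1n * k.z ≤ 16 * l.wu + l.o1p * k.z := Nat.le_of_ble_eq_true h6
  have a9 : k.lp + 1 + l.lmn + l.l1n * (100663296 * k.z) ≤
      k.ln + l.lmp + l.dl + l.l1p * (100663296 * k.z) := Nat.le_of_ble_eq_true h9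
  have a10 : k.ln + l.lmp + l.l1p * (100663296 * k.z) ≤
      k.lp + l.lmn + l.dl + l.l1n * (100663296 * k.z) := Nat.le_of_ble_eq_true h10
  have a11 : l.na ≤ k.nl + l.n1 * (100663296 * k.z) := Nat.le_of_ble_eq_true h11
  have a12 : k.nu + l.n1 * (100663296 * k.z) ≤ l.nb := Nat.le_of_ble_eq_true h12
  have b3 : 16 * ((l.g0p : ℝ) + k.kn) + l.g1p * k.z ≤ 16 * (l.g0n + k.kp) + l.g1n * k.z := by
    exact_mod_cast a3
  have b5 : 16 * (l.wl : ℝ) + l.o1p * k.z ≤ 16 * k.w + l.o1n * k.z := by exact_mod_cast a5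
  have b6 : 16 * ((k.w : ℝ) + 1) + l.o1n * k.z ≤ 16 * l.wu + l.o1p * k.z := by exact_mod_cast a6
  have b9 : (k.lp : ℝ) + 1 + l.lmn + l.l1n * (100663296 * k.z) ≤
      k.ln + l.lmp + l.dl + l.l1p * (100663296 * k.z) := by exact_mod_cast a9
  have b10 : (k.ln : ℝ) + l.lmp + l.l1p * (100663296 * k.z) ≤
      k.lp + l.lmn + l.dl + l.l1n * (100663296 * k.z) := by exact_mod_cast a10
  have b11 : (l.na : ℝ) ≤ k.nl + l.n1 * (100663296 * k.z) := by exact_mod_cast a11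
  have b12 : (k.nu : ℝ) + l.n1 * (100663296 * k.z) ≤ l.nb := by exact_mod_cast a12
  refine ⟨?_, ?_, ?_, ?_, ?_, ?_, ?_⟩ <;> linarith

/-! ### the walk -/

theorem wlk_find (W L : ℝ → ℝ) (l : Ln) : ∀ (t : List Kt) (k : Kt), ChK (PrOK W L) (k :: t) →
    wlk l (k :: t) = true → k.z < l.zj → ∀ x : ℝ, (k.z : ℝ) ≤ x → x ≤ (l.zj : ℝ) →
    ∃ k1 k2 : Kt, PrOK W L k1 k2 ∧ (k1.z : ℝ) ≤ x ∧ x ≤ (k2.z : ℝ) ∧ LK l k1 ∧ LK l k2 ∧ k1.ee ≤ l.e0
  | [], k, _, hw, hk, x, _, _ => by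
    have h' : andb (lck l k) (ifle l.zj k.z true (andb (Nat.ble k.ee l.e0) false)) = true := hw
    obtain ⟨_, h2⟩ := of_andb h'
    rw [ifle_eq, if_neg (not_le.2 hk)] at h2
    exact absurd (of_andb h2).2 (by simp)
  | k' :: t, k, hc, hw, hk, x, hx1, hx2 => by
    have h' : andb (lck l k) (ifle l.zj k.z true (andb (Nat.ble k.ee l.e0) (wlk l (k' :: t)))) = true := hw
    obtain ⟨h1, h2⟩ := of_andb h'
    rw [ifle_eq, if_neg (not_le.2 hk)] at h2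
    obtain ⟨h3, h4⟩ := of_andb h2
    have h4' : andb (lck l k') (ifle l.zj k'.z true (andb (Nat.ble k'.ee l.e0) (wlk l t))) = true := h4
    obtain ⟨h5, _⟩ := of_andb h4'
    have hc' : PrOK W L k k' ∧ ChK (PrOK W L) (k' :: t) := hc
    rcases le_or_gt x (k'.z : ℝ) with hx | hx
    · exact ⟨k, k', hc'.1, hx1, hx, lck_spec h1, lck_spec h5, Nat.le_of_ble_eq_true h3⟩
    · have hk' : k'.z < l.zj := by
        have : (k'.z : ℝ) < (l.zj : ℝ) := lt_of_lt_of_le hx hx2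
        exact_mod_cast this
      exact wlk_find W L l t k' hc'.2 h4 hk' x hx.le hx2

/-! ### the rows -/

theorem lls_spec (z : ℕ) (ks : List Kt) : ∀ ls : List Ln, lls z ks ls = true →
    ∀ l ∈ ls, z < l.zj ∧ lnb l = true ∧ wlk l ks = true
  | [], _, _, hl => absurd hl (by simp)
  | x :: t, h, l, hl => by
    have h' : andb (andb (andb (Nat.ble (Nat.succ z) x.zj) (lnb x)) (wlk x ks)) (lls z ks t) = true := h
    obtain ⟨h1, h2⟩ := of_andb h'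
    obtain ⟨h3, h4⟩ := of_andb h1
    obtain ⟨h5, h6⟩ := of_andb h3
    rcases List.mem_cons.1 hl with rfl | hl
    · exact ⟨Nat.le_of_ble_eq_true h5, h6, h4⟩
    · exact lls_spec z ks t h2 l hl

theorem ChK_tail {R : Kt → Kt → Prop} {k : Kt} {t : List Kt} (h : ChK R (k :: t)) : ChK R t := by
  cases t with
  | nil => trivial
  | cons k' t => exact h.2

theorem tck_spec (R : Kt → Kt → Prop) : ∀ (ks : List Kt) (rs : List Row), ChK R ks → tck ks rs = true →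
    ∀ r ∈ rs, ∃ (k : Kt) (t : List Kt), ChK R (k :: t) ∧ r.z = k.z ∧ lls r.z (k :: t) r.l = true
  | _, [], _, _, _, hr => absurd hr (by simp)
  | [], r :: rs, _, h, _, _ => by
    have h' : false = true := h
    exact absurd h' (by simp)
  | k :: t, r :: rs, hc, h, r', hr' => by
    have h' : ifle r.z k.z (andb (Nat.beq r.z k.z) (andb (lls r.z (k :: t) r.l) (tck t rs)))
      (tck t (r :: rs)) = true := h
    rw [ifle_eq] at h'
    split_ifs at h' with hle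
    · obtain ⟨h1, h2⟩ := of_andb h'
      obtain ⟨h3, h4⟩ := of_andb h2
      rcases List.mem_cons.1 hr' with rfl | hr'
      · exact ⟨k, t, hc, Nat.eq_of_beq_eq_true h1, h3⟩
      · exact tck_spec R t rs (ChK_tail hc) h4 r' hr'
    · exact tck_spec R t (r :: rs) (ChK_tail hc) h' r' hr'

theorem lnb_spec {l : Ln} (h : lnb l = true) : LnB l := by
  unfold lnb at h
  obtain ⟨h1, h2⟩ := of_andb h
  obtain ⟨h3, h4⟩ := of_andb h1
  obtain ⟨h5, h6⟩ := of_andb h3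
  obtain ⟨h7, h8⟩ := of_andb h4
  obtain ⟨h9, h10⟩ := of_andb h2
  obtain ⟨h11, h12⟩ := of_andb h9
  obtain ⟨h13, h14⟩ := of_andb h10
  obtain ⟨h15, h16⟩ := of_andb h13
  have a5 := Nat.le_of_ble_eq_true h5
  have a6 := Nat.le_of_ble_eq_true h6
  have a7 := Nat.le_of_ble_eq_true h7
  have a8 := Nat.le_of_ble_eq_true h8
  have a11 := Nat.le_of_ble_eq_true h11
  have a12 := Nat.le_of_ble_eq_true h12
  have a15 := Nat.le_of_ble_eq_true h15
  have a16 := Nat.le_of_ble_eq_true h16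
  have a14 := Nat.le_of_ble_eq_true h14
  exact ⟨by norm_num; exact a5, by norm_num; exact a6, by norm_num; exact a7, by norm_num; exact a8,
    by norm_num; exact a11, by norm_num; exact a12, by norm_num; exact a15, by norm_num; exact a16, a14⟩

end LNSM

open LNSM in
theorem specLNS : SpecLNS := by
  intro W L ks rows hks htc r hr l hl
  obtain ⟨k, t, hch, hz, hll⟩ := tck_spec _ ks rows hks htc r hr
  obtain ⟨hzj, hlnb, hwl⟩ := lls_spec _ _ _ hll l hl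
  refine ⟨?_, lnb_spec hlnb⟩
  have key : ∀ z : ℝ, (r.z : ℝ) ≤ 1024 * z → 1024 * z ≤ (l.zj : ℝ) →
      ∃ k1 k2 : Kt, PrOK W L k1 k2 ∧ (k1.z : ℝ) ≤ 1024 * z ∧ 1024 * z ≤ (k2.z : ℝ) ∧ LK l k1 ∧ LK l k2 ∧
        k1.ee ≤ l.e0 ∧ (0 : ℝ) < (k2.z : ℝ) - k1.z := by
    intro z h1 h2
    obtain ⟨k1, k2, p1, p2, p3, p4, p5, p6⟩ := wlk_find W L l t k hch hwl (by rw [← hz]; exact hzj)
      (1024 * z) (by rw [← hz]; exact h1) h2
    refine ⟨k1, k2, p1, p2, p3, p4, p5, p6, ?_⟩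
    have : (k1.z : ℝ) < k2.z := by exact_mod_cast p1.lt
    linarith
  refine ⟨?_, ?_, ?_, ?_, ?_, ?_, ?_⟩
  · intro z h1 h2 _ _
    obtain ⟨k1, k2, p1, p2, p3, p4, p5, p6, p7⟩ := key z h1 h2
    have e1 := chd_le p4.g p5.g p2 p3
    have e2 := e1.trans (p1.g z p2 p3)
    have e3 : ((k2.z : ℝ) - k1.z) * (((l.g0p : ℝ) - l.g0n) + ((l.g1p : ℝ) - l.g1n) / 16 * (1024 * z)) ≤
        ((k2.z : ℝ) - k1.z) * (2 ^ 30 * KZ W L z) := by
      refine e2.trans (le_of_eq ?_)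
      ring
    have e4 := le_of_mul_le_mul_left e3 p7
    linarith
  · intro z h1 h2 _ _
    obtain ⟨k1, k2, p1, p2, p3, p4, p5, p6, p7⟩ := key z h1 h2
    have e1 := chd_le p4.w1 p5.w1 p2 p3
    have e2 := e1.trans (p1.w1 z p2 p3)
    have e3 : ((k2.z : ℝ) - k1.z) * ((l.wl : ℝ) + ((l.o1p : ℝ) - l.o1n) / 16 * (1024 * z)) ≤
        ((k2.z : ℝ) - k1.z) * (2 ^ 30 * (W (1 / √z) / z)) := by
      refine e2.trans (le_of_eq ?_)
      ring
    have e4 := le_of_mul_le_mul_left e3 p7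
    linarith
  · intro z h1 h2 _ _
    obtain ⟨k1, k2, p1, p2, p3, p4, p5, p6, p7⟩ := key z h1 h2
    have e1 := le_chd p4.w2 p5.w2 p2 p3
    have e2 := (p1.w2 z p2 p3).trans e1
    have e3 : ((k2.z : ℝ) - k1.z) * (2 ^ 30 * (W (1 / √z) / z)) ≤
        ((k2.z : ℝ) - k1.z) * ((l.wu : ℝ) + ((l.o1p : ℝ) - l.o1n) / 16 * (1024 * z)) := by
      refine le_trans (le_of_eq ?_) e2
      ring
    have e4 := le_of_mul_le_mul_left e3 p7
    linarith
  · intro z h1 h2 _ _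
    obtain ⟨k1, k2, p1, p2, p3, p4, p5, p6, p7⟩ := key z h1 h2
    have e1 := le_chd p4.l1 p5.l1 p2 p3
    have e2 := (p1.l2 z p2 p3).trans e1
    have f1 := chd_le p4.l2 p5.l2 p2 p3
    have f2 := f1.trans (p1.l1 z p2 p3)
    have e3 : ((k2.z : ℝ) - k1.z) * (2 ^ 58 * 1171875 * (L (1 / √z) / z)) ≤
        ((k2.z : ℝ) - k1.z) * (((l.lmp : ℝ) - l.lmn + l.dl) +
          ((l.l1p : ℝ) - l.l1n) * 100663296 * (1024 * z)) := by
      refine le_trans (le_of_eq ?_) e2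
      ring
    have f3 : ((k2.z : ℝ) - k1.z) * (((l.lmp : ℝ) - l.lmn - l.dl) +
          ((l.l1p : ℝ) - l.l1n) * 100663296 * (1024 * z)) ≤
        ((k2.z : ℝ) - k1.z) * (2 ^ 58 * 1171875 * (L (1 / √z) / z)) := by
      refine f2.trans (le_of_eq ?_)
      ring
    have e4 := le_of_mul_le_mul_left e3 p7
    have f4 := le_of_mul_le_mul_left f3 p7
    rw [abs_le]
    constructor
    · linarith
    · linarith
  · intro z h1 h2 _ _
    obtain ⟨k1, k2, p1, p2, p3, p4, p5, p6, p7⟩ := key z h1 h2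
    have e1 : (k1.ee : ℝ) ≤ (l.e0 : ℝ) := by exact_mod_cast p6
    exact (p1.e z p2 p3).trans e1
  · intro z h1 h2 _ _
    obtain ⟨k1, k2, p1, p2, p3, p4, p5, p6, p7⟩ := key z h1 h2
    have e1 := chd_le p4.na p5.na p2 p3
    have e2 := e1.trans (p1.n1 z p2 p3)
    have e4 := le_of_mul_le_mul_left e2 p7
    linarith
  · intro z h1 h2 _ _
    obtain ⟨k1, k2, p1, p2, p3, p4, p5, p6, p7⟩ := key z h1 h2
    have e1 := le_chd p4.nb p5.nb p2 p3
    have e2 := (p1.n2 z p2 p3).trans e1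
    have e4 := le_of_mul_le_mul_left e2 p7
    linarith

end Pool.Agent.Lib.MP_084b88_gt.QV
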