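import Pool.Agent.Lib.MP_084b88_gt.QV.SpecA

/-!
# MP_084b88_gt, project QV: the V part at one lane
-/

set_option autoImplicit false

namespace Pool.Agent.Lib.MP_084b88_gt.QV

namespace VPSM

theorem mx_eq (a b : ℕ) : mx a b = max a b := by
  have h : mx a b = b + (a - b) := rfl
  omega

theorem ad_ge (a b : ℕ) : |((a : ℝ) - (b : ℝ))| ≤ (ad a b : ℝ) := by
  have h : ad a b = (a - b) + (b - a) := rfl
  rcases le_total a b with hab | hab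
  · have h1 : (ad a b : ℝ) = (b : ℝ) - (a : ℝ) := by
      rw [h, Nat.sub_eq_zero_of_le hab, zero_add, Nat.cast_sub hab]
    rw [h1, abs_sub_comm]
    exact le_of_eq (abs_of_nonneg (sub_nonneg.mpr (by exact_mod_cast hab)))
  · have h1 : (ad a b : ℝ) = (a : ℝ) - (b : ℝ) := by
      rw [h, Nat.sub_eq_zero_of_le hab, add_zero, Nat.cast_sub hab]
    rw [h1]
    exact le_of_eq (abs_of_nonneg (sub_nonneg.mpr (by exact_mod_cast hab)))

theorem div_gt (a b : ℕ) (hb : 0 < b) : (a : ℝ) < (b : ℝ) * ((a / b : ℕ) + 1 : ℝ) := by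
  have h := Nat.lt_mul_div_succ a hb
  have h2 : (a : ℝ) < ((b * (a / b + 1) : ℕ) : ℝ) := by exact_mod_cast h
  push_cast at h2
  exact h2

/-- positivity at an end of the range of `N` -/
theorem endpt (p : Pay) (hs A B s dl N P R : ℕ) (hhs : 0 < hs) (δ γ o : ℝ) (hδ : |δ| ≤ (dl : ℝ))
    (hP : vPN p hs A B s dl N ≤ P) (hR : vRN p hs A B s dl N ≤ R) :
    0 ≤ ((A : ℝ) - (B : ℝ) - (p.t2 : ℝ) * N + δ) * (γ * o) + ((p.t1 : ℝ) * N - (s : ℝ)) * o ^ 2 -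
      (p.t3 : ℝ) * N * γ ^ 2 + (hs : ℝ) * P * γ ^ 2 + (hs : ℝ) * R * o ^ 2 := by
  obtain ⟨X, hX⟩ : ∃ X : ℕ, X = vX p A B dl N := ⟨_, rfl⟩
  obtain ⟨ae, hae⟩ : ∃ ae : ℕ, ae = vE p s N X := ⟨_, rfl⟩
  have hXe : X = dl + ad A (B + p.t2 * N) := hX
  have haee : ae = mx (p.t1 * N - s) (X / 16 + 1) := hae
  have hx : |(A : ℝ) - (B : ℝ) - (p.t2 : ℝ) * N + δ| ≤ (X : ℝ) := by
    have h1 := ad_ge A (B + p.t2 * N)
    push_cast at h1
    have h2 : (A : ℝ) - (B : ℝ) - (p.t2 : ℝ) * N + δ = ((A : ℝ) - ((B : ℝ) + (p.t2 : ℝ) * N)) + δ := by ring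
    rw [h2, hXe]
    push_cast
    calc _ ≤ |(A : ℝ) - ((B : ℝ) + (p.t2 : ℝ) * N)| + |δ| := abs_add_le _ _
      _ ≤ _ := by linarith
  have hae1 : p.t1 * N - s ≤ ae := by rw [haee, mx_eq]; exact le_max_left _ _
  have hae0 : 0 < ae := by rw [haee, mx_eq]; exact lt_of_lt_of_le (Nat.succ_pos _) (le_max_right _ _)
  have haeR : (0 : ℝ) < ae := by exact_mod_cast hae0
  -- hs P
  have hP1 : (X : ℝ) ^ 2 / (4 * ae) + (p.t3 : ℝ) * N ≤ (hs : ℝ) * P := by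
    have e1 : vPN p hs A B s dl N = (X * X / (4 * ae) + (p.t3 * N + 1)) / hs + 1 := by
      rw [hae, hX]; rfl
    have h1 := div_gt (X * X / (4 * ae) + (p.t3 * N + 1)) hs hhs
    have h2 := div_gt (X * X) (4 * ae) (by omega)
    have h3 : ((vPN p hs A B s dl N : ℕ) : ℝ) ≤ P := by exact_mod_cast hP
    rw [e1] at h3
    push_cast at h1 h2 h3
    have h4 : (X : ℝ) ^ 2 / (4 * ae) < ((X * X / (4 * ae) : ℕ) : ℝ) + 1 := by
      rw [div_lt_iff₀ (by positivity)]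
      nlinarith [h2]
    have h5 : (0 : ℝ) < hs := by exact_mod_cast hhs
    have h6 := mul_le_mul_of_nonneg_left h3 h5.le
    linarith
  have hR1 : (ae : ℝ) + s - (p.t1 : ℝ) * N ≤ (hs : ℝ) * R := by
    have e1 : vRN p hs A B s dl N = (ae + s - p.t1 * N) / hs + 1 := by
      rw [hae, hX]; rfl
    have h1 := div_gt (ae + s - p.t1 * N) hs hhs
    have h3 : ((vRN p hs A B s dl N : ℕ) : ℝ) ≤ R := by exact_mod_cast hR
    rw [e1] at h3
    push_cast at h3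
    have h5 : (0 : ℝ) < hs := by exact_mod_cast hhs
    have h6 := mul_le_mul_of_nonneg_left h3 h5.le
    have h7 : ((ae : ℝ) + s - (p.t1 : ℝ) * N) ≤ ((ae + s - p.t1 * N : ℕ) : ℝ) := by
      have h8 : ae + s ≤ (ae + s - p.t1 * N) + p.t1 * N := Nat.sub_le_iff_le_add.mp (le_refl _)
      have h9 : ((ae + s : ℕ) : ℝ) ≤ (((ae + s - p.t1 * N) + p.t1 * N : ℕ) : ℝ) := by exact_mod_cast h8
      push_cast at h9
      linarith
    linarith
  have hq : 0 ≤ ((A : ℝ) - (B : ℝ) - (p.t2 : ℝ) * N + δ) * (γ * o) + (ae : ℝ) * o ^ 2 +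
      (X : ℝ) ^ 2 / (4 * ae) * γ ^ 2 := by
    set x := (A : ℝ) - (B : ℝ) - (p.t2 : ℝ) * N + δ with hxdef
    have h1 : x ^ 2 ≤ (X : ℝ) ^ 2 := by
      rw [← sq_abs x]
      exact pow_le_pow_left₀ (abs_nonneg _) hx 2
    have h2 : x ^ 2 / (4 * ae) * γ ^ 2 ≤ (X : ℝ) ^ 2 / (4 * ae) * γ ^ 2 :=
      mul_le_mul_of_nonneg_right (div_le_div_of_nonneg_right h1 (by positivity)) (sq_nonneg _)
    have h3 : x * (γ * o) + (ae : ℝ) * o ^ 2 + x ^ 2 / (4 * ae) * γ ^ 2 =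
        (ae : ℝ) * (o + x * γ / (2 * ae)) ^ 2 := by
      field_simp
      ring
    have h4 : 0 ≤ (ae : ℝ) * (o + x * γ / (2 * ae)) ^ 2 := by positivity
    linarith
  have h1 := mul_le_mul_of_nonneg_right hP1 (sq_nonneg γ)
  have h2 := mul_le_mul_of_nonneg_right hR1 (sq_nonneg o)
  nlinarith [h1, h2, hq]

/-- an affine function between two ends -/
theorem affine {a b N N1 N2 : ℝ} (h1 : N1 ≤ N) (h2 : N ≤ N2) (f1 : 0 ≤ a + b * N1) (f2 : 0 ≤ a + b * N2) :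
    0 ≤ a + b * N := by
  rcases le_total 0 b with hb | hb
  · nlinarith [mul_le_mul_of_nonneg_left h1 hb]
  · nlinarith [mul_le_mul_of_nonpos_left h2 hb]

end VPSM

open VPSM in
theorem specVPS : SpecVPS := by
  intro p hs m2 V l u hhs hn1 hnab hw N δ γ o hN1 hN2 hδ
  have hna : ((l.na - l.n1 * (u.n * V) : ℕ) : ℝ) = (l.na : ℝ) - (l.n1 : ℝ) * ((u.n : ℝ) * (V : ℝ)) := by
    rw [Nat.cast_sub hn1]; push_cast; ring
  have hnb : ((l.nb - l.n1 * (u.n * V) : ℕ) : ℝ) = (l.nb : ℝ) - (l.n1 : ℝ) * ((u.n : ℝ) * (V : ℝ)) := by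
    rw [Nat.cast_sub (le_trans hn1 hnab)]; push_cast; ring
  have hwv : ((vW u V : ℕ) : ℝ) = (u.aw : ℝ) * (384 + (V : ℝ)) - (u.bw : ℝ) * (V : ℝ) := by
    have h : vW u V = u.aw * (384 + V) - u.bw * V := rfl
    rw [h, Nat.cast_sub hw]; push_cast; ring
  have e1 : PL p hs m2 V l u = mx (vPN p hs (vA l (u.n * V)) (vB l (u.n * V) (vW u V)) (l.e0 + vW u V) l.dl
      (p.m1 * (l.na - l.n1 * (u.n * V)))) (vPN p hs (vA l (u.n * V)) (vB l (u.n * V) (vW u V)) (l.e0 + vW u V) l.dl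
      (m2 * (l.nb - l.n1 * (u.n * V)))) := rfl
  have e2 : RL p hs m2 V l u = mx (vRN p hs (vA l (u.n * V)) (vB l (u.n * V) (vW u V)) (l.e0 + vW u V) l.dl
      (p.m1 * (l.na - l.n1 * (u.n * V)))) (vRN p hs (vA l (u.n * V)) (vB l (u.n * V) (vW u V)) (l.e0 + vW u V) l.dl
      (m2 * (l.nb - l.n1 * (u.n * V)))) := rfl
  rw [mx_eq] at e1 e2
  have f1 := endpt p hs (vA l (u.n * V)) (vB l (u.n * V) (vW u V)) (l.e0 + vW u V) l.dl
      (p.m1 * (l.na - l.n1 * (u.n * V))) (PL p hs m2 V l u) (RL p hs m2 V l u) hhs δ γ o hδ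
      (by rw [e1]; exact le_max_left _ _) (by rw [e2]; exact le_max_left _ _)
  have f2 := endpt p hs (vA l (u.n * V)) (vB l (u.n * V) (vW u V)) (l.e0 + vW u V) l.dl
      (m2 * (l.nb - l.n1 * (u.n * V))) (PL p hs m2 V l u) (RL p hs m2 V l u) hhs δ γ o hδ
      (by rw [e1]; exact le_max_right _ _) (by rw [e2]; exact le_max_right _ _)
  have hA : ((vA l (u.n * V) : ℕ) : ℝ) = (l.lmp : ℝ) + (l.l1p : ℝ) * ((u.n : ℝ) * (V : ℝ)) := by
    have h : vA l (u.n * V) = l.lmp + l.l1p * (u.n * V) := rfl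
    rw [h]; push_cast; ring
  have hB : ((vB l (u.n * V) (vW u V) : ℕ) : ℝ) = (l.lmn : ℝ) + (l.l1n : ℝ) * ((u.n : ℝ) * (V : ℝ)) +
      23 * ((u.aw : ℝ) * (384 + (V : ℝ)) - (u.bw : ℝ) * (V : ℝ)) := by
    have h : vB l (u.n * V) (vW u V) = l.lmn + l.l1n * (u.n * V) + 23 * vW u V := rfl
    rw [h]; push_cast; rw [hwv]
  rw [hA, hB] at f1 f2
  rw [Nat.cast_mul, hna, Nat.cast_add, hwv] at f1
  rw [Nat.cast_mul, hnb, Nat.cast_add, hwv] at f2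
  have key := affine (a := ((l.lmp : ℝ) - (l.lmn : ℝ) + ((l.l1p : ℝ) - (l.l1n : ℝ)) * ((u.n : ℝ) * (V : ℝ)) -
          23 * ((u.aw : ℝ) * (384 + (V : ℝ)) - (u.bw : ℝ) * (V : ℝ)) + δ) * (γ * o) +
        (- (l.e0 : ℝ) - ((u.aw : ℝ) * (384 + (V : ℝ)) - (u.bw : ℝ) * (V : ℝ))) * o ^ 2 +
        (hs : ℝ) * (PL p hs m2 V l u : ℝ) * γ ^ 2 + (hs : ℝ) * (RL p hs m2 V l u : ℝ) * o ^ 2)
      (b := -(p.t2 : ℝ) * (γ * o) + (p.t1 : ℝ) * o ^ 2 - (p.t3 : ℝ) * γ ^ 2) hN1 hN2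
      (by linarith [f1]) (by linarith [f2])
  linarith [key]

end Pool.Agent.Lib.MP_084b88_gt.QV
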