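import Pool.Agent.Lib.MP_084b88_gt.QV.SpecB
import Pool.Agent.Lib.MP_084b88_gt.QV.VPS

/-!
# MP_084b88_gt, project QV, module PIE: one piece, mean over the lanes
-/

set_option autoImplicit false

open Finset

namespace Pool.Agent.Lib.MP_084b88_gt.QV

namespace PIEM

theorem andb_true {a b : Bool} (h : andb a b = true) : a = true ∧ b = true := by
  cases a
  · exact absurd h (by simp [andb])
  · exact ⟨rfl, h⟩

theorem one8_eq : one8 = ∑ l ∈ range 8, BS ^ l := by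
  simp only [Finset.sum_range_succ, Finset.sum_range_zero]
  norm_num [one8, BS]

theorem pv_const (k : ℕ) : pv (fun _ => k) = k * one8 := by
  rw [one8_eq, pv, Finset.mul_sum]

theorem pv_mul (k : ℕ) (f : ℕ → ℕ) : pv (fun i => k * f i) = k * pv f := by
  rw [pv, pv, Finset.mul_sum]
  exact Finset.sum_congr rfl fun i _ => by ring

theorem pk_eq (f : Lan → ℕ) : ∀ us : List Lan, pk f us = ∑ i ∈ range us.length, f (ln us i) * BS ^ i := by
  intro us
  induction us with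
  | nil => rfl
  | cons u us ih =>
    have h : pk f (u :: us) = f u + pk f us * BS := rfl
    rw [h, ih, List.length_cons, Finset.sum_range_succ', Finset.sum_mul, add_comm]
    have h0 : f (ln (u :: us) 0) * BS ^ 0 = f u := by
      have : ln (u :: us) 0 = u := rfl
      rw [this, pow_zero, mul_one]
    rw [h0]
    congr 1
    refine Finset.sum_congr rfl fun i _ => ?_
    have : ln (u :: us) (i + 1) = ln us i := rfl
    rw [this, pow_succ, mul_assoc]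

theorem pk_pv (f : Lan → ℕ) (us : List Lan) (h : us.length = 8) : pk f us = pv (fun i => f (ln us i)) := by
  rw [pk_eq, h, pv]

theorem sm_eq (f : Lan → ℕ) : ∀ us : List Lan, sm f us = ∑ i ∈ range us.length, f (ln us i) := by
  intro us
  induction us with
  | nil => rfl
  | cons u us ih =>
    have h : sm f (u :: us) = f u + sm f us := rfl
    rw [h, ih, List.length_cons, Finset.sum_range_succ', add_comm]
    rfl

theorem sm_ge (f : Lan → ℕ) (us : List Lan) (h : us.length = 8) (i : ℕ) (hi : i < 8) : f (ln us i) ≤ sm f us := by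
  rw [sm_eq, h]
  exact Finset.single_le_sum (f := fun i => f (ln us i)) (fun _ _ => Nat.zero_le _) (Finset.mem_range.2 hi)

/-! ## The mean -/

theorem av_add (ω f g : ℕ → ℝ) : av ω (fun i => f i + g i) = av ω f + av ω g := by
  simp only [av, mul_add, Finset.sum_add_distrib]

theorem av_sub (ω f g : ℕ → ℝ) : av ω (fun i => f i - g i) = av ω f - av ω g := by
  simp only [av, mul_sub, Finset.sum_sub_distrib]

theorem av_mul_left (ω : ℕ → ℝ) (c : ℝ) (f : ℕ → ℝ) : av ω (fun i => c * f i) = c * av ω f := by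
  simp only [av, Finset.mul_sum]
  exact Finset.sum_congr rfl fun i _ => by ring

theorem av_mul_right (ω : ℕ → ℝ) (c : ℝ) (f : ℕ → ℝ) : av ω (fun i => f i * c) = av ω f * c := by
  simp only [av, Finset.sum_mul]
  exact Finset.sum_congr rfl fun i _ => by ring

theorem av_const (ω : ℕ → ℝ) (h : ∑ i ∈ range 8, ω i = 1) (c : ℝ) : av ω (fun _ => c) = c := by
  simp only [av]
  rw [← Finset.sum_mul, h, one_mul]

theorem av_nonneg (ω f : ℕ → ℝ) (h : ∀ i < 8, 0 ≤ ω i) (hf : ∀ i < 8, 0 ≤ f i) : 0 ≤ av ω f :=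
  Finset.sum_nonneg fun i hi => mul_nonneg (h i (Finset.mem_range.1 hi)) (hf i (Finset.mem_range.1 hi))

/-! ## The V part -/

/-- The two ends of the range of `N` at one lane. -/
theorem ends (p : Pay) (hs m2 V : ℕ) (l : Ln) (u : Lan) (hhs : 0 < hs) (hn1 : l.n1 * (u.n * V) ≤ l.na)
    (hnab : l.na ≤ l.nb) (hw : u.bw * V ≤ u.aw * (384 + V)) (δ γ o : ℝ) (hδ : |δ| ≤ (l.dl : ℝ)) (m a : ℕ)
    (hm : (m = p.m1 ∧ a = l.na) ∨ (m = m2 ∧ a = l.nb)) :
      0 ≤ ((l.lmp : ℝ) - (l.lmn : ℝ) + ((l.l1p : ℝ) - (l.l1n : ℝ)) * ((u.n : ℝ) * (V : ℝ)) -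
          23 * ((u.aw : ℝ) * (384 + (V : ℝ)) - (u.bw : ℝ) * (V : ℝ)) -
            (p.t2 : ℝ) * ((m : ℝ) * ((a : ℝ) - (l.n1 : ℝ) * ((u.n : ℝ) * (V : ℝ)))) + δ) * (γ * o) +
        ((p.t1 : ℝ) * ((m : ℝ) * ((a : ℝ) - (l.n1 : ℝ) * ((u.n : ℝ) * (V : ℝ)))) - (l.e0 : ℝ) -
          ((u.aw : ℝ) * (384 + (V : ℝ)) - (u.bw : ℝ) * (V : ℝ))) * o ^ 2 -
        (p.t3 : ℝ) * ((m : ℝ) * ((a : ℝ) - (l.n1 : ℝ) * ((u.n : ℝ) * (V : ℝ)))) * γ ^ 2 +
        (hs : ℝ) * (PL p hs m2 V l u : ℝ) * γ ^ 2 + (hs : ℝ) * (RL p hs m2 V l u : ℝ) * o ^ 2 := by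
  have hna : ((l.na - l.n1 * (u.n * V) : ℕ) : ℝ) = (l.na : ℝ) - (l.n1 : ℝ) * ((u.n : ℝ) * (V : ℝ)) := by
    rw [Nat.cast_sub hn1]; push_cast; ring
  have hnb : ((l.nb - l.n1 * (u.n * V) : ℕ) : ℝ) = (l.nb : ℝ) - (l.n1 : ℝ) * ((u.n : ℝ) * (V : ℝ)) := by
    rw [Nat.cast_sub (le_trans hn1 hnab)]; push_cast; ring
  have hwv : ((vW u V : ℕ) : ℝ) = (u.aw : ℝ) * (384 + (V : ℝ)) - (u.bw : ℝ) * (V : ℝ) := by
    have h : vW u V = u.aw * (384 + V) - u.bw * V := rfl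
    rw [h, Nat.cast_sub hw]; push_cast; ring
  have e1 : PL p hs m2 V l u = mx (vPN p hs (vA l (u.n * V)) (vB l (u.n * V) (vW u V)) (l.e0 + vW u V) l.dl
      (p.m1 * (l.na - l.n1 * (u.n * V)))) (vPN p hs (vA l (u.n * V)) (vB l (u.n * V) (vW u V)) (l.e0 + vW u V) l.dl
      (m2 * (l.nb - l.n1 * (u.n * V)))) := rfl
  have e2 : RL p hs m2 V l u = mx (vRN p hs (vA l (u.n * V)) (vB l (u.n * V) (vW u V)) (l.e0 + vW u V) l.dl
      (p.m1 * (l.na - l.n1 * (u.n * V)))) (vRN p hs (vA l (u.n * V)) (vB l (u.n * V) (vW u V)) (l.e0 + vW u V) l.dl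
      (m2 * (l.nb - l.n1 * (u.n * V)))) := rfl
  rw [VPSM.mx_eq] at e1 e2
  have f1 := VPSM.endpt p hs (vA l (u.n * V)) (vB l (u.n * V) (vW u V)) (l.e0 + vW u V) l.dl
      (p.m1 * (l.na - l.n1 * (u.n * V))) (PL p hs m2 V l u) (RL p hs m2 V l u) hhs δ γ o hδ
      (by rw [e1]; exact le_max_left _ _) (by rw [e2]; exact le_max_left _ _)
  have f2 := VPSM.endpt p hs (vA l (u.n * V)) (vB l (u.n * V) (vW u V)) (l.e0 + vW u V) l.dl
      (m2 * (l.nb - l.n1 * (u.n * V))) (PL p hs m2 V l u) (RL p hs m2 V l u) hhs δ γ o hδ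
      (by rw [e1]; exact le_max_right _ _) (by rw [e2]; exact le_max_right _ _)
  have hA : ((vA l (u.n * V) : ℕ) : ℝ) = (l.lmp : ℝ) + (l.l1p : ℝ) * ((u.n : ℝ) * (V : ℝ)) := by
    have h : vA l (u.n * V) = l.lmp + l.l1p * (u.n * V) := rfl
    rw [h]; push_cast; ring
  have hB : ((vB l (u.n * V) (vW u V) : ℕ) : ℝ) = (l.lmn : ℝ) + (l.l1n : ℝ) * ((u.n : ℝ) * (V : ℝ)) +
      23 * ((u.aw : ℝ) * (384 + (V : ℝ)) - (u.bw : ℝ) * (V : ℝ)) := by
    have h : vB l (u.n * V) (vW u V) = l.lmn + l.l1n * (u.n * V) + 23 * vW u V := rfl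
    rw [h]; push_cast; rw [hwv]
  rw [hA, hB] at f1 f2
  rw [Nat.cast_mul, hna, Nat.cast_add, hwv] at f1
  rw [Nat.cast_mul, hnb, Nat.cast_add, hwv] at f2
  rcases hm with ⟨rfl, rfl⟩ | ⟨rfl, rfl⟩
  · linarith [f1]
  · linarith [f2]

/-- The V part of the claim at `V` with the lane data `n, aw, bw`. -/
noncomputable def VP (p : Pay) (l : Ln) (V γ o N δ n aw bw : ℝ) : ℝ :=
  ((l.lmp : ℝ) - (l.lmn : ℝ) + ((l.l1p : ℝ) - (l.l1n : ℝ)) * (n * V) -
            23 * (aw * (384 + V) - bw * V) -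
            (p.t2 : ℝ) * N + δ) * (γ * o) +
          ((p.t1 : ℝ) * N - (l.e0 : ℝ) - (aw * (384 + V) - bw * V)) * o ^ 2 -
          (p.t3 : ℝ) * N * γ ^ 2

/-- Interpolation of the V part. -/
theorem interp (p : Pay) (l : Ln) (a b V γ o δ n aw bw m x n1 H P0 P1 R0 R1 : ℝ) (hab : a < b) (hV1 : a ≤ V)
    (hV2 : V ≤ b)
    (ha : 0 ≤ VP p l a γ o (m * (x - n1 * (n * a))) δ n aw bw + (b - a) * H * P0 * γ ^ 2 + (b - a) * H * R0 * o ^ 2)
    (hb : 0 ≤ VP p l b γ o (m * (x - n1 * (n * b))) δ n aw bw + (b - a) * H * P1 * γ ^ 2 + (b - a) * H * R1 * o ^ 2) :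
    0 ≤ VP p l V γ o (m * (x - n1 * (n * V))) δ n aw bw + H * ((b - V) * P0 + (V - a) * P1) * γ ^ 2 +
      H * ((b - V) * R0 + (V - a) * R1) * o ^ 2 := by
  have h1 := mul_nonneg (sub_nonneg.2 hV2) ha
  have h2 := mul_nonneg (sub_nonneg.2 hV1) hb
  have h3 : (b - a) * (VP p l V γ o (m * (x - n1 * (n * V))) δ n aw bw + H * ((b - V) * P0 + (V - a) * P1) * γ ^ 2 +
      H * ((b - V) * R0 + (V - a) * R1) * o ^ 2) =
      (b - V) * (VP p l a γ o (m * (x - n1 * (n * a))) δ n aw bw + (b - a) * H * P0 * γ ^ 2 + (b - a) * H * R0 * o ^ 2) +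
      (V - a) * (VP p l b γ o (m * (x - n1 * (n * b))) δ n aw bw + (b - a) * H * P1 * γ ^ 2 +
        (b - a) * H * R1 * o ^ 2) := by
    unfold VP
    ring
  have h4 : 0 ≤ (b - a) * (VP p l V γ o (m * (x - n1 * (n * V))) δ n aw bw + H * ((b - V) * P0 + (V - a) * P1) * γ ^ 2 +
      H * ((b - V) * R0 + (V - a) * R1) * o ^ 2) := by
    rw [h3]; exact add_nonneg h1 h2
  exact nonneg_of_mul_nonneg_right h4 (sub_pos.2 hab)

/-- One lane: sum of the polygon part and the V part. -/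
theorem lane (D : ℕ → ℝ) (om : Bool) (a b V X r q γ o vp : ℝ) (hV : 0 ≤ V) (hV1 : a ≤ V) (hV2 : V ≤ b)
    (hγ : 1152 * γ ^ 2 = X - V) (ho : o ^ 2 ≤ 1) (h10 : 0 ≤ D 10) (h11 : 0 ≤ D 11)
    (hF : 0 ≤ FV D om a b V X r q)
    (hvp : 0 ≤ vp + (2 ^ 28 * 1171875) * ((b - V) * D 8 + (V - a) * D 9) * γ ^ 2 +
      (2 ^ 28 * 1171875) * ((b - V) * D 10 + (V - a) * D 11) * o ^ 2) :
    0 ≤ FV (fun j => if j = 8 ∨ j = 9 ∨ j = 10 ∨ j = 11 then 0 else D j) om a b V X r q + 147456 / 5 * V * vp := by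
  have h1 := mul_nonneg (mul_nonneg (by norm_num : (0 : ℝ) ≤ 147456 / 5) hV) hvp
  have h2 : 0 ≤ 9277129359360000000 * V * ((b - V) * D 10 + (V - a) * D 11) * (1 - o ^ 2) := by
    have e1 : 0 ≤ b - V := sub_nonneg.2 hV2
    have e2 : 0 ≤ V - a := sub_nonneg.2 hV1
    have e3 : 0 ≤ 1 - o ^ 2 := sub_nonneg.2 ho
    positivity
  have h3 : X = 1152 * γ ^ 2 + V := by linarith
  have h4 : FV (fun j => if j = 8 ∨ j = 9 ∨ j = 10 ∨ j = 11 then 0 else D j) om a b V X r q =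
      FV D om a b V X r q + 8053063680000000 * (D 8 * (b - V) + D 9 * (V - a)) * V * (X - V) +
        9277129359360000000 * (D 10 * (b - V) + D 11 * (V - a)) * V := by
    unfold FV
    cases om <;> norm_num <;> ring
  rw [h4]
  have h5 : X - V = 1152 * γ ^ 2 := by linarith
  rw [h5]
  nlinarith [h1, h2, hF]

/-- The claim at `N` equal to an end, mean over the lanes: linearity. -/
theorem mean (ω : ℕ → ℝ) (hω : ∑ i ∈ range 8, ω i = 1) (p : Pay) (l : Ln) (D : ℕ → ℕ → ℝ) (om : Bool)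
    (a b V X r q γ o δ m x : ℝ) (n aw bw : ℕ → ℝ) :
    av ω (fun i => FV (fun j => D i j) om a b V X r q +
      147456 / 5 * V * VP p l V γ o (m * (x - (l.n1 : ℝ) * (n i * V))) δ (n i) (aw i) (bw i)) =
    FV (fun j => av ω (fun i => D i j)) om a b V X r q +
      147456 / 5 * V * VP p l V γ o (m * (x - (l.n1 : ℝ) * (av ω n * V))) δ (av ω n) (av ω aw) (av ω bw) := by
  cases om <;>
  simp only [FV, VP, av_add, av_sub, av_mul_left, av_mul_right, av_const ω hω, Bool.false_eq_true, if_false, if_true]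

/-- The list of the lane functions. -/
noncomputable def dsf (p : Pay) (c : Pc) (l : Ln) (us : List Lan) (es : List (ℕ → ℕ)) (m2 : ℕ) : List (ℕ → ℕ) :=
  (fun _ => l.g0p) :: (fun _ => l.g0n) :: (fun i => l.g1p * (ln us i).n) :: (fun i => l.g1n * (ln us i).n) ::
    (fun _ => l.wl) :: (fun _ => l.wu) :: (fun i => l.o1p * (ln us i).n) :: (fun i => l.o1n * (ln us i).n) ::
    (fun i => PL p c.hs m2 c.a l (ln us i)) :: (fun i => PL p c.hs m2 c.b l (ln us i)) ::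
    (fun i => RL p c.hs m2 c.a l (ln us i)) :: (fun i => RL p c.hs m2 c.b l (ln us i)) :: es

theorem dsf_map (p : Pay) (c : Pc) (l : Ln) (us : List Lan) (es : List (ℕ → ℕ)) (m2 : ℕ) (hus : us.length = 8) :
    dpr c.T l (pv fun i => (ln us i).n) (es.map pv) (pk (PL p c.hs m2 c.a l) us) (pk (PL p c.hs m2 c.b l) us)
      (pk (RL p c.hs m2 c.a l) us) (pk (RL p c.hs m2 c.b l) us) = dot ((dsf p c l us es m2).map pv) c.T := by
  rw [pk_pv _ us hus, pk_pv _ us hus, pk_pv _ us hus, pk_pv _ us hus]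
  unfold dsf
  rw [List.map_cons, List.map_cons, List.map_cons, List.map_cons, List.map_cons, List.map_cons, List.map_cons,
    List.map_cons, List.map_cons, List.map_cons, List.map_cons, List.map_cons, pv_const, pv_const, pv_const, pv_const,
    pv_mul, pv_mul, pv_mul, pv_mul]
  rfl

theorem dsf_dv (p : Pay) (c : Pc) (l : Ln) (us : List Lan) (es : List (ℕ → ℕ)) (m2 i : ℕ) :
    (fun j => if j = 8 ∨ j = 9 ∨ j = 10 ∨ j = 11 then (0 : ℝ) else
      (((dsf p c l us es m2).getD j (fun _ => 0)) i : ℝ)) = fun j => dv l us es i j := by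
  funext j
  rcases j with _ | _ | _ | _ | _ | _ | _ | _ | _ | _ | _ | _ | j
  · simp [dsf, dv]
  · simp [dsf, dv]
  · simp [dsf, dv]
  · simp [dsf, dv]
  · simp [dsf, dv]
  · simp [dsf, dv]
  · simp [dsf, dv]
  · simp [dsf, dv]
  · simp [dv]
  · simp [dv]
  · simp [dv]
  · simp [dv]
  · have h1 : (dsf p c l us es m2).getD (j + 12) (fun _ => 0) = es.getD j (fun _ => 0) := rfl
    have h2 : ¬ (j + 12 = 8 ∨ j + 12 = 9 ∨ j + 12 = 10 ∨ j + 12 = 11) := by omega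
    have h3 : dv l us es i (j + 12) = ((es.getD (j + 12 - 12) (fun _ => 0)) i : ℝ) := by
      unfold dv
      rw [if_neg (by omega), if_neg (by omega), if_neg (by omega), if_neg (by omega), if_neg (by omega),
        if_neg (by omega), if_neg (by omega), if_neg (by omega), if_neg (by omega)]
    have h4 : j + 12 - 12 = j := by omega
    show (if j + 12 = 8 ∨ j + 12 = 9 ∨ j + 12 = 10 ∨ j + 12 = 11 then (0 : ℝ) else
      (((dsf p c l us es m2).getD (j + 12) (fun _ => 0)) i : ℝ)) = dv l us es i (j + 12)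
    rw [if_neg h2, h1, h3, h4]

end PIEM

open PIEM in
theorem specPIE (hLNC : SpecLNC) : SpecPIE := by
  intro c q hq p l us es zb hl hus hes hn he he9 hpie ω hω0 hω om V X r γ o N δ hV1 hV2 hpl hγ ho hN1 hN2 hδ
  obtain ⟨m2, hm2⟩ : ∃ m2 : ℕ, m2 = p.m2 * c.sq / 1024 + 1 := ⟨_, rfl⟩
  have hpie' : andb (Nat.ble (Nat.mul l.n1 zb) l.na) (andb
    (bnd us (PL p c.hs m2 c.a l) (PL p c.hs m2 c.b l) (RL p c.hs m2 c.a l) (RL p c.hs m2 c.b l))
    (tst c (dpr c.T l (pv fun i => (ln us i).n) (es.map pv) (pk (PL p c.hs m2 c.a l) us) (pk (PL p c.hs m2 c.b l) us)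
      (pk (RL p c.hs m2 c.a l) us) (pk (RL p c.hs m2 c.b l) us)))) = true := by
    rw [hm2]; exact hpie
  obtain ⟨h1, h2⟩ := andb_true hpie'
  obtain ⟨h3, h4⟩ := andb_true h2
  have hn1 : l.n1 * zb ≤ l.na := Nat.le_of_ble_eq_true h1
  have hb : sm (PL p c.hs m2 c.a l) us + sm (PL p c.hs m2 c.b l) us +
      (sm (RL p c.hs m2 c.a l) us + sm (RL p c.hs m2 c.b l) us) ≤ 2 ^ 44 := Nat.le_of_ble_eq_true h3
  rw [dsf_map p c l us es m2 hus] at h4
  have ha1 := hq.a1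
  have hb1 := hq.b1
  have hab := hq.ab
  have hhs := hq.hs
  have hhs0 : 0 < c.hs := by
    rw [hhs]
    exact Nat.mul_pos (Nat.sub_pos_of_lt hab) (by norm_num)
  have hhsR : (c.hs : ℝ) = ((c.b : ℝ) - (c.a : ℝ)) * (2 ^ 28 * 1171875) := by
    rw [hhs]; push_cast [Nat.cast_sub hab.le]; ring
  have habR : (c.a : ℝ) < (c.b : ℝ) := by exact_mod_cast hab
  have haR : (192 : ℝ) ≤ (c.a : ℝ) := by exact_mod_cast ha1
  have hV0 : 0 ≤ V := by linarith
  -- the lanes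
  have hlane : ∀ i < 8, ∀ m x : ℕ, ((m = p.m1 ∧ x = l.na) ∨ (m = m2 ∧ x = l.nb)) →
      0 ≤ FV (fun j => dv l us es i j) om (c.a : ℝ) (c.b : ℝ) V X r ((X - 288) ^ 2) +
        147456 / 5 * V * VP p l V γ o ((m : ℝ) * ((x : ℝ) - (l.n1 : ℝ) * (((ln us i).n : ℝ) * V))) δ ((ln us i).n : ℝ)
          ((ln us i).aw : ℝ) ((ln us i).bw : ℝ) := by
    intro i hi m x hmx
    obtain ⟨hn2, hn3, hn4⟩ := hn i hi
    have hP0 := sm_ge (PL p c.hs m2 c.a l) us hus i hi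
    have hP1 := sm_ge (PL p c.hs m2 c.b l) us hus i hi
    have hR0 := sm_ge (RL p c.hs m2 c.a l) us hus i hi
    have hR1 := sm_ge (RL p c.hs m2 c.b l) us hus i hi
    have hnb' : (ln us i).n * c.b ≤ zb := hn3
    have hna' : (ln us i).n * c.a ≤ zb := le_trans (Nat.mul_le_mul_left _ hab.le) hn3
    have hwa : (ln us i).bw * c.a ≤ (ln us i).aw * (384 + c.a) := by
      calc (ln us i).bw * c.a ≤ 2 * (ln us i).aw * c.a := Nat.mul_le_mul_right _ hn4
        _ = (ln us i).aw * (c.a + c.a) := by ring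
        _ ≤ _ := Nat.mul_le_mul_left _ (by omega)
    have hwb : (ln us i).bw * c.b ≤ (ln us i).aw * (384 + c.b) := by
      calc (ln us i).bw * c.b ≤ 2 * (ln us i).aw * c.b := Nat.mul_le_mul_right _ hn4
        _ = (ln us i).aw * (c.b + c.b) := by ring
        _ ≤ _ := Nat.mul_le_mul_left _ (by omega)
    have ea := ends p c.hs m2 c.a l (ln us i) hhs0 (le_trans (Nat.mul_le_mul_left _ hna') hn1) hl.nab hwa δ γ o hδ m x
      hmx
    have eb := ends p c.hs m2 c.b l (ln us i) hhs0 (le_trans (Nat.mul_le_mul_left _ hnb') hn1) hl.nab hwb δ γ o hδ m x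
      hmx
    rw [hhsR] at ea eb
    have hF := hLNC c q hq (dsf p c l us es m2) (by simp [dsf, hes]) (by
      intro j hj k hk
      obtain ⟨gn2, gn3, gn4⟩ := hn k hk
      have gP0 := sm_ge (PL p c.hs m2 c.a l) us hus k hk
      have gP1 := sm_ge (PL p c.hs m2 c.b l) us hus k hk
      have gR0 := sm_ge (RL p c.hs m2 c.a l) us hus k hk
      have gR1 := sm_ge (RL p c.hs m2 c.b l) us hus k hk
      rcases j with _ | _ | _ | _ | _ | _ | _ | _ | _ | _ | _ | _ | j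
      · exact hl.g0p
      · exact hl.g0n
      · calc l.g1p * (ln us k).n ≤ 2 ^ 28 * 2 ^ 37 := Nat.mul_le_mul hl.g1p gn2
          _ = 2 ^ 65 := by norm_num
      · calc l.g1n * (ln us k).n ≤ 2 ^ 28 * 2 ^ 37 := Nat.mul_le_mul hl.g1n gn2
          _ = 2 ^ 65 := by norm_num
      · exact hl.wl
      · exact hl.wu
      · calc l.o1p * (ln us k).n ≤ 2 ^ 28 * 2 ^ 37 := Nat.mul_le_mul hl.o1p gn2
          _ = 2 ^ 65 := by norm_num
      · calc l.o1n * (ln us k).n ≤ 2 ^ 28 * 2 ^ 37 := Nat.mul_le_mul hl.o1n gn2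
          _ = 2 ^ 65 := by norm_num
      · show PL p c.hs m2 c.a l (ln us k) ≤ 2 ^ 44
        omega
      · show PL p c.hs m2 c.b l (ln us k) ≤ 2 ^ 44
        omega
      · show RL p c.hs m2 c.a l (ln us k) ≤ 2 ^ 44
        omega
      · show RL p c.hs m2 c.b l (ln us k) ≤ 2 ^ 44
        omega
      · exact he j (by omega) k hk) h4 i hi (he9 i hi) om V X r hV1 hV2 hpl
    have hv := interp p l (c.a : ℝ) (c.b : ℝ) V γ o δ ((ln us i).n : ℝ) ((ln us i).aw : ℝ) ((ln us i).bw : ℝ) (m : ℝ)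
      (x : ℝ) (l.n1 : ℝ) (2 ^ 28 * 1171875) (PL p c.hs m2 c.a l (ln us i) : ℝ) (PL p c.hs m2 c.b l (ln us i) : ℝ)
      (RL p c.hs m2 c.a l (ln us i) : ℝ) (RL p c.hs m2 c.b l (ln us i) : ℝ) habR hV1 hV2
      (by unfold VP; linarith [ea]) (by unfold VP; linarith [eb])
    have hfin := lane (fun j => (((dsf p c l us es m2).getD j (fun _ => 0)) i : ℝ)) om (c.a : ℝ) (c.b : ℝ) V X r
      ((X - 288) ^ 2) γ o _ hV0 hV1 hV2 hγ ho (Nat.cast_nonneg _) (Nat.cast_nonneg _) hF hv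
    rw [dsf_dv] at hfin
    exact hfin
  have hmean : ∀ m x : ℕ, ((m = p.m1 ∧ x = l.na) ∨ (m = m2 ∧ x = l.nb)) →
      0 ≤ FV (fun j => av ω (fun i => dv l us es i j)) om (c.a : ℝ) (c.b : ℝ) V X r ((X - 288) ^ 2) +
        147456 / 5 * V * VP p l V γ o ((m : ℝ) * ((x : ℝ) - (l.n1 : ℝ) * (av ω (fun i => ((ln us i).n : ℝ)) * V))) δ
          (av ω (fun i => ((ln us i).n : ℝ))) (av ω (fun i => ((ln us i).aw : ℝ)))
          (av ω (fun i => ((ln us i).bw : ℝ))) := by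
    intro m x hmx
    rw [← mean ω hω p l (fun i j => dv l us es i j)]
    exact av_nonneg ω _ hω0 fun i hi => hlane i hi m x hmx
  have g1 := hmean p.m1 l.na (Or.inl ⟨rfl, rfl⟩)
  have g2 := hmean m2 l.nb (Or.inr ⟨rfl, rfl⟩)
  -- the upper end
  have hZ : (l.n1 : ℝ) * (av ω (fun i => ((ln us i).n : ℝ)) * V) ≤ (l.nb : ℝ) := by
    have k1 : av ω (fun i => ((ln us i).n : ℝ)) * V ≤ (zb : ℝ) := by
      rw [← av_mul_right, ← sub_nonneg, ← av_const ω hω (zb : ℝ), ← av_sub]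
      refine av_nonneg ω _ hω0 fun i hi => ?_
      obtain ⟨-, hn3, -⟩ := hn i hi
      have k2 : ((ln us i).n : ℝ) * (c.b : ℝ) ≤ (zb : ℝ) := by exact_mod_cast hn3
      have k3 : ((ln us i).n : ℝ) * V ≤ ((ln us i).n : ℝ) * (c.b : ℝ) := mul_le_mul_of_nonneg_left hV2 (Nat.cast_nonneg _)
      show 0 ≤ (zb : ℝ) - ((ln us i).n : ℝ) * V
      linarith
    have k4 : (l.n1 : ℝ) * (zb : ℝ) ≤ (l.na : ℝ) := by exact_mod_cast hn1
    have k5 : (l.na : ℝ) ≤ (l.nb : ℝ) := by exact_mod_cast hl.nab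
    have k6 := mul_le_mul_of_nonneg_left k1 (Nat.cast_nonneg (α := ℝ) l.n1)
    linarith
  have hm2R : (p.m2 : ℝ) * (c.sq : ℝ) / 1024 ≤ (m2 : ℝ) := by
    have k1 := VPSM.div_gt (p.m2 * c.sq) 1024 (by norm_num)
    rw [hm2]
    push_cast at k1 ⊢
    rw [div_le_iff₀ (by norm_num)]
    linarith
  have hN2' : N ≤ (m2 : ℝ) * ((l.nb : ℝ) - (l.n1 : ℝ) * (av ω (fun i => ((ln us i).n : ℝ)) * V)) :=
    hN2.trans (mul_le_mul_of_nonneg_right hm2R (sub_nonneg.2 hZ))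
  unfold VP at g1 g2
  have key := VPSM.affine
    (a := FV (fun j => av ω (fun i => dv l us es i j)) om (c.a : ℝ) (c.b : ℝ) V X r ((X - 288) ^ 2) +
        147456 / 5 * V * (((l.lmp : ℝ) - (l.lmn : ℝ) + ((l.l1p : ℝ) - (l.l1n : ℝ)) * (av ω (fun i => ((ln us i).n : ℝ)) * V) -
            23 * (av ω (fun i => ((ln us i).aw : ℝ)) * (384 + V) - av ω (fun i => ((ln us i).bw : ℝ)) * V) + δ) * (γ * o) +
          (- (l.e0 : ℝ) -
            (av ω (fun i => ((ln us i).aw : ℝ)) * (384 + V) - av ω (fun i => ((ln us i).bw : ℝ)) * V)) * o ^ 2))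
    (b := 147456 / 5 * V * (-(p.t2 : ℝ) * (γ * o) + (p.t1 : ℝ) * o ^ 2 - (p.t3 : ℝ) * γ ^ 2)) hN1 hN2'
    (by linarith [g1]) (by linarith [g2])
  linarith [key]

end Pool.Agent.Lib.MP_084b88_gt.QV
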