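import Pool.Agent.Lib.MP_084b88_gt.QV.SpecB

/-!
# MP_084b88_gt, project QV, module POL: the polygon
-/

set_option autoImplicit false

namespace Pool.Agent.Lib.MP_084b88_gt.QV

namespace POLM

/-- The quadratic part. -/
theorem quad {D p q X m0 m1 : ℝ} (h1 : p ≤ X) (h2 : X ≤ q) (hD : (q - p) ^ 2 ≤ 4 * D) :
    0 ≤ (q - p) * (X - 288) ^ 2 - (q - X) * (2 * m0 * (p - 288) - m0 ^ 2 - D) -
      (X - p) * (2 * m1 * (q - 288) - m1 ^ 2 - D) := by
  have e : (q - p) * (X - 288) ^ 2 - (q - X) * (2 * m0 * (p - 288) - m0 ^ 2 - D) -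
      (X - p) * (2 * m1 * (q - 288) - m1 ^ 2 - D) =
      (q - X) * (p - 288 - m0) ^ 2 + (X - p) * (q - 288 - m1) ^ 2 + (q - p) * (D - (q - X) * (X - p)) := by ring
  rw [e]
  have a1 : 0 ≤ q - X := by linarith
  have a2 : 0 ≤ X - p := by linarith
  have a3 : 0 ≤ q - p := by linarith
  have a4 : 0 ≤ D - (q - X) * (X - p) := by nlinarith [sq_nonneg ((q - X) - (X - p))]
  positivity

/-- Two consecutive nodes. -/
theorem base {D p q X r u0 u1 m0 m1 a b a' b' α β c κ : ℝ} (h1 : p ≤ X) (h2 : X ≤ q) (hD : (q - p) ^ 2 ≤ 4 * D)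
    (hlo : a' - b' * X ≤ r) (hup : r ≤ a - b * X) (hu0 : a - b * p ≤ u0) (hu1 : a - b * q ≤ u1) (hκ : 0 ≤ κ)
    (l0 : 0 ≤ α + β * p + c * (a' - b' * p) + κ * (2 * m0 * (p - 288) - m0 ^ 2 - D))
    (l1 : 0 ≤ α + β * q + c * (a' - b' * q) + κ * (2 * m1 * (q - 288) - m1 ^ 2 - D))
    (v0 : 0 ≤ α + β * p + c * u0 + κ * (2 * m0 * (p - 288) - m0 ^ 2 - D))
    (v1 : 0 ≤ α + β * q + c * u1 + κ * (2 * m1 * (q - 288) - m1 ^ 2 - D)) :
    0 ≤ α + β * X + c * r + κ * (X - 288) ^ 2 := by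
  rcases eq_or_lt_of_le (h1.trans h2) with hpq | hpq
  · have hX : X = p := le_antisymm (by rw [hpq]; exact h2) h1
    have hD0 : 0 ≤ D := by nlinarith [sq_nonneg (q - p)]
    have hs : 2 * m0 * (p - 288) - m0 ^ 2 - D ≤ (X - 288) ^ 2 := by
      rw [hX]
      nlinarith [sq_nonneg (p - 288 - m0)]
    have hs' := mul_le_mul_of_nonneg_left hs hκ
    rw [hX] at hlo hup
    rcases le_total 0 c with hc | hc
    · have := mul_le_mul_of_nonneg_left hlo hc
      rw [hX] at hs' ⊢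
      linarith
    · have := mul_le_mul_of_nonpos_left (hup.trans hu0) hc
      rw [hX] at hs' ⊢
      linarith
  · have hd : 0 < q - p := by linarith
    have hq := mul_nonneg hκ (quad (m0 := m0) (m1 := m1) h1 h2 hD)
    have a1 : 0 ≤ q - X := by linarith
    have a2 : 0 ≤ X - p := by linarith
    rcases le_total 0 c with hc | hc
    · have g := mul_le_mul_of_nonneg_left (mul_le_mul_of_nonneg_left hlo hd.le) hc
      have g0 := mul_nonneg a1 l0
      have g1 := mul_nonneg a2 l1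
      have e : (q - p) * (α + β * X + c * r + κ * (X - 288) ^ 2) =
          (q - X) * (α + β * p + c * (a' - b' * p) + κ * (2 * m0 * (p - 288) - m0 ^ 2 - D)) +
          (X - p) * (α + β * q + c * (a' - b' * q) + κ * (2 * m1 * (q - 288) - m1 ^ 2 - D)) +
          (c * ((q - p) * r) - c * ((q - p) * (a' - b' * X))) +
          κ * ((q - p) * (X - 288) ^ 2 - (q - X) * (2 * m0 * (p - 288) - m0 ^ 2 - D) -
            (X - p) * (2 * m1 * (q - 288) - m1 ^ 2 - D)) := by ring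
      have hf : 0 ≤ (q - p) * (α + β * X + c * r + κ * (X - 288) ^ 2) := by
        rw [e]
        linarith
      exact nonneg_of_mul_nonneg_right hf hd
    · have k0 := mul_le_mul_of_nonneg_left hu0 a1
      have k1 := mul_le_mul_of_nonneg_left hu1 a2
      have k2 := mul_le_mul_of_nonneg_left hup hd.le
      have k3 : (q - p) * r ≤ (q - X) * u0 + (X - p) * u1 := by
        have e : (q - p) * (a - b * X) = (q - X) * (a - b * p) + (X - p) * (a - b * q) := by ring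
        linarith
      have g := mul_le_mul_of_nonpos_left k3 hc
      have g0 := mul_nonneg a1 v0
      have g1 := mul_nonneg a2 v1
      have e : (q - p) * (α + β * X + c * r + κ * (X - 288) ^ 2) =
          (q - X) * (α + β * p + c * u0 + κ * (2 * m0 * (p - 288) - m0 ^ 2 - D)) +
          (X - p) * (α + β * q + c * u1 + κ * (2 * m1 * (q - 288) - m1 ^ 2 - D)) +
          (c * ((q - p) * r) - c * ((q - X) * u0 + (X - p) * u1)) +
          κ * ((q - p) * (X - 288) ^ 2 - (q - X) * (2 * m0 * (p - 288) - m0 ^ 2 - D) -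
            (X - p) * (2 * m1 * (q - 288) - m1 ^ 2 - D)) := by ring
      have hf : 0 ≤ (q - p) * (α + β * X + c * r + κ * (X - 288) ^ 2) := by
        rw [e]
        linarith
      exact nonneg_of_mul_nonneg_right hf hd

theorem ip_mono {τ : ℝ} (h0 : 0 ≤ τ) (h1 : τ ≤ 1) {a b a' b' : ℤ} (ha : a ≤ a') (hb : b ≤ b') :
    ip τ (a, b) ≤ ip τ (a', b') := by
  have e1 : (a : ℝ) ≤ a' := by exact_mod_cast ha
  have e2 : (b : ℝ) ≤ b' := by exact_mod_cast hb
  unfold ip
  have := mul_le_mul_of_nonneg_left e1 (sub_nonneg.2 h1)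
  have := mul_le_mul_of_nonneg_left e2 h0
  simp only
  linarith

theorem ip_rup (L : ℤ × ℤ) (τ : ℝ) (a b : ℤ) :
    (L.2 : ℝ) * 384 - (L.1 : ℝ) * ip τ (a, b) = ip τ (rup L a, rup L b) := by
  unfold ip rup
  push_cast
  ring

theorem gap {τ : ℝ} (h0 : 0 ≤ τ) (h1 : τ ≤ 1) {D a b a' b' : ℤ} (ha : (a' - a) ^ 2 ≤ 4 * D)
    (hb : (b' - b) ^ 2 ≤ 4 * D) : (ip τ (a', b') - ip τ (a, b)) ^ 2 ≤ 4 * (D : ℝ) := by
  have e1 : ((a' : ℝ) - a) ^ 2 ≤ 4 * D := by exact_mod_cast ha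
  have e2 : ((b' : ℝ) - b) ^ 2 ≤ 4 * D := by exact_mod_cast hb
  have e : ip τ (a', b') - ip τ (a, b) = (1 - τ) * ((a' : ℝ) - a) + τ * ((b' : ℝ) - b) := by
    unfold ip
    ring
  rw [e]
  have g1 := mul_le_mul_of_nonneg_left e1 (sub_nonneg.2 h1)
  have g2 := mul_le_mul_of_nonneg_left e2 h0
  have e3 : ((1 - τ) * ((a' : ℝ) - a) + τ * ((b' : ℝ) - b)) ^ 2 =
      (1 - τ) * ((a' : ℝ) - a) ^ 2 + τ * ((b' : ℝ) - b) ^ 2 -
        (1 - τ) * τ * (((a' : ℝ) - a) - ((b' : ℝ) - b)) ^ 2 := by ring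
  rw [e3]
  have : 0 ≤ (1 - τ) * τ * (((a' : ℝ) - a) - ((b' : ℝ) - b)) ^ 2 :=
    mul_nonneg (mul_nonneg (sub_nonneg.2 h1) h0) (sq_nonneg _)
  linarith

end POLM

open POLM

/-- **POL**. -/
theorem specPOL : SpecPOL := by
  intro D x0 t
  induction t generalizing x0 with
  | nil => intro ls _ h; exact absurd rfl h
  | cons y t ih =>
    intro ls hG _ τ X r h0 h1 hX1 hX2 hlo hhi α β c κ hκ hv
    cases ls with
    | nil => exact absurd hG (by simp [GPok])
    | cons L ls =>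
      obtain ⟨g1, g2, gL, g3, g4, g5, g6, g7, g8, g9⟩ := hG
      have hx := hv x0 (by simp)
      have hy := hv y (by simp)
      by_cases hXy : X ≤ ip τ (y.xa, y.xb)
      · refine base (D := D) (p := ip τ (x0.xa, x0.xb)) (q := ip τ (y.xa, y.xb)) (a := (L.2 : ℝ) * 384)
          (b := (L.1 : ℝ)) (a' := 147104 * 384) (b' := 212389) hX1 hXy (gap h0 h1 g7 g8) hlo (hhi L gL) ?_ ?_ hκ
          hx.1 hy.1 hx.2 hy.2
        · rw [ip_rup]
          exact ip_mono h0 h1 g3 g4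
        · rw [ip_rup]
          exact ip_mono h0 h1 g5 g6
      · have hXy' : ip τ (y.xa, y.xb) ≤ X := (not_le.1 hXy).le
        cases t with
        | nil => exact absurd hX2 hXy
        | cons y' t' =>
          exact ih y ls g9 (by simp) τ X r h0 h1 hXy' hX2 hlo hhi α β c κ hκ fun x hx' =>
            hv x (List.mem_cons_of_mem _ hx')

end Pool.Agent.Lib.MP_084b88_gt.QV
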