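import Pool.Agent.Lib.MP_084b88_gt.QV.SpecC
import Pool.Agent.Lib.MP_084b88_gt.LG.WGC

/-!
# MP_084b88_gt, project QV, module PTW: the pointwise inequality of regime II
-/

set_option autoImplicit false

open MeasureTheory Set Real

namespace Pool.Agent.Lib.MP_084b88_gt.QV

open Pool.Agent.Lib.MP_084b88_gt.CW Pool.Agent.Lib.MP_084b88_gt.SY Pool.Agent.Lib.MP_084b88_gt.LG
open Pool.Agent.Lib.MP_084b88_gt.AY

namespace PTWM

theorem gsum_add (f h : Gn → ℝ) (cs : List ℝ) (gs : List Gn) :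
    gsum (fun g => f g + h g) cs gs = gsum f cs gs + gsum h cs gs := by
  unfold gsum
  induction cs generalizing gs with
  | nil => simp
  | cons c t ih =>
    cases gs with
    | nil => simp
    | cons g gs =>
      simp only [List.zipWith_cons_cons, List.sum_cons, ih]
      ring

theorem gsum_smul (k : ℝ) (f : Gn → ℝ) (cs : List ℝ) (gs : List Gn) :
    gsum (fun g => k * f g) cs gs = k * gsum f cs gs := by
  unfold gsum
  induction cs generalizing gs with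
  | nil => simp
  | cons c t ih =>
    cases gs with
    | nil => simp
    | cons g gs =>
      simp only [List.zipWith_cons_cons, List.sum_cons, ih]
      ring

/-- The generator integrand in the parameters. -/
theorem gI_eq (g : Gn) (y v γ R Y : ℝ) :
    gI (gpo g) y v γ R Y =
      (v * (1 + v) * Sf (v + 3 * γ ^ 2)) * (g.aS : ℝ) +
      ((-(v ^ 2 / 20) * Sf (v + 3 * γ ^ 2)) * ((g.aS : ℝ) * qy y g) +
      ((v * (1 + v) * R) * (g.aR : ℝ) +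
      ((-(v ^ 2 / 20) * R) * ((g.aR : ℝ) * qy y g) +
      ((-(v * (1 + v)) * γ ^ 2 / 100000) * (g.U : ℝ) +
      ((v ^ 2 / 20 * γ ^ 2 / 100000) * ((g.U : ℝ) * qy y g) +
      ((v * (1 + v) / 100000) * (g.E : ℝ) +
      ((-(v ^ 2 / 20) / 100000) * ((g.E : ℝ) * qy y g) +
      ((-(v * (1 + v)) * (v + 3 * γ ^ 2 - 3 / 4) ^ 2 / 100000) * (g.K : ℝ) +
      ((v ^ 2 / 20 * (v + 3 * γ ^ 2 - 3 / 4) ^ 2 / 100000) * ((g.K : ℝ) * qy y g) +
      ((v * (1 + v) * (23 * (γ * (γ - Y)) + (γ - Y) ^ 2) / 2500000) * (g.L : ℝ) +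
      (-(v ^ 2 / 20) * (23 * (γ * (γ - Y)) + (γ - Y) ^ 2) / 2500000) * ((g.L : ℝ) * qy y g))))))))))) := by
  unfold gI gpo qy
  simp only
  ring

theorem gsum_gI (cs : List ℝ) (gs : List Gn) (y v γ R Y : ℝ) :
    gsum (fun g => gI (gpo g) y v γ R Y) cs gs =
      (v * (1 + v) * Sf (v + 3 * γ ^ 2)) * gsum (fun g => (g.aS : ℝ)) cs gs +
      ((-(v ^ 2 / 20) * Sf (v + 3 * γ ^ 2)) * gsum (fun g => (g.aS : ℝ) * qy y g) cs gs +
      ((v * (1 + v) * R) * gsum (fun g => (g.aR : ℝ)) cs gs +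
      ((-(v ^ 2 / 20) * R) * gsum (fun g => (g.aR : ℝ) * qy y g) cs gs +
      ((-(v * (1 + v)) * γ ^ 2 / 100000) * gsum (fun g => (g.U : ℝ)) cs gs +
      ((v ^ 2 / 20 * γ ^ 2 / 100000) * gsum (fun g => (g.U : ℝ) * qy y g) cs gs +
      ((v * (1 + v) / 100000) * gsum (fun g => (g.E : ℝ)) cs gs +
      ((-(v ^ 2 / 20) / 100000) * gsum (fun g => (g.E : ℝ) * qy y g) cs gs +
      ((-(v * (1 + v)) * (v + 3 * γ ^ 2 - 3 / 4) ^ 2 / 100000) * gsum (fun g => (g.K : ℝ)) cs gs +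
      ((v ^ 2 / 20 * (v + 3 * γ ^ 2 - 3 / 4) ^ 2 / 100000) * gsum (fun g => (g.K : ℝ) * qy y g) cs gs +
      ((v * (1 + v) * (23 * (γ * (γ - Y)) + (γ - Y) ^ 2) / 2500000) * gsum (fun g => (g.L : ℝ)) cs gs +
      (-(v ^ 2 / 20) * (23 * (γ * (γ - Y)) + (γ - Y) ^ 2) / 2500000) *
        gsum (fun g => (g.L : ℝ) * qy y g) cs gs)))))))))) := by
  simp only [gI_eq, gsum_add, gsum_smul]

/-- The lower line of the Legendre band. -/
theorem band_lo {x R : ℝ} (hx : 0 ≤ x)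
    (h : (3 * π / 4 - 4 / 3 - kap - 1 / 8) - (π / 2 - 3 / 2) * x ≤ R) :
    147104 * 384 - 212389 * (384 * x) ≤ 1152000000 * R := by
  have h1 := Real.pi_gt_d20
  have h2 := Real.pi_lt_d20
  have hk : kap ≤ 0.8488263632 := by
    unfold kap
    rw [div_le_iff₀ (by positivity)]
    nlinarith
  nlinarith [mul_nonneg hx (by linarith : (0 : ℝ) ≤ 3.14159265358979323847 - π)]

theorem band_hi {x R : ℝ} (h : ∀ l ∈ bandQ, R ≤ (l.1 : ℝ) * x + (l.2 : ℝ)) :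
    ∀ L ∈ lines5, 1152000000 * R ≤ (L.2 : ℝ) * 384 - (L.1 : ℝ) * (384 * x) := by
  have h1 := h (-857 / 30000, 28074 / 1000000) (by simp [bandQ])
  have h2 := h (-1185 / 30000, 34474 / 1000000) (by simp [bandQ])
  have h3 := h (-1786 / 30000, 48274 / 1000000) (by simp [bandQ])
  have h4 := h (-2763 / 30000, 74974 / 1000000) (by simp [bandQ])
  have h5 := h (-4306 / 30000, 122774 / 1000000) (by simp [bandQ])
  push_cast at h1 h2 h3 h4 h5
  intro L hL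
  simp only [lines5, List.mem_cons, List.not_mem_nil, or_false] at hL
  rcases hL with rfl | rfl | rfl | rfl | rfl
  · push_cast
    linarith
  · push_cast
    linarith
  · push_cast
    linarith
  · push_cast
    linarith
  · push_cast
    linarith

end PTWM

open PTWM in
theorem specPTW : SpecPTW := by
  intro W L z1 z2 l hl gs cs _ mu th m1 m2 sq A B n y b v γ R Y M a' b' hth hn hA hz1 hz2 hD1 hD0 hc
    hm1 hm2 hsq D hD H
  have hv : 0 < v := by linarith [hA.v1]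
  have hz0 : 0 < n * v := mul_pos hn hv
  have h14 := hA.z1
  have h49 : n * v ≤ 10000 / 49 := by
    have := hA.z2
    norm_num at this ⊢
    exact this
  have hg := hl.g _ hz1 hz2 h14 h49
  have hw1 := hl.w1 _ hz1 hz2 h14 h49
  have hw2 := hl.w2 _ hz1 hz2 h14 h49
  have hlm := hl.lm _ hz1 hz2 h14 h49
  have he := hl.e _ hz1 hz2 h14 h49
  have hna := hl.na _ hz1 hz2 h14 h49
  have hnb := hl.nb _ hz1 hz2 h14 h49
  have hJ := JQ_ge (M := M) (R := R) (c0 := 9 / 40) ((th : ℝ) / 20) WGCM.taup_pos hn hv hA.o1 hD1 hD0 hc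
  refine le_trans ?_ hJ
  clear hJ
  obtain ⟨K, hK⟩ : ∃ K, K = KZ W L (n * v) := ⟨_, rfl⟩
  obtain ⟨Om, hOm⟩ : ∃ x, x = W (1 / √(n * v)) / (n * v) := ⟨_, rfl⟩
  obtain ⟨Lam, hLam⟩ : ∃ x, x = L (1 / √(n * v)) / (n * v) := ⟨_, rfl⟩
  obtain ⟨Ee, hEe⟩ : ∃ x, x = 9 / 40 * L (1 / √(n * v)) ^ 2 / (n * v) := ⟨_, rfl⟩
  obtain ⟨Mz, hMz⟩ : ∃ x, x = M / (n * v) ^ 2 := ⟨_, rfl⟩
  rw [← hK] at hg
  rw [← hOm] at hw1 hw2
  rw [← hLam] at hlm
  rw [← hEe] at he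
  rw [← hK, ← hOm, ← hLam, ← hEe, ← hMz]
  have hZ : (2 : ℝ) ^ 28 * 384 * (n * v) = 2 ^ 28 * n * (384 * v) := by ring
  rw [hZ] at hlm hna hnb
  have hq0 : 0 ≤ 3 * (2 : ℝ) ^ 47 / (n * v) ^ 2 := by positivity
  have hm10 : (0 : ℝ) ≤ m1 := Nat.cast_nonneg _
  have hm20 : (0 : ℝ) ≤ m2 := Nat.cast_nonneg _
  have hN : 800000 * M * (3 * 2 ^ 47 / (n * v) ^ 2) = 2400000 * 2 ^ 47 * Mz := by
    rw [hMz]
    ring
  have hN1 : (m1 : ℝ) * ((l.na : ℝ) - (l.n1 : ℝ) * (2 ^ 28 * n * (384 * v))) ≤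
      2400000 * 2 ^ 47 * Mz := by
    rw [← hN]
    exact (mul_le_mul_of_nonneg_left hna hm10).trans (mul_le_mul_of_nonneg_right hm1 hq0)
  have hM8 : 800000 * M ≤ (m2 : ℝ) * (sq : ℝ) / 1024 := by
    have : (m2 : ℝ) * √v ≤ (m2 : ℝ) * ((sq : ℝ) / 1024) :=
      mul_le_mul_of_nonneg_left (by linarith) hm20
    linarith
  have hN2 : 2400000 * 2 ^ 47 * Mz ≤
      ((m2 : ℝ) * (sq : ℝ) / 1024) * ((l.nb : ℝ) - (l.n1 : ℝ) * (2 ^ 28 * n * (384 * v))) := by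
    rw [← hN]
    exact (mul_le_mul_of_nonneg_right hM8 hq0).trans
      (mul_le_mul_of_nonneg_left hnb (by positivity))
  have ho2 : (γ - Y) ^ 2 ≤ 1 := by
    have := hA.o1
    rw [← sq_abs]
    nlinarith [abs_nonneg (γ - Y)]
  have hx0 : 0 ≤ v + 3 * γ ^ 2 := by positivity
  have hP : Plg (384 * v) (384 * (v + 3 * γ ^ 2)) (1152000000 * R) := by
    refine ⟨?_, ?_, ?_, band_lo hx0 hA.lo, band_hi hA.hi⟩
    · nlinarith [sq_nonneg γ]
    · linarith [hA.x1]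
    · linarith [hA.g1]
  obtain ⟨T, hT⟩ : ∃ T, T = ((l.lmp : ℝ) - (l.lmn : ℝ) +
    ((l.l1p : ℝ) - (l.l1n : ℝ)) * (2 ^ 28 * n * (384 * v))) := ⟨_, rfl⟩
  rw [← hT] at hlm
  obtain ⟨S, hS⟩ : ∃ S, S = Sf (v + 3 * γ ^ 2) := ⟨_, rfl⟩
  have hS' : 144000000 - 500000 * (384 * (v + 3 * γ ^ 2)) = 1152000000 * S := by
    rw [hS]
    unfold Sf
    ring
  rw [gsum_gI, ← hS]
  have key : ∀ (om : Bool) (w : ℝ), w = (if om then (l.wu : ℝ) else (l.wl : ℝ)) →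
      227994731135631360000000 * 2 ^ 24 *
        (v * (K + Om * (S + R) + Lam * ((γ - Y) * γ) - Ee * (γ - Y) ^ 2 +
          Mz * ((1 - 8 / 5 * ((th : ℝ) / 20) ^ 2) * (γ - Y) ^ 2 -
            16 / 5 * ((th : ℝ) / 20 * (1 - (th : ℝ) / 20)) * (γ * (γ - Y)) -
            8 / 5 * (1 - (th : ℝ) / 20) ^ 2 * γ ^ 2)) -
        ((v * (1 + v) * S) * gsum (fun g => (g.aS : ℝ)) cs gs +
      ((-(v ^ 2 / 20) * S) * gsum (fun g => (g.aS : ℝ) * qy y g) cs gs +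
      ((v * (1 + v) * R) * gsum (fun g => (g.aR : ℝ)) cs gs +
      ((-(v ^ 2 / 20) * R) * gsum (fun g => (g.aR : ℝ) * qy y g) cs gs +
      ((-(v * (1 + v)) * γ ^ 2 / 100000) * gsum (fun g => (g.U : ℝ)) cs gs +
      ((v ^ 2 / 20 * γ ^ 2 / 100000) * gsum (fun g => (g.U : ℝ) * qy y g) cs gs +
      ((v * (1 + v) / 100000) * gsum (fun g => (g.E : ℝ)) cs gs +
      ((-(v ^ 2 / 20) / 100000) * gsum (fun g => (g.E : ℝ) * qy y g) cs gs +
      ((-(v * (1 + v)) * (v + 3 * γ ^ 2 - 3 / 4) ^ 2 / 100000) * gsum (fun g => (g.K : ℝ)) cs gs +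
      ((v ^ 2 / 20 * (v + 3 * γ ^ 2 - 3 / 4) ^ 2 / 100000) * gsum (fun g => (g.K : ℝ) * qy y g) cs gs +
      ((v * (1 + v) * (23 * (γ * (γ - Y)) + (γ - Y) ^ 2) / 2500000) * gsum (fun g => (g.L : ℝ)) cs gs +
      (-(v ^ 2 / 20) * (23 * (γ * (γ - Y)) + (γ - Y) ^ 2) / 2500000) *
        gsum (fun g => (g.L : ℝ) * qy y g) cs gs)))))))))) + b)) =
      FV D om a' b' (384 * v) (384 * (v + 3 * γ ^ 2)) (1152000000 * R)
          ((384 * (v + 3 * γ ^ 2) - 288) ^ 2) +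
          147456 / 5 * (384 * v) *
            ((T -
              23 * (85899345920 * 4096 * gsum (fun g => (g.L : ℝ)) cs gs * (384 + 384 * v) -
                4096 * 1048576 * 4096 * gsum (fun g => (g.L : ℝ) * qy y g) cs gs * (384 * v)) -
              (8 * (th : ℝ) * (20 - (th : ℝ))) * (2400000 * 2 ^ 47 * Mz) +
              (2 ^ 58 * 1171875 * Lam - T)) * (γ * (γ - Y)) +
            ((1000 - 4 * (th : ℝ) ^ 2) * (2400000 * 2 ^ 47 * Mz) - (l.e0 : ℝ) -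
              (85899345920 * 4096 * gsum (fun g => (g.L : ℝ)) cs gs * (384 + 384 * v) -
                4096 * 1048576 * 4096 * gsum (fun g => (g.L : ℝ) * qy y g) cs gs * (384 * v))) *
              (γ - Y) ^ 2 -
            (4 * (20 - (th : ℝ)) ^ 2) * (2400000 * 2 ^ 47 * Mz) * γ ^ 2) +
          (227994731135631360000000 * 2 ^ 24 * v *
              (K - (((l.g0p : ℝ) - (l.g0n : ℝ)) / 2 ^ 30 + ((l.g1p : ℝ) - (l.g1n : ℝ)) / 2 ^ 24 * (n * v))) +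
            227994731135631360000000 * 2 ^ 24 * v *
              ((Om - (w / 2 ^ 30 + ((l.o1p : ℝ) - (l.o1n : ℝ)) / 2 ^ 24 * (n * v))) * (S + R)) +
            147456 / 5 * (384 * v) * (((l.e0 : ℝ) - 2 ^ 58 * 1171875 * Ee) * (γ - Y) ^ 2)) := by
    intro om w hw
    have hDw : (if om then D 5 else D 4) = w := by
      rw [hw, hD.d4, hD.d5]
    unfold FV
    rw [hDw, hS', hD.d0, hD.d1, hD.d2, hD.d3, hD.d6, hD.d7, hD.d8, hD.d9, hD.d10, hD.d11, hD.d12,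
      hD.d13, hD.d14, hD.d15, hD.d16, hD.d17, hD.d18, hD.d19, hD.d20, hD.d21, hD.d22]
    ring
  have hfin : ∀ (om : Bool) (w : ℝ), w = (if om then (l.wu : ℝ) else (l.wl : ℝ)) →
      0 ≤ (Om - (w / 2 ^ 30 + ((l.o1p : ℝ) - (l.o1n : ℝ)) / 2 ^ 24 * (n * v))) * (S + R) →
      (v * (1 + v) * S) * gsum (fun g => (g.aS : ℝ)) cs gs +
      ((-(v ^ 2 / 20) * S) * gsum (fun g => (g.aS : ℝ) * qy y g) cs gs +
      ((v * (1 + v) * R) * gsum (fun g => (g.aR : ℝ)) cs gs +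
      ((-(v ^ 2 / 20) * R) * gsum (fun g => (g.aR : ℝ) * qy y g) cs gs +
      ((-(v * (1 + v)) * γ ^ 2 / 100000) * gsum (fun g => (g.U : ℝ)) cs gs +
      ((v ^ 2 / 20 * γ ^ 2 / 100000) * gsum (fun g => (g.U : ℝ) * qy y g) cs gs +
      ((v * (1 + v) / 100000) * gsum (fun g => (g.E : ℝ)) cs gs +
      ((-(v ^ 2 / 20) / 100000) * gsum (fun g => (g.E : ℝ) * qy y g) cs gs +
      ((-(v * (1 + v)) * (v + 3 * γ ^ 2 - 3 / 4) ^ 2 / 100000) * gsum (fun g => (g.K : ℝ)) cs gs +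
      ((v ^ 2 / 20 * (v + 3 * γ ^ 2 - 3 / 4) ^ 2 / 100000) * gsum (fun g => (g.K : ℝ) * qy y g) cs gs +
      ((v * (1 + v) * (23 * (γ * (γ - Y)) + (γ - Y) ^ 2) / 2500000) * gsum (fun g => (g.L : ℝ)) cs gs +
      (-(v ^ 2 / 20) * (23 * (γ * (γ - Y)) + (γ - Y) ^ 2) / 2500000) *
        gsum (fun g => (g.L : ℝ) * qy y g) cs gs)))))))))) + b ≤
        v * (K + Om * (S + R) + Lam * ((γ - Y) * γ) - Ee * (γ - Y) ^ 2 +
          Mz * ((1 - 8 / 5 * ((th : ℝ) / 20) ^ 2) * (γ - Y) ^ 2 -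
            16 / 5 * ((th : ℝ) / 20 * (1 - (th : ℝ) / 20)) * (γ * (γ - Y)) -
            8 / 5 * (1 - (th : ℝ) / 20) ^ 2 * γ ^ 2)) := by
    intro om w hw h0
    have hH := H om (1152000000 * R) (γ - Y) (2400000 * 2 ^ 47 * Mz) (2 ^ 58 * 1171875 * Lam - T)
      hP ho2 hN1 hN2 hlm
    rw [← hT] at hH
    have hk := key om w hw
    have p1 : 0 ≤ 227994731135631360000000 * 2 ^ 24 * v *
        (K - (((l.g0p : ℝ) - (l.g0n : ℝ)) / 2 ^ 30 +
          ((l.g1p : ℝ) - (l.g1n : ℝ)) / 2 ^ 24 * (n * v))) :=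
      mul_nonneg (by positivity) (by linarith)
    have p2 := mul_nonneg (by positivity : (0 : ℝ) ≤ 227994731135631360000000 * 2 ^ 24 * v) h0
    have p3 : 0 ≤ 147456 / 5 * (384 * v) * (((l.e0 : ℝ) - 2 ^ 58 * 1171875 * Ee) * (γ - Y) ^ 2) :=
      mul_nonneg (by positivity) (mul_nonneg (by linarith) (sq_nonneg _))
    have p4 := add_nonneg hH (add_nonneg (add_nonneg p1 p2) p3)
    rw [← hk] at p4
    have p5 := nonneg_of_mul_nonneg_right p4 (by norm_num)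
    linarith
  rcases le_total 0 (S + R) with h | h
  · exact hfin false l.wl (by simp) (mul_nonneg (by linarith) h)
  · exact hfin true l.wu (by simp) (mul_nonneg_of_nonpos_of_nonpos (by linarith) h)

end Pool.Agent.Lib.MP_084b88_gt.QV
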