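import Pool.Agent.Lib.MP_084b88_gt.QV.SpecC
import Pool.Agent.Lib.MP_084b88_gt.QV.PAK

/-!
# MP_084b88_gt, project QV, module SEC: one sector
-/

set_option autoImplicit false

open MeasureTheory Set Real

namespace Pool.Agent.Lib.MP_084b88_gt.QV

open Pool.Agent.Lib.MP_084b88_gt.CW Pool.Agent.Lib.MP_084b88_gt.SY Pool.Agent.Lib.MP_084b88_gt.LG
open Pool.Agent.Lib.MP_084b88_gt.AY

namespace SECM

/-! ## Lists -/

theorem mp_eq (f : Q4 → ℕ) (l : List Q4) : mp f l = l.map f := by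
  induction l with
  | nil => rfl
  | cons x l ih =>
    rw [List.map_cons, ← ih]
    rfl

theorem dot_cons (a b : ℕ) (l m : List ℕ) : dot (a :: l) (b :: m) = a * b + dot l m := rfl

theorem dot_nil (m : List ℕ) : dot [] m = 0 := rfl

theorem dot_le (f : Gn → ℕ) (h : Q4 → ℕ) (F H : ℕ) : ∀ (gs : List Gn) (qs : List Q4),
    (∀ g ∈ gs, f g ≤ F) → (∀ q ∈ qs, h q ≤ H) → dot (gs.map f) (qs.map h) ≤ gs.length * (F * H) := by
  intro gs
  induction gs with
  | nil =>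
    intro qs _ _
    simp [dot_nil]
  | cons g gs ih =>
    intro qs h1 h2
    cases qs with
    | nil =>
      change 0 ≤ _
      exact Nat.zero_le _
    | cons q qs =>
      rw [List.map_cons, List.map_cons, dot_cons, List.length_cons, add_mul, one_mul, add_comm]
      exact add_le_add (ih qs (fun g hg => h1 g (List.mem_cons_of_mem _ hg)) fun q hq =>
        h2 q (List.mem_cons_of_mem _ hq)) (Nat.mul_le_mul (h1 g List.mem_cons_self) (h2 q List.mem_cons_self))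

theorem dot_mono (f f' : Gn → ℕ) (k : ℕ) (h : Q4 → ℕ) : ∀ (gs : List Gn) (qs : List Q4),
    (∀ g ∈ gs, f g ≤ k * f' g) → dot (gs.map f) (qs.map h) ≤ k * dot (gs.map f') (qs.map h) := by
  intro gs
  induction gs with
  | nil =>
    intro qs _
    simp [dot_nil]
  | cons g gs ih =>
    intro qs h1
    cases qs with
    | nil =>
      change 0 ≤ _
      exact Nat.zero_le _
    | cons q qs =>
      rw [List.map_cons, List.map_cons, List.map_cons, dot_cons, dot_cons, mul_add]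
      refine add_le_add ?_ (ih qs fun g hg => h1 g (List.mem_cons_of_mem _ hg))
      calc f g * h q ≤ k * f' g * h q := Nat.mul_le_mul_right _ (h1 g List.mem_cons_self)
        _ = k * (f' g * h q) := by ring

theorem BS4_eq : BS4 = BS ^ 4 := by
  unfold BS4 BS
  norm_num

theorem pk4_eq (a b c d : ℕ) : pk4 a b c d = a + b * BS + c * BS ^ 2 + d * BS ^ 3 := by
  change a + (b + (c + d * BS) * BS) * BS = _
  ring

theorem dot_pk (f : Gn → ℕ) : ∀ (gs : List Gn) (qs : List Q4),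
    dot (gs.map f) (qs.map fun x => pk4 x.c0 x.c1 x.c2 x.c3) =
      pk4 (dot (gs.map f) (qs.map Q4.c0)) (dot (gs.map f) (qs.map Q4.c1)) (dot (gs.map f) (qs.map Q4.c2))
        (dot (gs.map f) (qs.map Q4.c3)) := by
  intro gs
  induction gs with
  | nil =>
    intro qs
    simp [dot_nil, pk4_eq]
  | cons g gs ih =>
    intro qs
    cases qs with
    | nil =>
      change (0 : ℕ) = pk4 0 0 0 0
      rw [pk4_eq]
      simp
    | cons q qs =>
      simp only [List.map_cons, dot_cons]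
      rw [ih qs]
      simp only [pk4_eq]
      ring

/-- A lane function from the list of its values. -/
def lf (l : List ℕ) : ℕ → ℕ := fun i => l.getD i 0

theorem lf_le (l : List ℕ) (b : ℕ) (h : ∀ x ∈ l, x ≤ b) (i : ℕ) : lf l i ≤ b := by
  unfold lf
  by_cases hi : i < l.length
  · rw [List.getD_eq_getElem _ _ hi]
    exact h _ (List.getElem_mem hi)
  · rw [List.getD_eq_default _ _ (not_lt.1 hi)]
    exact Nat.zero_le _

/-- The eight lane values `α_q (2^20 - y_e) + β_q y_e`. -/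
def l8 (a0 a1 a2 a3 b0 b1 b2 b3 yl yu : ℕ) : List ℕ :=
  [a0 * (1048576 - yl) + b0 * yl, a1 * (1048576 - yl) + b1 * yl, a2 * (1048576 - yl) + b2 * yl,
    a3 * (1048576 - yl) + b3 * yl, a0 * (1048576 - yu) + b0 * yu, a1 * (1048576 - yu) + b1 * yu,
    a2 * (1048576 - yu) + b2 * yu, a3 * (1048576 - yu) + b3 * yu]

theorem pv_lf (x0 x1 x2 x3 x4 x5 x6 x7 : ℕ) : pv (lf [x0, x1, x2, x3, x4, x5, x6, x7]) =
    x0 + x1 * BS + x2 * BS ^ 2 + x3 * BS ^ 3 + x4 * BS ^ 4 + x5 * BS ^ 5 + x6 * BS ^ 6 + x7 * BS ^ 7 := by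
  unfold pv lf
  simp only [Finset.sum_range_succ, Finset.sum_range_zero, zero_add, List.getD_cons_zero, List.getD_cons_succ,
    pow_zero, mul_one, pow_one]

theorem lin_pk (a0 a1 a2 a3 b0 b1 b2 b3 yl yu : ℕ) :
    pk4 a0 a1 a2 a3 * ((1048576 - yl) + (1048576 - yu) * BS4) + pk4 b0 b1 b2 b3 * (yl + yu * BS4) =
      pv (lf (l8 a0 a1 a2 a3 b0 b1 b2 b3 yl yu)) := by
  unfold l8
  rw [pv_lf, pk4_eq, pk4_eq, BS4_eq]
  ring

theorem l8_le (a0 a1 a2 a3 b0 b1 b2 b3 yl yu F : ℕ) (hl : yl ≤ 1048576) (hu : yu ≤ 1048576)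
    (h0 : a0 ≤ F) (h1 : a1 ≤ F) (h2 : a2 ≤ F) (h3 : a3 ≤ F) (g0 : b0 ≤ F) (g1 : b1 ≤ F) (g2 : b2 ≤ F) (g3 : b3 ≤ F) :
    ∀ x ∈ l8 a0 a1 a2 a3 b0 b1 b2 b3 yl yu, x ≤ F * 1048576 := by
  have key : ∀ a b y : ℕ, a ≤ F → b ≤ F → y ≤ 1048576 → a * (1048576 - y) + b * y ≤ F * 1048576 := by
    intro a b y ha hb hy
    calc a * (1048576 - y) + b * y ≤ F * (1048576 - y) + F * y :=
          add_le_add (Nat.mul_le_mul_right _ ha) (Nat.mul_le_mul_right _ hb)
      _ = F * (1048576 - y + y) := by ring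
      _ = F * 1048576 := by rw [Nat.sub_add_cancel hy]
  intro x hx
  unfold l8 at hx
  simp only [List.mem_cons, List.not_mem_nil, or_false] at hx
  rcases hx with h | h | h | h | h | h | h | h <;> rw [h] <;> apply key <;> assumption

theorem l8_mono (a0 a1 a2 a3 b0 b1 b2 b3 c0 c1 c2 c3 yl yu k : ℕ) (hl : yl ≤ 1048576) (hu : yu ≤ 1048576)
    (h0 : a0 ≤ k * c0) (h1 : a1 ≤ k * c1) (h2 : a2 ≤ k * c2) (h3 : a3 ≤ k * c3)
    (g0 : b0 ≤ k * c0) (g1 : b1 ≤ k * c1) (g2 : b2 ≤ k * c2) (g3 : b3 ≤ k * c3) :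
    ∀ i < 8, lf (l8 a0 a1 a2 a3 b0 b1 b2 b3 yl yu) i ≤ k * lf (l8 c0 c1 c2 c3 c0 c1 c2 c3 yl yu) i := by
  have key : ∀ a b c y : ℕ, a ≤ k * c → b ≤ k * c → y ≤ 1048576 →
      a * (1048576 - y) + b * y ≤ k * (c * (1048576 - y) + c * y) := by
    intro a b c y ha hb hy
    calc a * (1048576 - y) + b * y ≤ k * c * (1048576 - y) + k * c * y :=
          add_le_add (Nat.mul_le_mul_right _ ha) (Nat.mul_le_mul_right _ hb)
      _ = k * (c * (1048576 - y) + c * y) := by ring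
  intro i hi
  unfold l8 lf
  interval_cases i <;> simp only [List.getD_cons_zero, List.getD_cons_succ] <;> apply key <;> assumption

/-! ## Means -/

/-- The lane weights. -/
noncomputable def omg (w0 w1 w2 w3 t : ℝ) : ℕ → ℝ := fun i =>
  [w0 * (1 - t), w1 * (1 - t), w2 * (1 - t), w3 * (1 - t), w0 * t, w1 * t, w2 * t, w3 * t].getD i 0

theorem av_eq (w0 w1 w2 w3 t : ℝ) (f : ℕ → ℝ) : av (omg w0 w1 w2 w3 t) f =
    (1 - t) * (w0 * f 0 + w1 * f 1 + w2 * f 2 + w3 * f 3) + t * (w0 * f 4 + w1 * f 5 + w2 * f 6 + w3 * f 7) := by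
  unfold av omg
  simp only [Finset.sum_range_succ, Finset.sum_range_zero, zero_add, List.getD_cons_zero, List.getD_cons_succ]
  ring

theorem omg_nonneg (w0 w1 w2 w3 t : ℝ) (h0 : 0 ≤ w0) (h1 : 0 ≤ w1) (h2 : 0 ≤ w2) (h3 : 0 ≤ w3) (ht0 : 0 ≤ t)
    (ht1 : t ≤ 1) : ∀ i < 8, 0 ≤ omg w0 w1 w2 w3 t i := by
  have ht : 0 ≤ 1 - t := sub_nonneg.2 ht1
  intro i hi
  unfold omg
  interval_cases i <;> simp only [List.getD_cons_zero, List.getD_cons_succ] <;> positivity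

theorem omg_sum (w0 w1 w2 w3 t : ℝ) (h : w0 + w1 + w2 + w3 = 1) :
    ∑ i ∈ Finset.range 8, omg w0 w1 w2 w3 t i = 1 := by
  unfold omg
  simp only [Finset.sum_range_succ, Finset.sum_range_zero, zero_add, List.getD_cons_zero, List.getD_cons_succ]
  have : w0 * (1 - t) + w1 * (1 - t) + w2 * (1 - t) + w3 * (1 - t) + w0 * t + w1 * t + w2 * t + w3 * t =
      w0 + w1 + w2 + w3 := by ring
  rw [this, h]

theorem av_const (w0 w1 w2 w3 t : ℝ) (h : w0 + w1 + w2 + w3 = 1) (x : ℝ) :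
    av (omg w0 w1 w2 w3 t) (fun _ => x) = x := by
  rw [av_eq]
  have : (1 - t) * (w0 * x + w1 * x + w2 * x + w3 * x) + t * (w0 * x + w1 * x + w2 * x + w3 * x) =
      (w0 + w1 + w2 + w3) * x := by ring
  rw [this, h, one_mul]

theorem av_smul (ω : ℕ → ℝ) (f : ℕ → ℝ) (x : ℝ) : av ω (fun i => x * f i) = x * av ω f := by
  unfold av
  rw [Finset.mul_sum]
  exact Finset.sum_congr rfl fun i _ => by ring

/-- The mean of a lane function `l8`. -/
theorem av_l8 (w0 w1 w2 w3 t Y : ℝ) (a0 a1 a2 a3 b0 b1 b2 b3 yl yu : ℕ) (hl : yl ≤ 1048576) (hu : yu ≤ 1048576)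
    (hY : (1 - t) * (yl : ℝ) + t * (yu : ℝ) = Y) :
    av (omg w0 w1 w2 w3 t) (fun i => (lf (l8 a0 a1 a2 a3 b0 b1 b2 b3 yl yu) i : ℝ)) =
      (w0 * a0 + w1 * a1 + w2 * a2 + w3 * a3) * (2 ^ 20 - Y) + (w0 * b0 + w1 * b1 + w2 * b2 + w3 * b3) * Y := by
  rw [av_eq]
  unfold l8 lf
  simp only [List.getD_cons_zero, List.getD_cons_succ]
  push_cast [Nat.cast_sub hl, Nat.cast_sub hu]
  rw [← hY]
  ring

/-! ## Sums over the generators -/

theorem gsum_nil (f : Gn → ℝ) (cs : List ℝ) : gsum f cs [] = 0 := by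
  unfold gsum
  simp

theorem gsum_cons (f : Gn → ℝ) (c : ℝ) (cs : List ℝ) (g : Gn) (gs : List Gn) :
    gsum f (c :: cs) (g :: gs) = c * f g + gsum f cs gs := by
  unfold gsum
  simp

theorem gsum_lin (f h k : Gn → ℝ) (a b : ℝ) (hk : ∀ g, k g = a * f g + b * h g) : ∀ (cs : List ℝ) (gs : List Gn),
    a * gsum f cs gs + b * gsum h cs gs = gsum k cs gs := by
  intro cs
  induction cs with
  | nil =>
    intro gs
    unfold gsum
    simp
  | cons c cs ih =>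
    intro gs
    cases gs with
    | nil => simp [gsum_nil]
    | cons g gs =>
      rw [gsum_cons, gsum_cons, gsum_cons, ← ih gs, hk]
      ring

/-- Interpolation of the scalar products. -/
theorem dot_gsum (f : Gn → ℕ) (w0 w1 w2 w3 : ℝ) : ∀ (gs : List Gn) (qs : List Q4), qs.length = gs.length →
    w0 * (dot (gs.map f) (qs.map Q4.c0) : ℝ) + w1 * (dot (gs.map f) (qs.map Q4.c1) : ℝ) +
      w2 * (dot (gs.map f) (qs.map Q4.c2) : ℝ) + w3 * (dot (gs.map f) (qs.map Q4.c3) : ℝ) =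
      4096 * gsum (fun g => (f g : ℝ)) (qs.map fun q =>
        (w0 * (q.c0 : ℝ) + w1 * (q.c1 : ℝ) + w2 * (q.c2 : ℝ) + w3 * (q.c3 : ℝ)) / 4096) gs := by
  intro gs
  induction gs with
  | nil =>
    intro qs _
    simp [dot_nil, gsum_nil]
  | cons g gs ih =>
    intro qs hl
    cases qs with
    | nil => simp at hl
    | cons q qs =>
      have := ih qs (by simpa using hl)
      simp only [List.map_cons, dot_cons, gsum_cons]
      push_cast
      linear_combination this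

/-- The eleven lane functions. -/
noncomputable def esf (w : Wt) (c : Cell) (yl yu : ℕ) (s : Sec) : List (ℕ → ℕ) :=
  let E : List ℕ → List ℕ → ℕ → ℕ := fun a b => lf (l8 (dot a (c.c.map Q4.c0)) (dot a (c.c.map Q4.c1))
    (dot a (c.c.map Q4.c2)) (dot a (c.c.map Q4.c3)) (dot b (c.c.map Q4.c0)) (dot b (c.c.map Q4.c1))
    (dot b (c.c.map Q4.c2)) (dot b (c.c.map Q4.c3)) yl yu)
  [E w.S w.S, E w.Sc w.Ss, E w.R w.R, E w.Rc w.Rs, E w.U w.U, E w.Uc w.Us, E w.E w.E, E w.Ec w.Es, E w.K w.K,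
    E w.Kc w.Ks, lf [s.b0, s.b1, s.b2, s.b3, s.b4, s.b5, s.b6, s.b7]]

/-- Packing of one pair of weights. -/
theorem pk_pair (f h : Gn → ℕ) (gs : List Gn) (qs : List Q4) (yl yu : ℕ) :
    lin (dot (gs.map f) (mp (fun x => pk4 x.c0 x.c1 x.c2 x.c3) qs))
        (dot (gs.map h) (mp (fun x => pk4 x.c0 x.c1 x.c2 x.c3) qs))
        (Nat.add (Nat.sub 1048576 yl) (Nat.mul (Nat.sub 1048576 yu) BS4)) (Nat.add yl (Nat.mul yu BS4)) =
      pv (lf (l8 (dot (gs.map f) (qs.map Q4.c0)) (dot (gs.map f) (qs.map Q4.c1)) (dot (gs.map f) (qs.map Q4.c2))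
        (dot (gs.map f) (qs.map Q4.c3)) (dot (gs.map h) (qs.map Q4.c0)) (dot (gs.map h) (qs.map Q4.c1))
        (dot (gs.map h) (qs.map Q4.c2)) (dot (gs.map h) (qs.map Q4.c3)) yl yu)) := by
  rw [mp_eq, dot_pk, dot_pk, ← lin_pk]
  rfl

theorem pk_sng (f : Gn → ℕ) (gs : List Gn) (qs : List Q4) (yl yu : ℕ) :
    Nat.mul (dot (gs.map f) (mp (fun x => pk4 x.c0 x.c1 x.c2 x.c3) qs))
        (Nat.add (Nat.add (Nat.sub 1048576 yl) (Nat.mul (Nat.sub 1048576 yu) BS4)) (Nat.add yl (Nat.mul yu BS4))) =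
      pv (lf (l8 (dot (gs.map f) (qs.map Q4.c0)) (dot (gs.map f) (qs.map Q4.c1)) (dot (gs.map f) (qs.map Q4.c2))
        (dot (gs.map f) (qs.map Q4.c3)) (dot (gs.map f) (qs.map Q4.c0)) (dot (gs.map f) (qs.map Q4.c1))
        (dot (gs.map f) (qs.map Q4.c2)) (dot (gs.map f) (qs.map Q4.c3)) yl yu)) := by
  rw [← pk_pair]
  exact Nat.mul_add _ _ _

theorem dsl_eq (gs : List Gn) (c : Cell) (yl yu : ℕ) (s : Sec) :
    dsl (wtOf gs) (mp (fun x => pk4 x.c0 x.c1 x.c2 x.c3) c.c)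
      (Nat.add (Nat.sub 1048576 yl) (Nat.mul (Nat.sub 1048576 yu) BS4)) (Nat.add yl (Nat.mul yu BS4))
      (Nat.add (pk4 s.b0 s.b1 s.b2 s.b3) (Nat.mul (pk4 s.b4 s.b5 s.b6 s.b7) BS4)) =
      (esf (wtOf gs) c yl yu s).map pv := by
  have hb : Nat.add (pk4 s.b0 s.b1 s.b2 s.b3) (Nat.mul (pk4 s.b4 s.b5 s.b6 s.b7) BS4) =
      pv (lf [s.b0, s.b1, s.b2, s.b3, s.b4, s.b5, s.b6, s.b7]) := by
    rw [pv_lf, pk4_eq, pk4_eq, BS4_eq]
    change (_ : ℕ) + (_ : ℕ) * (_ : ℕ) = _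
    ring
  unfold dsl esf wtOf
  simp only [List.map_cons, List.map_nil]
  rw [pk_sng, pk_sng, pk_sng, pk_sng, pk_sng, pk_pair, pk_pair, pk_pair, pk_pair, pk_pair, hb]


theorem ev_pair (w0 w1 w2 w3 t y : ℝ) (yl yu : ℕ) (hl : yl ≤ 1048576) (hu : yu ≤ 1048576)
    (hY : (1 - t) * (yl : ℝ) + t * (yu : ℝ) = 2 ^ 20 * y) (f h : Gn → ℕ) (k : Gn → ℝ)
    (hk : ∀ g, k g = (1 - y) * (f g : ℝ) + y * (h g : ℝ)) (gs : List Gn) (qs : List Q4)
    (hlen : qs.length = gs.length) :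
    av (omg w0 w1 w2 w3 t) (fun i => (lf (l8 (dot (gs.map f) (qs.map Q4.c0)) (dot (gs.map f) (qs.map Q4.c1))
      (dot (gs.map f) (qs.map Q4.c2)) (dot (gs.map f) (qs.map Q4.c3)) (dot (gs.map h) (qs.map Q4.c0))
      (dot (gs.map h) (qs.map Q4.c1)) (dot (gs.map h) (qs.map Q4.c2)) (dot (gs.map h) (qs.map Q4.c3)) yl yu) i : ℝ)) =
      2 ^ 32 * gsum k (qs.map fun q =>
        (w0 * (q.c0 : ℝ) + w1 * (q.c1 : ℝ) + w2 * (q.c2 : ℝ) + w3 * (q.c3 : ℝ)) / 4096) gs := by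
  rw [av_l8 w0 w1 w2 w3 t (2 ^ 20 * y) _ _ _ _ _ _ _ _ yl yu hl hu hY, dot_gsum f w0 w1 w2 w3 gs qs hlen,
    dot_gsum h w0 w1 w2 w3 gs qs hlen, ← gsum_lin (fun g => (f g : ℝ)) (fun g => (h g : ℝ)) k (1 - y) y hk]
  ring

theorem ev_sng (w0 w1 w2 w3 t y : ℝ) (yl yu : ℕ) (hl : yl ≤ 1048576) (hu : yu ≤ 1048576)
    (hY : (1 - t) * (yl : ℝ) + t * (yu : ℝ) = 2 ^ 20 * y) (f : Gn → ℕ) (gs : List Gn) (qs : List Q4)
    (hlen : qs.length = gs.length) :
    av (omg w0 w1 w2 w3 t) (fun i => (lf (l8 (dot (gs.map f) (qs.map Q4.c0)) (dot (gs.map f) (qs.map Q4.c1))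
      (dot (gs.map f) (qs.map Q4.c2)) (dot (gs.map f) (qs.map Q4.c3)) (dot (gs.map f) (qs.map Q4.c0))
      (dot (gs.map f) (qs.map Q4.c1)) (dot (gs.map f) (qs.map Q4.c2)) (dot (gs.map f) (qs.map Q4.c3)) yl yu) i : ℝ)) =
      2 ^ 32 * gsum (fun g => (f g : ℝ)) (qs.map fun q =>
        (w0 * (q.c0 : ℝ) + w1 * (q.c1 : ℝ) + w2 * (q.c2 : ℝ) + w3 * (q.c3 : ℝ)) / 4096) gs :=
  ev_pair w0 w1 w2 w3 t y yl yu hl hu hY f f _ (fun g => by ring) gs qs hlen

theorem E_le (f h : Gn → ℕ) (F0 : ℕ) (gs : List Gn) (qs : List Q4) (yl yu : ℕ) (hl : yl ≤ 1048576)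
    (hu : yu ≤ 1048576) (hgs : gs.length ≤ 16) (hf : ∀ g ∈ gs, f g ≤ F0) (hh : ∀ g ∈ gs, h g ≤ F0)
    (hq : ∀ q ∈ qs, q.c0 + q.c1 + q.c2 + q.c3 ≤ 1048576) (i : ℕ) :
    lf (l8 (dot (gs.map f) (qs.map Q4.c0)) (dot (gs.map f) (qs.map Q4.c1))
      (dot (gs.map f) (qs.map Q4.c2)) (dot (gs.map f) (qs.map Q4.c3)) (dot (gs.map h) (qs.map Q4.c0))
      (dot (gs.map h) (qs.map Q4.c1)) (dot (gs.map h) (qs.map Q4.c2)) (dot (gs.map h) (qs.map Q4.c3)) yl yu) i ≤
      16 * (F0 * 1048576) * 1048576 := by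
  have key : ∀ (k : Gn → ℕ) (r : Q4 → ℕ), (∀ g ∈ gs, k g ≤ F0) → (∀ q ∈ qs, r q ≤ 1048576) →
      dot (gs.map k) (qs.map r) ≤ 16 * (F0 * 1048576) := fun k r h1 h2 =>
    (dot_le k r F0 1048576 gs qs h1 h2).trans (Nat.mul_le_mul_right _ hgs)
  have q0 : ∀ q ∈ qs, q.c0 ≤ 1048576 := fun q h => by have := hq q h; omega
  have q1 : ∀ q ∈ qs, q.c1 ≤ 1048576 := fun q h => by have := hq q h; omega
  have q2 : ∀ q ∈ qs, q.c2 ≤ 1048576 := fun q h => by have := hq q h; omega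
  have q3 : ∀ q ∈ qs, q.c3 ≤ 1048576 := fun q h => by have := hq q h; omega
  exact lf_le _ _ (l8_le _ _ _ _ _ _ _ _ yl yu (16 * (F0 * 1048576)) hl hu (key f _ hf q0) (key f _ hf q1)
    (key f _ hf q2) (key f _ hf q3) (key h _ hh q0) (key h _ hh q1) (key h _ hh q2) (key h _ hh q3)) i

theorem mul_le' {a b A B : ℕ} (h1 : a ≤ A) (h2 : b ≤ B) : a * b ≤ A * B := Nat.mul_le_mul h1 h2

/-- The bounds of the eleven lane functions. -/
theorem esf_le (gs : List Gn) (c : Cell) (yl yu : ℕ) (s : Sec) (hl : yl ≤ 1048576) (hu : yu ≤ 1048576)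
    (hgs : gs.length ≤ 16) (hg : ∀ g ∈ gs, GnOK g) (hq : ∀ q ∈ c.c, q.c0 + q.c1 + q.c2 + q.c3 ≤ 1048576)
    (hs : sb s ≤ 1073741824) :
    ∀ j < 11, ∀ i < 8, ((esf (wtOf gs) c yl yu s).getD j (fun _ => 0)) i ≤ Dmx.getD (j + 12) 0 := by
  intro j hj i hi
  have hs' : (s.b0 + s.b1 + (s.b2 + s.b3)) + (s.b4 + s.b5 + (s.b6 + s.b7)) ≤ 1073741824 := hs
  interval_cases j
  · exact (E_le _ _ 1 gs c.c yl yu hl hu hgs (fun g h => (hg g h).aS) (fun g h => (hg g h).aS) hq i).trans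
      (by decide)
  · exact (E_le _ _ (1 * 40) gs c.c yl yu hl hu hgs (fun g h => mul_le' (hg g h).aS (hg g h).qc)
      (fun g h => mul_le' (hg g h).aS (hg g h).qs) hq i).trans (by decide)
  · exact (E_le _ _ 1 gs c.c yl yu hl hu hgs (fun g h => (hg g h).aR) (fun g h => (hg g h).aR) hq i).trans
      (by decide)
  · exact (E_le _ _ (1 * 40) gs c.c yl yu hl hu hgs (fun g h => mul_le' (hg g h).aR (hg g h).qc)
      (fun g h => mul_le' (hg g h).aR (hg g h).qs) hq i).trans (by decide)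
  · exact (E_le _ _ 100000 gs c.c yl yu hl hu hgs (fun g h => (hg g h).U) (fun g h => (hg g h).U) hq i).trans
      (by decide)
  · exact (E_le _ _ (100000 * 40) gs c.c yl yu hl hu hgs (fun g h => mul_le' (hg g h).U (hg g h).qc)
      (fun g h => mul_le' (hg g h).U (hg g h).qs) hq i).trans (by decide)
  · exact (E_le _ _ 100000 gs c.c yl yu hl hu hgs (fun g h => (hg g h).E) (fun g h => (hg g h).E) hq i).trans
      (by decide)
  · exact (E_le _ _ (100000 * 40) gs c.c yl yu hl hu hgs (fun g h => mul_le' (hg g h).E (hg g h).qc)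
      (fun g h => mul_le' (hg g h).E (hg g h).qs) hq i).trans (by decide)
  · exact (E_le _ _ 100000 gs c.c yl yu hl hu hgs (fun g h => (hg g h).K) (fun g h => (hg g h).K) hq i).trans
      (by decide)
  · exact (E_le _ _ (100000 * 40) gs c.c yl yu hl hu hgs (fun g h => mul_le' (hg g h).K (hg g h).qc)
      (fun g h => mul_le' (hg g h).K (hg g h).qs) hq i).trans (by decide)
  · refine (lf_le [s.b0, s.b1, s.b2, s.b3, s.b4, s.b5, s.b6, s.b7] 1073741824 ?_ i).trans (by decide)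
    intro x hx
    simp only [List.mem_cons, List.not_mem_nil, or_false] at hx
    rcases hx with h | h | h | h | h | h | h | h <;> omega

theorem esf_mono (gs : List Gn) (c : Cell) (yl yu : ℕ) (s : Sec) (hl : yl ≤ 1048576) (hu : yu ≤ 1048576)
    (hg : ∀ g ∈ gs, GnOK g) :
    ∀ i < 8, ((esf (wtOf gs) c yl yu s).getD 9 (fun _ => 0)) i ≤
      40 * ((esf (wtOf gs) c yl yu s).getD 8 (fun _ => 0)) i := by
  have hc : ∀ h : Q4 → ℕ, dot (gs.map fun g => g.K * g.qc) (c.c.map h) ≤ 40 * dot (gs.map fun g => g.K) (c.c.map h) :=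
    fun h => dot_mono _ _ 40 h gs c.c fun g hm => by
      rw [mul_comm]
      exact Nat.mul_le_mul_right _ (hg g hm).qc
  have hs : ∀ h : Q4 → ℕ, dot (gs.map fun g => g.K * g.qs) (c.c.map h) ≤ 40 * dot (gs.map fun g => g.K) (c.c.map h) :=
    fun h => dot_mono _ _ 40 h gs c.c fun g hm => by
      rw [mul_comm]
      exact Nat.mul_le_mul_right _ (hg g hm).qs
  exact l8_mono _ _ _ _ _ _ _ _ _ _ _ _ yl yu 40 hl hu (hc _) (hc _) (hc _) (hc _) (hs _) (hs _) (hs _) (hs _)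

/-! ## The lanes -/

theorem ln_n (w : Wt) (c : Cell) (yl yu : ℕ) : ∀ i < 8, (ln (lns (mkCd w c) yl yu) i).n =
    lf (l8 c.A1 c.A1 c.A2 c.A2 c.B1 c.B2 c.B1 c.B2 yl yu) i := by
  intro i hi
  interval_cases i <;> rfl

theorem ln_aw (gs : List Gn) (c : Cell) (yl yu : ℕ) : ∀ i < 8, (ln (lns (mkCd (wtOf gs) c) yl yu) i).aw =
    lf [85899345920 * dot (gs.map fun g => g.L) (c.c.map Q4.c0), 85899345920 * dot (gs.map fun g => g.L) (c.c.map Q4.c1),
      85899345920 * dot (gs.map fun g => g.L) (c.c.map Q4.c2), 85899345920 * dot (gs.map fun g => g.L) (c.c.map Q4.c3),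
      85899345920 * dot (gs.map fun g => g.L) (c.c.map Q4.c0), 85899345920 * dot (gs.map fun g => g.L) (c.c.map Q4.c1),
      85899345920 * dot (gs.map fun g => g.L) (c.c.map Q4.c2),
      85899345920 * dot (gs.map fun g => g.L) (c.c.map Q4.c3)] i := by
  intro i hi
  rw [← mp_eq, ← mp_eq, ← mp_eq, ← mp_eq]
  interval_cases i <;> rfl

theorem ln_bw (gs : List Gn) (c : Cell) (yl yu : ℕ) : ∀ i < 8, (ln (lns (mkCd (wtOf gs) c) yl yu) i).bw =
    lf (l8 (4096 * dot (gs.map fun g => g.L * g.qc) (c.c.map Q4.c0)) (4096 * dot (gs.map fun g => g.L * g.qc) (c.c.map Q4.c1))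
      (4096 * dot (gs.map fun g => g.L * g.qc) (c.c.map Q4.c2)) (4096 * dot (gs.map fun g => g.L * g.qc) (c.c.map Q4.c3))
      (4096 * dot (gs.map fun g => g.L * g.qs) (c.c.map Q4.c0)) (4096 * dot (gs.map fun g => g.L * g.qs) (c.c.map Q4.c1))
      (4096 * dot (gs.map fun g => g.L * g.qs) (c.c.map Q4.c2)) (4096 * dot (gs.map fun g => g.L * g.qs) (c.c.map Q4.c3))
      yl yu) i := by
  intro i hi
  rw [← mp_eq, ← mp_eq, ← mp_eq, ← mp_eq]
  interval_cases i <;> rfl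

theorem le_mx_left (a b : ℕ) : a ≤ mx a b := by
  change a ≤ b + (a - b)
  omega

theorem le_mx_right (a b : ℕ) : b ≤ mx a b := by
  change b ≤ b + (a - b)
  omega

theorem mx_cases (a b : ℕ) : mx a b = a ∨ mx a b = b := by
  change b + (a - b) = a ∨ b + (a - b) = b
  omega

theorem mn_le_left (a b : ℕ) : mn a b ≤ a := by
  change a - (a - b) ≤ a
  omega

theorem mn_le_right (a b : ℕ) : mn a b ≤ b := by
  change a - (a - b) ≤ b
  omega


/-- The bounds of `M`. -/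
theorem M_lower (mu m1 A1 B1 : ℕ) (A B M : ℝ) (h : m1 * 363520 * (m1 * 363520) ≤ mu * 27120 * (mu * 27120) * (A1 * B1))
    (hA : (A1 : ℝ) ≤ 256 * A) (hB : (B1 : ℝ) ≤ 256 * B) (hA0 : 0 < A) (hB0 : 0 < B)
    (hM : 3 * ((mu : ℝ) / 10000 * (√A * √B)) ≤ 4 * π * M) : (m1 : ℝ) ≤ 800000 * M := by
  have h1 : ((m1 : ℝ) * 363520) ^ 2 ≤ ((mu : ℝ) * 27120 * (256 * (√A * √B))) ^ 2 := by
    have h2 : ((m1 : ℝ) * 363520) ^ 2 ≤ ((mu : ℝ) * 27120) ^ 2 * ((A1 : ℝ) * (B1 : ℝ)) := by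
      have : ((m1 * 363520 * (m1 * 363520) : ℕ) : ℝ) ≤ ((mu * 27120 * (mu * 27120) * (A1 * B1) : ℕ) : ℝ) := by
        exact_mod_cast h
      push_cast at this
      nlinarith [this]
    have h3 : (A1 : ℝ) * (B1 : ℝ) ≤ (256 * A) * (256 * B) :=
      mul_le_mul hA hB (Nat.cast_nonneg _) (by positivity)
    have h4 : (√A * √B) ^ 2 = A * B := by
      rw [mul_pow, Real.sq_sqrt hA0.le, Real.sq_sqrt hB0.le]
    calc ((m1 : ℝ) * 363520) ^ 2 ≤ ((mu : ℝ) * 27120) ^ 2 * ((A1 : ℝ) * (B1 : ℝ)) := h2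
      _ ≤ ((mu : ℝ) * 27120) ^ 2 * ((256 * A) * (256 * B)) := mul_le_mul_of_nonneg_left h3 (sq_nonneg _)
      _ = ((mu : ℝ) * 27120 * (256 * (√A * √B))) ^ 2 := by
          rw [mul_pow _ (256 * (√A * √B)), mul_pow 256 (√A * √B), h4]
          ring
  have h5 : (m1 : ℝ) * 363520 ≤ (mu : ℝ) * 27120 * (256 * (√A * √B)) :=
    (pow_le_pow_iff_left₀ (by positivity) (by positivity) two_ne_zero).1 h1
  have hq : 0 ≤ (mu : ℝ) * (√A * √B) := by positivity
  have hM0 : 0 ≤ M := by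
    by_contra hneg
    have : 4 * π * M < 0 := mul_neg_of_pos_of_neg (by positivity) (not_le.1 hneg)
    have h6 : 0 ≤ 3 * ((mu : ℝ) / 10000 * (√A * √B)) := by positivity
    linarith
  have hpi : π ≤ 355 / 113 := by
    have := Real.pi_lt_d20
    linarith
  have h7 : 4 * π * M ≤ 4 * (355 / 113) * M :=
    mul_le_mul_of_nonneg_right (by linarith) hM0
  have h8 : 3 * ((mu : ℝ) * (√A * √B)) ≤ 10000 * (4 * (355 / 113) * M) := by
    have : 3 * ((mu : ℝ) / 10000 * (√A * √B)) = 3 * ((mu : ℝ) * (√A * √B)) / 10000 := by ring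
    rw [this] at hM
    linarith
  linarith

theorem M_upper (mu m2 A2 B2 : ℕ) (A B M v : ℝ) (h : mu * 400 * (mu * 400) * (A2 * B2) ≤ m2 * 3072 * (m2 * 3072))
    (hA : 256 * A ≤ (A2 : ℝ)) (hB : 256 * B ≤ (B2 : ℝ)) (hA0 : 0 < A) (hB0 : 0 < B)
    (hM : 12 / 5 * M ≤ (mu : ℝ) / 10000 * (√A * √B) * √v) : 800000 * M ≤ (m2 : ℝ) * √v := by
  have h1 : ((mu : ℝ) * 400 * (256 * (√A * √B))) ^ 2 ≤ ((m2 : ℝ) * 3072) ^ 2 := by
    have h2 : ((mu : ℝ) * 400) ^ 2 * ((A2 : ℝ) * (B2 : ℝ)) ≤ ((m2 : ℝ) * 3072) ^ 2 := by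
      have : ((mu * 400 * (mu * 400) * (A2 * B2) : ℕ) : ℝ) ≤ ((m2 * 3072 * (m2 * 3072) : ℕ) : ℝ) := by
        exact_mod_cast h
      push_cast at this
      nlinarith [this]
    have h3 : (256 * A) * (256 * B) ≤ (A2 : ℝ) * (B2 : ℝ) :=
      mul_le_mul hA hB (by positivity) (Nat.cast_nonneg _)
    have h4 : (√A * √B) ^ 2 = A * B := by
      rw [mul_pow, Real.sq_sqrt hA0.le, Real.sq_sqrt hB0.le]
    calc ((mu : ℝ) * 400 * (256 * (√A * √B))) ^ 2 = ((mu : ℝ) * 400) ^ 2 * ((256 * A) * (256 * B)) := by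
          rw [mul_pow _ (256 * (√A * √B)), mul_pow 256 (√A * √B), h4]
          ring
      _ ≤ ((mu : ℝ) * 400) ^ 2 * ((A2 : ℝ) * (B2 : ℝ)) := mul_le_mul_of_nonneg_left h3 (sq_nonneg _)
      _ ≤ ((m2 : ℝ) * 3072) ^ 2 := h2
  have h5 : (mu : ℝ) * 400 * (256 * (√A * √B)) ≤ (m2 : ℝ) * 3072 :=
    (pow_le_pow_iff_left₀ (by positivity) (by positivity) two_ne_zero).1 h1
  have h6 := mul_le_mul_of_nonneg_right h5 (Real.sqrt_nonneg v)
  have e1 : (mu : ℝ) * 400 * (256 * (√A * √B)) * √v = 102400 * ((mu : ℝ) * (√A * √B) * √v) := by ring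
  have e2 : (mu : ℝ) / 10000 * (√A * √B) * √v = (mu : ℝ) * (√A * √B) * √v / 10000 := by ring
  rw [e1] at h6
  rw [e2] at hM
  linarith

/-- `Ψ`-form of `wq`. -/
theorem wq_eq (c : Cell) (A B : ℝ) (hA : (0 : ℝ) < (c.A2 : ℝ) - (c.A1 : ℝ)) (hB : (0 : ℝ) < (c.B2 : ℝ) - (c.B1 : ℝ))
    (x0 x1 x2 x3 : ℝ) : wq c A B x0 x1 x2 x3 =
      (((c.A2 : ℝ) - 256 * A) / ((c.A2 : ℝ) - (c.A1 : ℝ)) * (((c.B2 : ℝ) - 256 * B) / ((c.B2 : ℝ) - (c.B1 : ℝ)))) * x0 +
      (((c.A2 : ℝ) - 256 * A) / ((c.A2 : ℝ) - (c.A1 : ℝ)) * ((256 * B - (c.B1 : ℝ)) / ((c.B2 : ℝ) - (c.B1 : ℝ)))) * x1 +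
      ((256 * A - (c.A1 : ℝ)) / ((c.A2 : ℝ) - (c.A1 : ℝ)) * (((c.B2 : ℝ) - 256 * B) / ((c.B2 : ℝ) - (c.B1 : ℝ)))) * x2 +
      ((256 * A - (c.A1 : ℝ)) / ((c.A2 : ℝ) - (c.A1 : ℝ)) * ((256 * B - (c.B1 : ℝ)) / ((c.B2 : ℝ) - (c.B1 : ℝ)))) * x3 := by
  unfold wq
  field_simp
  ring

end SECM

open SECM in
/-- **SEC**. -/
theorem specSEC (hSPC : SpecSPC) (hPIE : SpecPIE) (hPTW : SpecPTW) : SpecSEC := by
  intro W L ps K0 K hT gs hlen hg mu c hc hcl yl yu s hlu hu1 hsb hsec A B hAB y v γ R Y M hy1 hy2 hadm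
  have hyl1 : yl ≤ 1048576 := by omega
  have hA1 : (0 : ℝ) < (c.A1 : ℝ) := by exact_mod_cast hc.a1
  have hB1 : (0 : ℝ) < (c.B1 : ℝ) := by exact_mod_cast hc.b1
  have hA0 : 0 < A := by linarith [hAB.a1]
  have hB0 : 0 < B := by linarith [hAB.b1]
  have hdA : (0 : ℝ) < (c.A2 : ℝ) - (c.A1 : ℝ) := by
    have : (c.A1 : ℝ) < (c.A2 : ℝ) := by exact_mod_cast hc.a
    linarith
  have hdB : (0 : ℝ) < (c.B2 : ℝ) - (c.B1 : ℝ) := by
    have : (c.B1 : ℝ) < (c.B2 : ℝ) := by exact_mod_cast hc.b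
    linarith
  have hdy : (0 : ℝ) < (yu : ℝ) - (yl : ℝ) := by
    have : (yl : ℝ) < (yu : ℝ) := by exact_mod_cast hlu
    linarith
  have hyl0 : (0 : ℝ) ≤ (yl : ℝ) := Nat.cast_nonneg _
  have hyu1 : (yu : ℝ) ≤ 1048576 := by exact_mod_cast hu1
  have hy0 : 0 ≤ y := by linarith
  have hyy : y ≤ 1 := by linarith
  -- weights
  obtain ⟨α, hα⟩ : ∃ α : ℝ, α = ((c.A2 : ℝ) - 256 * A) / ((c.A2 : ℝ) - (c.A1 : ℝ)) := ⟨_, rfl⟩
  obtain ⟨α', hα'⟩ : ∃ α' : ℝ, α' = (256 * A - (c.A1 : ℝ)) / ((c.A2 : ℝ) - (c.A1 : ℝ)) := ⟨_, rfl⟩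
  obtain ⟨β, hβ⟩ : ∃ β : ℝ, β = ((c.B2 : ℝ) - 256 * B) / ((c.B2 : ℝ) - (c.B1 : ℝ)) := ⟨_, rfl⟩
  obtain ⟨β', hβ'⟩ : ∃ β' : ℝ, β' = (256 * B - (c.B1 : ℝ)) / ((c.B2 : ℝ) - (c.B1 : ℝ)) := ⟨_, rfl⟩
  obtain ⟨t, ht⟩ : ∃ t : ℝ, t = (2 ^ 20 * y - (yl : ℝ)) / ((yu : ℝ) - (yl : ℝ)) := ⟨_, rfl⟩
  have α0 : 0 ≤ α := hα ▸ div_nonneg (by linarith [hAB.a2]) hdA.le
  have α'0 : 0 ≤ α' := hα' ▸ div_nonneg (by linarith [hAB.a1]) hdA.le
  have β0 : 0 ≤ β := hβ ▸ div_nonneg (by linarith [hAB.b2]) hdB.le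
  have β'0 : 0 ≤ β' := hβ' ▸ div_nonneg (by linarith [hAB.b1]) hdB.le
  have t0 : 0 ≤ t := ht ▸ div_nonneg (by linarith) hdy.le
  have t1 : t ≤ 1 := by
    rw [ht, div_le_one hdy]
    linarith
  have hαs : α + α' = 1 := by
    rw [hα, hα']
    field_simp
    ring
  have hβs : β + β' = 1 := by
    rw [hβ, hβ']
    field_simp
    ring
  have hws : α * β + α * β' + α' * β + α' * β' = 1 := by
    have : α * β + α * β' + α' * β + α' * β' = (α + α') * (β + β') := by ring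
    rw [this, hαs, hβs, one_mul]
  have hwq : ∀ x0 x1 x2 x3 : ℝ, wq c A B x0 x1 x2 x3 = (α * β) * x0 + (α * β') * x1 + (α' * β) * x2 + (α' * β') * x3 := by
    intro x0 x1 x2 x3
    rw [hα, hα', hβ, hβ']
    exact wq_eq c A B hdA hdB x0 x1 x2 x3
  have hwA : (α * β) * (c.A1 : ℝ) + (α * β') * (c.A1 : ℝ) + (α' * β) * (c.A2 : ℝ) + (α' * β') * (c.A2 : ℝ) = 256 * A := by
    have e1 : (α * β) * (c.A1 : ℝ) + (α * β') * (c.A1 : ℝ) + (α' * β) * (c.A2 : ℝ) + (α' * β') * (c.A2 : ℝ) =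
        (β + β') * (α * (c.A1 : ℝ) + α' * (c.A2 : ℝ)) := by ring
    rw [e1, hβs, one_mul, hα, hα']
    field_simp
    ring
  have hwB : (α * β) * (c.B1 : ℝ) + (α * β') * (c.B2 : ℝ) + (α' * β) * (c.B1 : ℝ) + (α' * β') * (c.B2 : ℝ) = 256 * B := by
    have e1 : (α * β) * (c.B1 : ℝ) + (α * β') * (c.B2 : ℝ) + (α' * β) * (c.B1 : ℝ) + (α' * β') * (c.B2 : ℝ) =
        (α + α') * (β * (c.B1 : ℝ) + β' * (c.B2 : ℝ)) := by ring
    rw [e1, hαs, one_mul, hβ, hβ']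
    field_simp
    ring
  have hY : (1 - t) * (yl : ℝ) + t * (yu : ℝ) = 2 ^ 20 * y := by
    rw [ht]
    field_simp
    ring
  obtain ⟨ω, hω⟩ : ∃ ω : ℕ → ℝ, ω = omg (α * β) (α * β') (α' * β) (α' * β') t := ⟨_, rfl⟩
  have hω0 : ∀ i < 8, 0 ≤ ω i := hω ▸ omg_nonneg _ _ _ _ t (mul_nonneg α0 β0) (mul_nonneg α0 β'0)
    (mul_nonneg α'0 β0) (mul_nonneg α'0 β'0) t0 t1
  have hω1 : ∑ i ∈ Finset.range 8, ω i = 1 := hω ▸ omg_sum _ _ _ _ t hws
  -- the lanes
  obtain ⟨us, hus⟩ : ∃ us : List Lan, us = lns (mkCd (wtOf gs) c) yl yu := ⟨_, rfl⟩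
  obtain ⟨es, hes⟩ : ∃ es : List (ℕ → ℕ), es = esf (wtOf gs) c yl yu s := ⟨_, rfl⟩
  have hn8 : ∀ i < 8, (ln us i).n = lf (l8 c.A1 c.A1 c.A2 c.A2 c.B1 c.B2 c.B1 c.B2 yl yu) i :=
    hus ▸ ln_n (wtOf gs) c yl yu
  have ha8 := ln_aw gs c yl yu
  rw [← hus] at ha8
  have hb8 := ln_bw gs c yl yu
  rw [← hus] at hb8
  obtain ⟨cs, hcs⟩ : ∃ cs : List ℝ, cs = csq c A B := ⟨_, rfl⟩
  have hcs' : cs = c.c.map fun q => ((α * β) * (q.c0 : ℝ) + (α * β') * (q.c1 : ℝ) + (α' * β) * (q.c2 : ℝ) +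
      (α' * β') * (q.c3 : ℝ)) / 4096 := by
    rw [hcs]
    unfold csq
    exact List.map_congr_left fun q _ => by rw [hwq]
  have hcsl : cs.length = gs.length := by
    rw [hcs', List.length_map, hcl]
  have hav : ∀ f g : ℕ → ℝ, (∀ i < 8, f i = g i) → av ω f = av ω g := fun f g h => by
    unfold av
    exact Finset.sum_congr rfl fun i hi => by rw [h i (Finset.mem_range.1 hi)]
  -- the means
  obtain ⟨n, hn⟩ : ∃ n : ℝ, n = A * (1 - y) + B * y := ⟨_, rfl⟩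
  have hn0 : 0 < n := by
    rw [hn]
    rcases eq_or_lt_of_le hyy with h | h
    · rw [h]
      simpa using hB0
    · have := mul_pos hA0 (sub_pos.2 h)
      have := mul_nonneg hB0.le hy0
      linarith
  have mn8 : av ω (fun i => ((ln us i).n : ℝ)) = 2 ^ 28 * n := by
    rw [hav _ (fun i => (lf (l8 c.A1 c.A1 c.A2 c.A2 c.B1 c.B2 c.B1 c.B2 yl yu) i : ℝ)) fun i hi => by rw [hn8 i hi],
      hω, av_l8 _ _ _ _ t (2 ^ 20 * y) _ _ _ _ _ _ _ _ yl yu hyl1 hu1 hY, hwA, hwB, hn]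
    ring
  have ma8 : av ω (fun i => ((ln us i).aw : ℝ)) = 85899345920 * 4096 * gsum (fun g => (g.L : ℝ)) cs gs := by
    have e := dot_gsum (fun g => g.L) (α * β) (α * β') (α' * β) (α' * β') gs c.c hcl
    rw [← hcs'] at e
    rw [hav _ _ fun i hi => by rw [ha8 i hi], hω, av_eq]
    simp only [lf, List.getD_cons_zero, List.getD_cons_succ]
    push_cast
    have e2 : ∀ x : ℝ, x = (1 - t) * x + t * x := fun x => by ring
    rw [e2 (85899345920 * 4096 * gsum (fun g => (g.L : ℝ)) cs gs)]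
    linear_combination (85899345920 : ℝ) * e
  have mb8 : av ω (fun i => ((ln us i).bw : ℝ)) =
      4096 * 1048576 * 4096 * gsum (fun g => (g.L : ℝ) * qy y g) cs gs := by
    have e1 := dot_gsum (fun g => g.L * g.qc) (α * β) (α * β') (α' * β) (α' * β') gs c.c hcl
    have e2 := dot_gsum (fun g => g.L * g.qs) (α * β) (α * β') (α' * β) (α' * β') gs c.c hcl
    rw [← hcs'] at e1 e2
    rw [hav _ _ fun i hi => by rw [hb8 i hi], hω, av_l8 _ _ _ _ t (2 ^ 20 * y) _ _ _ _ _ _ _ _ yl yu hyl1 hu1 hY,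
      ← gsum_lin (fun g => ((g.L * g.qc : ℕ) : ℝ)) (fun g => ((g.L * g.qs : ℕ) : ℝ)) (fun g => (g.L : ℝ) * qy y g)
        (1 - y) y (fun g => by
          unfold qy
          push_cast
          ring)]
    push_cast at e1 e2 ⊢
    linear_combination (4096 * (2 ^ 20 - 2 ^ 20 * y) : ℝ) * e1 + (4096 * (2 ^ 20 * y) : ℝ) * e2
  -- the piece and the line
  obtain ⟨nmin, hnmin⟩ : ∃ k : ℕ, k = mn (lan (mkCd (wtOf gs) c).c0 yl).n (lan (mkCd (wtOf gs) c).c0 yu).n := ⟨_, rfl⟩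
  obtain ⟨nmax, hnmax⟩ : ∃ k : ℕ, k = mx (lan (mkCd (wtOf gs) c).c3 yl).n (lan (mkCd (wtOf gs) c).c3 yu).n := ⟨_, rfl⟩
  have hNp : lin (mkCd (wtOf gs) c).AA (mkCd (wtOf gs) c).BB
      (Nat.add (Nat.sub 1048576 yl) (Nat.mul (Nat.sub 1048576 yu) BS4)) (Nat.add yl (Nat.mul yu BS4)) =
      pv fun i => (ln us i).n := by
    have e1 : (pv fun i => (ln us i).n) = pv (lf (l8 c.A1 c.A1 c.A2 c.A2 c.B1 c.B2 c.B1 c.B2 yl yu)) := by
      unfold pv
      refine Finset.sum_congr rfl fun i hi => ?_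
      change (ln us i).n * BS ^ i = _
      rw [hn8 i (Finset.mem_range.1 hi)]
    rw [e1, ← lin_pk]
    rfl
  have hpc : pieces (mkP c) nmin nmax us (pv fun i => (ln us i).n) (es.map pv) ps K0 K = true := by
    have h1 : sec1 ps K0 K (wtOf gs) (mkCd (wtOf gs) c) yl yu s =
        pieces (mkP c) nmin nmax us (lin (mkCd (wtOf gs) c).AA (mkCd (wtOf gs) c).BB
          (Nat.add (Nat.sub 1048576 yl) (Nat.mul (Nat.sub 1048576 yu) BS4)) (Nat.add yl (Nat.mul yu BS4)))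
          (dsl (wtOf gs) (mp (fun x => pk4 x.c0 x.c1 x.c2 x.c3) c.c)
            (Nat.add (Nat.sub 1048576 yl) (Nat.mul (Nat.sub 1048576 yu) BS4)) (Nat.add yl (Nat.mul yu BS4))
            (Nat.add (pk4 s.b0 s.b1 s.b2 s.b3) (Nat.mul (pk4 s.b4 s.b5 s.b6 s.b7) BS4))) ps K0 K := by
      rw [hnmin, hnmax, hus]
      rfl
    rw [h1, hNp, dsl_eq, ← hes] at hsec
    exact hsec
  have hA1' := hAB.a1
  have hA2' := hAB.a2
  have hB1' := hAB.b1
  have hB2' := hAB.b2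
  have cyl : ((1048576 - yl : ℕ) : ℝ) = 1048576 - (yl : ℝ) := by
    rw [Nat.cast_sub hyl1]
    norm_num
  have cyu : ((1048576 - yu : ℕ) : ℝ) = 1048576 - (yu : ℝ) := by
    rw [Nat.cast_sub hu1]
    norm_num
  have e0l : ((lan (mkCd (wtOf gs) c).c0 yl).n : ℝ) = (c.A1 : ℝ) * (1048576 - (yl : ℝ)) + (c.B1 : ℝ) * (yl : ℝ) := by
    change ((c.A1 * (1048576 - yl) + c.B1 * yl : ℕ) : ℝ) = _
    rw [Nat.cast_add, Nat.cast_mul, Nat.cast_mul, cyl]
  have e0u : ((lan (mkCd (wtOf gs) c).c0 yu).n : ℝ) = (c.A1 : ℝ) * (1048576 - (yu : ℝ)) + (c.B1 : ℝ) * (yu : ℝ) := by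
    change ((c.A1 * (1048576 - yu) + c.B1 * yu : ℕ) : ℝ) = _
    rw [Nat.cast_add, Nat.cast_mul, Nat.cast_mul, cyu]
  have e3l : ((lan (mkCd (wtOf gs) c).c3 yl).n : ℝ) = (c.A2 : ℝ) * (1048576 - (yl : ℝ)) + (c.B2 : ℝ) * (yl : ℝ) := by
    change ((c.A2 * (1048576 - yl) + c.B2 * yl : ℕ) : ℝ) = _
    rw [Nat.cast_add, Nat.cast_mul, Nat.cast_mul, cyl]
  have e3u : ((lan (mkCd (wtOf gs) c).c3 yu).n : ℝ) = (c.A2 : ℝ) * (1048576 - (yu : ℝ)) + (c.B2 : ℝ) * (yu : ℝ) := by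
    change ((c.A2 * (1048576 - yu) + c.B2 * yu : ℕ) : ℝ) = _
    rw [Nat.cast_add, Nat.cast_mul, Nat.cast_mul, cyu]
  have hyv : 2 ^ 20 * y = (1 - t) * (yl : ℝ) + t * (yu : ℝ) := hY.symm
  have ht' : 0 ≤ 1 - t := sub_nonneg.2 t1
  have hnlo : (nmin : ℝ) ≤ 2 ^ 28 * n := by
    have h1 : (nmin : ℝ) ≤ (c.A1 : ℝ) * (1048576 - (yl : ℝ)) + (c.B1 : ℝ) * (yl : ℝ) := by
      rw [← e0l, hnmin]
      exact_mod_cast mn_le_left _ _
    have h2 : (nmin : ℝ) ≤ (c.A1 : ℝ) * (1048576 - (yu : ℝ)) + (c.B1 : ℝ) * (yu : ℝ) := by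
      rw [← e0u, hnmin]
      exact_mod_cast mn_le_right _ _
    have h3 : (nmin : ℝ) ≤ (c.A1 : ℝ) * (1048576 - 2 ^ 20 * y) + (c.B1 : ℝ) * (2 ^ 20 * y) := by
      have g1 := mul_le_mul_of_nonneg_left h1 ht'
      have g2 := mul_le_mul_of_nonneg_left h2 t0
      rw [hyv]
      linarith
    have h4 : (c.A1 : ℝ) * (1048576 - 2 ^ 20 * y) ≤ 256 * A * (1048576 - 2 ^ 20 * y) :=
      mul_le_mul_of_nonneg_right hA1' (by linarith)
    have h5 : (c.B1 : ℝ) * (2 ^ 20 * y) ≤ 256 * B * (2 ^ 20 * y) :=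
      mul_le_mul_of_nonneg_right hB1' (by linarith)
    have h6 : 256 * A * (1048576 - 2 ^ 20 * y) + 256 * B * (2 ^ 20 * y) = 2 ^ 28 * n := by
      rw [hn]
      ring
    linarith
  have hnhi : 2 ^ 28 * n ≤ (nmax : ℝ) := by
    have h1 : (c.A2 : ℝ) * (1048576 - (yl : ℝ)) + (c.B2 : ℝ) * (yl : ℝ) ≤ (nmax : ℝ) := by
      rw [← e3l, hnmax]
      exact_mod_cast le_mx_left _ _
    have h2 : (c.A2 : ℝ) * (1048576 - (yu : ℝ)) + (c.B2 : ℝ) * (yu : ℝ) ≤ (nmax : ℝ) := by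
      rw [← e3u, hnmax]
      exact_mod_cast le_mx_right _ _
    have h3 : (c.A2 : ℝ) * (1048576 - 2 ^ 20 * y) + (c.B2 : ℝ) * (2 ^ 20 * y) ≤ (nmax : ℝ) := by
      have g1 := mul_le_mul_of_nonneg_left h1 ht'
      have g2 := mul_le_mul_of_nonneg_left h2 t0
      rw [hyv]
      linarith
    have h4 : 256 * A * (1048576 - 2 ^ 20 * y) ≤ (c.A2 : ℝ) * (1048576 - 2 ^ 20 * y) :=
      mul_le_mul_of_nonneg_right hA2' (by linarith)
    have h5 : 256 * B * (2 ^ 20 * y) ≤ (c.B2 : ℝ) * (2 ^ 20 * y) :=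
      mul_le_mul_of_nonneg_right hB2' (by linarith)
    have h6 : 256 * A * (1048576 - 2 ^ 20 * y) + 256 * B * (2 ^ 20 * y) = 2 ^ 28 * n := by
      rw [hn]
      ring
    linarith
  rw [← hn] at hadm ⊢
  have hv1 := hadm.v1
  have hγ2 := sq_nonneg γ
  have hvle : v ≤ 1 := by linarith [hadm.x1]
  have hz1 := hadm.z1
  have hz2 : n * v ≤ 10000 / 49 := by
    have := hadm.z2
    norm_num at this
    linarith
  obtain ⟨pc, hpcm, r, hrm, l, hlm, hV1, hV2, hpie, hr1, hr2⟩ := hSPC (mkP c) nmin nmax us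
    (pv fun i => (ln us i).n) (es.map pv) ps K0 K hT.ch (hT.r0 K0 (by simp)) hpc (2 ^ 28 * n) (384 * v) hnlo hnhi
    (by linarith) (by linarith) (by linarith) (by linarith)
  obtain ⟨q, hq⟩ := hT.pc pc hpcm
  obtain ⟨hline, hlnb⟩ := hT.rw r hrm l hlm
  obtain ⟨hdz1, hdz0, hdzc⟩ := hT.dz (n * v) hz1 hz2
  -- conditions of PIE
  have hln : ∀ i < 8, (ln us i).n ≤ 2 ^ 37 ∧ (ln us i).n * pc.b ≤ nmax * pc.b ∧ (ln us i).bw ≤ 2 * (ln us i).aw := by
    intro i hi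
    refine ⟨?_, ?_, ?_⟩
    · rw [hn8 i hi]
      have a1 : c.A1 ≤ 104490 := (Nat.le_of_lt hc.a).trans hc.a2
      have b1 : c.B1 ≤ 104490 := (Nat.le_of_lt hc.b).trans hc.b2
      exact (lf_le _ _ (l8_le _ _ _ _ _ _ _ _ yl yu 104490 hyl1 hu1 a1 a1 hc.a2 hc.a2 b1 hc.b2 b1 hc.b2) i).trans
        (by norm_num)
    · refine Nat.mul_le_mul_right _ ?_
      rw [hn8 i hi]
      have a1 : c.A1 ≤ c.A2 := Nat.le_of_lt hc.a
      have b1 : c.B1 ≤ c.B2 := Nat.le_of_lt hc.b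
      have g1 : c.A2 * (1048576 - yl) + c.B2 * yl ≤ nmax := by
        rw [hnmax]
        exact le_mx_left _ _
      have g2 : c.A2 * (1048576 - yu) + c.B2 * yu ≤ nmax := by
        rw [hnmax]
        exact le_mx_right _ _
      have key : ∀ a b y' : ℕ, a ≤ c.A2 → b ≤ c.B2 → c.A2 * (1048576 - y') + c.B2 * y' ≤ nmax →
          a * (1048576 - y') + b * y' ≤ nmax := fun a b y' h1 h2 h3 =>
        (add_le_add (Nat.mul_le_mul_right _ h1) (Nat.mul_le_mul_right _ h2)).trans h3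
      refine lf_le _ _ ?_ i
      intro x hx
      unfold l8 at hx
      simp only [List.mem_cons, List.not_mem_nil, or_false] at hx
      rcases hx with h | h | h | h | h | h | h | h <;> rw [h] <;> apply key <;> first | assumption | exact le_rfl
    · rw [hb8 i hi, ha8 i hi]
      have hcc : ∀ h : Q4 → ℕ, dot (gs.map fun g => g.L * g.qc) (c.c.map h) ≤
          40 * dot (gs.map fun g => g.L) (c.c.map h) := fun h => dot_mono _ _ 40 h gs c.c fun g hm => by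
        rw [mul_comm]
        exact Nat.mul_le_mul_right _ (hg g hm).qc
      have hss : ∀ h : Q4 → ℕ, dot (gs.map fun g => g.L * g.qs) (c.c.map h) ≤
          40 * dot (gs.map fun g => g.L) (c.c.map h) := fun h => dot_mono _ _ 40 h gs c.c fun g hm => by
        rw [mul_comm]
        exact Nat.mul_le_mul_right _ (hg g hm).qs
      have key : ∀ a b d y' : ℕ, a ≤ 40 * d → b ≤ 40 * d → y' ≤ 1048576 →
          4096 * a * (1048576 - y') + 4096 * b * y' ≤ 2 * (85899345920 * d) := by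
        intro a b d y' h1 h2 h3
        calc 4096 * a * (1048576 - y') + 4096 * b * y'
            ≤ 4096 * (40 * d) * (1048576 - y') + 4096 * (40 * d) * y' :=
              add_le_add (Nat.mul_le_mul_right _ (Nat.mul_le_mul_left _ h1))
                (Nat.mul_le_mul_right _ (Nat.mul_le_mul_left _ h2))
          _ = 4096 * (40 * d) * (1048576 - y' + y') := by ring
          _ = 4096 * (40 * d) * 1048576 := by rw [Nat.sub_add_cancel h3]
          _ = 2 * (85899345920 * d) := by ring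
      unfold l8 lf
      interval_cases i <;> simp only [List.getD_cons_zero, List.getD_cons_succ] <;> apply key <;>
        first | exact hcc _ | exact hss _ | assumption
  have hesle := esf_le gs c yl yu s hyl1 hu1 hlen hg hc.cb hsb
  have hesmo := esf_mono gs c yl yu s hyl1 hu1 hg
  rw [← hes] at hesle hesmo
  have huslen : us.length = 8 := by
    rw [hus]
    rfl
  have heslen : es.length = 11 := by
    rw [hes]
    rfl
  have hPie := hPIE pc q hq (mkP c) l us es (nmax * pc.b) hlnb huslen heslen hln hesle hesmo hpie ω hω0 hω1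
  rw [mn8, ma8, mb8] at hPie
  -- the values `D`
  have hconst : ∀ x : ℝ, av ω (fun _ => x) = x := fun x => by
    rw [hω]
    exact av_const _ _ _ _ t hws x
  have hD : DOK (fun j => av ω (fun i => dv l us es i j)) l n y (bet c yl yu s A B y) cs gs := by
    have sng := fun f : Gn → ℕ => ev_sng (α * β) (α * β') (α' * β) (α' * β') t y yl yu hyl1 hu1 hY f gs c.c hcl
    have pair := fun (f h : Gn → ℕ) (k : Gn → ℝ) (hk : ∀ g, k g = (1 - y) * (f g : ℝ) + y * (h g : ℝ)) =>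
      ev_pair (α * β) (α * β') (α' * β) (α' * β') t y yl yu hyl1 hu1 hY f h k hk gs c.c hcl
    rw [← hcs', ← hω] at sng pair
    refine ⟨?_, ?_, ?_, ?_, ?_, ?_, ?_, ?_, ?_, ?_, ?_, ?_, ?_, ?_, ?_, ?_, ?_, ?_, ?_, ?_, ?_, ?_, ?_⟩
    · change av ω (fun i => dv l us es i 0) = _
      rw [show (fun i => dv l us es i 0) = fun _ => (l.g0p : ℝ) from funext fun i => by simp [dv]]
      exact hconst _
    · change av ω (fun i => dv l us es i 1) = _
      rw [show (fun i => dv l us es i 1) = fun _ => (l.g0n : ℝ) from funext fun i => by simp [dv]]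
      exact hconst _
    · change av ω (fun i => dv l us es i 2) = _
      rw [show (fun i => dv l us es i 2) = fun i => (l.g1p : ℝ) * ((ln us i).n : ℝ) from
        funext fun i => by simp [dv], av_smul, mn8]
    · change av ω (fun i => dv l us es i 3) = _
      rw [show (fun i => dv l us es i 3) = fun i => (l.g1n : ℝ) * ((ln us i).n : ℝ) from
        funext fun i => by simp [dv], av_smul, mn8]
    · change av ω (fun i => dv l us es i 4) = _
      rw [show (fun i => dv l us es i 4) = fun _ => (l.wl : ℝ) from funext fun i => by simp [dv]]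
      exact hconst _
    · change av ω (fun i => dv l us es i 5) = _
      rw [show (fun i => dv l us es i 5) = fun _ => (l.wu : ℝ) from funext fun i => by simp [dv]]
      exact hconst _
    · change av ω (fun i => dv l us es i 6) = _
      rw [show (fun i => dv l us es i 6) = fun i => (l.o1p : ℝ) * ((ln us i).n : ℝ) from
        funext fun i => by simp [dv], av_smul, mn8]
    · change av ω (fun i => dv l us es i 7) = _
      rw [show (fun i => dv l us es i 7) = fun i => (l.o1n : ℝ) * ((ln us i).n : ℝ) from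
        funext fun i => by simp [dv], av_smul, mn8]
    · change av ω (fun i => dv l us es i 8) = _
      rw [show (fun i => dv l us es i 8) = fun _ => (0 : ℝ) from funext fun i => by simp [dv]]
      exact hconst _
    · change av ω (fun i => dv l us es i 9) = _
      rw [show (fun i => dv l us es i 9) = fun _ => (0 : ℝ) from funext fun i => by simp [dv]]
      exact hconst _
    · change av ω (fun i => dv l us es i 10) = _
      rw [show (fun i => dv l us es i 10) = fun _ => (0 : ℝ) from funext fun i => by simp [dv]]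
      exact hconst _
    · change av ω (fun i => dv l us es i 11) = _
      rw [show (fun i => dv l us es i 11) = fun _ => (0 : ℝ) from funext fun i => by simp [dv]]
      exact hconst _
    · change av ω (fun i => dv l us es i 12) = _
      rw [show (fun i => dv l us es i 12) = fun i => ((es.getD 0 (fun _ => 0)) i : ℝ) from
        funext fun i => by simp [dv], hes]
      exact sng fun g => g.aS
    · change av ω (fun i => dv l us es i 13) = _
      rw [show (fun i => dv l us es i 13) = fun i => ((es.getD 1 (fun _ => 0)) i : ℝ) from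
        funext fun i => by simp [dv], hes]
      exact pair (fun g => g.aS * g.qc) (fun g => g.aS * g.qs) _ fun g => by
        unfold qy
        push_cast
        ring
    · change av ω (fun i => dv l us es i 14) = _
      rw [show (fun i => dv l us es i 14) = fun i => ((es.getD 2 (fun _ => 0)) i : ℝ) from
        funext fun i => by simp [dv], hes]
      exact sng fun g => g.aR
    · change av ω (fun i => dv l us es i 15) = _
      rw [show (fun i => dv l us es i 15) = fun i => ((es.getD 3 (fun _ => 0)) i : ℝ) from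
        funext fun i => by simp [dv], hes]
      exact pair (fun g => g.aR * g.qc) (fun g => g.aR * g.qs) _ fun g => by
        unfold qy
        push_cast
        ring
    · change av ω (fun i => dv l us es i 16) = _
      rw [show (fun i => dv l us es i 16) = fun i => ((es.getD 4 (fun _ => 0)) i : ℝ) from
        funext fun i => by simp [dv], hes]
      exact sng fun g => g.U
    · change av ω (fun i => dv l us es i 17) = _
      rw [show (fun i => dv l us es i 17) = fun i => ((es.getD 5 (fun _ => 0)) i : ℝ) from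
        funext fun i => by simp [dv], hes]
      exact pair (fun g => g.U * g.qc) (fun g => g.U * g.qs) _ fun g => by
        unfold qy
        push_cast
        ring
    · change av ω (fun i => dv l us es i 18) = _
      rw [show (fun i => dv l us es i 18) = fun i => ((es.getD 6 (fun _ => 0)) i : ℝ) from
        funext fun i => by simp [dv], hes]
      exact sng fun g => g.E
    · change av ω (fun i => dv l us es i 19) = _
      rw [show (fun i => dv l us es i 19) = fun i => ((es.getD 7 (fun _ => 0)) i : ℝ) from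
        funext fun i => by simp [dv], hes]
      exact pair (fun g => g.E * g.qc) (fun g => g.E * g.qs) _ fun g => by
        unfold qy
        push_cast
        ring
    · change av ω (fun i => dv l us es i 20) = _
      rw [show (fun i => dv l us es i 20) = fun i => ((es.getD 8 (fun _ => 0)) i : ℝ) from
        funext fun i => by simp [dv], hes]
      exact sng fun g => g.K
    · change av ω (fun i => dv l us es i 21) = _
      rw [show (fun i => dv l us es i 21) = fun i => ((es.getD 9 (fun _ => 0)) i : ℝ) from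
        funext fun i => by simp [dv], hes]
      exact pair (fun g => g.K * g.qc) (fun g => g.K * g.qs) _ fun g => by
        unfold qy
        push_cast
        ring
    · change av ω (fun i => dv l us es i 22) = _
      rw [show (fun i => dv l us es i 22) = fun i => ((es.getD 10 (fun _ => 0)) i : ℝ) from
        funext fun i => by simp [dv], hes]
      change av ω (fun i => (lf [s.b0, s.b1, s.b2, s.b3, s.b4, s.b5, s.b6, s.b7] i : ℝ)) = _
      rw [hω, av_eq]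
      simp only [lf, List.getD_cons_zero, List.getD_cons_succ]
      unfold bet
      rw [hwq, hwq, ht]
      field_simp
      ring
  -- the end
  have hsq : 1024 * √v ≤ (pc.sq : ℝ) := by
    have h1 : (1048576 : ℝ) * (pc.b : ℝ) ≤ (pc.sq : ℝ) ^ 2 * 384 := by exact_mod_cast hq.sq
    have h2 : (1024 * √v) ^ 2 ≤ (pc.sq : ℝ) ^ 2 := by
      rw [mul_pow, Real.sq_sqrt (by linarith)]
      linarith
    exact (pow_le_pow_iff_left₀ (by positivity) (by positivity) two_ne_zero).1 h2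
  have hth : 4 * (c.th * c.th) ≤ 1000 := by
    have := hc.th
    nlinarith
  have hth2 : c.th ≤ 20 := by
    have := hc.th
    omega
  have ht1 : ((mkP c).t1 : ℝ) = 1000 - 4 * (c.th : ℝ) ^ 2 := by
    change ((1000 - 4 * (c.th * c.th) : ℕ) : ℝ) = _
    rw [Nat.cast_sub hth]
    push_cast
    ring
  have ht2 : ((mkP c).t2 : ℝ) = 8 * (c.th : ℝ) * (20 - (c.th : ℝ)) := by
    change ((8 * (c.th * (20 - c.th)) : ℕ) : ℝ) = _
    rw [Nat.cast_mul, Nat.cast_mul, Nat.cast_sub hth2]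
    push_cast
    ring
  have ht3 : ((mkP c).t3 : ℝ) = 4 * (20 - (c.th : ℝ)) ^ 2 := by
    change ((4 * ((20 - c.th) * (20 - c.th)) : ℕ) : ℝ) = _
    rw [Nat.cast_mul, Nat.cast_mul, Nat.cast_sub hth2]
    push_cast
    ring
  rw [ht1, ht2, ht3] at hPie
  rw [← hcs]
  refine hPTW W L r.z l.zj l hline gs cs hcsl ((mu : ℝ) / 10000) c.th c.m1 c.m2 pc.sq A B n y
    (bet c yl yu s A B y) v γ R Y M (pc.a : ℝ) (pc.b : ℝ) hc.th hn0 hadm (by linarith) (by linarith) hdz1 hdz0 hdzc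
    (M_lower mu c.m1 c.A1 c.B1 A B M hc.m1 hAB.a1 hAB.b1 hA0 hB0 hadm.M1)
    (M_upper mu c.m2 c.A2 c.B2 A B M v hc.m2 hAB.a2 hAB.b2 hA0 hB0 hadm.M2) hsq _ hD ?_
  intro om r' o N δ hplg ho hN1 hN2 hδ
  exact hPie om (384 * v) (384 * (v + 3 * γ ^ 2)) r' γ o N δ hV1 hV2 hplg (by ring) ho hN1 hN2 hδ

end Pool.Agent.Lib.MP_084b88_gt.QV
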