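import Pool.Agent.Lib.MP_084b88_gt.QV.SpecC

/-!
# MP_084b88_gt, project QV, module SPC: the piece and the line of a point
-/

set_option autoImplicit false

open MeasureTheory Set Real

namespace Pool.Agent.Lib.MP_084b88_gt.QV

open Pool.Agent.Lib.MP_084b88_gt.CT (ifle)

namespace SPCM

theorem ifle_le {α : Type} {a b : ℕ} (x y : α) (h : a ≤ b) : ifle a b x y = x := by
  have h1 : Nat.ble a b = true := Nat.ble_eq_true_of_le h
  unfold ifle
  rw [h1]

theorem ifle_gt {α : Type} {a b : ℕ} (x y : α) (h : b < a) : ifle a b x y = y := by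
  have h1 : Nat.ble a b = false := by
    cases h2 : Nat.ble a b
    · rfl
    · exact absurd (Nat.le_of_ble_eq_true h2) (not_le.2 h)
  unfold ifle
  rw [h1]

theorem andb_true {a b : Bool} (h : andb a b = true) : a = true ∧ b = true := by
  cases a
  · exact absurd h (by unfold andb; simp)
  · exact ⟨rfl, h⟩

theorem fnd_true (zb : ℕ) (k : Ln → Bool) : ∀ l : List Ln, fnd zb k l = true →
    ∃ x ∈ l, zb ≤ x.zj * 100663296 ∧ k x = true := by
  intro l
  induction l with
  | nil =>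
    intro h
    exact absurd h (by unfold fnd; simp)
  | cons x t ih =>
    intro h
    have h1 : ifle zb (Nat.mul x.zj 100663296) (k x) (fnd zb k t) = true := h
    by_cases h2 : zb ≤ Nat.mul x.zj 100663296
    · rw [ifle_le _ _ h2] at h1
      exact ⟨x, List.mem_cons_self, h2, h1⟩
    · rw [ifle_gt _ _ (not_le.1 h2)] at h1
      obtain ⟨y, hy, h3⟩ := ih h1
      exact ⟨y, List.mem_cons_of_mem _ hy, h3⟩

theorem drp_true (za : ℕ) (cont : Row → List Row → Bool) (Rows : List Row) (t : ℝ) (hza : (za : ℝ) ≤ t) :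
    ∀ (l : List Row) (r0 : Row), (∀ r ∈ r0 :: l, r ∈ Rows) → (r0.z : ℝ) * 100663296 ≤ t →
      drp za cont l r0 = true →
      ∃ (r : Row) (rs : List Row), (∀ r' ∈ r :: rs, r' ∈ Rows) ∧ (r.z : ℝ) * 100663296 ≤ t ∧ cont r rs = true := by
  intro l
  induction l with
  | nil =>
    intro r0 hm hz h
    exact ⟨r0, [], hm, hz, h⟩
  | cons r1 s ih =>
    intro r0 hm hz h
    have h1 : ifle (Nat.mul r1.z 100663296) za (drp za cont s r1) (cont r0 (r1 :: s)) = true := h
    by_cases h2 : Nat.mul r1.z 100663296 ≤ za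
    · rw [ifle_le _ _ h2] at h1
      refine ih r1 (fun r hr => hm r (List.mem_cons_of_mem _ hr)) ?_ h1
      have h3 : ((r1.z * 100663296 : ℕ) : ℝ) ≤ (za : ℝ) := Nat.cast_le.2 h2
      push_cast at h3
      exact h3.trans hza
    · rw [ifle_gt _ _ (not_le.1 h2)] at h1
      exact ⟨r0, r1 :: s, hm, hz, h1⟩

theorem pieces_true (p : Pay) (nmin nmax : ℕ) (us : List Lan) (N : ℕ) (ds : List ℕ) (Rows : List Row) (n V : ℝ)
    (h1 : (nmin : ℝ) ≤ n) (h2 : n ≤ (nmax : ℝ)) (hV0 : 192 ≤ V) (hV : V ≤ 384) (h3 : 25769803776 ≤ n * V)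
    (h4 : 49 * (n * V) ≤ 2 ^ 28 * 384 * 10000) :
    ∀ (ps : List Pc) (x : ℕ) (r0 : Row) (rs : List Row), ChP ps x → x < 384 → (x : ℝ) ≤ V →
      (∀ r ∈ r0 :: rs, r ∈ Rows) → (r0.z : ℝ) * 100663296 ≤ n * V →
      pieces p nmin nmax us N ds ps r0 rs = true →
      ∃ c ∈ ps, ∃ r ∈ Rows, ∃ l ∈ r.l, (c.a : ℝ) ≤ V ∧ V ≤ (c.b : ℝ) ∧
        pie p c l us N ds (nmax * c.b) = true ∧
        (r.z : ℝ) * 100663296 ≤ n * V ∧ n * V ≤ (l.zj : ℝ) * 100663296 := by
  have hVp : 0 < V := by linarith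
  have hn : 0 ≤ n := (Nat.cast_nonneg _).trans h1
  intro ps
  induction ps with
  | nil =>
    intro x r0 rs hch hx _ _ _ _
    have : x = 384 := hch
    omega
  | cons c t ih =>
    intro x r0 rs hch hx hxV hm hz hp
    obtain ⟨ha, hab, hcht⟩ : c.a = x ∧ c.a < c.b ∧ ChP t c.b := hch
    have haV : (c.a : ℝ) ≤ V := by rw [ha]; exact hxV
    have hmin : ((nmin * c.a : ℕ) : ℝ) ≤ n * V := by
      push_cast
      exact mul_le_mul h1 haV (Nat.cast_nonneg _) hn
    have hp1 : ifle 25769803776 (Nat.mul nmax c.b)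
      (ifle (Nat.mul nmin c.a) 21036574511020
        (drp (Nat.mul nmin c.a) (fun r0 rs =>
          andb (fnd (zcl (Nat.mul nmax c.b)) (fun l => pie p c l us N ds (Nat.mul nmax c.b)) r0.l)
            (pieces p nmin nmax us N ds t r0 rs)) rs r0)
        true)
      (pieces p nmin nmax us N ds t r0 rs) = true := hp
    have hlast : V ≤ (c.b : ℝ) ∨ (c.b : ℝ) < V := le_or_gt _ _
    have hbx : (c.b : ℝ) < V → c.b < 384 := by
      intro h
      have : (c.b : ℝ) < (384 : ℕ) := by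
        push_cast
        linarith
      exact_mod_cast this
    have hsec : Nat.mul nmin c.a ≤ 21036574511020 := by
      by_contra hcon
      have h5 : 21036574511021 ≤ nmin * c.a := by
        have : ¬ nmin * c.a ≤ 21036574511020 := hcon
        omega
      have h6 : ((21036574511021 : ℕ) : ℝ) ≤ ((nmin * c.a : ℕ) : ℝ) := Nat.cast_le.2 h5
      have h7 : ((21036574511021 : ℕ) : ℝ) = 21036574511021 := by norm_num
      rw [h7] at h6
      have h8 : (21036574511021 : ℝ) ≤ n * V := h6.trans hmin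
      norm_num at h4
      linarith
    rcases hlast with hb | hb
    · -- the piece of `V`
      have hmax : n * V ≤ ((nmax * c.b : ℕ) : ℝ) := by
        push_cast
        exact mul_le_mul h2 hb hVp.le (Nat.cast_nonneg _)
      have hfst : 25769803776 ≤ Nat.mul nmax c.b := by
        by_contra hcon
        have h5 : nmax * c.b < 25769803776 := not_le.1 hcon
        have h6 : ((nmax * c.b : ℕ) : ℝ) < ((25769803776 : ℕ) : ℝ) := Nat.cast_lt.2 h5
        have h7 : ((25769803776 : ℕ) : ℝ) = 25769803776 := by norm_num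
        rw [h7] at h6
        linarith
      rw [ifle_le _ _ hfst, ifle_le _ _ hsec] at hp1
      obtain ⟨r, rs', hm', hz', hc'⟩ := drp_true (Nat.mul nmin c.a) _ Rows (n * V) hmin rs r0 hm hz hp1
      obtain ⟨hf, -⟩ := andb_true hc'
      obtain ⟨l, hl, hzl, hk⟩ := fnd_true _ _ _ hf
      refine ⟨c, List.mem_cons_self, r, hm' r List.mem_cons_self, l, hl, haV, hb, hk, hz', ?_⟩
      have hzc : n * V ≤ ((zcl (Nat.mul nmax c.b) : ℕ) : ℝ) := by
        unfold zcl
        by_cases h9 : Nat.mul nmax c.b ≤ 21036615598080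
        · rw [ifle_le _ _ h9]
          exact hmax
        · rw [ifle_gt _ _ (not_le.1 h9)]
          have h7 : ((21036615598080 : ℕ) : ℝ) = 21036615598080 := by norm_num
          rw [h7]
          norm_num at h4
          linarith
      have h10 : ((zcl (Nat.mul nmax c.b) : ℕ) : ℝ) ≤ ((l.zj * 100663296 : ℕ) : ℝ) := Nat.cast_le.2 hzl
      push_cast at h10
      exact hzc.trans h10
    · -- a later piece
      have hb384 := hbx hb
      by_cases hfst : 25769803776 ≤ Nat.mul nmax c.b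
      · rw [ifle_le _ _ hfst, ifle_le _ _ hsec] at hp1
        obtain ⟨r, rs', hm', hz', hc'⟩ := drp_true (Nat.mul nmin c.a) _ Rows (n * V) hmin rs r0 hm hz hp1
        obtain ⟨-, hrest⟩ := andb_true hc'
        obtain ⟨c', hc1, hc2⟩ := ih c.b r rs' hcht hb384 hb.le hm' hz' hrest
        exact ⟨c', List.mem_cons_of_mem _ hc1, hc2⟩
      · rw [ifle_gt _ _ (not_le.1 hfst)] at hp1
        obtain ⟨c', hc1, hc2⟩ := ih c.b r0 rs hcht hb384 hb.le hm hz hp1
        exact ⟨c', List.mem_cons_of_mem _ hc1, hc2⟩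

end SPCM

open SPCM in
/-- **SPC**. -/
theorem specSPC : SpecSPC := by
  intro p nmin nmax us N ds ps K0 K hch hK0 hp n V h1 h2 hV0 hV h3 h4
  have hz : (K0.z : ℝ) * 100663296 ≤ n * V := by
    have h5 : ((K0.z : ℕ) : ℝ) ≤ ((256 : ℕ) : ℝ) := Nat.cast_le.2 hK0
    have h6 : ((256 : ℕ) : ℝ) = 256 := by norm_num
    rw [h6] at h5
    nlinarith
  have h192 : ((192 : ℕ) : ℝ) ≤ V := by
    push_cast
    exact hV0
  exact pieces_true p nmin nmax us N ds (K0 :: K) n V h1 h2 hV0 hV h3 h4 ps 192 K0 K hch (by norm_num) h192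
    (fun r hr => hr) hz hp

end Pool.Agent.Lib.MP_084b88_gt.QV
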