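import Pool.Agent.Lib.MP_084b88_gt.QV.PvT

/-!
# MP_084b88_gt, project QV, module TBC: the table of the pieces is correct (kernel computation)
-/

set_option autoImplicit false
set_option maxRecDepth 100000

open Finset

namespace Pool.Agent.Lib.MP_084b88_gt.QV

namespace TBCM

/-- Horner sum of the slots. -/
def hor (t : ℕ → ℤ) : ℕ → ℕ → ℤ
  | 0, _ => 0
  | n + 1, s => t s + hor t n (s + 1) * (B8 : ℤ)

/-- The check of the packed columns. -/
noncomputable def ckT (q : PV) (S : ℕ) : List ℕ → ℕ → Bool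
  | [], j => decide (j = 23)
  | T :: l, j => decide ((T : ℤ) = hor (slt q j) S 0 + (EN S : ℤ)) && ckT q S l (j + 1)

/-- Weighted sum of the absolute values of a slot. -/
def bsum (q : PV) (s : ℕ) : List ℕ → ℕ → ℕ
  | [], _ => 0
  | d :: l, j => d * (slt q j s).natAbs + bsum q s l (j + 1)

/-- The check of the bounds. -/
def ckB (q : PV) : ℕ → Bool
  | 0 => true
  | n + 1 => decide (bsum q n Dmx 0 + 3 * 227994731135631360000000 * 2 ^ 25 < 2 ^ 127) && ckB q n

theorem B8_eq : B8 = BS ^ 8 := by decide +kernel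

theorem EN_eq (S : ℕ) : EN S = BS ^ (8 * S) := by
  unfold EN
  rw [Nat.pow_eq, B8_eq, pow_mul]

theorem hor_eq (t : ℕ → ℤ) : ∀ n s : ℕ, hor t n s = ∑ i ∈ range n, t (s + i) * (BS : ℤ) ^ (8 * i) := by
  intro n
  induction n with
  | zero => intro s; simp [hor]
  | succ n ih =>
    intro s
    rw [hor, ih (s + 1), Finset.sum_range_succ', Finset.sum_mul, add_comm]
    congr 1
    · refine Finset.sum_congr rfl fun i _ => ?_
      rw [B8_eq]
      push_cast
      rw [show s + 1 + i = s + (i + 1) by ring, mul_assoc, ← pow_add]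
      rfl
    · simp

theorem ckT_sound (q : PV) (S E : ℕ) (hE : E = EN S) : ∀ (l : List ℕ) (j : ℕ), ckT q S l j = true →
    List.Forall₂ (fun (T : ℕ) (t : ℕ → ℤ) => ∃ k : ℤ, (T : ℤ) = ∑ s ∈ range S, t s * (BS : ℤ) ^ (8 * s) + k * (E : ℤ))
      l ((List.range' j l.length).map (slt q)) ∧ j + l.length = 23 := by
  intro l
  induction l with
  | nil =>
    intro j h
    rw [ckT, decide_eq_true_eq] at h
    exact ⟨by simp, by simpa using h⟩
  | cons T l ih =>
    intro j h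
    rw [ckT, Bool.and_eq_true, decide_eq_true_eq] at h
    obtain ⟨h1, h2⟩ := h
    obtain ⟨h3, h4⟩ := ih (j + 1) h2
    refine ⟨?_, by rw [List.length_cons]; omega⟩
    rw [List.length_cons, List.range'_succ, List.map_cons]
    refine List.Forall₂.cons ⟨1, ?_⟩ h3
    rw [h1, hor_eq, hE, one_mul]
    simp only [zero_add]

theorem bsum_eq (q : PV) (s : ℕ) : ∀ (l : List ℕ) (j : ℕ),
    (List.zipWith (fun (d : ℕ) (j : ℕ) => (d : ℤ) * |slt q j s|) l (List.range' j l.length)).sum = (bsum q s l j : ℤ) := by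
  intro l
  induction l with
  | nil => intro j; simp [bsum]
  | cons d l ih =>
    intro j
    rw [List.length_cons, List.range'_succ, List.zipWith_cons_cons, List.sum_cons, ih (j + 1), bsum]
    push_cast
    rfl

theorem ckB_sound (q : PV) : ∀ n : ℕ, ckB q n = true → ∀ s < n,
    (List.zipWith (fun (d : ℕ) (j : ℕ) => (d : ℤ) * |slt q j s|) Dmx (List.range 23)).sum + kc0 < 2 ^ 127 := by
  intro n
  induction n with
  | zero => intro _ s hs; exact absurd hs (Nat.not_lt_zero s)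
  | succ n ih =>
    intro h s hs
    rw [ckB, Bool.and_eq_true, decide_eq_true_eq] at h
    obtain ⟨h1, h2⟩ := h
    rcases Nat.lt_succ_iff_lt_or_eq.1 hs with h3 | h3
    · exact ih h2 s h3
    · subst h3
      have e := bsum_eq q s Dmx 0
      have hl : Dmx.length = 23 := rfl
      rw [hl, ← List.range_eq_range'] at e
      rw [e]
      have h4 : ((bsum q s Dmx 0 + 3 * 227994731135631360000000 * 2 ^ 25 : ℕ) : ℤ) < ((2 ^ 127 : ℕ) : ℤ) := by
        exact_mod_cast h1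
      have h5 : kc0 = ((3 * 227994731135631360000000 * 2 ^ 25 : ℕ) : ℤ) := by
        unfold kc0; norm_num
      rw [h5, ← Nat.cast_add]
      have h6 : ((2 ^ 127 : ℕ) : ℤ) = 2 ^ 127 := by norm_num
      rw [← h6]
      exact h4

theorem onN_eq (S : ℕ) : onN S = ons (8 * S) := by
  have h1 : 1 ≤ BS := by decide +kernel
  have h2 : 0 < BS - 1 := by decide +kernel
  have h3 : ∀ m : ℕ, ons m * (BS - 1) + 1 = BS ^ m := by
    intro m
    unfold ons
    have := Nat.geomSum_eq (m := BS) (by decide +kernel) m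
    rw [this, Nat.div_mul_cancel (Nat.sub_one_dvd_pow_sub_one _ _)]
    exact Nat.sub_add_cancel (Nat.one_le_pow _ _ h1)
  unfold onN
  rw [EN_eq]
  show (BS ^ (8 * S) - 1) / (BS - 1) = ons (8 * S)
  rw [← h3 (8 * S), Nat.add_sub_cancel, Nat.mul_div_cancel _ h2]

theorem mkOK (c : Pc) (q : PV) (S : ℕ) (hS : 16 * q.nds.length = S) (ha : (c.a : ℤ) = q.a) (hb : (c.b : ℤ) = q.b)
    (h1 : 192 ≤ c.a ∧ c.b ≤ 384 ∧ c.a < c.b ∧ 1048576 * c.b ≤ c.sq ^ 2 * 384 ∧ c.hs = (c.b - c.a) * (2 ^ 28 * 1171875))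
    (hne : ∃ x0 y0 t, q.nds = x0 :: y0 :: t ∧ GPok q.D x0 (y0 :: t) q.ls ∧ x0.xa = q.a ∧ x0.xb = q.b ∧
      (((lastN x0 (y0 :: t)).xa = 3 * q.a - 384 ∧ (lastN x0 (y0 :: t)).xb = 3 * q.b - 384) ∨
        ((lastN x0 (y0 :: t)).xa = 384 ∧ (lastN x0 (y0 :: t)).xb = 384)))
    (hE : c.E = EN S) (hM : c.M = Nat.mul 170141183460469231731687303715884105728 (onN S))
    (hK : c.K = Nat.mul 170141206411170338478163042278444105728 (onN S))
    (hT : ckT q S c.T 0 = true) (hB : ckB q S = true) : PcOK c q := by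
  subst hS
  obtain ⟨ht1, ht2⟩ := ckT_sound q (16 * q.nds.length) c.E hE c.T 0 hT
  rw [zero_add] at ht2
  rw [ht2, ← List.range_eq_range'] at ht1
  refine ⟨ha, hb, h1.1, h1.2.1, h1.2.2.1, h1.2.2.2.1, h1.2.2.2.2, hne, ⟨?_, ?_, ?_, ht1⟩, ckB_sound q _ hB⟩
  · rw [hE, EN_eq]
  · rw [hM, onN_eq]
    rfl
  · rw [hK, onN_eq]
    have h5 : kc0 + 2 ^ 127 = ((170141206411170338478163042278444105728 : ℕ) : ℤ) := by
      unfold kc0; norm_num
    rw [h5]
    show ((170141206411170338478163042278444105728 * ons (8 * (16 * q.nds.length)) : ℕ) : ℤ) = _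
    rw [Nat.cast_mul]

/-- Piece 0. -/
def pv0 : PV := ⟨192, 203, 121,
    [⟨192, 203, 15886848, 14944148, -91⟩,
     ⟨192, 225, 15886848, 13058748, -80⟩],
    [(85700, 84222)]⟩

theorem ok0 : PcOK pc0 pv0 := by
  refine mkOK pc0 pv0 32 rfl rfl rfl (by unfold pc0; norm_num) ?_ rfl rfl rfl (by decide +kernel) (by decide +kernel)
  refine ⟨_, _, _, rfl, ?_, rfl, rfl, Or.inl ⟨by norm_num [lastN, pv0], by norm_num [lastN, pv0]⟩⟩
  norm_num [pv0, GPok, rup, lines5]

/-- Piece 1. -/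
def pv1 : PV := ⟨203, 216, 381,
    [⟨203, 216, 14944148, 13830048, -79⟩,
     ⟨225, 225, 13058748, 13058748, -63⟩,
     ⟨225, 264, 13051548, 8430048, -44⟩],
    [(85700, 84222), (118500, 103422)]⟩

theorem ok1 : PcOK pc1 pv1 := by
  refine mkOK pc1 pv1 48 rfl rfl rfl (by unfold pc1; norm_num) ?_ rfl rfl rfl (by decide +kernel) (by decide +kernel)
  refine ⟨_, _, _, rfl, ?_, rfl, rfl, Or.inl ⟨by norm_num [lastN, pv1], by norm_num [lastN, pv1]⟩⟩
  norm_num [pv1, GPok, rup, lines5]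

/-- Piece 2. -/
def pv2 : PV := ⟨216, 225, 381,
    [⟨216, 225, 13830048, 13058748, -68⟩,
     ⟨225, 225, 13058748, 13058748, -63⟩,
     ⟨264, 264, 8461248, 8461248, -24⟩,
     ⟨264, 291, 8461248, 3639048, -11⟩],
    [(85700, 84222), (118500, 103422), (178600, 144822)]⟩

theorem ok2 : PcOK pc2 pv2 := by
  refine mkOK pc2 pv2 64 rfl rfl rfl (by unfold pc2; norm_num) ?_ rfl rfl rfl (by decide +kernel) (by decide +kernel)
  refine ⟨_, _, _, rfl, ?_, rfl, rfl, Or.inl ⟨by norm_num [lastN, pv2], by norm_num [lastN, pv2]⟩⟩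
  norm_num [pv2, GPok, rup, lines5]

/-- Piece 3. -/
def pv3 : PV := ⟨225, 233, 651,
    [⟨225, 233, 13051548, 12103548, -59⟩,
     ⟨264, 264, 8461248, 8461248, -24⟩,
     ⟨291, 315, 3639048, -647352, 15⟩],
    [(118500, 103422), (178600, 144822)]⟩

theorem ok3 : PcOK pc3 pv3 := by
  refine mkOK pc3 pv3 48 rfl rfl rfl (by unfold pc3; norm_num) ?_ rfl rfl rfl (by decide +kernel) (by decide +kernel)
  refine ⟨_, _, _, rfl, ?_, rfl, rfl, Or.inl ⟨by norm_num [lastN, pv3], by norm_num [lastN, pv3]⟩⟩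
  norm_num [pv3, GPok, rup, lines5]

/-- Piece 4. -/
def pv4 : PV := ⟨233, 247, 651,
    [⟨233, 247, 12103548, 10444548, -48⟩,
     ⟨264, 264, 8461248, 8461248, -24⟩,
     ⟨315, 315, -647352, -647352, 27⟩,
     ⟨315, 357, -664452, -12269052, 48⟩],
    [(118500, 103422), (178600, 144822), (276300, 224922)]⟩

theorem ok4 : PcOK pc4 pv4 := by
  refine mkOK pc4 pv4 64 rfl rfl rfl (by unfold pc4; norm_num) ?_ rfl rfl rfl (by decide +kernel) (by decide +kernel)
  refine ⟨_, _, _, rfl, ?_, rfl, rfl, Or.inl ⟨by norm_num [lastN, pv4], by norm_num [lastN, pv4]⟩⟩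
  norm_num [pv4, GPok, rup, lines5]

/-- Piece 5. -/
def pv5 : PV := ⟨247, 256, 651,
    [⟨247, 256, 10444548, 9378048, -37⟩,
     ⟨264, 264, 8461248, 8461248, -24⟩,
     ⟨315, 315, -647352, -647352, 27⟩,
     ⟨357, 357, -12269052, -12269052, 69⟩,
     ⟨357, 384, -12288552, -23914752, 82⟩],
    [(118500, 103422), (178600, 144822), (276300, 224922), (430600, 368322)]⟩

theorem ok5 : PcOK pc5 pv5 := by
  refine mkOK pc5 pv5 80 rfl rfl rfl (by unfold pc5; norm_num) ?_ rfl rfl rfl (by decide +kernel) (by decide +kernel)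
  refine ⟨_, _, _, rfl, ?_, rfl, rfl, Or.inl ⟨by norm_num [lastN, pv5], by norm_num [lastN, pv5]⟩⟩
  norm_num [pv5, GPok, rup, lines5]

/-- Piece 6. -/
def pv6 : PV := ⟨256, 264, 651,
    [⟨256, 264, 9378048, 8430048, -28⟩,
     ⟨264, 264, 8461248, 8461248, -24⟩,
     ⟨315, 315, -647352, -647352, 27⟩,
     ⟨357, 357, -12269052, -12269052, 69⟩,
     ⟨384, 384, -23914752, -23914752, 96⟩],
    [(118500, 103422), (178600, 144822), (276300, 224922), (430600, 368322)]⟩

theorem ok6 : PcOK pc6 pv6 := by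
  refine mkOK pc6 pv6 80 rfl rfl rfl (by unfold pc6; norm_num) ?_ rfl rfl rfl (by decide +kernel) (by decide +kernel)
  refine ⟨_, _, _, rfl, ?_, rfl, rfl, Or.inr ⟨by norm_num [lastN], by norm_num [lastN]⟩⟩
  norm_num [pv6, GPok, rup, lines5]

/-- Piece 7. -/
def pv7 : PV := ⟨264, 282, 651,
    [⟨264, 282, 8461248, 5246448, -15⟩,
     ⟨315, 315, -647352, -647352, 27⟩,
     ⟨357, 357, -12269052, -12269052, 69⟩,
     ⟨384, 384, -23914752, -23914752, 96⟩],
    [(178600, 144822), (276300, 224922), (430600, 368322)]⟩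

theorem ok7 : PcOK pc7 pv7 := by
  refine mkOK pc7 pv7 64 rfl rfl rfl (by unfold pc7; norm_num) ?_ rfl rfl rfl (by decide +kernel) (by decide +kernel)
  refine ⟨_, _, _, rfl, ?_, rfl, rfl, Or.inr ⟨by norm_num [lastN], by norm_num [lastN]⟩⟩
  norm_num [pv7, GPok, rup, lines5]

/-- Piece 8. -/
def pv8 : PV := ⟨282, 298, 441,
    [⟨282, 298, 5246448, 2388848, 2⟩,
     ⟨315, 315, -647352, -647352, 27⟩,
     ⟨357, 357, -12269052, -12269052, 69⟩,
     ⟨384, 384, -23914752, -23914752, 96⟩],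
    [(178600, 144822), (276300, 224922), (430600, 368322)]⟩

theorem ok8 : PcOK pc8 pv8 := by
  refine mkOK pc8 pv8 64 rfl rfl rfl (by unfold pc8; norm_num) ?_ rfl rfl rfl (by decide +kernel) (by decide +kernel)
  refine ⟨_, _, _, rfl, ?_, rfl, rfl, Or.inr ⟨by norm_num [lastN], by norm_num [lastN]⟩⟩
  norm_num [pv8, GPok, rup, lines5]

/-- Piece 9. -/
def pv9 : PV := ⟨298, 315, 441,
    [⟨298, 315, 2388848, -647352, 18⟩,
     ⟨315, 315, -647352, -647352, 27⟩,
     ⟨357, 357, -12269052, -12269052, 69⟩,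
     ⟨384, 384, -23914752, -23914752, 96⟩],
    [(178600, 144822), (276300, 224922), (430600, 368322)]⟩

theorem ok9 : PcOK pc9 pv9 := by
  refine mkOK pc9 pv9 64 rfl rfl rfl (by unfold pc9; norm_num) ?_ rfl rfl rfl (by decide +kernel) (by decide +kernel)
  refine ⟨_, _, _, rfl, ?_, rfl, rfl, Or.inr ⟨by norm_num [lastN], by norm_num [lastN]⟩⟩
  norm_num [pv9, GPok, rup, lines5]

/-- Piece 10. -/
def pv10 : PV := ⟨315, 336, 441,
    [⟨315, 336, -664452, -6466752, 37⟩,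
     ⟨357, 357, -12269052, -12269052, 69⟩,
     ⟨384, 384, -23914752, -23914752, 96⟩],
    [(276300, 224922), (430600, 368322)]⟩

theorem ok10 : PcOK pc10 pv10 := by
  refine mkOK pc10 pv10 48 rfl rfl rfl (by unfold pc10; norm_num) ?_ rfl rfl rfl (by decide +kernel) (by decide +kernel)
  refine ⟨_, _, _, rfl, ?_, rfl, rfl, Or.inr ⟨by norm_num [lastN], by norm_num [lastN]⟩⟩
  norm_num [pv10, GPok, rup, lines5]

/-- Piece 11. -/
def pv11 : PV := ⟨336, 357, 183,
    [⟨336, 357, -6466752, -12269052, 58⟩,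
     ⟨357, 357, -12269052, -12269052, 69⟩,
     ⟨384, 384, -23914752, -23914752, 96⟩],
    [(276300, 224922), (430600, 368322)]⟩

theorem ok11 : PcOK pc11 pv11 := by
  refine mkOK pc11 pv11 48 rfl rfl rfl (by unfold pc11; norm_num) ?_ rfl rfl rfl (by decide +kernel) (by decide +kernel)
  refine ⟨_, _, _, rfl, ?_, rfl, rfl, Or.inr ⟨by norm_num [lastN], by norm_num [lastN]⟩⟩
  norm_num [pv11, GPok, rup, lines5]

/-- Piece 12. -/
def pv12 : PV := ⟨357, 384, 183,
    [⟨357, 384, -12288552, -23914752, 82⟩,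
     ⟨384, 384, -23914752, -23914752, 96⟩],
    [(430600, 368322)]⟩

theorem ok12 : PcOK pc12 pv12 := by
  refine mkOK pc12 pv12 32 rfl rfl rfl (by unfold pc12; norm_num) ?_ rfl rfl rfl (by decide +kernel) (by decide +kernel)
  refine ⟨_, _, _, rfl, ?_, rfl, rfl, Or.inr ⟨by norm_num [lastN], by norm_num [lastN]⟩⟩
  norm_num [pv12, GPok, rup, lines5]

end TBCM

open TBCM in
theorem specTBC : SpecTBC := by
  unfold SpecTBC pcs pvs
  exact .cons ok0 (.cons ok1 (.cons ok2 (.cons ok3 (.cons ok4 (.cons ok5 (.cons ok6 (.cons ok7 (.cons ok8 (.cons ok9 (.cons ok10 (.cons ok11 (.cons ok12 (.nil)))))))))))))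

end Pool.Agent.Lib.MP_084b88_gt.QV
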