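import Pool.Agent.Lib.MP_084b88_gt.QV.SpecD

/-!
# MP_084b88_gt, project QV, module TBF: the tables
-/

set_option autoImplicit false

open MeasureTheory Set Real

namespace Pool.Agent.Lib.MP_084b88_gt.QV

open Pool.Agent.Lib.MP_084b88_gt.CW Pool.Agent.Lib.MP_084b88_gt.SY Pool.Agent.Lib.MP_084b88_gt.LG
open Pool.Agent.Lib.MP_084b88_gt.AY

/-- **TBF**. -/
theorem specTBF (hKNT : SpecKNT) (hLNS : SpecLNS) : SpecTBF := by
  intro OM LA cs ss ks ps rows hrt hsg hk ht h0 hp hch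
  refine ⟨hp, hch, hLNS _ _ ks rows (hKNT OM LA ss ks hsg hk) ht, h0, fun z h1 h2 => ?_⟩
  exact rt_JQ hrt h1 (lt_of_le_of_lt h2 (by norm_num))

end Pool.Agent.Lib.MP_084b88_gt.QV
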