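import Pool.Agent.Lib.MP_084b88_gt.QV.GLU
import Pool.Agent.Lib.MP_084b88_gt.QV.ALC
import Pool.Agent.Lib.MP_084b88_gt.QV.FIN
import Pool.Agent.Lib.MP_084b88_gt.QV.SEC
import Pool.Agent.Lib.MP_084b88_gt.QV.SPC
import Pool.Agent.Lib.MP_084b88_gt.QV.PIE
import Pool.Agent.Lib.MP_084b88_gt.QV.LNC
import Pool.Agent.Lib.MP_084b88_gt.QV.POL
import Pool.Agent.Lib.MP_084b88_gt.QV.PTW
import Pool.Agent.Lib.MP_084b88_gt.QV.INT
import Pool.Agent.Lib.MP_084b88_gt.QV.TRU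
import Pool.Agent.Lib.MP_084b88_gt.QV.TBF
import Pool.Agent.Lib.MP_084b88_gt.QV.TBC
import Pool.Agent.Lib.MP_084b88_gt.QV.KNT
import Pool.Agent.Lib.MP_084b88_gt.QV.LNS

/-!
# MP_084b88_gt, project QV, module FDA: the statement from the data (text of helper43)
-/

set_option autoImplicit false

open MeasureTheory Set Real
open scoped Pointwise

namespace Pool.Agent.Lib.MP_084b88_gt.QV

open Pool.Agent.Lib.MP_084b88_gt.CW Pool.Agent.Lib.MP_084b88_gt.SY Pool.Agent.Lib.MP_084b88_gt.LG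
open Pool.Agent.Lib.MP_084b88_gt.AY

theorem aFIN : QV.SpecFIN := specFIN (specSEC specSPC (specPIE (specLNC specPOL)) specPTW) specINT

theorem aTBF : SpecTBF := specTBF specKNT specLNS

theorem f2 {α β : Type} {R : α → β → Prop} : ∀ (l : List α) (m : List β), List.Forall₂ R l m → ∀ c ∈ l, ∃ q, R c q := by
  intro l m hlm
  induction hlm with
  | nil => intro c hc; simp at hc
  | cons h _ ih =>
    intro c hc
    rcases List.mem_cons.1 hc with rfl | hc
    · exact ⟨_, h⟩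
    · exact ih c hc

/-- The statement for all convex bodies, from the data. -/
theorem fromData {OM LA : List (ℚ × ℚ)} {p : AY.RP} {cs rts : List RC} (hct : Cts) (hrg : rgOK OM LA p cs = true)
    (hrt : rtOK OM LA rts = true) (hC : p.C = 52 / 1000) (hl : p.l = -(75 / 1000)) (hm : p.m = 3 / 1000)
    (hq : 0 < p.q) (hA : 1 / 4 * (1 + p.q) ≤ p.q * p.A0) (hB : p.q * p.B0 ≤ 1 / 2 * (1 + p.q))
    {ss : List Sg} {ks : List Kt} {rows : List Row} (hsg : sgs OM LA ss = true)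
    (hk : kck ks ss = true) (ht : tck ks rows = true) (h0 : ∀ r ∈ rows.head?, r.z ≤ 256) (hch : ChP pcs 192)
    {mu a0 b0 : ℕ} (hmu : p.mu = (mu : ℚ) / 10000) {rs : List Rc} (hG : AllG pcs rows (wtOf gsF) mu 6 rs) (t : Tr)
    (htr : trk a0 b0 rs t false 64 104490 64 104490 = true)
    (hA0 : 256 * (p.A0 : ℝ) ≤ (a0 : ℝ)) (hB0 : (b0 : ℝ) ≤ 256 * (p.B0 : ℝ)) :
    ∀ (K : Set (EuclideanSpace ℝ (Fin 3))), Convex ℝ K → IsCompact K → (interior K).Nonempty →
    ∀ c : ℝ,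
    (∀ H : AffineSubspace ℝ (EuclideanSpace ℝ (Fin 3)),
        Module.finrank ℝ H.direction = 2 → (∃ x ∈ interior K, x ∈ H) →
        ∀ a1 a2 : ℝ,
          (∀ t : ℝ, 0 ≤ t →
            (volume ((K ∩ (H : Set (EuclideanSpace ℝ (Fin 3)))) +
              Metric.closedBall (0 : EuclideanSpace ℝ (Fin 3)) t)).toReal
              = 2 * a2 * t + Real.pi * a1 * t ^ 2 + 4 / 3 * Real.pi * t ^ 3) →
          c * a1 ^ 2 ≤ Real.pi * a2) →
    ∀ V1 V2 : ℝ,
      (∀ t : ℝ, 0 ≤ t →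
        (volume (K + Metric.closedBall (0 : EuclideanSpace ℝ (Fin 3)) t)).toReal
          = (volume K).toReal + 2 * V2 * t + Real.pi * V1 * t ^ 2 + 4 / 3 * Real.pi * t ^ 3) →
      4 * c * V2 ^ 2 ≤ 3 * Real.pi * V1 * (volume K).toReal := by
  have hmu0 : 0 ≤ p.mu := by rw [hmu]; positivity
  have hpc : ∀ c ∈ pcs, ∃ q, PcOK c q := f2 _ _ specTBC
  have hTb := aTBF OM LA rts ss ks pcs rows hrt hsg hk ht h0 hpc hch
  intro K hconv hcomp hint c hsec V1 V2 hst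
  refine finalF hct hrg hrt hC hl hm hmu0 hq hA hB ?_ K ⟨hconv, hcomp, hint.mono interior_subset⟩ hint c hsec V1 V2 hst
  intro hgs
  have e : ((p.mu : ℚ) : ℝ) = (mu : ℝ) / 10000 := by rw [hmu]; push_cast; rfl
  rw [e]
  exact covQ_of aFIN specTRU hTb gsF (by decide) hgs hG t htr hA0 hB0

end Pool.Agent.Lib.MP_084b88_gt.QV
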