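import Pool.Agent.Lib.MP_084b88_gt.QV.SpecB
import Pool.Agent.Lib.MP_084b88_gt.QV.Pcs

/-!
# MP_084b88_gt, project QV: the data behind the table of the pieces (generated), statement TBC
-/

set_option autoImplicit false

namespace Pool.Agent.Lib.MP_084b88_gt.QV

/-- The data of the pieces. -/
def pvs : List PV :=
  [
   ⟨192, 203, 121,
    [⟨192, 203, 15886848, 14944148, -91⟩,
     ⟨192, 225, 15886848, 13058748, -80⟩],
    [(85700, 84222)]⟩,
   ⟨203, 216, 381,
    [⟨203, 216, 14944148, 13830048, -79⟩,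
     ⟨225, 225, 13058748, 13058748, -63⟩,
     ⟨225, 264, 13051548, 8430048, -44⟩],
    [(85700, 84222), (118500, 103422)]⟩,
   ⟨216, 225, 381,
    [⟨216, 225, 13830048, 13058748, -68⟩,
     ⟨225, 225, 13058748, 13058748, -63⟩,
     ⟨264, 264, 8461248, 8461248, -24⟩,
     ⟨264, 291, 8461248, 3639048, -11⟩],
    [(85700, 84222), (118500, 103422), (178600, 144822)]⟩,
   ⟨225, 233, 651,
    [⟨225, 233, 13051548, 12103548, -59⟩,
     ⟨264, 264, 8461248, 8461248, -24⟩,
     ⟨291, 315, 3639048, -647352, 15⟩],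
    [(118500, 103422), (178600, 144822)]⟩,
   ⟨233, 247, 651,
    [⟨233, 247, 12103548, 10444548, -48⟩,
     ⟨264, 264, 8461248, 8461248, -24⟩,
     ⟨315, 315, -647352, -647352, 27⟩,
     ⟨315, 357, -664452, -12269052, 48⟩],
    [(118500, 103422), (178600, 144822), (276300, 224922)]⟩,
   ⟨247, 256, 651,
    [⟨247, 256, 10444548, 9378048, -37⟩,
     ⟨264, 264, 8461248, 8461248, -24⟩,
     ⟨315, 315, -647352, -647352, 27⟩,
     ⟨357, 357, -12269052, -12269052, 69⟩,
     ⟨357, 384, -12288552, -23914752, 82⟩],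
    [(118500, 103422), (178600, 144822), (276300, 224922), (430600, 368322)]⟩,
   ⟨256, 264, 651,
    [⟨256, 264, 9378048, 8430048, -28⟩,
     ⟨264, 264, 8461248, 8461248, -24⟩,
     ⟨315, 315, -647352, -647352, 27⟩,
     ⟨357, 357, -12269052, -12269052, 69⟩,
     ⟨384, 384, -23914752, -23914752, 96⟩],
    [(118500, 103422), (178600, 144822), (276300, 224922), (430600, 368322)]⟩,
   ⟨264, 282, 651,
    [⟨264, 282, 8461248, 5246448, -15⟩,
     ⟨315, 315, -647352, -647352, 27⟩,
     ⟨357, 357, -12269052, -12269052, 69⟩,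
     ⟨384, 384, -23914752, -23914752, 96⟩],
    [(178600, 144822), (276300, 224922), (430600, 368322)]⟩,
   ⟨282, 298, 441,
    [⟨282, 298, 5246448, 2388848, 2⟩,
     ⟨315, 315, -647352, -647352, 27⟩,
     ⟨357, 357, -12269052, -12269052, 69⟩,
     ⟨384, 384, -23914752, -23914752, 96⟩],
    [(178600, 144822), (276300, 224922), (430600, 368322)]⟩,
   ⟨298, 315, 441,
    [⟨298, 315, 2388848, -647352, 18⟩,
     ⟨315, 315, -647352, -647352, 27⟩,
     ⟨357, 357, -12269052, -12269052, 69⟩,
     ⟨384, 384, -23914752, -23914752, 96⟩],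
    [(178600, 144822), (276300, 224922), (430600, 368322)]⟩,
   ⟨315, 336, 441,
    [⟨315, 336, -664452, -6466752, 37⟩,
     ⟨357, 357, -12269052, -12269052, 69⟩,
     ⟨384, 384, -23914752, -23914752, 96⟩],
    [(276300, 224922), (430600, 368322)]⟩,
   ⟨336, 357, 183,
    [⟨336, 357, -6466752, -12269052, 58⟩,
     ⟨357, 357, -12269052, -12269052, 69⟩,
     ⟨384, 384, -23914752, -23914752, 96⟩],
    [(276300, 224922), (430600, 368322)]⟩,
   ⟨357, 384, 183,
    [⟨357, 384, -12288552, -23914752, 82⟩,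
     ⟨384, 384, -23914752, -23914752, 96⟩],
    [(430600, 368322)]⟩]

/-- **TBC** (200 lines). The table `pcs` is correct. `PkOK`: for every column the packed number is `pkT S tp tn` with
`tp s - tn s = slt q j s` (a kernel computation with integers over at most 80 slots and 23 columns), `pkS` is the packed value with base
`B8 = BS^8`; `onN S = ons (8 S)`. -/
def SpecTBC : Prop := List.Forall₂ PcOK pcs pvs

end Pool.Agent.Lib.MP_084b88_gt.QV
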