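import Mathlib
import Pool.Agent.Lib.MP_084b88_gt.QV.Defs

/-!
# MP_084b88_gt, project QV: soundness of the checker, first part (packing, V part)

Rules: file `QV/XXX.lean`, namespace `Pool.Agent.Lib.MP_084b88_gt.QV`, `theorem specXXX (hYYY : SpecYYY) .. : SpecXXX`, own lemmas in
the namespace `..QV.XXXM`.
-/

set_option autoImplicit false

open Finset

namespace Pool.Agent.Lib.MP_084b88_gt.QV

/-- `Σ_j d_j(l) t_j(s)`. -/
def dd (ds : List (ℕ → ℕ)) (ts : List (ℕ → ℤ)) (s l : ℕ) : ℤ :=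
  (List.zipWith (fun (d : ℕ → ℕ) (t : ℕ → ℤ) => (d l : ℤ) * t s) ds ts).sum

/-- The packed value of eight lanes. -/
def pv (d : ℕ → ℕ) : ℕ := ∑ l ∈ range 8, d l * BS ^ l

/-- `Σ_{i < m} BS^i`. -/
def ons (m : ℕ) : ℕ := ∑ i ∈ range m, BS ^ i

/-- The tables of the piece `c` are the packed values (modulo `E`) of the slot functions `ts` with `S` slots and the constant
`k0`. -/
structure PkOK (c : Pc) (S : ℕ) (k0 : ℤ) (ts : List (ℕ → ℤ)) : Prop where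
  E : c.E = BS ^ (8 * S)
  M : c.M = 2 ^ 127 * ons (8 * S)
  K : (c.K : ℤ) = (k0 + 2 ^ 127) * (ons (8 * S) : ℤ)
  T : List.Forall₂ (fun (T : ℕ) (t : ℕ → ℤ) => ∃ q : ℤ, (T : ℤ) = ∑ s ∈ range S, t s * (BS : ℤ) ^ (8 * s) + q * (c.E : ℤ)) c.T ts

/-- **PAK** (150 lines). The mask test. `Σ_j pv(d_j) T_j + K ≡ Σ_{s, l} (dd s l + k0 + 2^127) BS^(8 s + l)` modulo `E`, all digits are
in `[0, BS)` by the bound, so they are the digits of the remainder; `land` with the mask tests bit 127 of every digit. -/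
def SpecPAK : Prop :=
  ∀ (c : Pc) (S : ℕ) (k0 : ℤ) (ts : List (ℕ → ℤ)) (ds : List (ℕ → ℕ)), PkOK c S k0 ts → ds.length = ts.length →
    (∀ s < S, ∀ l < 8, |dd ds ts s l + k0| < 2 ^ 127) →
    tst c (dot (ds.map pv) c.T) = true →
    ∀ s < S, ∀ l < 8, 0 ≤ dd ds ts s l + k0

/-- **VPS** (150 lines). The V part at one lane and one `V`. The form is affine in `N` and in `δ`; at an end of `N`, with `X ≥ |A - B - t2 N + δ|`,
`ae ≥ X/16 > 0`, `hs P ≥ X^2/(4 ae) + t3 N`, `hs R + t1 N - s ≥ ae` it is a positive semidefinite form in `(γ, o)`. -/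
def SpecVPS : Prop :=
  ∀ (p : Pay) (hs m2 V : ℕ) (l : Ln) (u : Lan), 0 < hs → l.n1 * (u.n * V) ≤ l.na → l.na ≤ l.nb →
    u.bw * V ≤ u.aw * (384 + V) →
    ∀ N δ γ o : ℝ,
      (p.m1 : ℝ) * ((l.na : ℝ) - (l.n1 : ℝ) * ((u.n : ℝ) * (V : ℝ))) ≤ N →
      N ≤ (m2 : ℝ) * ((l.nb : ℝ) - (l.n1 : ℝ) * ((u.n : ℝ) * (V : ℝ))) →
      |δ| ≤ (l.dl : ℝ) →
      0 ≤ ((l.lmp : ℝ) - (l.lmn : ℝ) + ((l.l1p : ℝ) - (l.l1n : ℝ)) * ((u.n : ℝ) * (V : ℝ)) -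
          23 * ((u.aw : ℝ) * (384 + (V : ℝ)) - (u.bw : ℝ) * (V : ℝ)) - (p.t2 : ℝ) * N + δ) * (γ * o) +
        ((p.t1 : ℝ) * N - (l.e0 : ℝ) - ((u.aw : ℝ) * (384 + (V : ℝ)) - (u.bw : ℝ) * (V : ℝ))) * o ^ 2 -
        (p.t3 : ℝ) * N * γ ^ 2 +
        (hs : ℝ) * (PL p hs m2 V l u : ℝ) * γ ^ 2 + (hs : ℝ) * (RL p hs m2 V l u : ℝ) * o ^ 2

end Pool.Agent.Lib.MP_084b88_gt.QV
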