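import Pool.Agent.Lib.MP_084b88_gt.AY.REB
import Pool.Agent.Lib.MP_084b88_gt.QV.SpecA

/-!
# MP_084b88_gt, project QV: soundness of the checker, second part (one piece)

`V = 384 v`, `X = 384 x`, `x = v + 3 γ²`; `r` has the scale `3 * 10^6 * 384`; the values of a lane are the natural numbers of the
checker.
-/

set_option autoImplicit false

open Finset

namespace Pool.Agent.Lib.MP_084b88_gt.QV

open Pool.Agent.Lib.MP_084b88_gt.CW Pool.Agent.Lib.MP_084b88_gt.SY Pool.Agent.Lib.MP_084b88_gt.LG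
open Pool.Agent.Lib.MP_084b88_gt.AY

/-- A node of the polygon of a piece: `X` goes from `xa` to `xb`, the upper bound of `r` from `ua` to `ub`; `m` the tangent point
of `(X - 288)^2`. -/
structure Nv where
  xa : ℤ
  xb : ℤ
  ua : ℤ
  ub : ℤ
  m : ℤ

/-- The lower line of `R`. -/
def rlo (X : ℤ) : ℤ := 147104 * 384 - 212389 * X

/-- An upper line of `R`. -/
def rup (L : ℤ × ℤ) (X : ℤ) : ℤ := L.2 * 384 - L.1 * X

/-- The upper lines (`bandQ` times `3 * 10^6`). -/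
def lines5 : List (ℤ × ℤ) := [(85700, 84222), (118500, 103422), (178600, 144822), (276300, 224922), (430600, 368322)]

/-- Consecutive nodes. -/
def GPok (D : ℤ) : Nv → List Nv → List (ℤ × ℤ) → Prop
  | _, [], [] => True
  | x, y :: t, L :: ls => x.xa ≤ y.xa ∧ x.xb ≤ y.xb ∧ L ∈ lines5 ∧ rup L x.xa ≤ x.ua ∧ rup L x.xb ≤ x.ub ∧
      rup L y.xa ≤ y.ua ∧ rup L y.xb ≤ y.ub ∧ (y.xa - x.xa) ^ 2 ≤ 4 * D ∧ (y.xb - x.xb) ^ 2 ≤ 4 * D ∧ GPok D y t ls
  | _, _, _ => False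

/-- Linear interpolation. -/
noncomputable def ip (τ : ℝ) (p : ℤ × ℤ) : ℝ := (1 - τ) * (p.1 : ℝ) + τ * (p.2 : ℝ)

/-- The last node. -/
def lastN : Nv → List Nv → Nv
  | x, [] => x
  | _, y :: t => lastN y t

/-- **POL** (150 lines, induction over the nodes). The polygon `{(X, r)}` at a fixed `V`: `X` is between two consecutive nodes, there
`(X, r)` is a convex combination of the four points `(X_i, rlo X_i)`, `(X_i, u_i)` (as `r ≤` the line `L`), and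
`(X - 288)^2 ≥` the same combination of `2 m_i (X_i - 288) - m_i^2 - D` (chord of a square lowered by `(gap)^2/4 ≤ D`). -/
def SpecPOL : Prop :=
  ∀ (D : ℤ) (x0 : Nv) (t : List Nv) (ls : List (ℤ × ℤ)), GPok D x0 t ls → t ≠ [] →
    ∀ τ X r : ℝ, 0 ≤ τ → τ ≤ 1 → ip τ (x0.xa, x0.xb) ≤ X → X ≤ ip τ ((lastN x0 t).xa, (lastN x0 t).xb) →
      147104 * 384 - 212389 * X ≤ r → (∀ L ∈ lines5, r ≤ (L.2 : ℝ) * 384 - (L.1 : ℝ) * X) →
      ∀ α β c κ : ℝ, 0 ≤ κ →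
        (∀ x ∈ x0 :: t,
          0 ≤ α + β * ip τ (x.xa, x.xb) + c * (147104 * 384 - 212389 * ip τ (x.xa, x.xb)) +
            κ * (2 * (x.m : ℝ) * (ip τ (x.xa, x.xb) - 288) - (x.m : ℝ) ^ 2 - (D : ℝ)) ∧
          0 ≤ α + β * ip τ (x.xa, x.xb) + c * ip τ (x.ua, x.ub) +
            κ * (2 * (x.m : ℝ) * (ip τ (x.xa, x.xb) - 288) - (x.m : ℝ) ^ 2 - (D : ℝ))) →
        0 ≤ α + β * X + c * r + κ * (X - 288) ^ 2

/-- Three times the Bernstein coefficients of a product of three linear functions. -/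
def bl3 (p q r : ℤ × ℤ) (k : ℕ) : ℤ :=
  if k = 0 then 3 * (p.1 * q.1 * r.1)
  else if k = 1 then p.2 * q.1 * r.1 + p.1 * q.2 * r.1 + p.1 * q.1 * r.2
  else if k = 2 then p.1 * q.2 * r.2 + p.2 * q.1 * r.2 + p.2 * q.2 * r.1
  else 3 * (p.2 * q.2 * r.2)

/-- A coefficient and three linear functions. -/
abbrev Tm := ℤ × (ℤ × ℤ) × (ℤ × ℤ) × (ℤ × ℤ)

/-- The 23 terms at the vertex `x` (`up`: upper `r`; `om`: upper line of `Ω`) of a piece. -/
def tri (a b D : ℤ) (x : Nv) (up om : Bool) : List Tm :=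
  let v : ℤ × ℤ := (a, b)
  let one : ℤ × ℤ := (1, 1)
  let v1 : ℤ × ℤ := (384 + a, 384 + b)
  let S : ℤ × ℤ := (144000000 - 500000 * x.xa, 144000000 - 500000 * x.xb)
  let r : ℤ × ℤ := if up then (x.ua, x.ub) else (rlo x.xa, rlo x.xb)
  let s : ℤ × ℤ := (S.1 + r.1, S.2 + r.2)
  let u : ℤ × ℤ := (x.xa - a, x.xb - b)
  let h0 : ℤ × ℤ := (b - a, 0)
  let h1 : ℤ × ℤ := (0, b - a)
  let q : ℤ × ℤ := (2 * x.m * (x.xa - 288) - x.m ^ 2 - D, 2 * x.m * (x.xb - 288) - x.m ^ 2 - D)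
  [(9277129359360000000, v, one, one), (-9277129359360000000, v, one, one), (5760000000, v, v, one), (-5760000000, v, v, one),
   (if om then 0 else 8053063680, v, s, one), (if om then 8053063680 else 0, v, s, one), (5, v, v, s), (-5, v, v, s),
   (-8053063680000000, v, u, h0), (-8053063680000000, v, u, h1), (-9277129359360000000, v, h0, one),
   (-9277129359360000000, v, h1, one), (-5242880, v, v1, S), (262144, v, v, S), (-5242880, v, v1, r), (262144, v, v, r),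
   (52428800, v, v1, u), (-2621440, v, v, u), (-60397977600, v, v1, one), (3019898880, v, v, one), (409600, v, v1, q),
   (-20480, v, v, q), (-227994731135631360000000, one, one, one)]

/-- The data behind a piece. -/
structure PV where
  a : ℤ
  b : ℤ
  D : ℤ
  nds : List Nv
  ls : List (ℤ × ℤ)

/-- The vertices. -/
def vxs (l : List Nv) : List (Nv × Bool × Bool) :=
  l.flatMap fun x => [(x, false, false), (x, false, true), (x, true, false), (x, true, true)]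

/-- The slot functions: vertex `s / 4`, Bernstein coefficient `s % 4`. -/
def slt (q : PV) (j s : ℕ) : ℤ :=
  let vx := (vxs q.nds).getD (s / 4) (⟨0, 0, 0, 0, 0⟩, false, false)
  let t := (tri q.a q.b q.D vx.1 vx.2.1 vx.2.2).getD j (0, (0, 0), (0, 0), (0, 0))
  t.1 * bl3 t.2.1 t.2.2.1 t.2.2.2 (s % 4)

/-- Bounds of the 23 lane values. -/
def Dmx : List ℕ := [2 ^ 34, 2 ^ 34, 2 ^ 65, 2 ^ 65, 2 ^ 34, 2 ^ 34, 2 ^ 65, 2 ^ 65, 2 ^ 44, 2 ^ 44, 2 ^ 44, 2 ^ 44,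
  2 ^ 48, 20 * 2 ^ 48, 2 ^ 48, 20 * 2 ^ 48, 100000 * 2 ^ 48, 2000000 * 2 ^ 48, 100000 * 2 ^ 48, 2000000 * 2 ^ 48,
  100000 * 2 ^ 48, 2000000 * 2 ^ 48, 2 ^ 30]

/-- The constant of the slots, `3 f_22 2^25`. -/
def kc0 : ℤ := 3 * 227994731135631360000000 * 2 ^ 25

/-- A correct piece. -/
structure PcOK (c : Pc) (q : PV) : Prop where
  a : (c.a : ℤ) = q.a
  b : (c.b : ℤ) = q.b
  a1 : 192 ≤ c.a
  b1 : c.b ≤ 384
  ab : c.a < c.b
  sq : 1048576 * c.b ≤ c.sq ^ 2 * 384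
  hs : c.hs = (c.b - c.a) * (2 ^ 28 * 1171875)
  ne : ∃ x0 y0 t, q.nds = x0 :: y0 :: t ∧ GPok q.D x0 (y0 :: t) q.ls ∧ x0.xa = q.a ∧ x0.xb = q.b ∧
    (((lastN x0 (y0 :: t)).xa = 3 * q.a - 384 ∧ (lastN x0 (y0 :: t)).xb = 3 * q.b - 384) ∨
      ((lastN x0 (y0 :: t)).xa = 384 ∧ (lastN x0 (y0 :: t)).xb = 384))
  pk : PkOK c (16 * q.nds.length) kc0 ((List.range 23).map (slt q))
  bd : ∀ s < 16 * q.nds.length, (List.zipWith (fun (d : ℕ) (j : ℕ) => (d : ℤ) * |slt q j s|) Dmx (List.range 23)).sum + kc0 <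
    2 ^ 127

/-- The value at a point of the polygon (`Φ/3` times the value), `D` the lane values. -/
noncomputable def FV (D : ℕ → ℝ) (om : Bool) (a b V X r q : ℝ) : ℝ :=
  9277129359360000000 * (D 0 - D 1) * V + 5760000000 * (D 2 - D 3) * V ^ 2 +
  8053063680 * (if om then D 5 else D 4) * V * (144000000 - 500000 * X + r) +
  5 * (D 6 - D 7) * V ^ 2 * (144000000 - 500000 * X + r) -
  8053063680000000 * (D 8 * (b - V) + D 9 * (V - a)) * V * (X - V) -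
  9277129359360000000 * (D 10 * (b - V) + D 11 * (V - a)) * V -
  (5242880 * D 12 * V * (384 + V) - 262144 * D 13 * V ^ 2) * (144000000 - 500000 * X) -
  (5242880 * D 14 * V * (384 + V) - 262144 * D 15 * V ^ 2) * r +
  (52428800 * D 16 * V * (384 + V) - 2621440 * D 17 * V ^ 2) * (X - V) -
  (60397977600 * D 18 * V * (384 + V) - 3019898880 * D 19 * V ^ 2) +
  (409600 * D 20 * V * (384 + V) - 20480 * D 21 * V ^ 2) * q -
  227994731135631360000000 * (D 22 - 2 ^ 25)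

/-- `X`, `r` admissible at `V`. -/
structure Plg (V X r : ℝ) : Prop where
  x1 : V ≤ X
  x2 : X ≤ 384
  x3 : X ≤ 3 * V - 384
  lo : 147104 * 384 - 212389 * X ≤ r
  hi : ∀ L ∈ lines5, r ≤ (L.2 : ℝ) * 384 - (L.1 : ℝ) * X

/-- **LNC** (250 lines, from PAK, POL). All slots are nonnegative (PAK), so `FV ≥ 0` at the vertices for `V ∈ [a, b]` (Bernstein:
`3 Π_i ((1-τ) p_i + τ q_i) = (1-τ)^3 bl3 0 + 3 (1-τ)^2 τ bl3 1 + 3 (1-τ) τ^2 bl3 2 + τ^3 bl3 3`), then POL (`FV` is affine in `(X, r, q)`, the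
coefficient of `q` is nonnegative by `D 21 ≤ 40 D 20`). -/
def SpecLNC : Prop :=
  ∀ (c : Pc) (q : PV), PcOK c q → ∀ ds : List (ℕ → ℕ), ds.length = 23 →
    (∀ j < 23, ∀ l < 8, (ds.getD j (fun _ => 0)) l ≤ Dmx.getD j 0) →
    tst c (dot (ds.map pv) c.T) = true →
    ∀ l < 8, (ds.getD 21 (fun _ => 0)) l ≤ 40 * (ds.getD 20 (fun _ => 0)) l →
      ∀ (om : Bool) (V X r : ℝ), (c.a : ℝ) ≤ V → V ≤ (c.b : ℝ) → Plg V X r →
        0 ≤ FV (fun j => ((ds.getD j (fun _ => 0)) l : ℝ)) om (c.a : ℝ) (c.b : ℝ) V X r ((X - 288) ^ 2)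

/-- Bounds of a line. -/
structure LnB (l : Ln) : Prop where
  g0p : l.g0p ≤ 2 ^ 34
  g0n : l.g0n ≤ 2 ^ 34
  g1p : l.g1p ≤ 2 ^ 28
  g1n : l.g1n ≤ 2 ^ 28
  wl : l.wl ≤ 2 ^ 34
  wu : l.wu ≤ 2 ^ 34
  o1p : l.o1p ≤ 2 ^ 28
  o1n : l.o1n ≤ 2 ^ 28
  nab : l.na ≤ l.nb

/-- Mean over the eight lanes. -/
noncomputable def av (ω : ℕ → ℝ) (f : ℕ → ℝ) : ℝ := ∑ i ∈ range 8, ω i * f i

/-- Lane `i`. -/
def ln (us : List Lan) (i : ℕ) : Lan := us.getD i ⟨0, 0, 0⟩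

/-- The 23 lane values without `P`, `R` of the lane data `us`, `es` (`es`: 11 lane functions) and the line `l`. -/
noncomputable def dv (l : Ln) (us : List Lan) (es : List (ℕ → ℕ)) (i j : ℕ) : ℝ :=
  if j = 0 then l.g0p else if j = 1 then l.g0n else if j = 2 then (l.g1p : ℝ) * (ln us i).n
  else if j = 3 then (l.g1n : ℝ) * (ln us i).n else if j = 4 then l.wl else if j = 5 then l.wu
  else if j = 6 then (l.o1p : ℝ) * (ln us i).n else if j = 7 then (l.o1n : ℝ) * (ln us i).n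
  else if j < 12 then 0 else ((es.getD (j - 12) (fun _ => 0)) i : ℝ)

/-- **PIE** (250 lines, from LNC, VPS). One piece, mean over the lanes. `pie = true` gives for every lane LNC with
`P_e, R_e = PL, RL` at `V = a, b` and VPS at `V = a, b` with `N_e = (1-t) m1 (na - n1 Z_e) + t m2 (nb - n1 Z_e)`; interpolate VPS linearly in
`V ∈ [a, b]` (everything is affine), take the mean over the lanes of both and add `147456/5 V` times the second. `o² ≤ 1` for the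
`R` terms, `1152 γ² = X - V` for the `P` terms. -/
def SpecPIE : Prop :=
  ∀ (c : Pc) (q : PV), PcOK c q → ∀ (p : Pay) (l : Ln) (us : List Lan) (es : List (ℕ → ℕ)) (zb : ℕ), LnB l →
    us.length = 8 → es.length = 11 →
    (∀ i < 8, (ln us i).n ≤ 2 ^ 37 ∧ (ln us i).n * c.b ≤ zb ∧ (ln us i).bw ≤ 2 * (ln us i).aw) →
    (∀ j < 11, ∀ i < 8, (es.getD j (fun _ => 0)) i ≤ Dmx.getD (j + 12) 0) →
    (∀ i < 8, (es.getD 9 (fun _ => 0)) i ≤ 40 * (es.getD 8 (fun _ => 0)) i) →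
    pie p c l us (pv fun i => (ln us i).n) (es.map pv) zb = true →
    ∀ ω : ℕ → ℝ, (∀ i < 8, 0 ≤ ω i) → ∑ i ∈ range 8, ω i = 1 →
    ∀ (om : Bool) (V X r γ o N δ : ℝ), (c.a : ℝ) ≤ V → V ≤ (c.b : ℝ) → Plg V X r → 1152 * γ ^ 2 = X - V → o ^ 2 ≤ 1 →
      (p.m1 : ℝ) * ((l.na : ℝ) - (l.n1 : ℝ) * (av ω (fun i => ((ln us i).n : ℝ)) * V)) ≤ N →
      N ≤ ((p.m2 : ℝ) * (c.sq : ℝ) / 1024) * ((l.nb : ℝ) - (l.n1 : ℝ) * (av ω (fun i => ((ln us i).n : ℝ)) * V)) →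
      |δ| ≤ (l.dl : ℝ) →
      0 ≤ FV (fun j => av ω (fun i => dv l us es i j)) om (c.a : ℝ) (c.b : ℝ) V X r ((X - 288) ^ 2) +
        147456 / 5 * V * (((l.lmp : ℝ) - (l.lmn : ℝ) + ((l.l1p : ℝ) - (l.l1n : ℝ)) * (av ω (fun i => ((ln us i).n : ℝ)) * V) -
            23 * (av ω (fun i => ((ln us i).aw : ℝ)) * (384 + V) - av ω (fun i => ((ln us i).bw : ℝ)) * V) -
            (p.t2 : ℝ) * N + δ) * (γ * o) +
          ((p.t1 : ℝ) * N - (l.e0 : ℝ) -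
            (av ω (fun i => ((ln us i).aw : ℝ)) * (384 + V) - av ω (fun i => ((ln us i).bw : ℝ)) * V)) * o ^ 2 -
          (p.t3 : ℝ) * N * γ ^ 2)

end Pool.Agent.Lib.MP_084b88_gt.QV
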