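import Pool.Agent.Lib.MP_084b88_gt.QV.SpecC

/-!
# MP_084b88_gt, project QV: the table of lines and its check

`OM`, `LA` are the nodes of the design (`Wp OM`, `Wp LA`). `Sg`: a segment (scale `1/1024`) on which `Ω` and `λ` are linear. `Kt`: a
knot. Consecutive knots: chords below `K`, below and above `Ω`, `λ`, `3 * 2^47/z²`. The lines of the rows are checked at the knots.
-/

set_option autoImplicit false

open MeasureTheory Set Real

namespace Pool.Agent.Lib.MP_084b88_gt.QV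

open Pool.Agent.Lib.MP_084b88_gt.CW Pool.Agent.Lib.MP_084b88_gt.SY Pool.Agent.Lib.MP_084b88_gt.LG
open Pool.Agent.Lib.MP_084b88_gt.AY
open Pool.Agent.Lib.MP_084b88_gt.CT (ifle SpecTRG)

/-- A segment `za ≤ 1024 z ≤ zb`; `oa/d, ob/d` and `la/d, lb/d` the values of `Ω` and `λ` at the ends. -/
structure Sg where
  za : ℕ
  zb : ℕ
  d : ℕ
  oa : ℕ
  ob : ℕ
  la : ℤ
  lb : ℤ

/-- A knot `ζ = z` (scale `1/1024`): `(kp - kn)/2^30 ≤ K`, `w/2^30 ≤ Ω ≤ (w+1)/2^30`, `lp - ln ≤ Ψ λ ≤ lp - ln + 1`, `nl`, `nu` bounds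
of `3 * 2^47/z²`, `ee` a bound of `Ψ e` up to the next knot, `s` the integer part of `2^17 √ζ`. -/
structure Kt where
  z : ℕ
  kp : ℕ
  kn : ℕ
  w : ℕ
  lp : ℕ
  ln : ℕ
  nl : ℕ
  nu : ℕ
  ee : ℕ
  s : ℕ

/-- `R` holds for all pairs of consecutive entries. -/
def ChK (R : Kt → Kt → Prop) : List Kt → Prop
  | [] => True
  | a :: l => match l with
    | [] => True
    | b :: _ => R a b ∧ ChK R l

/-- The chord of the values `x`, `x'` at the knots (times the length of the interval), `t = 1024 z`. -/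
noncomputable def chd (k k' : Kt) (x x' t : ℝ) : ℝ := x * ((k'.z : ℝ) - t) + x' * (t - (k.z : ℝ))

/-- Correct pair of consecutive knots. -/
structure PrOK (W L : ℝ → ℝ) (k k' : Kt) : Prop where
  z0 : 0 < k.z
  lt : k.z < k'.z
  g : ∀ z : ℝ, (k.z : ℝ) ≤ 1024 * z → 1024 * z ≤ (k'.z : ℝ) →
    chd k k' ((k.kp : ℝ) - k.kn) ((k'.kp : ℝ) - k'.kn) (1024 * z) ≤ 2 ^ 30 * ((k'.z : ℝ) - k.z) * KZ W L z
  w1 : ∀ z : ℝ, (k.z : ℝ) ≤ 1024 * z → 1024 * z ≤ (k'.z : ℝ) →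
    chd k k' (k.w : ℝ) (k'.w : ℝ) (1024 * z) ≤ 2 ^ 30 * ((k'.z : ℝ) - k.z) * (W (1 / √z) / z)
  w2 : ∀ z : ℝ, (k.z : ℝ) ≤ 1024 * z → 1024 * z ≤ (k'.z : ℝ) →
    2 ^ 30 * ((k'.z : ℝ) - k.z) * (W (1 / √z) / z) ≤ chd k k' ((k.w : ℝ) + 1) ((k'.w : ℝ) + 1) (1024 * z)
  l1 : ∀ z : ℝ, (k.z : ℝ) ≤ 1024 * z → 1024 * z ≤ (k'.z : ℝ) →
    chd k k' ((k.lp : ℝ) - k.ln) ((k'.lp : ℝ) - k'.ln) (1024 * z) ≤
      2 ^ 58 * 1171875 * ((k'.z : ℝ) - k.z) * (L (1 / √z) / z)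
  l2 : ∀ z : ℝ, (k.z : ℝ) ≤ 1024 * z → 1024 * z ≤ (k'.z : ℝ) →
    2 ^ 58 * 1171875 * ((k'.z : ℝ) - k.z) * (L (1 / √z) / z) ≤
      chd k k' ((k.lp : ℝ) - k.ln + 1) ((k'.lp : ℝ) - k'.ln + 1) (1024 * z)
  e : ∀ z : ℝ, (k.z : ℝ) ≤ 1024 * z → 1024 * z ≤ (k'.z : ℝ) →
    2 ^ 58 * 1171875 * (9 / 40 * L (1 / √z) ^ 2 / z) ≤ (k.ee : ℝ)
  n1 : ∀ z : ℝ, (k.z : ℝ) ≤ 1024 * z → 1024 * z ≤ (k'.z : ℝ) →
    chd k k' (k.nl : ℝ) (k'.nl : ℝ) (1024 * z) ≤ ((k'.z : ℝ) - k.z) * (3 * 2 ^ 47 / z ^ 2)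
  n2 : ∀ z : ℝ, (k.z : ℝ) ≤ 1024 * z → 1024 * z ≤ (k'.z : ℝ) →
    ((k'.z : ℝ) - k.z) * (3 * 2 ^ 47 / z ^ 2) ≤ chd k k' (k.nu : ℝ) (k'.nu : ℝ) (1024 * z)

/-! ## The check of the knots (integers)

On `[p, q]`, `p = ζ/1024`, `q = ζ'/1024`, Bernstein coefficients of degree 2 (index 0, 1, 2), scale: `z`: `E/2^11`, `z²`: `F/2^20`. -/

/-- `d (zb - za)`. -/
def Dn (s : Sg) : ℤ := (s.d : ℤ) * ((s.zb : ℤ) - s.za)
/-- `Dn Ω = F0 + F1 ζ`. -/
def F0 (s : Sg) : ℤ := (s.oa : ℤ) * s.zb - (s.ob : ℤ) * s.za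
def F1 (s : Sg) : ℤ := (s.ob : ℤ) - s.oa
/-- `Dn λ = G0 + G1 ζ`. -/
def G0 (s : Sg) : ℤ := s.la * s.zb - s.lb * s.za
def G1 (s : Sg) : ℤ := s.lb - s.la

/-- The value of `K` at a knot. -/
def kv (k : Kt) : ℤ := (k.kp : ℤ) - k.kn

/-- `2^88 (3 s⁴ + 6 s² z - z²)`, `s = a/2^22`; `(3 s⁴ + 6 s² z - z²)/(8 s³) ≤ √z` for `s² ≤ z`. -/
def SSp (a E F : ℤ) : ℤ :=
  3 * (a * a * (a * a)) + 51539607552 * (a * a * E) - 295147905179352825856 * F

/-- `2^88 (15 r⁴ - 10 r² z + 3 z²)`, `r = b/2^22`; `(15 r⁴ - 10 r² z + 3 z²)/(8 r⁵) ≤ 1/√z` for `z ≤ r²`. -/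
def RRp (b E F : ℤ) : ℤ :=
  15 * (b * b * (b * b)) - 85899345920 * (b * b * E) + 885443715538058477568 * F

/-- `om ≥ MMp/QQp` (coefficientwise): `m = (S + R + 2)/4`. -/
def MMp (a b E F : ℤ) : ℤ :=
  SSp a E F * (b * b * (b * b) * b) + 17592186044416 * (RRp b E F * (a * a * a)) +
    67108864 * (a * a * a * (b * b * (b * b) * b))

/-- `2^27 a³ b⁵`. -/
def QQp (a b : ℤ) : ℤ := 134217728 * (a * a * a * (b * b * (b * b) * b))

/-- The five Bernstein coefficients of degree 4 of `m - (g² + τ (g - W)²)`; `T = 10^10 * (common denominator)^2`. -/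
def ck5 (T Q M0 M1 M2 g0 g1 g2 h0 h1 h2 : ℤ) : Bool :=
  decide (Q * (10000000000 * (g0 * g0) + 807592923 * (h0 * h0)) ≤ T * M0) &&
  decide (2 * Q * (10000000000 * (g0 * g1) + 807592923 * (h0 * h1)) ≤ T * (M0 + M1)) &&
  decide (2 * Q * (10000000000 * (g0 * g2 + 2 * (g1 * g1)) + 807592923 * (h0 * h2 + 2 * (h1 * h1))) ≤
    T * (M0 + 4 * M1 + M2)) &&
  decide (2 * Q * (10000000000 * (g1 * g2) + 807592923 * (h1 * h2)) ≤ T * (M1 + M2)) &&
  decide (Q * (10000000000 * (g2 * g2) + 807592923 * (h2 * h2)) ≤ T * M2)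

/-- `TT = 10^11 * 2^41 * Dn`. -/
def TTd (s : Sg) : ℤ := 219902325555200000000000 * Dn s

/-- `TT (1 + rho/10^11 * C/2^41)`, `C/2^41` a coefficient of `z` times the chord. -/
def gcf (s : Sg) (rho C : ℤ) : ℤ := Dn s * (219902325555200000000000 + rho * C)

/-- `TT (g - W)`, `V/(2^11 Dn)` a coefficient of `W = z Ω`; `10^11 * 2^30`. -/
def hcf (s : Sg) (rho C V : ℤ) : ℤ := gcf s rho C - 107374182400000000000 * V

/-- The check for the value `rho/10^11` of `3 π/8`; `a = k.s`, `b = k'.s + 1`. -/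
def ckH (s : Sg) (k k' : Kt) (rho : ℤ) : Bool :=
  ck5 (10000000000 * (TTd s * TTd s)) (QQp k.s (k'.s + 1))
    (MMp k.s (k'.s + 1) (2 * k.z) (k.z * k.z)) (MMp k.s (k'.s + 1) (k.z + k'.z) (k.z * k'.z))
    (MMp k.s (k'.s + 1) (2 * k'.z) (k'.z * k'.z))
    (gcf s rho (2 * k.z * kv k)) (gcf s rho (k.z * kv k' + k'.z * kv k)) (gcf s rho (2 * k'.z * kv k'))
    (hcf s rho (2 * k.z * kv k) (2 * k.z * (F0 s + F1 s * k.z)))
    (hcf s rho (k.z * kv k' + k'.z * kv k) (k.z * (F0 s + F1 s * k'.z) + k'.z * (F0 s + F1 s * k.z)))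
    (hcf s rho (2 * k'.z * kv k') (2 * k'.z * (F0 s + F1 s * k'.z)))

/-- `K`: the check for the two bounds of `3 π/8`. -/
def ckG (s : Sg) (k k' : Kt) : Bool :=
  decide (k.s * k.s ≤ k.z * 17179869184) && decide (k'.z * 17179869184 < (k'.s + 1) * (k'.s + 1)) &&
  decide (0 < k.s) && ckH s k k' 117809724509 && ckH s k k' 117809724510

/-- `Ω`, `λ`, `ν` at a knot (`2^30`, `2^58 * 1171875`, `3 * 2^67`). -/
def ckV (s : Sg) (k : Kt) : Bool :=
  decide (Dn s * k.w ≤ 1073741824 * (F0 s + F1 s * k.z)) && decide (1073741824 * (F0 s + F1 s * k.z) ≤ Dn s * (k.w + 1)) &&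
  decide (Dn s * ((k.lp : ℤ) - k.ln) ≤ 337769972052787200000000 * (G0 s + G1 s * k.z)) &&
  decide (337769972052787200000000 * (G0 s + G1 s * k.z) ≤ Dn s * ((k.lp : ℤ) - k.ln + 1)) &&
  decide (442721857769029238784 ≤ k.nu * (k.z * k.z))

/-- (`2^58 * 1171875 * 9`) `e` at the knot `k` (`x = k` or `x = k'`): `Ψ 9/40 ζ'/1024 λ(x)² ≤ ee`. -/
def ckE (s : Sg) (k k' x : Kt) : Bool :=
  decide (3039929748475084800000000 * (k'.z : ℤ) * ((G0 s + G1 s * x.z) * (G0 s + G1 s * x.z)) ≤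
    40960 * (Dn s * Dn s) * k.ee)

/-- The tangent of `3 * 2^47/z²` at the middle: `nl T³ ≤ 3 * 2^69 (3 T - 4 ζ)`, `T = ζ + ζ'`. -/
def ckN (k k' : Kt) : Bool :=
  decide ((k.nl : ℤ) * (((k.z : ℤ) + k'.z) * (((k.z : ℤ) + k'.z) * ((k.z : ℤ) + k'.z))) ≤
    1770887431076116955136 * (3 * (k'.z : ℤ) - k.z)) &&
  decide ((k'.nl : ℤ) * (((k.z : ℤ) + k'.z) * (((k.z : ℤ) + k'.z) * ((k.z : ℤ) + k'.z))) ≤
    1770887431076116955136 * (3 * (k.z : ℤ) - k'.z))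

/-- The check of a pair of consecutive knots in the segment `s`. -/
def ckR (s : Sg) (k k' : Kt) : Bool :=
  decide (0 < s.za) && decide (0 < s.d) && decide (s.za ≤ k.z) && decide (k.z < k'.z) && decide (k'.z ≤ s.zb) &&
  ckV s k && ckV s k' && ckE s k k' k && ckE s k k' k' && ckN k k' && ckG s k k'

/-- One step along the segments: the segment of the pair `k, k'` is `s0`; the next one starts at its end. -/
def nxt (k' : Kt) : List Sg → List Sg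
  | [] => []
  | s :: ss => match ss with
    | [] => [s]
    | s' :: ss' => if k'.z = s.zb then s' :: ss' else s :: s' :: ss'

/-- The check of the pair with the first segment. -/
def ckF (ss : List Sg) (k k' : Kt) : Bool :=
  match ss with
  | [] => false
  | s :: _ => ckR s k k'

/-- The check of the knots along the segments. -/
def kck : List Kt → List Sg → Bool
  | [], _ => true
  | k :: t, ss => match t with
    | [] => true
    | k' :: _ => ckF ss k k' && kck t (nxt k' ss)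

/-- The segments are segments of the design. -/
def sgk (OM LA : List (ℚ × ℚ)) (s : Sg) : Bool :=
  decide (s.za < s.zb) && decide (0 < s.d) &&
  lnOK OM ((s.za : ℚ) / 1024) ((s.zb : ℚ) / 1024) ((s.oa : ℚ) / s.d) ((s.ob : ℚ) / s.d) &&
  lnOK LA ((s.za : ℚ) / 1024) ((s.zb : ℚ) / 1024) ((s.la : ℚ) / s.d) ((s.lb : ℚ) / s.d)

def sgs (OM LA : List (ℚ × ℚ)) (ss : List Sg) : Bool := Inc OM && Inc LA && ss.all (sgk OM LA)

/-- **KNT** (250 lines, from `CT/KGL.lean`). Correct pairs of knots. `W (1/√z)/z = pwl OM z` (`Wp_z`), `lnOK_sound`; `KZ`: `GV` at `γ = 0`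
is the larger root of `G² + τ (G - W)² = om z` (`W = z Ω`), so `g² + τ (g - W)² ≤ om z → g ≤ GV`; `g = 1 + δ`,
`δ = (rho/10^11) z chord(z)` for the two bounds of `3 π/8` (`KGLM.conv`, `KGLM.rho_bd`, `KGLM.taup_bd`); `om z ≥ (S + R + 2)/4` with
`S = (3 s⁴ + 6 s² z - z²)/(8 s³) ≤ √z` (`w - (3 + 6 w² - w⁴)/8 = (w-1)³(w+3)/8`, `w = √z/s ≥ 1`) and
`R = (15 r⁴ - 10 r² z + 3 z²)/(8 r⁵) ≤ 1/√z` (`1/w - (15 - 10 w² + 3 w⁴)/8 = (1-w)³(8 + 9 w + 3 w²)/(8 w)`, `w = √z/r ≤ 1`);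
`m - (g² + τ (g - W)²)` has degree 4 in `z`, `ck5` are its Bernstein coefficients on `[p, q]` (times `1, 2, 6, 2, 1`). -/
def SpecKNT : Prop :=
  ∀ (OM LA : List (ℚ × ℚ)) (ss : List Sg) (ks : List Kt), sgs OM LA ss = true →
    kck ks ss = true → ChK (PrOK (Wp OM) (Wp LA)) ks

/-! ## The check of the lines (natural numbers) -/

/-- The bounds of a line at a knot; `Z = 2^28 * 384 z = 100663296 ζ`. -/
noncomputable def lck (l : Ln) (k : Kt) : Bool :=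
  andb
    (andb (Nat.ble (Nat.add (Nat.mul 16 (Nat.add l.g0p k.kn)) (Nat.mul l.g1p k.z))
        (Nat.add (Nat.mul 16 (Nat.add l.g0n k.kp)) (Nat.mul l.g1n k.z)))
      (andb (Nat.ble (Nat.add (Nat.mul 16 l.wl) (Nat.mul l.o1p k.z)) (Nat.add (Nat.mul 16 k.w) (Nat.mul l.o1n k.z)))
        (Nat.ble (Nat.add (Nat.mul 16 (Nat.succ k.w)) (Nat.mul l.o1n k.z)) (Nat.add (Nat.mul 16 l.wu) (Nat.mul l.o1p k.z)))))
    (andb
      (andb (Nat.ble (Nat.add (Nat.add (Nat.succ k.lp) l.lmn) (Nat.mul l.l1n (Nat.mul 100663296 k.z)))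
          (Nat.add (Nat.add (Nat.add k.ln l.lmp) l.dl) (Nat.mul l.l1p (Nat.mul 100663296 k.z))))
        (Nat.ble (Nat.add (Nat.add k.ln l.lmp) (Nat.mul l.l1p (Nat.mul 100663296 k.z)))
          (Nat.add (Nat.add (Nat.add k.lp l.lmn) l.dl) (Nat.mul l.l1n (Nat.mul 100663296 k.z)))))
      (andb (Nat.ble l.na (Nat.add k.nl (Nat.mul l.n1 (Nat.mul 100663296 k.z))))
        (Nat.ble (Nat.add k.nu (Nat.mul l.n1 (Nat.mul 100663296 k.z))) l.nb)))

/-- The line holds at all knots up to the first one with `zj ≤ ζ`. -/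
noncomputable def wlk (l : Ln) (ks : List Kt) : Bool :=
  @List.rec Kt (fun _ => Bool) false
    (fun k _ ih => andb (lck l k) (ifle l.zj k.z true (andb (Nat.ble k.ee l.e0) ih))) ks

/-- The bounds `LnB`. -/
noncomputable def lnb (l : Ln) : Bool :=
  andb (andb (andb (Nat.ble l.g0p 17179869184) (Nat.ble l.g0n 17179869184))
      (andb (Nat.ble l.g1p 268435456) (Nat.ble l.g1n 268435456)))
    (andb (andb (Nat.ble l.wl 17179869184) (Nat.ble l.wu 17179869184))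
      (andb (andb (Nat.ble l.o1p 268435456) (Nat.ble l.o1n 268435456)) (Nat.ble l.na l.nb)))

/-- All lines of a row which starts at the first knot `z`. -/
noncomputable def lls (z : ℕ) (ks : List Kt) (ls : List Ln) : Bool :=
  @List.rec Ln (fun _ => Bool) true
    (fun l _ ih => andb (andb (andb (Nat.ble (Nat.succ z) l.zj) (lnb l)) (wlk l ks)) ih) ls

/-- All rows; every row starts at a knot. -/
noncomputable def tck (ks : List Kt) : List Row → Bool :=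
  @List.rec Kt (fun _ => List Row → Bool)
    (fun rs => @List.rec Row (fun _ => Bool) true (fun _ _ _ => false) rs)
    (fun k t ih rs => @List.rec Row (fun _ => Bool) true
      (fun r rs' _ => ifle r.z k.z (andb (Nat.beq r.z k.z) (andb (lls r.z (List.cons k t) r.l) (ih rs'))) (ih (List.cons r rs')))
      rs) ks

/-- **LNS** (200 lines). The lines of the rows are valid. A row `r` starts at a knot `k.z = r.z`; for a line `l` (`r.z < zj`) the walk stops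
at the first knot with `zj ≤ ζ`; a `z` with `r.z ≤ 1024 z ≤ zj` lies between two consecutive knots `k, k'` of the walk with
`k.ee ≤ e0`. Between the knots: `PrOK` and the convex combination of `lck` at the two knots (slopes: `g1/2^24 z = (g1 ζ/16)/2^30`). -/
def SpecLNS : Prop :=
  ∀ (W L : ℝ → ℝ) (ks : List Kt) (rows : List Row), ChK (PrOK W L) ks → tck ks rows = true →
    ∀ r ∈ rows, ∀ l ∈ r.l, LineOK W L r.z l.zj l ∧ LnB l

/-! ## The final theorem for the tables -/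

/-- **TBF** (60 lines, from KNT, LNS, `rt_JQ`; `10000/49 < 205`). -/
def SpecTBF : Prop :=
  ∀ (OM LA : List (ℚ × ℚ)) (cs : List RC) (ss : List Sg) (ks : List Kt) (ps : List Pc) (rows : List Row),
    rtOK OM LA cs = true → sgs OM LA ss = true → kck ks ss = true → tck ks rows = true →
    (∀ r ∈ rows.head?, r.z ≤ 256) → (∀ c ∈ ps, ∃ q, PcOK c q) → ChP ps 192 → TbOK (Wp OM) (Wp LA) ps rows

end Pool.Agent.Lib.MP_084b88_gt.QV
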